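import Pool.Agent.Lib.MP_688fd0_co.SQ5.H95.Layer
import Pool.Agent.Lib.MP_688fd0_co.SQ5.H22.Real

/-!
OFHF: a 2-factor `F'` which agrees with `F` outside of a region gives a path family of the region; diagrams of helper22.
-/

set_option autoImplicit false

namespace Pool.Agent.Lib.MP_688fd0_co.SQ5.H95

open Function Pool.Agent.Lib.MP_688fd0_co.OSF Pool.Agent.Lib.MP_688fd0_co.SQ2 Pool.Agent.Lib.MP_688fd0_co.SQ3 H64

universe u v w t

variable {Q : Type u} [Group Q] {B : Lb.{u, v} Q}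

namespace HF

/-- The edges of a 2-factor. -/
def Ed (F : HF B) (x y : Q) : Prop := ∃ g ∈ F.H x, y = x * B.q g

theorem ed_symm (F : HF B) {x y : Q} (h : F.Ed x y) : F.Ed y x := by
  obtain ⟨g, hg, rfl⟩ := h
  exact ⟨B.inv g, F.sym _ _ hg, by rw [B.q_inv, mul_inv_cancel_right]⟩

theorem c_of_cn (F : HF B) {Rg : Set Q} {x y : Q} (h : H22.Cn F.Ed Rg x y) : F.C x y := by
  induction h with
  | refl => exact Relation.ReflTransGen.refl
  | tail _ hs ih => exact ih.tail hs.1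

theorem ot_stp (F : HF B) (d : F.X) : F.ot (F.stp d) = F.pr d := F.ot_ot _

/-- A port connected with another port through the region is its partner. -/
theorem O_of_con [Finite Q] (F : HF B) {Rg : Set Q} {p p' : F.E (fun x => x ∉ Rg)} (hne : p' ≠ p)
    (h : H22.Cn F.Ed Rg (F.vt p.1) (F.vt p'.1)) : F.O p = p' := by
  have hit := F.len_spec p
  set n := F.len p with hn
  have hin : ∀ j ≤ n, F.vt (F.stp^[j] (F.ot p.1)) ∈ Rg := fun j hj => by
    have := F.vt_out (W := fun x => x ∉ Rg) (e := F.ot p.1) p.2.1 hit.2 j hj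
    exact not_not.1 this
  have key : ∀ y, H22.Cn F.Ed Rg (F.vt p.1) y → ∃ j, j ≤ n ∧ F.vt (F.stp^[j] (F.ot p.1)) = y := by
    intro y hy
    induction hy with
    | refl => exact ⟨0, Nat.zero_le _, rfl⟩
    | @tail b c _ hs ih =>
      obtain ⟨j, hj, hb⟩ := ih
      obtain ⟨⟨g, hg, rfl⟩, -, hc⟩ := hs
      rcases F.two_darts (d := F.stp^[j] (F.ot p.1)) (d' := ⟨(b, g), hg⟩) hb.symm with h1 | h1
      · -- forward
        have hlt : j < n := by
          rcases Nat.lt_or_ge j n with h2 | h2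
          · exact h2
          · exfalso
            have e : j = n := le_antisymm hj h2
            rcases hit.1 with h3 | h3
            · exact h3 (hin n le_rfl)
            · rw [← e, ← h1] at h3
              exact h3 hc
        refine ⟨j + 1, hlt, ?_⟩
        rw [Function.iterate_succ_apply', ← h1]
        rfl
      · -- backward
        rcases Nat.eq_zero_or_pos j with h0 | h0
        · exfalso
          subst h0
          have h2 : (⟨(b, g), hg⟩ : F.X) = p.1 := by rw [h1]; exact F.ot_ot p.1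
          have h3 : F.vt (F.pr p.1) ∉ Rg := p.2.2
          rw [← h2] at h3
          exact h3 hc
        · obtain ⟨i, rfl⟩ : ∃ i, j = i + 1 := ⟨j - 1, by omega⟩
          refine ⟨i, by omega, ?_⟩
          rw [Function.iterate_succ_apply', F.ot_stp] at h1
          have h2 : F.vt (F.pr ⟨(b, g), hg⟩) = F.vt (F.stp^[i] (F.ot p.1)) := by rw [h1, F.pr_pr]
          exact h2.symm
  obtain ⟨j, hj, hv⟩ := key _ h
  have hp' : F.In (fun x => x ∉ Rg) p'.1 := Or.inr p'.2.2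
  rcases F.two_darts (d := F.stp^[j] (F.ot p.1)) (d' := p'.1) hv.symm with h1 | h1
  · have hjn : j = n := by
      rcases Nat.lt_or_ge j n with h2 | h2
      · exact absurd (by rw [← h1]; exact hp') (hit.2 j h2)
      · exact le_antisymm hj h2
    refine Subtype.ext ?_
    show F.stp^[n] (F.ot p.1) = p'.1
    rw [← hjn, h1]
  · exfalso
    rcases Nat.eq_zero_or_pos j with h0 | h0
    · subst h0
      exact hne (Subtype.ext (h1.trans (F.ot_ot p.1)))
    · obtain ⟨i, rfl⟩ : ∃ i, j = i + 1 := ⟨j - 1, by omega⟩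
      rw [Function.iterate_succ_apply', F.ot_stp] at h1
      rw [h1, F.in_pr] at hp'
      exact hit.2 i (by omega) hp'

end HF

/-- The path family of a region, from a 2-factor `F'` which agrees with `F` outside. -/
theorem pfam_of_hf [Finite Q] [DecidableEq Q] (F F' : HF B) (Z : Finset Q) {P : Type t} [Fintype P] (pd : P → F.X)
    (hinj : Injective pd) (h1 : ∀ p, F.vt (pd p) ∉ Z) (h2 : ∀ p, F.vt (F.pr (pd p)) ∈ Z)
    (hex : ∀ d : F.X, F.vt d ∉ Z → F.vt (F.pr d) ∈ Z → ∃ p, pd p = d) (hag : ∀ x, x ∉ Z → F'.H x = F.H x)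
    (hall : ∀ x ∈ Z, ∃ y, y ∉ Z ∧ F'.C x y) {δ : P → P} (hδ : ∀ p, δ p ≠ p)
    (hcon : ∀ p, H22.Cn F'.Ed (Z : Set Q) (F.vt (F.pr (pd p))) (F.vt (F.pr (pd (δ p))))) (A : Set Q)
    (hA : ∀ x ∈ Z, ∀ g ∈ F'.H x, B.q g ∈ A) (hA' : ∀ p, B.q (pd p).1.2 ∈ A) :
    ∃ X : PFam B (fun p => F.vt (pd p)) δ Z, ∀ e, ∀ g ∈ X.inn e, B.q g ∈ A := by
  classical
  have hFQ : Fintype Q := Fintype.ofFinite Q
  let W : Q → Prop := fun x => x ∉ (Z : Set Q)
  have hX : Finite F'.X := inferInstance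
  have hE : Fintype (F'.E W) := Fintype.ofFinite _
  have mem' : ∀ p, B.inv (pd p).1.2 ∈ F'.H (F.vt (pd p) * B.q (pd p).1.2) := fun p =>
    F'.sym _ _ (by rw [hag _ (h1 p)]; exact (pd p).2)
  let ψ : P → F'.E W := fun p => ⟨⟨(F.vt (pd p) * B.q (pd p).1.2, B.inv (pd p).1.2), mem' p⟩, by
    refine ⟨?_, ?_⟩
    · show ¬ ¬ (F.vt (pd p) * B.q (pd p).1.2 ∈ (Z : Set Q))
      exact not_not.2 (h2 p)
    · show F.vt (pd p) * B.q (pd p).1.2 * B.q (B.inv (pd p).1.2) ∉ (Z : Set Q)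
      rw [B.q_inv, mul_inv_cancel_right]
      exact h1 p⟩
  have ψv : ∀ p, F'.vt (ψ p).1 = F.vt (F.pr (pd p)) := fun p => rfl
  have ψinj : Injective ψ := by
    intro p p' h
    apply hinj
    have h3 : (F.pr (pd p)).1 = (F.pr (pd p')).1 := congrArg (fun e : F'.E W => e.1.1) h
    rw [← F.pr_pr (pd p), ← F.pr_pr (pd p')]
    exact congrArg F.pr (Subtype.ext h3)
  have ψsur : Surjective ψ := by
    rintro ⟨⟨⟨x, g⟩, hg⟩, hp1, hp2⟩
    have hx : x ∈ Z := not_not.1 hp1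
    have hy : x * B.q g ∉ Z := hp2
    have hg' : B.inv g ∈ F.H (x * B.q g) := by rw [← hag _ hy]; exact F'.sym _ _ hg
    obtain ⟨p, hp⟩ := hex ⟨(x * B.q g, B.inv g), hg'⟩ hy (by
      show x * B.q g * B.q (B.inv g) ∈ Z
      rw [B.q_inv, mul_inv_cancel_right]; exact hx)
    refine ⟨p, Subtype.ext (Subtype.ext ?_)⟩
    show (F.vt (pd p) * B.q (pd p).1.2, B.inv (pd p).1.2) = (x, g)
    rw [hp]
    show (x * B.q g * B.q (B.inv g), B.inv (B.inv g)) = (x, g)
    rw [B.q_inv, mul_inv_cancel_right, F.ii]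
  let Ψ : P ≃ F'.E W := Equiv.ofBijective ψ ⟨ψinj, ψsur⟩
  have hO : ∀ p, F'.O (ψ p) = ψ (δ p) := fun p =>
    F'.O_of_con (fun h => hδ p (ψinj h)) (hcon p)
  have hY : ∀ x, x ∈ Z ↔ ¬ W x := fun x => by
    show x ∈ Z ↔ ¬ ¬ (x ∈ (Z : Set Q))
    rw [not_not]
    rfl
  have hcomp : ∀ x, ¬ W x → ∃ y, W y ∧ F'.C x y := fun x hx => by
    obtain ⟨y, hy, hc⟩ := hall x (not_not.1 hx)
    exact ⟨y, hy, hc⟩
  let N := F'.net Z hY hcomp
  have npt : ∀ p, N.pt (ψ p) = F.vt (F.pr (pd p)) := fun p => rfl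
  have nO : ∀ p, N.O (ψ p) = ψ (δ p) := hO
  -- the last step
  have hlast : ∀ p, B.q (B.inv (pd (δ p)).1.2) = (B.q (pd (δ p)).1.2)⁻¹ := fun p => B.q_inv _
  have hfinN : ∀ p, B.fin (F.vt (pd p) * B.q (pd p).1.2) (N.out (ψ p)) = F.vt (pd (δ p)) * B.q (pd (δ p)).1.2 := by
    intro p
    have := N.fin_out (ψ p)
    rw [nO] at this
    exact this
  have hitr : ∀ p, (itr B (F.vt (pd p)) ((pd p).1.2 :: (N.out (ψ p) ++ [B.inv (pd (δ p)).1.2])) : Multiset Q) =
      (B.verts (N.pt (ψ p)) (N.out (ψ p)) : Multiset Q) := by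
    intro p
    show (src B (F.vt (pd p) * B.q (pd p).1.2) (N.out (ψ p) ++ [B.inv (pd (δ p)).1.2]) : Multiset Q) = _
    rw [src_append, verts_eq]
    rfl
  refine ⟨⟨fun p => (pd p).1.2 :: (N.out (ψ p) ++ [B.inv (pd (δ p)).1.2]), ?_, ?_, ?_, ?_⟩, ?_⟩
  · intro p; exact List.cons_ne_nil _ _
  · intro p
    show B.fin (F.vt (pd p) * B.q (pd p).1.2) (N.out (ψ p) ++ [B.inv (pd (δ p)).1.2]) = F.vt (pd (δ p))
    rw [fin_append, hfinN]
    show F.vt (pd (δ p)) * B.q (pd (δ p)).1.2 * B.q (B.inv (pd (δ p)).1.2) = F.vt (pd (δ p))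
    rw [hlast, mul_inv_cancel_right]
  · intro p
    show (itr B (F.vt (pd (δ p))) ((pd (δ p)).1.2 :: (N.out (ψ (δ p)) ++ [B.inv (pd (δ (δ p))).1.2])) : Multiset Q) =
      (itr B (F.vt (pd p)) ((pd p).1.2 :: (N.out (ψ p) ++ [B.inv (pd (δ p)).1.2])) : Multiset Q)
    rw [hitr, hitr]
    have h3 := N.rev_out (ψ p)
    rw [nO] at h3
    exact h3
  · show ∑ p, (itr B (F.vt (pd p)) ((pd p).1.2 :: (N.out (ψ p) ++ [B.inv (pd (δ p)).1.2])) : Multiset Q) = 2 • Z.val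
    rw [Finset.sum_congr rfl fun p _ => hitr p]
    have h4 : ∑ p, (B.verts (N.pt (ψ p)) (N.out (ψ p)) : Multiset Q) =
        ∑ e, (B.verts (N.pt e) (N.out e) : Multiset Q) := Fintype.sum_equiv Ψ _ _ fun p => rfl
    exact h4.trans N.cov
  · intro p g hg
    have hg' : g ∈ (pd p).1.2 :: (N.out (ψ p) ++ [B.inv (pd (δ p)).1.2]) := hg
    rw [List.mem_cons, List.mem_append, List.mem_singleton] at hg'
    rcases hg' with rfl | hg' | rfl
    · exact hA' p
    · obtain ⟨j, hj, rfl⟩ := F'.mem_wl hg'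
      have hv : F'.vt (F'.stp^[j] (F'.ot (ψ p).1)) ∈ Z := by
        have := F'.vt_out (W := W) (e := F'.ot (ψ p).1) (ψ p).2.1 (F'.len_spec (ψ p)).2 j hj.le
        exact not_not.1 this
      exact hA _ hv _ (F'.stp^[j] (F'.ot (ψ p).1)).2
    · exact hA _ (h2 (δ p)) _ (mem' (δ p))

/-- From helper22's diagrams. -/
theorem pfam_of_real [Finite Q] [DecidableEq Q] (F F' : HF B) (Z : Finset Q) {S : Type t} [Fintype S]
    (pd : S × Bool → F.X) (hinj : Injective pd) (h1 : ∀ p, F.vt (pd p) ∉ Z) (lo up : S → Q)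
    (h2 : ∀ p, F.vt (F.pr (pd p)) = H22.pt lo up p)
    (hex : ∀ d : F.X, F.vt d ∉ Z → F.vt (F.pr d) ∈ Z → ∃ p, pd p = d) (hag : ∀ x, x ∉ Z → F'.H x = F.H x)
    {δ : S × Bool → S × Bool} (hδ : IsPair δ) (hr : H22.Real F'.Ed (Z : Set Q) lo up δ) (A : Set Q)
    (hA : ∀ x ∈ Z, ∀ g ∈ F'.H x, B.q g ∈ A) (hA' : ∀ p, B.q (pd p).1.2 ∈ A) :
    ∃ X : PFam B (fun p => F.vt (pd p)) δ Z, ∀ e, ∀ g ∈ X.inn e, B.q g ∈ A := by
  have hmem : ∀ p, H22.pt lo up p ∈ Z := by
    rintro ⟨s, _ | _⟩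
    · rw [H22.pt_lo]; exact hr.mlo s
    · rw [H22.pt_up]; exact hr.mup s
  refine pfam_of_hf F F' Z pd hinj h1 (fun p => by rw [h2]; exact hmem p) hex hag ?_ hδ.2 ?_ A hA hA'
  · intro x hx
    obtain ⟨p, hp⟩ := hr.all x hx
    refine ⟨F.vt (pd p), h1 p, (F'.c_of_cn hp).tail ?_⟩
    have hm : B.inv (pd p).1.2 ∈ F'.H (F.vt (pd p) * B.q (pd p).1.2) :=
      F'.sym _ _ (by rw [hag _ (h1 p)]; exact (pd p).2)
    refine ⟨B.inv (pd p).1.2, ?_, ?_⟩
    · rw [← h2]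
      exact hm
    · rw [← h2]
      show F.vt (pd p) = F.vt (pd p) * B.q (pd p).1.2 * B.q (B.inv (pd p).1.2)
      rw [B.q_inv, mul_inv_cancel_right]
  · intro p
    rw [h2, h2]
    exact hr.con p

/-! ### 2-factors from matchings -/

/-- Three labels which are involutions, and the complement `m` of the 2-factor: `{l₀, l₁, l₂} \ {m x}`. -/
def HF.ofM {I : Type*} (l : I → B.L) (hl : Injective l) (hi : ∀ i, B.inv (l i) = l i) (hii : ∀ g, B.inv (B.inv g) = g)
    (i₀ i₁ i₂ : I) (h01 : i₀ ≠ i₁) (h02 : i₀ ≠ i₂) (h12 : i₁ ≠ i₂) (hI : ∀ i, i = i₀ ∨ i = i₁ ∨ i = i₂)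
    (m : Q → I) (hm : ∀ x, m (x * B.q (l (m x))) = m x) : HF B where
  H x := {g | ∃ i, i ≠ m x ∧ g = l i}
  ex x := by
    rcases hI (m x) with h | h | h
    · refine ⟨l i₁, l i₂, fun h' => h12 (hl h'), fun g => ⟨?_, ?_⟩⟩
      · rintro ⟨i, hi', rfl⟩
        rcases hI i with rfl | rfl | rfl
        · exact absurd h.symm hi'
        · exact Or.inl rfl
        · exact Or.inr rfl
      · rintro (rfl | rfl)
        · exact ⟨i₁, by rw [h]; exact h01.symm, rfl⟩
        · exact ⟨i₂, by rw [h]; exact h02.symm, rfl⟩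
    · refine ⟨l i₀, l i₂, fun h' => h02 (hl h'), fun g => ⟨?_, ?_⟩⟩
      · rintro ⟨i, hi', rfl⟩
        rcases hI i with rfl | rfl | rfl
        · exact Or.inl rfl
        · exact absurd h.symm hi'
        · exact Or.inr rfl
      · rintro (rfl | rfl)
        · exact ⟨i₀, by rw [h]; exact h01, rfl⟩
        · exact ⟨i₂, by rw [h]; exact h12.symm, rfl⟩
    · refine ⟨l i₀, l i₁, fun h' => h01 (hl h'), fun g => ⟨?_, ?_⟩⟩
      · rintro ⟨i, hi', rfl⟩
        rcases hI i with rfl | rfl | rfl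
        · exact Or.inl rfl
        · exact Or.inr rfl
        · exact absurd h.symm hi'
      · rintro (rfl | rfl)
        · exact ⟨i₀, by rw [h]; exact h02, rfl⟩
        · exact ⟨i₁, by rw [h]; exact h12, rfl⟩
  sym x g := by
    rintro ⟨i, hi', rfl⟩
    refine ⟨i, fun h => hi' ?_, hi i⟩
    have h3 := hm (x * B.q (l i))
    rw [← h] at h3
    have h4 : x * B.q (l i) * B.q (l i) = x := by
      have h5 := B.q_inv (l i)
      rw [hi] at h5
      nth_rewrite 2 [h5]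
      exact mul_inv_cancel_right _ _
    rw [h4] at h3
    exact h3.symm
  ii := hii

/-- Patch: inside of `Z` the 2-factor `F'`, outside `F`; they agree on the edges that leave `Z`. -/
def HF.patch (F F' : HF B) (Z : Set Q) [DecidablePred (· ∈ Z)]
    (h : ∀ x ∈ Z, ∀ g, x * B.q g ∉ Z → (g ∈ F'.H x ↔ g ∈ F.H x)) : HF B where
  H x := if x ∈ Z then F'.H x else F.H x
  ex x := by
    by_cases hx : x ∈ Z
    · simp only [if_pos hx]; exact F'.ex x
    · simp only [if_neg hx]; exact F.ex x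
  sym x g hg := by
    by_cases hx : x ∈ Z
    · rw [if_pos hx] at hg
      by_cases hy : x * B.q g ∈ Z
      · rw [if_pos hy]; exact F'.sym _ _ hg
      · rw [if_neg hy]
        exact F.sym _ _ ((h x hx g hy).1 hg)
    · rw [if_neg hx] at hg
      by_cases hy : x * B.q g ∈ Z
      · rw [if_pos hy]
        refine (h _ hy _ ?_).2 (F.sym _ _ hg)
        rw [B.q_inv, mul_inv_cancel_right]
        exact hx
      · rw [if_neg hy]; exact F.sym _ _ hg
  ii := F.ii

end Pool.Agent.Lib.MP_688fd0_co.SQ5.H95
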