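import Pool.Agent.Lib.MP_688fd0_co.SQ5.H95.RunsF
import Pool.Agent.Lib.MP_688fd0_co.SQ5.H20.Rung
import Pool.Agent.Lib.MP_688fd0_co.SQ5.H24.LayB

/-!
FARB: the rung graph `LamV` of the active strands, the size of the runs, uniform numbers: `lst_of_rows`; the main group of
design B'.
-/

set_option autoImplicit false

namespace Pool.Agent.Lib.MP_688fd0_co.SQ5.H95

open Function Pool.Agent.Lib.MP_688fd0_co.OSF H64 H76
open Pool.Agent.Lib.MP_688fd0_co.SQ3 Pool.Agent.Lib.MP_688fd0_co.SQ5.H58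

universe u v

section

variable {L : AddSubgroup (ℤ × ℤ)} {M R : ℕ} {dc : ℕ → ℤ} {spc : ℕ → Prop} {Gr : ℤ} {g : Geo L M R dc spc Gr} {m0 : ℕ}
  {hw : ℤ → ℕ} (H : Geo.Mn g m0 hw)

variable {Q : Type u} [Group Q] {B : Lb.{u, v} Q} {l : L3 → B.L} (c : Cov B l L)

/-- The rung graph of the active strands. -/
noncomputable def LamV (κ0 κ1 v0 v1 : ℤ) (z : Zr g) : SimpleGraph (VV c H κ0 κ1 v0 v1 z) :=
  (H20.Lam c (H.bd z) (g.rs z) κ0 κ1 v0 v1).comap Subtype.val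

theorem LamV_adj {κ0 κ1 v0 v1 : ℤ} {z : Zr g} {s s' : VV c H κ0 κ1 v0 v1 z} :
    (LamV H c κ0 κ1 v0 v1 z).Adj s s' ↔ ∃ m : ℤ, H20.Rung m s.1 s'.1 ∨ H20.Rung m s'.1 s.1 :=
  ⟨fun h => h.2.2, fun h => ⟨s.2, s'.2, h⟩⟩

end

section card

variable {Q : Type} [Group Q] [Finite Q] {eps : Q →* ℤˣ} {x : Fin 3 → Q} (Hx : Inv3 eps x)
  {B : Lb.{0, v} Q} {l : L3 → B.L} {t a b : Fin 3} (hta : t ≠ a) (htb : t ≠ b) (hab : a ≠ b) (ht : B.q (l .t) = x t)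
  (ha : B.q (l .a) = x a) (hb : B.q (l .b) = x b)

omit [Finite Q] in
/-- Two elements over one white site. -/
theorem over_K0 {y y' : Q} {i j : ℤ} (h : (Hx.co hta htb hab ht ha hb).cov.Over y (true, i, j))
    (h' : (Hx.co hta htb hab ht ha hb).cov.Over y' (true, i, j)) : y⁻¹ * y' ∈ K0 eps := by
  have e1 := eps_of_over Hx hta htb hab ht ha hb h
  have e2 := eps_of_over Hx hta htb hab ht ha hb h'
  have e3 : eps y⁻¹ = 1 := by rw [map_inv, e1, inv_one]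
  rw [mem_K0]
  refine ⟨by rw [map_mul, e3, e2, mul_one], ?_⟩
  rw [ct_mul e3 e2, ct_inv e1, ct_of_over Hx hta htb hab ht ha hb h, ct_of_over Hx hta htb hab ht ha hb h', neg_add_cancel]

variable {M R : ℕ} {dc : ℕ → ℤ} {spc : ℕ → Prop} {Gr : ℤ}
  {g : Geo (Ltc (ct eps (x a * x t)) (ct eps (x b * x t))) M R dc spc Gr} {m0 : ℕ} {hw : ℤ → ℕ} (H : Geo.Mn g m0 hw)

/-- The number of the active strands. -/
theorem card_VV (κ0 κ1 v0 v1 : ℤ) (z : Zr g) : Nat.card (VV (Hx.co hta htb hab ht ha hb).cov H κ0 κ1 v0 v1 z) ≤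
    (v1 + 1 - v0).toNat * Nat.card (K0 eps) := by
  classical
  have hex : ∀ κ : ℤ, ∃ y : Q, (Hx.co hta htb hab ht ha hb).cov.Over y ((H.bd z).st κ (g.rs z) 0) := by
    intro κ
    obtain ⟨i, j, hs⟩ := (H.bd z).st_zero κ (g.rs z)
    rw [hs]
    exact exists_over Hx hta htb hab ht ha hb i j
  choose f hf using hex
  let F : VV (Hx.co hta htb hab ht ha hb).cov H κ0 κ1 v0 v1 z → Finset.Icc v0 v1 × K0 eps := fun s =>
    (⟨s.1.1.1, Finset.mem_Icc.2 s.2⟩, ⟨(f s.1.1.1)⁻¹ * s.1.1.2, by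
      obtain ⟨i, j, hs⟩ := (H.bd z).st_zero s.1.1.1 (g.rs z)
      have h1 := hf s.1.1.1
      have h2 := s.1.2.2.2
      rw [hs] at h1 h2
      exact over_K0 Hx hta htb hab ht ha hb h1 h2⟩)
  have hF : Injective F := by
    intro s s' h
    have h1 : s.1.1.1 = s'.1.1.1 := congrArg (fun p => (p.1 : ℤ)) h
    have h2 : (f s.1.1.1)⁻¹ * s.1.1.2 = (f s'.1.1.1)⁻¹ * s'.1.1.2 := congrArg (fun p => (p.2 : Q)) h
    rw [h1] at h2
    exact Subtype.ext (Subtype.ext (Prod.ext h1 (mul_left_cancel h2)))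
  refine (Nat.card_le_card_of_injective F hF).trans ?_
  rw [Nat.card_prod, Nat.card_eq_fintype_card, Fintype.card_coe, Int.card_Icc]

end card

section fin

variable {Q : Type} [Group Q] [Fintype Q] {N C : Subgroup Q} {eps : Q →* ℤˣ} {k P : ℕ} {x : Fin 3 → Q} (Hx : Inv3 eps x)
  {B : Lb.{0, v} Q} {l : L3 → B.L} {t a b : Fin 3} (hta : t ≠ a) (htb : t ≠ b) (hab : a ≠ b) (ht : B.q (l .t) = x t)
  (ha : B.q (l .a) = x a) (hb : B.q (l .b) = x b)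

/-- FAR CORE for run charts, the rung graph of helper20, uniform numbers. -/
theorem lst_of_rows {cS : ℕ} (hS : Star4S cS) {A : Set Q} (hcl : Subgroup.closure A = ⊤) (hA : ∀ i, B.q (l i) ∈ A)
    (gn : GN N C eps k P) (hi : ∀ i, B.inv (l i) = l i) (hq : Injective (qq B l))
    (hii : ∀ x, B.inv (B.inv x) = x) {e : ℕ} (he : k * Nat.card C ∣ e) (he0 : 1 ≤ e)
    {M R : ℕ} {dc : ℕ → ℤ} {spc : ℕ → Prop} {Gr : ℤ}
    {g : Geo (Ltc (ct eps (x a * x t)) (ct eps (x b * x t))) M R dc spc Gr} {m0 : ℕ} {hw : ℤ → ℕ}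
    (H : Geo.Mn g m0 hw) {κ0 κ1 v0 v1 : ℤ} (h0 : 2 ≤ κ0) (h1 : κ1 ≤ m0) (hp : 2 ≤ 8 * e)
    (hN : ∀ z : Zr g, 8 * e ≤ g.rE z)
    (hc : H66.Chg g) (hG : 64 ≤ Gr) (hdl : ∀ k, k + 1 < R → spc k → g.dl k + 20 ≤ Gr)
    (hsea : ∀ K : ℤ, K % R = R - 1 → ∀ s, (g.P K s - g.P (K + 1) s) % 8 = 0 ∨ (g.P K s - g.P (K + 1) s) % 8 = 3)
    {c1 c2 : ℕ} (hc1 : c1 ≤ c2) (hc2 : c2 < m0) (hk0 : κ0 ≤ c1 + 1) (hk1 : (c2 : ℤ) + 1 ≤ κ1)
    (hv0 : v0 ≤ c1 + 1) (hv1 : (c2 : ℤ) + 1 ≤ v1) {mm K : ℕ} (hmm : 0 < mm)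
    (hK : (v1 + 1 - v0).toNat * Nat.card (K0 eps) ≤ K)
    (hnum : ∀ z : Zr g, K * ((cS * K ^ 2 + 1) * mm) * (8 * e) ≤ g.rE z)
    (hiso : ∀ z x, ∃ y, (LamV H (Hx.co hta htb hab ht ha hb).cov κ0 κ1 v0 v1 z).Adj x y)
    (h4 : ∀ z x y, (LamV H (Hx.co hta htb hab ht ha hb).cov κ0 κ1 v0 v1 z).Adj x y →
      Four (LamV H (Hx.co hta htb hab ht ha hb).cov κ0 κ1 v0 v1 z) x ∨
        Four (LamV H (Hx.co hta htb hab ht ha hb).cov κ0 κ1 v0 v1 z) y)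
    [∀ z : Zr g, DecidableEq (SS (Hx.co hta htb hab ht ha hb).cov H κ0 κ1 z)]
    (hp3 : ∀ z (x y y' : VV (Hx.co hta htb hab ht ha hb).cov H κ0 κ1 v0 v1 z),
      (LamV H (Hx.co hta htb hab ht ha hb).cov κ0 κ1 v0 v1 z).Adj x y →
      (LamV H (Hx.co hta htb hab ht ha hb).cov κ0 κ1 v0 v1 z).Adj x y' → y ≠ y' →
      StkT ((inst H (Hx.co hta htb hab ht ha hb).cov hi hq hii κ0 κ1 h0 h1 (8 * e) hp hN).D0 A z) mm
        (p3 x.1 y.1 y'.1))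
    (r₀ : Σ z, Rgs.KC (VV (Hx.co hta htb hab ht ha hb).cov H κ0 κ1 v0 v1)
      (LamV H (Hx.co hta htb hab ht ha hb).cov κ0 κ1 v0 v1) z)
    (hconn : ∀ r, Relation.ReflTransGen
      ((inst H (Hx.co hta htb hab ht ha hb).cov hi hq hii κ0 κ1 h0 h1 (8 * e) hp hN).RAdj
        (VV (Hx.co hta htb hab ht ha hb).cov H κ0 κ1 v0 v1)
        (Rgs.cpC (VV (Hx.co hta htb hab ht ha hb).cov H κ0 κ1 v0 v1)
          (LamV H (Hx.co hta htb hab ht ha hb).cov κ0 κ1 v0 v1))) r₀ r) : Lst A := by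
  classical
  have hKV : ∀ z : Zr g, Nat.card (VV (Hx.co hta htb hab ht ha hb).cov H κ0 κ1 v0 v1 z) ≤ K := fun z =>
    (card_VV Hx hta htb hab ht ha hb H κ0 κ1 v0 v1 z).trans hK
  have hKC : ∀ z : Zr g, Nat.card ((LamV H (Hx.co hta htb hab ht ha hb).cov κ0 κ1 v0 v1 z).ConnectedComponent) ≤ K :=
    fun z => (Nat.card_le_card_of_surjective _ Quot.mk_surjective).trans (hKV z)
  refine lst_of_runs Hx hta htb hab ht ha hb hS hcl hA gn hi hq hii he he0 H h0 h1 hp hN hc hG hdl hsea hc1 hc2 hk0 hk1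
    hv0 hv1 (LamV H (Hx.co hta htb hab ht ha hb).cov κ0 κ1 v0 v1) (fun _ => (cS * K ^ 2 + 1) * mm) (fun _ => mm) ?_
    (fun _ => hmm) ?_ hiso h4 hp3 r₀ hconn
  · intro z
    rw [Nat.le_div_iff_mul_le (by omega)]
    exact (Nat.mul_le_mul_right _ (Nat.mul_le_mul_right _ (hKC z))).trans (hnum z)
  · intro z
    refine Nat.mul_le_mul_right _ (Nat.add_le_add_right (Nat.mul_le_mul_left _ (Nat.pow_le_pow_left (hKV z) 2)) 1)

end fin

/-! ### The main group of design B' -/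

section mnB

open H24

/-- Half widths of the main group `4 ^ r, 6, 4 ^ (w - 1), 6, 4 ^ r`. -/
def hwB (r w : ℕ) (K : ℤ) : ℕ := if K = r ∨ K = r + w then 3 else 2

theorem hwB_pos (r w : ℕ) (K : ℤ) : 1 ≤ hwB r w K := by
  unfold hwB
  split_ifs <;> norm_num

theorem mnB {L : AddSubgroup (ℤ × ℤ)} {M R r w : ℕ} {Gr : ℤ} (hR : 2 * r + w + 6 ≤ R)
    (g : Geo L M R (dcL (2 * r + w + 1) (dB r w)) (spL (2 * r + w + 1)) Gr) : Geo.Mn g (2 * r + w + 1) (hwB r w) where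
  lt := by omega
  al k hk h := by
    have := h.1
    omega
  dc k hk := by
    rw [dcL_al (fun h => by have := h.1; omega)]
    unfold dB hwB
    split_ifs with h1 h2 h2
    · norm_num
    · exfalso; apply h2; omega
    · exfalso; apply h1; omega
    · norm_num
  pos := hwB_pos r w

end mnB

end Pool.Agent.Lib.MP_688fd0_co.SQ5.H95
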