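import Pool.Agent.Lib.MP_688fd0_co.SQ5.H64.Diag
import Pool.Agent.Lib.MP_688fd0_co.SQ4.H49.Walk

/-!
DEAD: active and dead ports. The dead ports are joined straight (involution `J`, the fixed points of `J` are the active
ports); `oV` = the outside pairing of the active ports; connections of the active ports lift. `extV V d` = the diagram `d` on
the strands of `V`, the other strands straight.
-/

set_option autoImplicit false

namespace Pool.Agent.Lib.MP_688fd0_co.SQ5.H95

open Function H64
open Pool.Agent.Lib.MP_688fd0_co.SQ4.H49 (Inv gl gl_inv)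

section gen

variable {E A : Type*} {O J : E → E} {ι : A → E}

open Classical in
/-- The outside pairing of the active ports. -/
noncomputable def oV (O J : E → E) (ι : A → E) (a : A) : A := if h : ∃ b, ι b = oth O J (ι a) then h.choose else a

/-- The dead ports are straight. -/
theorem con_J {K : E → E} (hK : ∀ e, J e ≠ e → K e = J e) {x y : E} (h : Con O J x y) : SQ4.H49.Con O K x y := by
  induction h with
  | refl => exact SQ4.H49.Con.rfl'
  | @tail b c _ hs ih =>
    refine ih.trans ?_
    rcases hs with rfl | rfl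
    · exact SQ4.H49.con_left _ _ _
    · by_cases h : J b = b
      · rw [h]; exact SQ4.H49.Con.rfl'
      · rw [← hK b h]; exact SQ4.H49.con_right _ _ _

variable [Finite E] (hO : IsPair O) (hJ : ∀ x, J (J x) = x) (h1 : ∀ a, J (ι a) = ι a)
  (h2 : ∀ e, J e = e → ∃ a, ι a = e) (hι : Injective ι)

include hO hJ h1 h2

theorem ι_oV (a : A) : ι (oV O J ι a) = oth O J (ι a) := by
  have h : ∃ b, ι b = oth O J (ι a) := h2 _ (J_oth hO hJ (h1 a))
  unfold oV
  rw [dif_pos h]
  exact h.choose_spec

theorem con_lift {K : E → E} {k : A → A} (hK : ∀ e, J e ≠ e → K e = J e) (hk : ∀ a, K (ι a) = ι (k a)) {a b : A}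
    (h : SQ4.H49.Con (oV O J ι) k a b) : SQ4.H49.Con O K (ι a) (ι b) := by
  refine SQ4.H49.Con.le (ρ := fun a b => SQ4.H49.Con O K (ι a) (ι b))
    ⟨fun _ => SQ4.H49.Con.rfl', fun h => h.symm, fun h h' => h.trans h'⟩ ?_ ?_ h
  · intro a
    show SQ4.H49.Con O K (ι a) (ι (oV O J ι a))
    rw [ι_oV hO hJ h1 h2]
    exact con_J hK (con_oth _)
  · intro a
    show SQ4.H49.Con O K (ι a) (ι (k a))
    rw [← hk]
    exact SQ4.H49.con_right _ _ _

include hι

theorem oV_inv : Inv (oV O J ι) := by
  intro a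
  refine ⟨hι ?_, fun h => ?_⟩
  · rw [ι_oV hO hJ h1 h2, ι_oV hO hJ h1 h2, oth_oth hO hJ (h1 a)]
  · apply oth_ne hO hJ (h1 a)
    rw [← ι_oV hO hJ h1 h2, h]

theorem oV_eq {a b : A} (hne : a ≠ b) (h : Con O J (ι a) (ι b)) : oV O J ι a = b := by
  apply hι
  rw [ι_oV hO hJ h1 h2]
  exact oth_eq hO hJ (h1 a) (h1 b) (fun h => hne (hι h).symm) h

end gen

section ext

variable {S : Type*} (V : Set S)

open Classical in
/-- The diagram `d` on the strands of `V`, the other strands straight. -/
noncomputable def extV (d : V × Bool → V × Bool) (p : S × Bool) : S × Bool :=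
  if h : p.1 ∈ V then ((d (⟨p.1, h⟩, p.2)).1.1, (d (⟨p.1, h⟩, p.2)).2) else (p.1, !p.2)

variable {V}

theorem extV_in (d : V × Bool → V × Bool) (p : V × Bool) : extV V d (p.1.1, p.2) = ((d p).1.1, (d p).2) := by
  unfold extV
  rw [dif_pos p.1.2]

theorem extV_out (d : V × Bool → V × Bool) {p : S × Bool} (h : p.1 ∉ V) : extV V d p = (p.1, !p.2) := by
  unfold extV
  rw [dif_neg h]

theorem extV_pair {d : V × Bool → V × Bool} (hd : IsPair d) : IsPair (extV V d) := by
  constructor
  · rintro ⟨s, b⟩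
    by_cases h : s ∈ V
    · have e := extV_in d (⟨s, h⟩, b)
      rw [show (s, b) = ((⟨s, h⟩ : V).1, b) from rfl, e]
      have e2 := extV_in d (d (⟨s, h⟩, b))
      rw [e2, hd.1]
    · rw [extV_out d (p := (s, b)) h, extV_out d (p := (s, !b)) h]
      simp
  · rintro ⟨s, b⟩ h
    by_cases h' : s ∈ V
    · have e := extV_in d (⟨s, h'⟩, b)
      rw [e] at h
      obtain ⟨h3, h4⟩ := Prod.ext_iff.1 h
      exact hd.2 (⟨s, h'⟩, b) (Prod.ext (Subtype.ext h3) h4)
    · rw [extV_out d (p := (s, b)) h'] at h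
      have := congrArg Prod.snd h
      revert this
      cases b <;> simp

theorem extV_idd : extV V (idd : V × Bool → V × Bool) = idd := by
  funext ⟨s, b⟩
  by_cases h : s ∈ V
  · exact extV_in idd (⟨s, h⟩, b)
  · exact extV_out idd h

end ext

end Pool.Agent.Lib.MP_688fd0_co.SQ5.H95
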