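import Pool.Agent.Lib.MP_688fd0_co.SQ5.H95.Layer
import Pool.Agent.Lib.MP_688fd0_co.SQ5.H95.Dead
import Pool.Agent.Lib.MP_688fd0_co.SQ5.H69.StarC

/-!
SUBIDD: stacks of diagrams on a subset `V` of the strands, the other strands straight.
-/

set_option autoImplicit false

namespace Pool.Agent.Lib.MP_688fd0_co.SQ5.H95

open Function Equiv H64

section p3

variable {S : Type*} [DecidableEq S] {x y z : S}

theorem p3_x0 : p3 x y z (x, false) = (y, false) := win_low_left _ _ _

theorem p3_y0 (h : x ≠ y) : p3 x y z (y, false) = (x, false) := win_low_right h _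

theorem p3_z0 (hxz : x ≠ z) (hyz : y ≠ z) : p3 x y z (z, false) = (y, true) := by
  unfold p3
  rw [win_low hxz.symm hyz.symm, swap_apply_right]

theorem p3_x1 (hxy : x ≠ y) (hxz : x ≠ z) : p3 x y z (x, true) = (z, true) := by
  have h := win_up_left x y (swap y z)
  rw [swap_apply_of_ne_of_ne hxy hxz, swap_apply_left] at h
  exact h

theorem p3_z1 (hxy : x ≠ y) (hxz : x ≠ z) : p3 x y z (z, true) = (x, true) := by
  have h := win_up_right hxy (swap y z)
  rw [swap_apply_of_ne_of_ne hxy hxz, swap_apply_left] at h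
  exact h

theorem p3_y1 (hxz : x ≠ z) (hyz : y ≠ z) : p3 x y z (y, true) = (z, false) := by
  have h := win_up (σ := swap y z) hxz.symm hyz.symm
  rw [swap_apply_right] at h
  exact h

theorem p3_s {s : S} (h1 : s ≠ x) (h2 : s ≠ y) (h3 : s ≠ z) (b : Bool) : p3 x y z (s, b) = (s, !b) := by
  cases b
  · unfold p3
    rw [win_low h1 h2, swap_apply_of_ne_of_ne h2 h3]
    rfl
  · have h := win_up (σ := swap y z) h1 h2
    rw [swap_apply_of_ne_of_ne h2 h3] at h
    exact h

end p3

section sub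

variable {S : Type*} {V : Set S}

/-- The embedding of the two level picture. -/
def jV (x : (V × Bool) × Bool) : (S × Bool) × Bool := ((x.1.1.1, x.1.2), x.2)

theorem lvl_jV (d e : V × Bool → V × Bool) (x : (V × Bool) × Bool) :
    lvl (extV V d) (extV V e) (jV x) = jV (lvl d e x) := by
  obtain ⟨p, _ | _⟩ := x
  · show (extV V d (p.1.1, p.2), false) = _
    rw [extV_in]
    rfl
  · show (extV V e (p.1.1, p.2), true) = _
    rw [extV_in]
    rfl

theorem glu_jV (x : (V × Bool) × Bool) : glu (jV x) = jV (glu x) := by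
  obtain ⟨⟨s, _ | _⟩, _ | _⟩ := x <;> rfl

theorem con_jV {d e : V × Bool → V × Bool} {x y : (V × Bool) × Bool} (h : Con (lvl d e) glu x y) :
    Con (lvl (extV V d) (extV V e)) glu (jV x) (jV y) := by
  induction h with
  | refl => exact Con.refl' _
  | tail _ hs ih =>
    refine ih.trans' ?_
    rcases hs with rfl | rfl
    · rw [← lvl_jV]; exact con_left _
    · rw [← glu_jV]; exact con_right _

/-- A dead strand is straight. -/
theorem con_dead {d e : V × Bool → V × Bool} {s : S} (hs : s ∉ V) (q : Bool) (l : Bool) :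
    Con (lvl (extV V d) (extV V e)) glu (out (s, false)) ((s, q), l) := by
  have h1 : lvl (extV V d) (extV V e) ((s, false), false) = ((s, true), false) := by
    show (extV V d (s, false), false) = _
    rw [extV_out d (p := (s, false)) hs]
    rfl
  have h2 : glu ((s, true), false) = ((s, false), true) := rfl
  have h3 : lvl (extV V d) (extV V e) ((s, false), true) = ((s, true), true) := by
    show (extV V e (s, false), true) = _
    rw [extV_out e (p := (s, false)) hs]
    rfl
  have c1 : Con (lvl (extV V d) (extV V e)) glu (out (s, false)) ((s, true), false) := by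
    have := con_left (f := lvl (extV V d) (extV V e)) (g := glu) ((s, false), false)
    rw [h1] at this
    exact this
  have c2 : Con (lvl (extV V d) (extV V e)) glu (out (s, false)) ((s, false), true) := by
    refine c1.trans' ?_
    rw [← h2]
    exact con_right _
  have c3 : Con (lvl (extV V d) (extV V e)) glu (out (s, false)) ((s, true), true) := by
    refine c2.trans' ?_
    rw [← h3]
    exact con_left _
  cases q <;> cases l
  · exact Con.refl' _
  · exact c2
  · exact c1
  · exact c3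

theorem noLoop_extV {d e : V × Bool → V × Bool} (h : NoLoop d e) : NoLoop (extV V d) (extV V e) := by
  rintro ⟨⟨s, q⟩, l⟩
  by_cases hs : s ∈ V
  · obtain ⟨p, hp⟩ := h ((⟨s, hs⟩, q), l)
    exact ⟨(p.1.1, p.2), con_jV hp⟩
  · exact ⟨(s, false), con_dead hs q l⟩

variable [Finite S]

theorem stk_extV {d e : V × Bool → V × Bool} (hd : IsPair d) (he : IsPair e) :
    stk (extV V d) (extV V e) = extV V (stk d e) := by
  have hd' := extV_pair (V := V) hd
  have he' := extV_pair (V := V) he
  have hp := extV_pair (V := V) (stk_pair hd he)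
  funext ⟨s, b⟩
  by_cases hs : s ∈ V
  · refine stk_eq hd' he' (hp.2 _) ?_
    have h1 := con_jV (con_out_stk hd he (⟨s, hs⟩, b))
    have h2 : extV V (stk d e) (s, b) = ((stk d e (⟨s, hs⟩, b)).1.1, (stk d e (⟨s, hs⟩, b)).2) :=
      extV_in (stk d e) (⟨s, hs⟩, b)
    rw [h2]
    exact h1
  · refine stk_eq hd' he' (hp.2 _) ?_
    rw [extV_out (stk d e) (p := (s, b)) hs]
    cases b
    · exact con_dead hs true true
    · exact (con_dead hs true true).symm' (lvl_pair hd' he').1 glu_glu

theorem stkT_extV {D : Set (V × Bool → V × Bool)} {D' : Set (S × Bool → S × Bool)} (hpair : ∀ d ∈ D, IsPair d)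
    (hD : ∀ d ∈ D, extV V d ∈ D') {n : ℕ} {d : V × Bool → V × Bool} (h : StkT D n d) : StkT D' n (extV V d) := by
  induction h with
  | one h => exact StkT.one (hD _ h)
  | join ha hb h3 ih1 ih2 =>
    rw [← stk_extV (ha.pair hpair) (hb.pair hpair)]
    exact StkT.join ih1 ih2 (noLoop_extV h3)

omit [Finite S] in
theorem extV_p3 [DecidableEq S] [DecidableEq V] {x y z : V} (hxy : x ≠ y) (hxz : x ≠ z) (hyz : y ≠ z) :
    extV V (p3 x y z) = p3 x.1 y.1 z.1 := by
  have hxy' : x.1 ≠ y.1 := fun h => hxy (Subtype.ext h)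
  have hxz' : x.1 ≠ z.1 := fun h => hxz (Subtype.ext h)
  have hyz' : y.1 ≠ z.1 := fun h => hyz (Subtype.ext h)
  funext ⟨s, b⟩
  by_cases hs : s ∈ V
  · have h0 := extV_in (p3 x y z) (⟨s, hs⟩, b)
    have h0 : extV V (p3 x y z) (s, b) = ((p3 x y z (⟨s, hs⟩, b)).1.1, (p3 x y z (⟨s, hs⟩, b)).2) := h0
    rw [h0]
    by_cases h1 : (⟨s, hs⟩ : V) = x
    · have e : s = x.1 := congrArg Subtype.val h1
      rw [h1, e]
      cases b
      · rw [p3_x0, p3_x0]
      · rw [p3_x1 hxy hxz, p3_x1 hxy' hxz']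
    by_cases h2 : (⟨s, hs⟩ : V) = y
    · have e : s = y.1 := congrArg Subtype.val h2
      rw [h2, e]
      cases b
      · rw [p3_y0 hxy, p3_y0 hxy']
      · rw [p3_y1 hxz hyz, p3_y1 hxz' hyz']
    by_cases h3 : (⟨s, hs⟩ : V) = z
    · have e : s = z.1 := congrArg Subtype.val h3
      rw [h3, e]
      cases b
      · rw [p3_z0 hxz hyz, p3_z0 hxz' hyz']
      · rw [p3_z1 hxy hxz, p3_z1 hxy' hxz']
    rw [p3_s h1 h2 h3, p3_s (fun e => h1 (Subtype.ext e)) (fun e => h2 (Subtype.ext e)) (fun e => h3 (Subtype.ext e))]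
  · have n1 : s ≠ x.1 := fun e => hs (by rw [e]; exact x.2)
    have n2 : s ≠ y.1 := fun e => hs (by rw [e]; exact y.2)
    have n3 : s ≠ z.1 := fun e => hs (by rw [e]; exact z.2)
    rw [extV_out _ (p := (s, b)) hs, p3_s n1 n2 n3]

/-- helper69's stacks of flat P3's on `V`, extended. -/
theorem stkT_of_stk [DecidableEq S] [DecidableEq V] {Λ : SimpleGraph V} {D : Set (S × Bool → S × Bool)} {m : ℕ}
    (hD : ∀ d ∈ D, IsPair d) (hi : idd ∈ D) (hm : 0 < m)
    (hp : ∀ x y z : V, Λ.Adj x y → Λ.Adj x z → y ≠ z → StkT D m (p3 x.1 y.1 z.1)) {k : ℕ} {d : V × Bool → V × Bool}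
    (h : H69.Stk Λ k d) : StkT D ((k + 1) * m) (extV V d) := by
  let PP : Set (V × Bool → V × Bool) := {d | d = idd ∨ ∃ x y z, Λ.Adj x y ∧ Λ.Adj x z ∧ y ≠ z ∧ d = p3 x y z}
  have h1 : StkT PP (k + 1) d :=
    StkT.ofStk (Or.inl rfl) (fun x y z h1 h2 h3 => Or.inr ⟨x, y, z, h1, h2, h3, rfl⟩) h
  have hPP : ∀ e ∈ PP, IsPair e := by
    rintro e (rfl | ⟨x, y, z, h2, -, -, rfl⟩)
    · exact idd_pair
    · exact p3_pair h2.ne
  have h2 : StkT (extV V '' PP) (k + 1) (extV V d) :=
    stkT_extV (D' := extV V '' PP) hPP (fun d hd => Set.mem_image_of_mem _ hd) h1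
  refine StkT.trans ?_ h2
  rintro _ ⟨e, he, rfl⟩
  rcases he with rfl | ⟨x, y, z, h3, h4, h5, rfl⟩
  · rw [extV_idd]
    exact StkT.mono hD hi (StkT.one hi) hm
  · rw [extV_p3 h3.ne h4.ne h5]
    exact hp x y z h3 h4 h5

end sub

end Pool.Agent.Lib.MP_688fd0_co.SQ5.H95
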