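import Pool.Agent.Lib.MP_688fd0_co.SQ5.H95.Split
import Pool.Agent.Lib.MP_688fd0_co.SQ5.H95.SubIdd

/-!
CORE: runs with one chart each, active strands `V z`, rung graph `Λ z` (not connected): `far_core`. Regions = components of the
rung graphs.
-/

set_option autoImplicit false

namespace Pool.Agent.Lib.MP_688fd0_co.SQ5.H95

open Function Pool.Agent.Lib.MP_688fd0_co.OSF H64
open Pool.Agent.Lib.MP_688fd0_co.SQ4.H49 (Inv gl gl_inv)

universe v

/-- At least four neighbours. -/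
def Four {T : Type*} (Λ : SimpleGraph T) (x : T) : Prop := ∃ f : Fin 4 → T, Injective f ∧ ∀ i, Λ.Adj x (f i)

/-- STAR for graphs in which every edge has an end with at least four neighbours. -/
def Star4S (c : ℕ) : Prop :=
  ∀ (T : Type) [Finite T] [DecidableEq T] (Λ : SimpleGraph T), Λ.Connected → Nontrivial T →
    (∀ v w, Λ.Adj v w → Four Λ v ∨ Four Λ w) →
    H64.Star {d : T × Bool → T × Bool | ∃ k ≤ c * Nat.card T ^ 2, H69.Stk Λ k d}

variable {G : Type} [Group G] {B : Lb.{0, v} G} {F : HF B}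

namespace Rgs

variable {Zr : Type} {S : Zr → Type} {N : Zr → ℕ} (X : Rgs F Zr S N) (V : ∀ z, Set (S z)) (Λ : ∀ z, SimpleGraph (V z))

/-- The components. -/
abbrev KC (Λ : ∀ z, SimpleGraph (V z)) (z : Zr) : Type := (Λ z).ConnectedComponent

/-- The component of a strand. -/
def cpC (z : Zr) (s : V z) : KC V Λ z := (Λ z).connectedComponentMk s

/-- The strand of `V z`. -/
def fC {r : Σ z, KC V Λ z} (x : VB V (cpC V Λ) r) : V r.1 := ⟨x.1, x.2.fst⟩

/-- The rung graph of a component. -/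
def ΛC (r : Σ z, KC V Λ z) : SimpleGraph (VB V (cpC V Λ) r) := (Λ r.1).comap (fC V Λ)

theorem cpC_fC {r : Σ z, KC V Λ z} (x : VB V (cpC V Λ) r) : cpC V Λ r.1 (fC V Λ x) = r.2 := x.2.snd

/-- A strand of the component. -/
def gC {r : Σ z, KC V Λ z} (s : V r.1) (h : cpC V Λ r.1 s = r.2) : VB V (cpC V Λ) r := ⟨s.1, s.2, h⟩

theorem fC_gC {r : Σ z, KC V Λ z} (s : V r.1) (h : cpC V Λ r.1 s = r.2) : fC V Λ (gC V Λ s h) = s := rfl

theorem gC_fC {r : Σ z, KC V Λ z} (x : VB V (cpC V Λ) r) : gC V Λ (fC V Λ x) (cpC_fC V Λ x) = x := rfl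

theorem fC_inj {r : Σ z, KC V Λ z} : Injective (fC V Λ (r := r)) := fun x y h => by
  have h0 := Subtype.ext_iff.1 h
  have h1 : x.1 = y.1 := h0
  exact Subtype.ext h1

theorem cp_adj {z : Zr} {s s' : V z} (h : (Λ z).Adj s s') : cpC V Λ z s' = cpC V Λ z s :=
  SimpleGraph.ConnectedComponent.sound h.reachable.symm

theorem conn_ΛC (r : Σ z, KC V Λ z) : (ΛC V Λ r).Connected := by
  obtain ⟨z, κ⟩ := r
  have key : ∀ (x : VB V (cpC V Λ) ⟨z, κ⟩) (s : V z), Relation.ReflTransGen (Λ z).Adj (fC V Λ x) s →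
      ∀ hs : cpC V Λ z s = κ, (ΛC V Λ ⟨z, κ⟩).Reachable x (gC V Λ (r := ⟨z, κ⟩) s hs) := by
    intro x s h
    induction h with
    | refl => intro hs; exact SimpleGraph.Reachable.refl _
    | @tail b c _ hbc ih =>
      intro hs
      have hb : cpC V Λ z b = κ := by rw [← hs]; exact (cp_adj V Λ hbc).symm
      refine (ih hb).trans (SimpleGraph.Adj.reachable ?_)
      exact hbc
  have : Nonempty (VB V (cpC V Λ) ⟨z, κ⟩) := by
    obtain ⟨s, hs⟩ := κ.exists_rep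
    exact ⟨gC V Λ (r := ⟨z, κ⟩) s hs⟩
  refine ⟨fun x y => ?_⟩
  have h1 : (Λ z).Reachable (fC V Λ x) (fC V Λ y) := by
    apply SimpleGraph.ConnectedComponent.exact
    exact (cpC_fC V Λ x).trans (cpC_fC V Λ y).symm
  have h2 := key x (fC V Λ y) ((SimpleGraph.reachable_iff_reflTransGen _ _).1 h1) (cpC_fC V Λ y)
  exact h2

theorem four_ΛC {r : Σ z, KC V Λ z} (x : VB V (cpC V Λ) r) (h : Four (Λ r.1) (fC V Λ x)) : Four (ΛC V Λ r) x := by
  obtain ⟨f, hf, ha⟩ := h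
  refine ⟨fun i => gC V Λ (f i) ((cp_adj V Λ (ha i)).trans (cpC_fC V Λ x)), fun i j hij => ?_, fun i => ha i⟩
  apply hf
  have := congrArg (fC V Λ) hij
  exact this

variable [Fintype G] [DecidableEq G] {A : Set G} [Fintype Zr] [∀ z, Fintype (S z)] [∀ z, DecidableEq (S z)]

omit [Fintype G] [DecidableEq G] [Fintype Zr] [∀ z, DecidableEq (S z)] in
theorem finite_KC (z : Zr) : Finite (KC V Λ z) := Quot.finite _

/-- FAR CORE. -/
theorem far_core {c : ℕ} (hS : Star4S c) (hcl : Subgroup.closure A = ⊤) (hA : ∀ d : F.X, B.q d.1.2 ∈ A)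
    {U : Zr → G} (hper : X.Per U) (nb mm : Zr → ℕ) (hN : ∀ z, Nat.card (KC V Λ z) * nb z ≤ N z) (hmm : ∀ z, 0 < mm z)
    (hm : ∀ z, (c * Nat.card (V z) ^ 2 + 1) * mm z ≤ nb z) (hiso : ∀ z x, ∃ y, (Λ z).Adj x y)
    (h4 : ∀ z x y, (Λ z).Adj x y → Four (Λ z) x ∨ Four (Λ z) y)
    (hp : ∀ z (x y y' : V z), (Λ z).Adj x y → (Λ z).Adj x y' → y ≠ y' → StkT (X.D0 A z) (mm z) (p3 x.1 y.1 y'.1))
    (hflush : ∀ x : G, ∃ (z : Zr) (m : ℕ) (s : S z) (i : ℕ), s ∈ V z ∧ m ≤ N z * (X.l z + 1) ∧ i ≤ (X.C z).h m s ∧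
      F.C x ((X.C z).Z m s i))
    (r₀ : Σ z, KC V Λ z) (hconn : ∀ r, Relation.ReflTransGen (X.RAdj V (cpC V Λ)) r₀ r) : Lst A := by
  classical
  have : ∀ z, Finite (KC V Λ z) := fun z => finite_KC V Λ z
  have : ∀ z, Fintype (KC V Λ z) := fun z => Fintype.ofFinite _
  have hnb : ∀ z, 0 < nb z := fun z => lt_of_lt_of_le (Nat.mul_pos (by omega) (hmm z)) (hm z)
  let Q : Cut N (KC V Λ) nb :=
    { ix := fun z q => (Finite.equivFin (KC V Λ z) q).val
      inj := fun z q q' h => (Finite.equivFin (KC V Λ z)).injective (Fin.ext h)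
      pos := hnb
      le := fun z q => (Nat.mul_le_mul_right _ (Finite.equivFin (KC V Λ z) q).2).trans (hN z) }
  have hi : ∀ z, idd ∈ X.D0 A z := fun z => X.idd_D0 hA z
  -- the star of a component
  have hstar : ∀ r : (Σ z, KC V Λ z), H64.Star {d : VB V (cpC V Λ) r × Bool → VB V (cpC V Λ) r × Bool |
      ∃ k ≤ c * Nat.card (VB V (cpC V Λ) r) ^ 2, H69.Stk (ΛC V Λ r) k d} := by
    intro r
    refine hS _ _ (conn_ΛC V Λ r) ?_ ?_
    · obtain ⟨x⟩ := (conn_ΛC V Λ r).nonempty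
      obtain ⟨y, hy⟩ := hiso r.1 (fC V Λ x)
      refine ⟨x, gC V Λ y ((cp_adj V Λ hy).trans (cpC_fC V Λ x)), fun h => hy.ne ?_⟩
      have := congrArg (fC V Λ) h
      exact this
    · intro x y h
      rcases h4 r.1 _ _ h with h1 | h1
      · exact Or.inl (four_ΛC V Λ x h1)
      · exact Or.inr (four_ΛC V Λ y h1)
  let KV : ∀ r : (Σ z, KC V Λ z), Set (VB V (cpC V Λ) r × Bool → VB V (cpC V Λ) r × Bool) := fun r =>
    {d | IsPair d ∧ StkT (X.D0 A r.1) (nb r.1) (extV (VB V (cpC V Λ) r) d)}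
  have hcard : ∀ r : (Σ z, KC V Λ z), Nat.card (VB V (cpC V Λ) r) ≤ Nat.card (V r.1) := fun r =>
    Nat.card_le_card_of_injective (fC V Λ) (fC_inj V Λ)
  have hsub : ∀ r : (Σ z, KC V Λ z), {d : VB V (cpC V Λ) r × Bool → VB V (cpC V Λ) r × Bool |
      ∃ k ≤ c * Nat.card (VB V (cpC V Λ) r) ^ 2, H69.Stk (ΛC V Λ r) k d} ⊆ KV r := by
    rintro r d ⟨k, hk, hd⟩
    refine ⟨hd.pair, StkT.mono (X.D0_pair r.1) (hi r.1) (stkT_of_stk (X.D0_pair r.1) (hi r.1) (hmm r.1) ?_ hd) ?_⟩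
    · intro x y y' h1 h2 h3
      exact hp r.1 (fC V Λ x) (fC V Λ y) (fC V Λ y') h1 h2 fun h => h3 (fC_inj V Λ h)
    · refine le_trans (Nat.mul_le_mul_right _ ?_) (hm r.1)
      have h1 : c * Nat.card (VB V (cpC V Λ) r) ^ 2 ≤ c * Nat.card (V r.1) ^ 2 :=
        Nat.mul_le_mul_left _ (Nat.pow_le_pow_left (hcard r) 2)
      omega
  have hfour : ∀ r : (Σ z, KC V Λ z), ∃ f : Fin 4 → VB V (cpC V Λ) r, Injective f := by
    intro r
    obtain ⟨x⟩ := (conn_ΛC V Λ r).nonempty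
    obtain ⟨y, hy⟩ := hiso r.1 (fC V Λ x)
    rcases h4 r.1 _ _ hy with h1 | h1
    · obtain ⟨f, hf, -⟩ := four_ΛC V Λ x h1
      exact ⟨f, hf⟩
    · obtain ⟨f, hf, -⟩ := four_ΛC V Λ (gC V Λ y ((cp_adj V Λ hy).trans (cpC_fC V Λ x))) h1
      exact ⟨f, hf⟩
  refine X.core Q V (cpC V Λ) (𝒟 := X.D0 A) hcl hA (fun z => X.D0_pair z) (hper.realL hA) hflush KV (fun r d hd => hd) ?_ ?_
    ?_ r₀ hconn
  · intro r
    exact (sep_of_star (fun d hd => by
      obtain ⟨k, -, hd⟩ := hd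
      exact hd.pair) (hstar r)).mono (hsub r)
  · intro r
    exact ⟨idd, hsub r ⟨0, Nat.zero_le _, H69.Stk.nil⟩⟩
  · intro r
    obtain ⟨f, hf⟩ := hfour r
    refine ⟨fun i => (f (Fin.castSucc i), true), fun i j h => ?_⟩
    have h1 : f (Fin.castSucc i) = f (Fin.castSucc j) := (Prod.ext_iff.1 h).1
    exact Fin.castSucc_injective _ (hf h1)

end Rgs

end Pool.Agent.Lib.MP_688fd0_co.SQ5.H95
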