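import Pool.Agent.Lib.MP_688fd0_co.SQ5.H95.Open
import Pool.Agent.Lib.MP_688fd0_co.SQ5.H64.Diag
import Pool.Agent.Lib.MP_688fd0_co.SQ5.H69.StarC

/-!
LAYER: stacks of elementary diagrams are realized layer by layer; from coarse regions (bands) to fine regions (layers).
-/

set_option autoImplicit false

namespace Pool.Agent.Lib.MP_688fd0_co.SQ5.H95

open Function H64
open Pool.Agent.Lib.MP_688fd0_co.SQ4.H49 (Inv gl gl_inv)

universe u v w t

section stack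

variable {S : Type u} [Finite S]

/-- Loopless stacks of elementary diagrams, with the number of layers. -/
inductive StkT (𝒟 : Set (S × Bool → S × Bool)) : ℕ → (S × Bool → S × Bool) → Prop
  | one {d : S × Bool → S × Bool} : d ∈ 𝒟 → StkT 𝒟 1 d
  | join {m n : ℕ} {a b : S × Bool → S × Bool} : StkT 𝒟 m a → StkT 𝒟 n b → NoLoop a b → StkT 𝒟 (m + n) (stk a b)

variable {𝒟 𝒟' : Set (S × Bool → S × Bool)}

theorem StkT.pos {n : ℕ} {d : S × Bool → S × Bool} (h : StkT 𝒟 n d) : 0 < n := by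
  induction h with
  | one _ => exact Nat.one_pos
  | join _ _ _ ih1 ih2 => omega

theorem StkT.pair (hD : ∀ d ∈ 𝒟, IsPair d) {n : ℕ} {d : S × Bool → S × Bool} (h : StkT 𝒟 n d) : IsPair d := by
  induction h with
  | one h => exact hD _ h
  | join _ _ _ ih1 ih2 => exact stk_pair ih1 ih2

theorem noLoop_idd (d : S × Bool → S × Bool) : NoLoop d idd := by
  have h1 : ∀ q : S × Bool, Con (lvl d idd) glu (out q) (q, false) := by
    rintro ⟨s, _ | _⟩
    · exact Con.refl' _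
    · exact (con_left (out (s, true))).trans' (con_right _)
  rintro ⟨q, _ | _⟩
  · exact ⟨q, h1 q⟩
  · obtain ⟨s, _ | _⟩ := q
    · exact ⟨(s, true), (h1 (s, true)).trans' (con_right _)⟩
    · exact ⟨(s, true), Con.refl' _⟩

theorem StkT.mono (hD : ∀ d ∈ 𝒟, IsPair d) (hi : idd ∈ 𝒟) {n N : ℕ} {d : S × Bool → S × Bool} (h : StkT 𝒟 n d)
    (hn : n ≤ N) : StkT 𝒟 N d := by
  obtain ⟨j, rfl⟩ := Nat.exists_eq_add_of_le hn
  clear hn
  induction j with
  | zero => exact h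
  | succ j ih =>
    have := StkT.join ih (StkT.one hi) (noLoop_idd d)
    rw [stk_idd_right (h.pair hD)] at this
    exact this

theorem StkT.trans {m : ℕ} (hD : ∀ d ∈ 𝒟, StkT 𝒟' m d) {n : ℕ} {d : S × Bool → S × Bool} (h : StkT 𝒟 n d) :
    StkT 𝒟' (n * m) d := by
  induction h with
  | one h => rw [one_mul]; exact hD _ h
  | join _ _ h3 ih1 ih2 => rw [add_mul]; exact StkT.join ih1 ih2 h3

theorem StkT.sub (hD : 𝒟 ⊆ 𝒟') {n : ℕ} {d : S × Bool → S × Bool} (h : StkT 𝒟 n d) : StkT 𝒟' n d := by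
  induction h with
  | one h => exact StkT.one (hD h)
  | join _ _ h3 ih1 ih2 => exact StkT.join ih1 ih2 h3

/-- 69's stacks of flat P3's. -/
theorem StkT.ofStk [DecidableEq S] {Λ : SimpleGraph S} (hi : idd ∈ 𝒟)
    (hp : ∀ x y z, Λ.Adj x y → Λ.Adj x z → y ≠ z → p3 x y z ∈ 𝒟) {n : ℕ} {d : S × Bool → S × Bool}
    (h : H69.Stk Λ n d) : StkT 𝒟 (n + 1) d := by
  induction h with
  | nil => exact StkT.one hi
  | low _ h1 h2 h3 h4 ih =>
    rw [add_comm]
    exact StkT.join (StkT.one (hp _ _ _ h1 h2 h3)) ih h4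
  | top _ h1 h2 h3 h4 ih => exact StkT.join ih (StkT.one (hp _ _ _ h1 h2 h3)) h4

/-! ### Layers -/

/-- The ends of the layers `i .. i + n - 1`. -/
def en (i n : ℕ) (p : S × Bool) : ℕ × (S × Bool) := (if p.2 = true then i + n - 1 else i, p)

/-- The layers `i .. i + n - 1` with the diagrams `c` realize `d`. -/
def Lay (c : ℕ → S × Bool → S × Bool) (i n : ℕ) (d : S × Bool → S × Bool) : Prop :=
  ∀ ρ : ℕ × (S × Bool) → ℕ × (S × Bool) → Prop, Equivalence ρ →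
    (∀ k, i ≤ k → k < i + n → ∀ p, ρ (k, p) (k, c k p)) →
    (∀ k, i ≤ k → k + 1 < i + n → ∀ s, ρ (k, (s, true)) (k + 1, (s, false))) →
    (∀ p, ρ (en i n p) (en i n (d p))) ∧ ∀ k, i ≤ k → k < i + n → ∀ p, ∃ p', ρ (k, p) (en i n p')

omit [Finite S] in
theorem Lay.one (c : ℕ → S × Bool → S × Bool) (i : ℕ) : Lay c i 1 (c i) := by
  intro ρ hρ h1 _
  have e : ∀ p : S × Bool, en i 1 p = (i, p) := fun p => by
    unfold en
    rw [Nat.add_sub_cancel, ite_self]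
  refine ⟨fun p => ?_, fun k h2 h3 p => ?_⟩
  · rw [e, e]
    exact h1 i le_rfl (Nat.lt_succ_self i) p
  · obtain rfl : k = i := by omega
    exact ⟨p, by rw [e]; exact hρ.refl _⟩

theorem Lay.join {c : ℕ → S × Bool → S × Bool} {i m n : ℕ} {a b : S × Bool → S × Bool} (ha : IsPair a) (hb : IsPair b)
    (hm : 0 < m) (hn : 0 < n) (h1 : Lay c i m a) (h2 : Lay c (i + m) n b) (h3 : NoLoop a b) :
    Lay c i (m + n) (stk a b) := by
  intro ρ hρ hc hl
  obtain ⟨a1, a2⟩ := h1 ρ hρ (fun k hk hk' => hc k hk (by omega)) (fun k hk hk' => hl k hk (by omega))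
  obtain ⟨b1, b2⟩ := h2 ρ hρ (fun k hk hk' => hc k (by omega) (by omega)) (fun k hk hk' => hl k (by omega) (by omega))
  let θ : (S × Bool) × Bool → ℕ × (S × Bool) := fun q => if q.2 = true then en (i + m) n q.1 else en i m q.1
  have key : ∀ x y, Con (lvl a b) glu x y → ρ (θ x) (θ y) := by
    intro x y h
    induction h with
    | refl => exact hρ.refl _
    | tail _ hs ih =>
      refine hρ.trans ih ?_
      rename_i q q' _
      rcases hs with rfl | rfl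
      · rcases q with ⟨q, _ | _⟩
        · exact a1 q
        · exact b1 q
      · rcases q with ⟨⟨s, _ | _⟩, _ | _⟩
        · exact hρ.refl _
        · -- lower end of the upper part
          refine hρ.symm ?_
          have e1 := hl (i + m - 1) (by omega) (by omega) s
          rw [Nat.sub_add_cancel (show 1 ≤ i + m by omega)] at e1
          exact e1
        · have e1 := hl (i + m - 1) (by omega) (by omega) s
          rw [Nat.sub_add_cancel (show 1 ≤ i + m by omega)] at e1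
          exact e1
        · exact hρ.refl _
  have hout : ∀ p : S × Bool, θ (out p) = en i (m + n) p := by
    rintro ⟨s, _ | _⟩
    · rfl
    · show (i + m + n - 1, (s, true)) = (i + (m + n) - 1, (s, true))
      rw [add_assoc]
  have hall : ∀ x, ∃ p, ρ (θ x) (en i (m + n) p) := by
    intro x
    obtain ⟨p, hp⟩ := h3 x
    exact ⟨p, by rw [← hout]; exact hρ.symm (key _ _ hp)⟩
  refine ⟨fun p => ?_, fun k hk hk' p => ?_⟩
  · have := key _ _ (con_out_stk ha hb p)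
    rw [hout, hout] at this
    exact this
  · by_cases h : k < i + m
    · obtain ⟨p', hp'⟩ := a2 k hk h p
      obtain ⟨q, hq⟩ := hall (p', false)
      exact ⟨q, hρ.trans hp' hq⟩
    · obtain ⟨p', hp'⟩ := b2 k (by omega) (by omega) p
      obtain ⟨q, hq⟩ := hall (p', true)
      exact ⟨q, hρ.trans hp' hq⟩

omit [Finite S] in
theorem Lay.congr {c c' : ℕ → S × Bool → S × Bool} {i n : ℕ} {d : S × Bool → S × Bool}
    (h : ∀ k, i ≤ k → k < i + n → c' k = c k) (hl : Lay c i n d) : Lay c' i n d := by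
  intro ρ hρ h1 h2
  exact hl ρ hρ (fun k hk hk' p => by rw [← h k hk hk']; exact h1 k hk hk' p) h2

/-- Every stack is realized by layers. -/
theorem StkT.lay (hD : ∀ d ∈ 𝒟, IsPair d) {n : ℕ} {d : S × Bool → S × Bool} (h : StkT 𝒟 n d) : ∀ i : ℕ,
    ∃ c : ℕ → S × Bool → S × Bool, (∀ k, i ≤ k → k < i + n → c k ∈ 𝒟) ∧ Lay c i n d := by
  induction h with
  | @one d h => exact fun i => ⟨fun _ => d, fun _ _ _ => h, Lay.one (fun _ => d) i⟩
  | @join m n a b ha hb h3 ih1 ih2 =>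
    intro i
    obtain ⟨c1, h1, h1'⟩ := ih1 i
    obtain ⟨c2, h2, h2'⟩ := ih2 (i + m)
    refine ⟨fun k => if k < i + m then c1 k else c2 k, fun k hk hk' => ?_, ?_⟩
    · by_cases h : k < i + m
      · simp only [if_pos h]; exact h1 k hk h
      · simp only [if_neg h]; exact h2 k (by omega) (by omega)
    · refine Lay.join (ha.pair hD) (hb.pair hD) ha.pos hb.pos (Lay.congr ?_ h1') (Lay.congr ?_ h2') h3
      · intro k _ hk'
        simp only [if_pos hk']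
      · intro k hk _
        simp only [if_neg (show ¬ k < i + m by omega)]

end stack

/-! ### Bands -/

section band

variable {R : Type w} {S : R → Type t} {n : R → ℕ}

/-- The fine ports. -/
abbrev FP (S : R → Type t) (n : R → ℕ) : Type (max w t) := Σ a : (Σ r, Fin (n r)), S a.1 × Bool

/-- The ends of the bands. -/
def ed (hn : ∀ r, 0 < n r) (x : Σ r, S r × Bool) : FP S n :=
  ⟨⟨x.1, ⟨if x.2.2 = true then n x.1 - 1 else 0, by have := hn x.1; split_ifs <;> omega⟩⟩, x.2⟩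

variable (hn : ∀ r, 0 < n r)

theorem ed_inj : Injective (ed (S := S) hn) := by
  rintro ⟨r, p⟩ ⟨r', p'⟩ h
  have h1 : (⟨⟨r, ⟨if p.2 = true then n r - 1 else 0, by have := hn r; split_ifs <;> omega⟩⟩, p⟩ : FP S n) =
    ⟨⟨r', ⟨if p'.2 = true then n r' - 1 else 0, by have := hn r'; split_ifs <;> omega⟩⟩, p'⟩ := h
  obtain rfl : r = r' := congrArg (fun z : FP S n => z.1.1) h1
  have h2 : HEq p p' := (Sigma.mk.inj h1).2
  rw [eq_of_heq h2]

/-- Direct arcs between consecutive layers. -/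
def Link (out' : FP S n → FP S n) : Prop :=
  ∀ r (k : ℕ) (h : k + 1 < n r) (s : S r),
    out' ⟨⟨r, ⟨k, Nat.lt_of_succ_lt h⟩⟩, (s, true)⟩ = ⟨⟨r, ⟨k + 1, h⟩⟩, (s, false)⟩

variable {out' : FP S n → FP S n}

theorem out_ed (ho : Inv out') (hl : Link out') (x : Σ r, S r × Bool) : ∃ y, ed hn y = out' (ed hn x) := by
  rcases hy : out' (ed hn x) with ⟨⟨r, ⟨k, hk⟩⟩, ⟨s, b⟩⟩
  have hx : out' ⟨⟨r, ⟨k, hk⟩⟩, (s, b)⟩ = ed hn x := by rw [← hy]; exact (ho _).1
  cases b with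
  | false =>
    by_cases h0 : k = 0
    · subst h0
      exact ⟨⟨r, (s, false)⟩, rfl⟩
    · exfalso
      obtain ⟨k, rfl⟩ : ∃ k', k = k' + 1 := ⟨k - 1, by omega⟩
      have h1 := hl r k hk s
      have h2 : ed hn x = ⟨⟨r, ⟨k, Nat.lt_of_succ_lt hk⟩⟩, (s, true)⟩ := by
        rw [← hx, ← h1]; exact (ho _).1
      have h3 : (ed hn x).1.2.1 = if (ed hn x).2.2 = true then n (ed hn x).1.1 - 1 else 0 := rfl
      rw [h2] at h3
      simp only [if_true] at h3
      omega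
  | true =>
    by_cases h0 : k + 1 = n r
    · refine ⟨⟨r, (s, true)⟩, ?_⟩
      have : (⟨n r - 1, by have := hn r; omega⟩ : Fin (n r)) = ⟨k, hk⟩ := Fin.ext (by show n r - 1 = k; omega)
      show (⟨⟨r, ⟨n r - 1, _⟩⟩, (s, true)⟩ : FP S n) = _
      rw [this]
    · exfalso
      have h1 := hl r k (by omega) s
      rw [h1] at hx
      have h3 : (ed hn x).1.2.1 = if (ed hn x).2.2 = true then n (ed hn x).1.1 - 1 else 0 := rfl
      rw [← hx] at h3
      simp only [Bool.false_eq_true, if_false] at h3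
      omega

/-- The outside pairing of the bands. -/
noncomputable def outB (ho : Inv out') (hl : Link out') (x : Σ r, S r × Bool) : Σ r, S r × Bool :=
  (out_ed hn ho hl x).choose

theorem ed_outB (ho : Inv out') (hl : Link out') (x : Σ r, S r × Bool) :
    ed hn (outB hn ho hl x) = out' (ed hn x) := (out_ed hn ho hl x).choose_spec

theorem outB_inv (ho : Inv out') (hl : Link out') : Inv (outB hn ho hl) := by
  intro x
  refine ⟨ed_inj hn ?_, fun h => ?_⟩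
  · rw [ed_outB, ed_outB, (ho _).1]
  · have h1 := congrArg (ed hn) h
    rw [ed_outB] at h1
    exact (ho _).2 h1

variable [∀ r, Finite (S r)] {𝒟 : ∀ r, Set (S r × Bool → S r × Bool)}

/-- REFINE: coarse insides which are stacks are realized by layers. -/
theorem refine_bands (hD : ∀ r, ∀ d ∈ 𝒟 r, IsPair d) (ho : Inv out') (hl : Link out')
    (c : ∀ r, S r × Bool → S r × Bool) (hc : ∀ r, StkT (𝒟 r) (n r) (c r)) :
    ∃ c' : ∀ a : (Σ r, Fin (n r)), S a.1 × Bool → S a.1 × Bool, (∀ a, c' a ∈ 𝒟 a.1) ∧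
      (∀ x y, SQ4.H49.Con (outB hn ho hl) (gl c) x y → SQ4.H49.Con out' (gl c') (ed hn x) (ed hn y)) ∧
      ∀ z, ∃ x, SQ4.H49.Con out' (gl c') z (ed hn x) := by
  choose c₁ h₁ h₂ using fun r => (hc r).lay (hD r) 0
  refine ⟨fun a => c₁ a.1 a.2.1, fun a => h₁ a.1 a.2.1 (Nat.zero_le _) (by have := a.2.2; omega), ?_⟩
  set c' : ∀ a : (Σ r, Fin (n r)), S a.1 × Bool → S a.1 × Bool := fun a => c₁ a.1 a.2.1 with hc'
  -- the relation on the layers of one band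
  have key : ∀ r, (∀ p : S r × Bool, SQ4.H49.Con out' (gl c') (ed hn ⟨r, p⟩) (ed hn ⟨r, c r p⟩)) ∧
      ∀ (k : ℕ) (hk : k < n r) (p : S r × Bool), ∃ p', SQ4.H49.Con out' (gl c') ⟨⟨r, ⟨k, hk⟩⟩, p⟩ (ed hn ⟨r, p'⟩) := by
    intro r
    let ρ : ℕ × (S r × Bool) → ℕ × (S r × Bool) → Prop := fun x y =>
      x = y ∨ ∃ (h : x.1 < n r) (h' : y.1 < n r),
        SQ4.H49.Con out' (gl c') ⟨⟨r, ⟨x.1, h⟩⟩, x.2⟩ ⟨⟨r, ⟨y.1, h'⟩⟩, y.2⟩
    have hρ : Equivalence ρ := by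
      refine ⟨fun _ => Or.inl rfl, ?_, ?_⟩
      · rintro x y (rfl | ⟨h, h', h''⟩)
        · exact Or.inl rfl
        · exact Or.inr ⟨h', h, h''.symm⟩
      · rintro x y z (rfl | ⟨h, h', h''⟩) (rfl | ⟨g, g', g''⟩)
        · exact Or.inl rfl
        · exact Or.inr ⟨g, g', g''⟩
        · exact Or.inr ⟨h, h', h''⟩
        · exact Or.inr ⟨h, g', h''.trans g''⟩
    obtain ⟨a1, a2⟩ := h₂ r ρ hρ (fun k _ hk p => Or.inr ⟨by simpa using hk, by simpa using hk,
      SQ4.H49.con_right _ (gl c') ⟨⟨r, ⟨k, by simpa using hk⟩⟩, p⟩⟩) (fun k _ hk s => Or.inr ⟨by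
        show k < n r; omega, by show k + 1 < n r; omega, by
        have := SQ4.H49.con_left out' (gl c') ⟨⟨r, ⟨k, by omega⟩⟩, (s, true)⟩
        rw [hl r k (by omega) s] at this
        exact this⟩)
    have e1 : ∀ p : S r × Bool, ∃ h : (en 0 (n r) p).1 < n r, ed hn ⟨r, p⟩ = ⟨⟨r, ⟨(en 0 (n r) p).1, h⟩⟩, (en 0 (n r) p).2⟩ := by
      intro p
      have h0 : (en 0 (n r) p).1 = if p.2 = true then n r - 1 else 0 := by
        unfold en
        simp only [Nat.zero_add]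
      have h1 : (en 0 (n r) p).1 < n r := by
        rw [h0]
        have := hn r
        split_ifs <;> omega
      refine ⟨h1, ?_⟩
      have h2 : (⟨(en 0 (n r) p).1, h1⟩ : Fin (n r)) =
          ⟨if p.2 = true then n r - 1 else 0, by have := hn r; split_ifs <;> omega⟩ := Fin.ext h0
      rw [h2]
      rfl
    refine ⟨fun p => ?_, fun k hk p => ?_⟩
    · obtain ⟨h1, g1⟩ := e1 p
      obtain ⟨h2, g2⟩ := e1 (c r p)
      rw [g1, g2]
      rcases a1 p with h | ⟨h, h', h''⟩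
      · have h3 : (⟨⟨r, ⟨(en 0 (n r) p).1, h1⟩⟩, (en 0 (n r) p).2⟩ : FP S n) =
            ⟨⟨r, ⟨(en 0 (n r) (c r p)).1, h2⟩⟩, (en 0 (n r) (c r p)).2⟩ := by
          have : ∀ (x y : ℕ × (S r × Bool)) (h : x = y) (hx : x.1 < n r) (hy : y.1 < n r),
            (⟨⟨r, ⟨x.1, hx⟩⟩, x.2⟩ : FP S n) = ⟨⟨r, ⟨y.1, hy⟩⟩, y.2⟩ := by
            rintro x _ rfl _ _
            rfl
          exact this _ _ h _ _
        rw [h3]
        exact SQ4.H49.Con.rfl'
      · exact h''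
    · obtain ⟨p', hp'⟩ := a2 k (Nat.zero_le _) (by omega) p
      refine ⟨p', ?_⟩
      obtain ⟨h1, g1⟩ := e1 p'
      rw [g1]
      rcases hp' with h | ⟨h, h', h''⟩
      · have : ∀ (x y : ℕ × (S r × Bool)) (h : x = y) (hx : x.1 < n r) (hy : y.1 < n r),
          (⟨⟨r, ⟨x.1, hx⟩⟩, x.2⟩ : FP S n) = ⟨⟨r, ⟨y.1, hy⟩⟩, y.2⟩ := by
          rintro x _ rfl _ _
          rfl
        rw [← this (k, p) _ h hk h1]
        exact SQ4.H49.Con.rfl'
      · exact h''
  refine ⟨fun x y h => ?_, ?_⟩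
  · refine SQ4.H49.Con.le (ρ := fun x y => SQ4.H49.Con out' (gl c') (ed hn x) (ed hn y))
      ⟨fun _ => SQ4.H49.Con.rfl', fun h => h.symm, fun h h' => h.trans h'⟩ ?_ ?_ h
    · intro x
      show SQ4.H49.Con out' (gl c') (ed hn x) (ed hn (outB hn ho hl x))
      rw [ed_outB]
      exact SQ4.H49.con_left _ _ _
    · rintro ⟨r, p⟩
      exact (key r).1 p
  · rintro ⟨⟨r, ⟨k, hk⟩⟩, p⟩
    obtain ⟨p', hp'⟩ := (key r).2 k hk p
    exact ⟨⟨r, p'⟩, hp'⟩

end band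

/-! ### The end for bands -/

section ends

variable {G : Type u} [Group G] [Fintype G] [DecidableEq G] {A : Set G} {B : OSF.Lb.{u, v} G} {F : HF B} {W : G → Prop}
  {R : Type w} [Fintype R] {S : R → Type t} [∀ r, Fintype (S r)] {n : R → ℕ} (hn : ∀ r, 0 < n r)
  {Z : (Σ r, Fin (n r)) → Finset G} {𝒟 : ∀ r, Set (S r × Bool → S r × Bool)}

omit [Fintype R] in
theorem inv_of_pair {X : Type*} {f : X → X} (h : IsPair f) : Inv f := fun x => ⟨h.1 x, h.2 x⟩

/-- BANDS, the end with one fictitious edge. -/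
theorem Sys.lst_of_bands (Y : Sys A F W (fun a : (Σ r, Fin (n r)) => S a.1 × Bool) Z fun a => 𝒟 a.1) (hl : Link Y.out)
    (hD : ∀ r, ∀ d ∈ 𝒟 r, IsPair d) {K : ∀ r, Set (S r × Bool → S r × Bool)}
    (hK : ∀ r, ∀ k ∈ K r, StkT (𝒟 r) (n r) k) {I : Set (Σ r, S r × Bool)}
    (h : H12.Clu (outB hn Y.out_inv hl) K Set.univ I) (d₀ : F.X) (hd₀ : ¬ F.In W d₀)
    (hA : ∀ d : F.X, d ≠ d₀ → d ≠ F.pr d₀ → B.q d.1.2 ∈ A) (a₀ a₁ : Σ r, S r × Bool)
    (he₀ : ∃ j, j ≤ F.len (Y.φ (ed hn a₀)) ∧ F.stp^[j] (F.ot (Y.φ (ed hn a₀)).1) = d₀) (z : G)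
    (hyz : (F.vt d₀)⁻¹ * z ∈ A)
    (he₁ : ∃ j, j ≤ F.len (Y.φ (ed hn a₁)) ∧ F.vt (F.stp^[j] (F.ot (Y.φ (ed hn a₁)).1)) = z) (n₀ : a₀ ∉ I) (n₁ : a₁ ∉ I)
    (h1 : a₁ ≠ a₀) (h2 : a₁ ≠ outB hn Y.out_inv hl a₀) : OSF.Lst A := by
  obtain ⟨c, hc, h3⟩ := h.fin_univ (outB_inv hn Y.out_inv hl) a₀ a₁ n₀ n₁ h1 h2
  obtain ⟨c', hc', g1, g2⟩ := refine_bands hn hD Y.out_inv hl c fun r => hK r _ (hc r)
  refine Y.lst_of_con d₀ hd₀ hA (ed hn a₀) (ed hn a₁) he₀ z hyz he₁ c' hc'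
    (fun a => inv_of_pair (hD _ _ (hc' a))) fun x => ?_
  obtain ⟨y, hy⟩ := g2 x
  rcases h3 y with h4 | h4
  · exact Or.inl (hy.trans (g1 _ _ h4))
  · exact Or.inr (hy.trans (g1 _ _ h4))

/-- BANDS, the end without fictitious edges. -/
theorem Sys.lst_of_bands' (Y : Sys A F W (fun a : (Σ r, Fin (n r)) => S a.1 × Bool) Z fun a => 𝒟 a.1) (hl : Link Y.out)
    (hD : ∀ r, ∀ d ∈ 𝒟 r, IsPair d) {K : ∀ r, Set (S r × Bool → S r × Bool)}
    (hK : ∀ r, ∀ k ∈ K r, StkT (𝒟 r) (n r) k) {I : Set (Σ r, S r × Bool)}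
    (h : H12.Clu (outB hn Y.out_inv hl) K Set.univ I) (hcl : Subgroup.closure A = ⊤)
    (hA : ∀ d : F.X, B.q d.1.2 ∈ A) : OSF.Lst A := by
  obtain ⟨c₀, hc₀⟩ : ∃ c₀ : ∀ r, S r × Bool → S r × Bool, ∀ r, c₀ r ∈ K r := by
    choose c₀ hc₀ using fun r => h.ne r (Set.mem_univ _)
    exact ⟨c₀, hc₀⟩
  obtain ⟨c, hc, -, a₁, a₂, -, -, h3⟩ := h.fin2 (outB_inv hn Y.out_inv hl) c₀
    fun r => h.inv r (Set.mem_univ _) _ (hc₀ r)
  obtain ⟨c', hc', g1, g2⟩ := refine_bands hn hD Y.out_inv hl c fun r => hK r _ (hc r (Set.mem_univ _))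
  refine Y.lst_of_con' hcl hA (ed hn a₁) (ed hn a₂) c' hc' (fun a => inv_of_pair (hD _ _ (hc' a))) fun x => ?_
  obtain ⟨y, hy⟩ := g2 x
  rcases h3 y ⟨y, Set.mem_univ _, SQ4.H49.Con.rfl'⟩ with h4 | h4
  · exact Or.inl (hy.trans (g1 _ _ h4))
  · exact Or.inr (hy.trans (g1 _ _ h4))

end ends

end Pool.Agent.Lib.MP_688fd0_co.SQ5.H95
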