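import Pool.Agent.Lib.MP_688fd0_co.SQ5.H95.FarB
import Pool.Agent.Lib.MP_688fd0_co.SQ5.H22.Gad4
import Pool.Agent.Lib.MP_688fd0_co.SQ5.H20.Drift
import Pool.Agent.Lib.MP_688fd0_co.SQ5.H64.PowerT

/-!
WIND: the T-gadget of helper22 at every level `m : ℤ`, as a window of the instance `inst` (`wc_gad`).
-/

set_option autoImplicit false

namespace Pool.Agent.Lib.MP_688fd0_co.SQ5.H95

open Function Pool.Agent.Lib.MP_688fd0_co.OSF H64 H76
open Pool.Agent.Lib.MP_688fd0_co.SQ3 Pool.Agent.Lib.MP_688fd0_co.SQ5.H58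
open Pool.Agent.Lib.MP_688fd0_co.SQ5.H20 (Wl wp wx ps WC rgZ LG KG SG B8)
open Pool.Agent.Lib.MP_688fd0_co.SQ5.H22 (CloG Aw GadR)

universe u v

section cong

variable {G : Type u} [Group G]

theorem B8_congr {x y : ℤ} (h : x % 8 = y % 8) : B8 x ↔ B8 y := by
  unfold B8
  rw [h]

theorem LG_congr (a b t : G) {x y : ℤ} (h : x % 8 = y % 8) : LG a b t x = LG a b t y := by
  unfold LG
  simp only [B8_congr h]

theorem KG_congr (a b t : G) {x y : ℤ} (h : x % 8 = y % 8) : KG a b t x = KG a b t y := by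
  unfold KG
  simp only [B8_congr h]

theorem SG_congr (a b t : G) {x y : ℤ} (h : x % 8 = y % 8) : SG a b t x = SG a b t y := by
  unfold SG
  rw [LG_congr a b t h, KG_congr a b t h]

theorem CloG_congr (a b t : G) {x y : ℤ} (h : x % 8 = y % 8) (i : ℕ) : CloG a b t x i ↔ CloG a b t y i := by
  unfold CloG
  rw [KG_congr a b t h, KG_congr a b t (show (x + i) % 8 = (y + i) % 8 by omega),
    H20.pr_congr (f := SG a b t) (f' := SG a b t) (m := x + 1) (m' := y + 1) i fun j _ => SG_congr a b t (by omega),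
    H20.pr_congr (f := LG a b t) (f' := LG a b t) (m := x) (m' := y) i fun j _ => LG_congr a b t (by omega)]

end cong

section per

variable {L : AddSubgroup (ℤ × ℤ)} {Q : Type u} [Group Q] {B : Lb.{u, v} Q} {l : L3 → B.L} {c : Cov B l L} {D : Bd}
  {s0 κ0 κ1 : ℤ}

/-- `U` is the word of `P0` levels of every strand. -/
structure PU (B : Lb.{u, v} Q) (l : L3 → B.L) (D : Bd) (s0 : ℤ) (P0 : ℕ) (U : Q) : Prop where
  per : D.Per P0
  gz : ∀ κ, H76.gz (D.stp (qq B l) κ) s0 P0 = U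

theorem ps_per {P0 : ℕ} {U : Q} (h : PU B l D s0 P0 U) (s : Sd c D s0 κ0 κ1) (hU : s.1.2 * U = U * s.1.2) (m q : ℤ) :
    ps s (m + P0 * q) = U ^ q * ps s m := by
  have h1 : ∀ m : ℤ, ps s (m + P0) = U * ps s m := by
    intro m
    have h2 := h.per.pos (qq B l) s0 s.1.1 m 0
    rw [H20.ps_eq, H20.ps_eq, h2, h.gz, ← mul_assoc, hU, mul_assoc]
  induction q using Int.induction_on with
  | zero => simp
  | succ q ih =>
    have e : m + P0 * ((q : ℤ) + 1) = m + P0 * q + P0 := by ring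
    rw [e, h1, ih, ← mul_assoc, add_comm (q : ℤ) 1, zpow_one_add]
  | pred q ih =>
    have e : m + P0 * (-(q : ℤ)) = m + P0 * (-(q : ℤ) - 1) + P0 := by ring
    rw [e, h1] at ih
    have e2 : U ^ (-(q : ℤ)) = U * U ^ (-(q : ℤ) - 1) := by
      rw [← zpow_one_add]
      congr 1
      ring
    rw [e2, mul_assoc] at ih
    exact mul_left_cancel ih

/-- The wall word. -/
theorem wx_pr {ph : ℤ} (hb : ∀ m : ℤ, D.b (s0 + m) = bw (ph + m)) (y : Q) (m : ℤ) (j : ℕ) :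
    wx B l D s0 y (m + j) = wx B l D s0 y m * H20.pr (LG (B.q (l .a)) (B.q (l .b)) (B.q (l .t))) (ph + m) j := by
  induction j with
  | zero => simp [H20.pr]
  | succ j ih =>
    have e : m + ((j + 1 : ℕ) : ℤ) = m + j + 1 := by push_cast; ring
    rw [e, H20.wx_succ, ih, hb, H22.LL_bw, mul_assoc]
    congr 1
    show _ = H20.pr _ (ph + m) j * LG _ _ _ (ph + m + (j : ℕ))
    rw [add_assoc]
    rfl

end per

section main

variable {L : AddSubgroup (ℤ × ℤ)} {M R : ℕ} {dc : ℕ → ℤ} {spc : ℕ → Prop} {Gr : ℤ} {g : Geo L M R dc spc Gr} {m0 : ℕ}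
  {hw : ℤ → ℕ} (H : Geo.Mn g m0 hw)

variable {Q : Type u} [Group Q] [Finite Q] {B : Lb.{u, v} Q} {l : L3 → B.L} (c : Cov B l L) (hi : ∀ i, B.inv (l i) = l i)
  (hq : Injective (qq B l)) (hii : ∀ x, B.inv (B.inv x) = x) {κ0 κ1 : ℤ}

/-- THE WINDOW of the rung of any level: the layer has at least `3 P0` blocks. -/
theorem wc_gad (h0 : 2 ≤ κ0) (h1 : κ1 ≤ m0) {p : ℕ} (hp : 2 ≤ p) (hN : ∀ z : Zr g, p ≤ g.rE z) (z : Zr g)
    [DecidableEq (SS c H κ0 κ1 z)] {A : Set Q} (hA : ∀ i, B.q (l i) ∈ A) {ph d Wd : ℤ} {K0 K1 : ℤ}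
    (X : GadR g c (H.bd z) (g.rs z) (g.rE z) K0 K1 κ0 κ1 ph d Wd) {P0 : ℕ} {U : Q}
    (hU : PU B l (H.bd z) (g.rs z) P0 U) (hcm : ∀ s : SS c H κ0 κ1 z, s.1.2 * U = U * s.1.2)
    (h8 : (8 : ℤ) ∣ P0) (hP0 : 0 < P0) (hP : 3 * P0 ≤ p) {J : ℤ} {y : Q} (hW : Wl c (H.bd z) (g.rs z) κ0 κ1 J y) {m : ℤ} {i : ℕ}
    (h0i : 0 < i) (hiP : i ≤ P0) (hJ : J = Aw Wd (ph + m)) (hJ0 : κ0 ≤ J + d) (hJ1 : J + d + 2 ≤ κ1)
    (hclo : CloG (B.q (l .a)) (B.q (l .b)) (B.q (l .t)) (ph + m) i) (hcl : Aw Wd (ph + (m + i)) = J)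
    (hfst : ∀ j : ℕ, 0 < j → j < i → Aw Wd (ph + (m + j)) = J →
      ¬ CloG (B.q (l .a)) (B.q (l .b)) (B.q (l .t)) (ph + m) j) :
    WC (fun n => {d | StkT ((inst H c hi hq hii κ0 κ1 h0 h1 p hp hN).D0 A z) n d}) (3 * (i + 1)) 1
      (rgZ (wp hi hW) m) (rgZ (wp hi hW) (m + i)) := by
  classical
  -- the level in the layer
  obtain ⟨q, m', e1, e2, e3⟩ : ∃ (q : ℤ) (m' : ℕ), (m' : ℤ) = m + P0 * q ∧ P0 ≤ m' ∧ m' < 2 * P0 := by
    have hpos : (0 : ℤ) < P0 := by exact_mod_cast hP0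
    have a1 := Int.emod_nonneg m (ne_of_gt hpos)
    have a2 := Int.emod_lt_of_pos m hpos
    have a3 := Int.emod_add_mul_ediv m P0
    refine ⟨1 - m / P0, (m % P0 + P0).toNat, ?_, ?_, ?_⟩
    · rw [Int.toNat_of_nonneg (by omega)]
      linear_combination a3
    · omega
    · omega
  have h8' : ∀ j : ℤ, (ph + ((m' : ℤ) + j)) % 8 = (ph + (m + j)) % 8 := by
    intro j
    obtain ⟨w, hw⟩ := h8
    have e4 : ph + ((m' : ℤ) + j) = ph + (m + j) + 8 * (w * q) := by rw [e1, hw]; ring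
    rw [e4, Int.add_mul_emod_self_left]
  have h8'' : (ph + (m' : ℤ)) % 8 = (ph + m) % 8 := by
    have := h8' 0
    rwa [add_zero, add_zero] at this
  have hAw : ∀ x x' : ℤ, x % 8 = x' % 8 → Aw Wd x = Aw Wd x' := by
    intro x x' h
    unfold Aw
    rw [h]
  have hE : m' + i < g.rE z := by
    have := hN z
    omega
  set ω := wp hi hW with hω
  have hκ : ∀ n : ℤ, (ω n).1.1 = J + (H.bd z).cs (g.rs z + n) := fun n => H20.wp_κ hi hW n
  have hcs : ∀ j : ℤ, (H.bd z).cs (g.rs z + ((m' : ℤ) + j)) = (H.bd z).cs (g.rs z + (m + j)) := by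
    intro j
    rw [X.cs, X.cs]
    rw [col_congr (h8' j)]
  have hcs0 : (H.bd z).cs (g.rs z + (m' : ℤ)) = (H.bd z).cs (g.rs z + m) := by
    have := hcs 0
    rwa [add_zero, add_zero] at this
  -- the start
  have hv : c.Over (ps (ω m) m') ((H.bd z).st (J + (H.bd z).cs (g.rs z + m')) (g.rs z + m') 0) := by
    rw [H20.ps_eq, hcs0, ← hκ m]
    exact (c.over_pos hi (H.bd z) (g.rs z) (ω m).1.1 m' 0).2 (ω m).2.2.2
  obtain ⟨ω', As, σ, b1, b2, b3, b4, b5, b6, b7, b8, b9, F', b10, b11, b12⟩ := X.gadget (m0 := m') (i := i) (J := J)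
    (inj_l hq) hi hq hii (by rw [hJ]; exact (hAw _ _ h8'').symm) hJ0 hJ1 h0i hE hv
    ((CloG_congr _ _ _ h8'' i).2 hclo) (by rw [← hcl]; push_cast; exact hAw _ _ (h8' i))
    (fun j j1 j2 j3 j4 => hfst j j1 j2 (by rw [← j3]; push_cast; exact (hAw _ _ (h8' j)).symm)
      ((CloG_congr _ _ _ h8'' j).1 j4))
  -- the strands of the wall
  have key : ∀ j : ℕ, j ≤ i + 1 → ω' (m' + j) = ω (m + j) := by
    intro j hj
    obtain ⟨c1, c2⟩ := b1 j hj
    refine H20.ps_inj (m := ((m' + j : ℕ) : ℤ)) ?_ ?_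
    · rw [c1, hκ]
      push_cast
      rw [hcs]
    · rw [← H20.ps_Z, c2]
      have e5 : ((m' + j : ℕ) : ℤ) = m + j + P0 * q := by push_cast; rw [e1]; ring
      rw [e5, ps_per hU (ω (m + j)) (hcm _), H20.ps_wp]
      rw [e1, ps_per hU (ω m) (hcm _), H20.ps_wp, wx_pr X.b, mul_assoc]
      congr 2
      refine H20.pr_congr j fun n _ => LG_congr _ _ _ ?_
      have := h8' n
      rw [e1] at this
      rw [add_assoc ph, add_assoc ph]
      exact this
  have k0 : ω' m' = ω m := by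
    have := key 0 (by omega)
    rwa [Nat.cast_zero, add_zero, add_zero] at this
  have k1 : ω' (m' + 1) = ω (m + 1) := by
    have := key 1 (by omega)
    rwa [Nat.cast_one] at this
  have k2 : ω' (m' + i) = ω (m + i) := key i (by omega)
  have k3 : ω' (m' + i + 1) = ω (m + i + 1) := by
    have := key (i + 1) (by omega)
    rw [← add_assoc] at this
    push_cast at this
    rw [← add_assoc] at this
    exact this
  rw [k0, k1] at b6 b9 b12
  rw [k0] at b4 b7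
  rw [k1] at b5 b8
  rw [k3] at b7
  rw [k2] at b8
  refine ⟨As, b2, ω m, ω (m + 1), ω (m + i + 1), ω (m + i), rfl, by unfold rgZ; exact Sym2.eq_swap, b6, b4, b5, σ, b3, b7,
    b8, StkT.one ⟨b9, F', m', m' + i, by omega, by omega, ?_, ?_, ?_, b12⟩⟩
  · show m' + i ≤ p - 1
    omega
  · intro x hx
    rw [b10 x hx]
    have e1 : ff c hi hq hii g = _ := ff_eq c hi hq hii
    rw [← e1]
  · intro x _ y hy
    obtain ⟨j, hj⟩ := b11 x y hy
    rw [hj]
    exact hA j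

end main

end Pool.Agent.Lib.MP_688fd0_co.SQ5.H95
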