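import Pool.Agent.Lib.MP_688fd0_co.SQ5.H95.SubIdd
import Pool.Agent.Lib.MP_688fd0_co.SQ5.H64.P3All
import Pool.Agent.Lib.MP_688fd0_co.SQ5.H64.PowerT

/-!
DIDD: the stacks with `n` layers together with `idd` (also for `n = 0`): closed, contains `idd`; `hp3_of_loops`.
-/

set_option autoImplicit false

namespace Pool.Agent.Lib.MP_688fd0_co.SQ5.H95

open Function H64
open Pool.Agent.Lib.MP_688fd0_co.SQ5.H20 (WC WS)

universe u

variable {S : Type u} [Finite S] {𝒟 : Set (S × Bool → S × Bool)}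

/-- The stacks with `n` layers, and `idd`. -/
def DI (𝒟 : Set (S × Bool → S × Bool)) (n : ℕ) : Set (S × Bool → S × Bool) := {d | d = idd ∨ StkT 𝒟 n d}

omit [Finite S] in
theorem idd_DI (n : ℕ) : idd ∈ DI 𝒟 n := Or.inl rfl

theorem closed_DI (hp : ∀ d ∈ 𝒟, IsPair d) (hi : idd ∈ 𝒟) : Closed (DI 𝒟) := by
  rintro m n d e (rfl | hd) (rfl | he) hl
  · left
    exact stk_idd_left idd_pair
  · right
    rw [stk_idd_left (he.pair hp)]
    exact StkT.mono hp hi he (by omega)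
  · right
    rw [stk_idd_right (hd.pair hp)]
    exact StkT.mono hp hi hd (by omega)
  · exact Or.inr (StkT.join hd he hl)

variable [DecidableEq S]

omit [Finite S] in
/-- Windows of `StkT` are windows of `DI`. -/
theorem WC_DI {c n : ℕ} {e f : Sym2 S} (h : WC (fun n => {d | StkT 𝒟 n d}) c n e f) : WC (DI 𝒟) c n e f := by
  obtain ⟨A, h1, a, b, c, d, h2, h3, h4, h5, h6, σ, h7, h8, h9, h10⟩ := h
  exact ⟨A, h1, a, b, c, d, h2, h3, h4, h5, h6, σ, h7, h8, h9, Or.inr h10⟩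

/-- ALL P3's from the loops. -/
theorem hp3_of_loops (hp : ∀ d ∈ 𝒟, IsPair d) (hi : idd ∈ 𝒟) {c n : ℕ} {Λ : SimpleGraph S}
    (hΛ : ∀ x y, Λ.Adj x y → ∃ c' n' : ℕ, c' ≤ c ∧ n' ≤ n ∧ WC (DI 𝒟) c' n' s(x, y) s(x, y)) {x y z : S}
    (hy : Λ.Adj x y) (hz : Λ.Adj x z) (hyz : y ≠ z) : StkT 𝒟 (Nat.factorial (c + c) * (n + n)) (p3 x y z) := by
  rcases p3_of_loops (closed_DI hp hi) (fun n => idd_DI n) hΛ hy hz hyz with h | h
  · exfalso
    have h1 := congrFun h (x, false)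
    have h2 : p3 x y z (x, false) = (y, false) := win_low_left _ _ _
    rw [h2] at h1
    exact absurd (congrArg Prod.snd h1) (by simp [idd])
  · exact h

end Pool.Agent.Lib.MP_688fd0_co.SQ5.H95
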