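import Pool.Agent.Lib.MP_688fd0_co.SQ5.H95.WinD
import Pool.Agent.Lib.MP_688fd0_co.SQ5.H20.PathI

/-!
WINP: `wc_gad` in the form of helper20 (`RunD`, `Mw`, `CloW`): `wc_clow`; the period `pu_bd`.
-/

set_option autoImplicit false

namespace Pool.Agent.Lib.MP_688fd0_co.SQ5.H95

open Function Pool.Agent.Lib.MP_688fd0_co.OSF H64 H76
open Pool.Agent.Lib.MP_688fd0_co.SQ3 Pool.Agent.Lib.MP_688fd0_co.SQ5.H58
open Pool.Agent.Lib.MP_688fd0_co.SQ5.H20 (Wl wp wx ps WC rgZ LG KG SG B8 CloW Mw wd)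
open Pool.Agent.Lib.MP_688fd0_co.SQ5.H22 (CloG Aw GadR)

universe u v

section main

variable {L : AddSubgroup (ℤ × ℤ)} {M R : ℕ} {dc : ℕ → ℤ} {spc : ℕ → Prop} {Gr : ℤ} {g : Geo L M R dc spc Gr} {m0 : ℕ}
  {hw : ℤ → ℕ} (H : Geo.Mn g m0 hw)

theorem bd_hw (z : ℤ) : (H.bd z).hw = hw := rfl

theorem bd_b (z m : ℤ) : (H.bd z).b (g.rs z + m) = H76.bw (g.rp z + m) := by
  show H76.bw (g.rp z + (g.rs z + m - g.rs z)) = _
  congr 1
  ring

theorem bd_cs (z m : ℤ) : (H.bd z).cs (g.rs z + m) = H76.col (g.rp z + m) := by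
  show H76.col (g.rp z + (g.rs z + m - g.rs z)) = _
  congr 1
  ring

variable {Q : Type u} [Group Q] [Finite Q] {B : Lb.{u, v} Q} {l : L3 → B.L} (c : Cov B l L) (hi : ∀ i, B.inv (l i) = l i)
  (hq : Injective (qq B l)) (hii : ∀ x, B.inv (B.inv x) = x) {κ0 κ1 : ℤ}

/-- THE WINDOW, helper20's form. -/
theorem wc_clow (h0 : 2 ≤ κ0) (h1 : κ1 ≤ m0) {p : ℕ} (hp : 2 ≤ p) (hN : ∀ z : Zr g, p ≤ g.rE z) (z : Zr g)
    [DecidableEq (SS c H κ0 κ1 z)] {A : Set Q} (hA : ∀ i, B.q (l i) ∈ A) (hw2 : ∀ K, 2 ≤ hw K)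
    (hne : ∀ K : ℤ, ((B.q (l .a) * B.q (l .b)) ^ (hw K - 1) * B.q (l .t)) ^ 2 ≠ 1) {P0 : ℕ} {U : Q}
    (hU : PU B l (H.bd z) (g.rs z) P0 U) (hcm : ∀ s : SS c H κ0 κ1 z, s.1.2 * U = U * s.1.2)
    (h8 : (8 : ℤ) ∣ P0) (hP0 : 0 < P0) (hP : 3 * P0 ≤ p) {J : ℤ} {y : Q} (hW : Wl c (H.bd z) (g.rs z) κ0 κ1 J y) {m : ℤ}
    {i : ℕ} (hm : m ∈ Mw (H.bd z) (g.rp z) J)
    (hclo : CloW (B.q (l .a)) (B.q (l .b)) (B.q (l .t)) (g.rp z + m) i)
    (hmin : ∀ i', i' < i → ¬ CloW (B.q (l .a)) (B.q (l .b)) (B.q (l .t)) (g.rp z + m) i') {P1 : ℕ} (hi1 : i ≤ P1)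
    (hP1 : P1 ≤ P0) :
    WC (fun n => {d | StkT ((inst H c hi hq hii κ0 κ1 h0 h1 p hp hN).D0 A z) n d}) (3 * (P1 + 1)) 1
      (rgZ (wp hi hW) m) (rgZ (wp hi hW) (m + i)) := by
  have hJ0 : κ0 ≤ J := by
    have h := hW.lo (-g.rp z)
    rw [bd_cs, add_neg_cancel] at h
    simpa [H76.col] using h
  have hJ1 : J + 2 ≤ κ1 := by
    have h := hW.hi (2 - g.rp z)
    rw [bd_cs, add_sub_cancel] at h
    simpa [H76.col] using h
  have X : GadR g c (H.bd z) (g.rs z) (g.rE z) 0 m0 κ0 κ1 (g.rp z) 0 (wd J (g.rp z + m)) := by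
    have hc := H20.wd_cases J (g.rp z + m)
    refine ⟨H.rg z h0 h1, bd_b H z, fun n => by rw [bd_cs, zero_add], hm, hw2 _, hw2 _, ?_, ?_, fun K _ _ => hne K⟩
    · rcases hc with h | h <;> rw [h] <;> omega
    · rcases hc with h | h <;> rw [h] <;> omega
  refine (wc_gad H c hi hq hii h0 h1 hp hN z hA X hU hcm h8 hP0 hP hW hclo.1 (hi1.trans hP1)
    (H20.Aw_wd J (g.rp z + m)).symm (by omega) (by omega) hclo.2.2 ?_ ?_).mono (by omega)
  · rw [H20.Aw_iff, ← hclo.2.1, add_assoc]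
  · intro j j1 j2 j3 j4
    refine hmin j j2 ⟨j1, ?_, j4⟩
    rw [H20.Aw_iff] at j3
    rw [← j3, add_assoc]

end main

section per

variable {Q : Type} [Group Q] [Finite Q] {N C : Subgroup Q} {eps : Q →* ℤˣ} {k P : ℕ} {x : Fin 3 → Q} (Hx : Inv3 eps x)
  {B : Lb.{0, v} Q} {l : L3 → B.L} {t a b : Fin 3} (hta : t ≠ a) (htb : t ≠ b) (hab : a ≠ b) (ht : B.q (l .t) = x t)
  (ha : B.q (l .a) = x a) (hb : B.q (l .b) = x b)

/-- THE PERIOD in the form of `wc_clow`. -/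
theorem pu_bd (gn : GN N C eps k P) (hi : ∀ i, B.inv (l i) = l i) {e : ℕ} (he : k * Nat.card C ∣ e) :
    ∃ U : Q, eps U = 1 ∧ (∀ y, eps y = 1 → y * U = U * y) ∧
      ∀ {M R : ℕ} {dc : ℕ → ℤ} {spc : ℕ → Prop} {Gr : ℤ}
        {g : Geo (Ltc (ct eps (x a * x t)) (ct eps (x b * x t))) M R dc spc Gr} {m0 : ℕ} {hw : ℤ → ℕ}
        (H : Geo.Mn g m0 hw) (z : ℤ), PU B l (H.bd z) (g.rs z) (8 * e) U ∧
          ∀ {κ0 κ1 : ℤ} (s : Sd (Hx.co hta htb hab ht ha hb).cov (H.bd z) (g.rs z) κ0 κ1), s.1.2 * U = U * s.1.2 := by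
  obtain ⟨U, hU1, hU2, hU3⟩ := per_exists Hx hta htb hab ht ha hb gn hi he
  refine ⟨U, hU1, hU2, fun {M R dc spc Gr g m0 hw} H z => ⟨⟨?_, ?_⟩, ?_⟩⟩
  · have := H.bd_per z e
    push_cast
    exact this
  · intro κ
    have hD : (H.bd z).Per 8 := by
      have := H.bd_per z 1
      rwa [mul_one] at this
    have := (hU3 (H.bd z) hD (g.rs z) 0 0).1 κ
    push_cast
    exact this
  · intro κ0 κ1 s
    obtain ⟨i, j, hs⟩ := (H.bd z).st_zero s.1.1 (g.rs z)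
    have h3 := s.2.2.2
    rw [hs] at h3
    exact hU2 _ (eps_of_over Hx hta htb hab ht ha hb h3)

omit [Finite Q] in
include Hx in
/-- The sea words for the half widths 2 and 3. -/
theorem ne_sea (h2t : ¬ ((x a * x t) * ((x a * x b) * (x a * x b)) = ((x a * x b) * (x a * x b)) * (x a * x t))) {n : ℕ}
    (hn : n = 2 ∨ n = 3) : ((x a * x b) ^ (n - 1) * x t) ^ 2 ≠ 1 := by
  intro h
  apply h2t
  have hinv : ∀ i, (x i)⁻¹ = x i := fun i => inv_eq_of_mul_eq_one_right (Hx.inv i)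
  set s := x a * x b with hs
  have has : x a * s * x a = s⁻¹ := by
    rw [hs, mul_inv_rev, hinv, hinv, ← mul_assoc, Hx.inv, one_mul]
  have key : x t * (s * s) * x t = (s * s)⁻¹ := by
    have hts : ∀ u : Q, (u * x t) ^ 2 = 1 → x t * u * x t = u⁻¹ := by
      intro u hu
      rw [pow_two] at hu
      have h1 : u * (x t * u * x t) = 1 := by
        rw [← hu]
        group
      exact (inv_eq_of_mul_eq_one_right h1).symm
    rcases hn with rfl | rfl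
    · have h1 := hts _ h
      rw [show 2 - 1 = 1 from rfl, pow_one] at h1
      calc x t * (s * s) * x t = x t * s * (x t * x t) * s * x t := by rw [Hx.inv]; group
        _ = (x t * s * x t) * (x t * s * x t) := by group
        _ = (s * s)⁻¹ := by rw [h1]; group
    · have h1 := hts _ h
      rw [show 3 - 1 = 2 from rfl, pow_two] at h1
      exact h1
  have h1 : x a * (s * s) * x a = (s * s)⁻¹ := by
    calc x a * (s * s) * x a = x a * s * (x a * x a) * s * x a := by rw [Hx.inv]; group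
      _ = (x a * s * x a) * (x a * s * x a) := by group
      _ = (s * s)⁻¹ := by rw [has]; group
  have h2 : x t * (s * s) = (s * s)⁻¹ * x t := by
    rw [← key, mul_assoc _ (x t) (x t), Hx.inv, mul_one]
  have h3 : x a * (s * s)⁻¹ = (s * s) * x a := by
    rw [← h1, ← mul_assoc, ← mul_assoc, Hx.inv, one_mul]
  rw [mul_assoc, h2, ← mul_assoc, h3, mul_assoc]

end per

end Pool.Agent.Lib.MP_688fd0_co.SQ5.H95
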