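import Pool.Agent.Lib.MP_688fd0_co.SQ5.H95.FarE
import Pool.Agent.Lib.MP_688fd0_co.SQ5.H87.P4

/-!
FAR-3 (type C2, level 2): `far3 : SQD.Far3S`.

Rows: helper20 (design, rungs, closings, chains), helper22 (gadgets), helper24 (layout), helper48 (four runs), helper53, helper67
(regions, arcs), helper58, helper66 (numbers, flush, nodes), helper59 (degenerate case), helper64 (power trick), helper76
(layout in the group, charts, degrees), helper87 (star, drift, loops), helper95 (bands, assembly).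
-/

set_option autoImplicit false

namespace Pool.Agent.Lib.MP_688fd0_co.SQ5.H95

open Function Pool.Agent.Lib.MP_688fd0_co.OSF H64 H76
open Pool.Agent.Lib.MP_688fd0_co.SQ3 Pool.Agent.Lib.MP_688fd0_co.SQ5.H58 Pool.Agent.Lib.MP_688fd0_co.SQ5.H24

/-- THE LOOPS. -/
theorem loopS : LoopS := by
  intro Q _ _ N C eps k P x Hx t a b hta htb hab M R r w Gr g H gn hk4 hw hw5 hnc hxi hr hp hN _ z s s' hs
  have hA : ∀ d : (ff (cvB Hx hta htb hab) (fun _ => rfl) (xl_inj hxi hta htb hab) (fun _ => rfl) g).X,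
      (BX Hx (t := t) (a := a) (b := b)).q d.1.2 ∈ Set.range x := ff_A _ _ _ _ fun i => by
    cases i
    · exact ⟨a, rfl⟩
    · exact ⟨b, rfl⟩
    · exact ⟨t, rfl⟩
  have : N.Normal := gn.Nn
  have h2t := ncen_at Hx hta htb hab hnc
  have : Finite (SB Hx hta htb hab H z) := instFiniteSd (cvB Hx hta htb hab) (H.bd z) (g.rs z) (r + 1) (r + w + 2)
  have key := H87.P4.loops (c := cvB Hx hta htb hab) (D := H.bd z) (s0 := g.rs z) (κ0 := r + 1) (κ1 := r + w + 2)
    (ph := g.rp z) (c0 := r) (w := w) N gn.Nc (by rw [gn.idx]; exact gn.cop) (e := k) (by rw [gn.idx]) (by omega)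
    (fun _ => rfl) (runD_B (by omega) H z) le_rfl le_rfl (by
      intro h
      apply h2t
      have h1 : (x a * x t) * (x a * x b) ^ 2 = (x a * x b) ^ 2 * (x a * x t) := h
      rw [pow_two] at h1
      exact h1)
    (Dd := DI ((XB Hx hta htb hab H hxi hr hp hN).D0 (Set.range x) z))
    (closed_DI (Rgs.D0_pair (XB Hx hta htb hab H hxi hr hp hN) z) (Rgs.idd_D0 (XB Hx hta htb hab H hxi hr hp hN) hA z)) (fun n => idd_DI n) (C := 3 * (8 * k + 1)) (ℓ := 1)
    (fun {J y} hW m hm i hc hmin hi => row_gad Hx hta htb hab H gn (by omega) hnc hxi hr hp hN z hW hm hc hmin hi) hs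
  have h5 : 1024 ≤ k ^ 5 := by
    calc 1024 = 4 ^ 5 := by norm_num
      _ ≤ k ^ 5 := Nat.pow_le_pow_left hk4 5
  have h7 : 648 * (k * k) ≤ k ^ 7 := by
    have e : k ^ 7 = k ^ 5 * (k * k) := by ring
    rw [e]
    exact Nat.mul_le_mul_right _ (by omega)
  have hkk : k ≤ k * k := Nat.le_mul_of_pos_left _ (by omega)
  refine ⟨_, _, ?_, ?_, key⟩
  · refine le_trans ?_ h7
    have e : 3 * (8 * k * (3 * (8 * k + 1))) = 576 * (k * k) + 72 * k := by ring
    rw [e]
    omega
  · omega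

/-- FAR-3. -/
theorem far3 : SQD.Far3S := far3_of loopS

end Pool.Agent.Lib.MP_688fd0_co.SQ5.H95
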