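import Pool.Agent.Lib.MP_688fd0_co.SQ5.H95.FarB
import Pool.Agent.Lib.MP_688fd0_co.SQ5.H59.Degen

/-!
FARC: from `SQD.Tri` to the three letters: `xl`, `B3`, `Trip` (data for one choice of the letters), non commutation.
-/

set_option autoImplicit false

namespace Pool.Agent.Lib.MP_688fd0_co.SQ5.H95

open Function Pool.Agent.Lib.MP_688fd0_co.OSF H64 H76
open Pool.Agent.Lib.MP_688fd0_co.SQ3 Pool.Agent.Lib.MP_688fd0_co.SQ5.H58

universe u v

section

variable {Q : Type u} [Group Q] {eps : Q →* ℤˣ} {x : Fin 3 → Q} (Hx : Inv3 eps x) {t a b : Fin 3} (hta : t ≠ a)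
  (htb : t ≠ b) (hab : a ≠ b)

/-- The letters. -/
def xl (x : Fin 3 → Q) (t a b : Fin 3) : L3 → Q
  | .a => x a
  | .b => x b
  | .t => x t

include Hx in
theorem xl_sq (i : L3) : xl x t a b i * xl x t a b i = 1 := by
  cases i
  · exact Hx.inv a
  · exact Hx.inv b
  · exact Hx.inv t

include Hx in
theorem xl_ne (i : L3) : xl x t a b i ≠ 1 := by
  intro h
  have h1 : eps (xl x t a b i) = -1 := by
    cases i
    · exact Hx.neg a
    · exact Hx.neg b
    · exact Hx.neg t
  rw [h, map_one] at h1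
  exact absurd h1 (by decide)

/-- The labels. -/
abbrev BX : Lb.{u, 0} Q := B3 (xl x t a b) (xl_sq Hx) (xl_ne Hx)

include hta htb hab in
theorem three (i : Fin 3) : i = t ∨ i = a ∨ i = b := by
  revert i t a b
  decide

include Hx hta htb hab in
/-- If the square of `a b` is not central in the kernel then `a t` does not commute with it. -/
theorem ncen_at (h : H59.NCen eps ((x a * x b) * (x a * x b))) :
    ¬ ((x a * x t) * ((x a * x b) * (x a * x b)) = ((x a * x b) * (x a * x b)) * (x a * x t)) := by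
  intro hc
  obtain ⟨g, hg, hne⟩ := h
  apply hne
  set s := x a * x b with hs
  set Z := Subgroup.centralizer {s * s} with hZ
  have mem : ∀ y, y ∈ Z ↔ y * (s * s) = (s * s) * y := by
    intro y
    rw [hZ, Subgroup.mem_centralizer_singleton_iff]
  have hsZ : s ∈ Z := by rw [mem]; group
  have h1 : x a * x t ∈ Z := (mem _).2 hc
  have hinv : ∀ i, (x i)⁻¹ = x i := fun i => inv_eq_of_mul_eq_one_right (Hx.inv i)
  have h2 : x b * x t ∈ Z := by
    have h3 := Z.mul_mem (Z.inv_mem hsZ) h1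
    have e : s⁻¹ * (x a * x t) = x b * x t := by
      rw [hs, mul_inv_rev, hinv, hinv, mul_assoc, ← mul_assoc (x a), Hx.inv, one_mul]
    rwa [e] at h3
  have hi : ∀ i, x i * x t ∈ Z := by
    intro i
    rcases three hta htb hab i with rfl | rfl | rfl
    · rw [Hx.inv]; exact Z.one_mem
    · exact h1
    · exact h2
  have step : ∀ (y : Q) (i : Fin 3), ((eps y = 1 → y ∈ Z) ∧ (eps y = -1 → y * x t ∈ Z)) →
      ((eps (y * x i) = 1 → y * x i ∈ Z) ∧ (eps (y * x i) = -1 → y * x i * x t ∈ Z)) := by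
    intro y i ⟨k1, k2⟩
    rw [map_mul, Hx.neg]
    rcases Int.units_eq_one_or (eps y) with h5 | h5
    · rw [h5]
      refine ⟨fun h => absurd h (by decide), fun _ => ?_⟩
      rw [mul_assoc]
      exact Z.mul_mem (k1 h5) (hi i)
    · rw [h5]
      refine ⟨fun _ => ?_, fun h => absurd h (by decide)⟩
      have h6 := Z.mul_mem (k2 h5) (Z.inv_mem (hi i))
      have e : y * x t * (x i * x t)⁻¹ = y * x i := by
        rw [mul_inv_rev, hinv, hinv, mul_assoc, ← mul_assoc (x t), Hx.inv, one_mul]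
      rwa [e] at h6
  have key : ∀ y : Q, (eps y = 1 → y ∈ Z) ∧ (eps y = -1 → y * x t ∈ Z) := by
    intro y
    have hy : y ∈ Subgroup.closure (Set.range x) := by rw [Hx.gen]; exact Subgroup.mem_top y
    induction hy using Subgroup.closure_induction_right with
    | one =>
      refine ⟨fun _ => Z.one_mem, fun h => ?_⟩
      rw [map_one] at h
      exact absurd h (by decide)
    | mul_right y _ i hi' ih =>
      obtain ⟨i, rfl⟩ := hi'
      exact step y i ih
    | mul_inv_cancel y _ i hi' ih =>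
      obtain ⟨i, rfl⟩ := hi'
      rw [hinv]
      exact step y i ih
  exact (mem g).1 ((key g).1 hg)

end

section tri

variable {Q : Type} [Group Q] {N C : Subgroup Q} {eps : Q →* ℤˣ} {k P : ℕ} {a t b : Q} {c₁ : ℕ}

theorem tri_inj (h : SQD.Tri N C eps k P a t b c₁) (hP : 2 ≤ P) : Injective (![a, t, b] : Fin 3 → Q) := by
  have key : ∀ u v : Q, u * u = 1 → P ∣ orderOf (u * v) → u ≠ v := by
    intro u v hu hd e
    rw [← e, hu, orderOf_one] at hd
    have := Nat.le_of_dvd one_pos hd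
    omega
  have h1 : a ≠ t := key a t h.aa h.hat
  have h2 : t ≠ b := key t b h.tt h.htb
  have h3 : a ≠ b := key a b h.aa h.hab
  intro i j hij
  have g1 : (![a, t, b] : Fin 3 → Q) 0 = a := rfl
  have g2 : (![a, t, b] : Fin 3 → Q) 1 = t := rfl
  have g3 : (![a, t, b] : Fin 3 → Q) 2 = b := rfl
  have all : ∀ i : Fin 3, i = 0 ∨ i = 1 ∨ i = 2 := by decide
  rcases all i with rfl | rfl | rfl <;> rcases all j with rfl | rfl | rfl
  · rfl
  · exact absurd hij h1
  · exact absurd hij h3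
  · exact absurd hij.symm h1
  · rfl
  · exact absurd hij h2
  · exact absurd hij.symm h3
  · exact absurd hij.symm h2
  · rfl

omit [Group Q] in
theorem range_tri (a t b : Q) : Set.range (![a, t, b] : Fin 3 → Q) = {a, t, b} := by
  ext y
  simp only [Set.mem_range, Set.mem_insert_iff, Set.mem_singleton_iff]
  constructor
  · rintro ⟨i, rfl⟩
    fin_cases i
    · exact Or.inl rfl
    · exact Or.inr (Or.inl rfl)
    · exact Or.inr (Or.inr rfl)
  · rintro (rfl | rfl | rfl)
    · exact ⟨0, rfl⟩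
    · exact ⟨1, rfl⟩
    · exact ⟨2, rfl⟩

/-- Two of the three squares are not central: two possible letters `t`. -/
theorem two_letters {x : Fin 3 → Q} {eps : Q →* ℤˣ} (hinv : ∀ i, x i * x i = 1)
    (h : (H59.NCen eps ((x 0 * x 2) * (x 0 * x 2)) ∧ H59.NCen eps ((x 1 * x 2) * (x 1 * x 2))) ∨
      (H59.NCen eps ((x 0 * x 2) * (x 0 * x 2)) ∧ H59.NCen eps ((x 0 * x 1) * (x 0 * x 1))) ∨
      (H59.NCen eps ((x 1 * x 2) * (x 1 * x 2)) ∧ H59.NCen eps ((x 0 * x 1) * (x 0 * x 1)))) :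
    ∃ t₁ t₂ : Fin 3, t₁ ≠ t₂ ∧ ∀ s, s = t₁ ∨ s = t₂ → ∀ a b : Fin 3, s ≠ a → s ≠ b → a ≠ b →
      H59.NCen eps ((x a * x b) * (x a * x b)) := by
  have sym : ∀ i j : Fin 3, H59.NCen eps ((x i * x j) * (x i * x j)) → H59.NCen eps ((x j * x i) * (x j * x i)) := by
    rintro i j ⟨g, hg, hne⟩
    refine ⟨g, hg, fun h => hne ?_⟩
    have hi : ∀ i, (x i)⁻¹ = x i := fun i => inv_eq_of_mul_eq_one_right (hinv i)
    have e : (x j * x i) * (x j * x i) = ((x i * x j) * (x i * x j))⁻¹ := by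
      simp only [mul_inv_rev, hi, mul_assoc]
    rw [e] at h
    exact Commute.inv_right_iff.1 h
  have key : ∀ s i j : Fin 3, s ≠ i → s ≠ j → i ≠ j → H59.NCen eps ((x i * x j) * (x i * x j)) →
      ∀ a b : Fin 3, s ≠ a → s ≠ b → a ≠ b → H59.NCen eps ((x a * x b) * (x a * x b)) := by
    intro s i j h1 h2 h3 hn a b h4 h5 h6
    have hall : ∀ s i j a b : Fin 3, s ≠ i → s ≠ j → i ≠ j → s ≠ a → s ≠ b → a ≠ b → (a = i ∧ b = j) ∨ (a = j ∧ b = i) := by
      decide
    rcases hall s i j a b h1 h2 h3 h4 h5 h6 with ⟨rfl, rfl⟩ | ⟨rfl, rfl⟩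
    · exact hn
    · exact sym _ _ hn
  rcases h with ⟨h1, h2⟩ | ⟨h1, h2⟩ | ⟨h1, h2⟩
  · refine ⟨1, 0, by decide, ?_⟩
    rintro s (rfl | rfl)
    · exact key 1 0 2 (by decide) (by decide) (by decide) h1
    · exact key 0 1 2 (by decide) (by decide) (by decide) h2
  · refine ⟨1, 2, by decide, ?_⟩
    rintro s (rfl | rfl)
    · exact key 1 0 2 (by decide) (by decide) (by decide) h1
    · exact key 2 0 1 (by decide) (by decide) (by decide) h2
  · refine ⟨0, 2, by decide, ?_⟩
    rintro s (rfl | rfl)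
    · exact key 0 1 2 (by decide) (by decide) (by decide) h1
    · exact key 2 0 1 (by decide) (by decide) (by decide) h2

end tri

end Pool.Agent.Lib.MP_688fd0_co.SQ5.H95
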