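import Pool.Agent.Lib.MP_688fd0_co.SQ5.H95.Layer

/-!
FLAT: chains of windows and the power trick in the language of diagrams.
-/

set_option autoImplicit false

namespace Pool.Agent.Lib.MP_688fd0_co.SQ5.H95

open Function Equiv H64

universe u

variable {S : Type u} [Finite S] [DecidableEq S] {𝒟 : Set (S × Bool → S × Bool)}

/-- A stack of windows whose composition has the lower pair `{j, k}` and the permutation `σ`, moving only strands of `V`. -/
structure Ch (𝒟 : Set (S × Bool → S × Bool)) (V : Finset S) (m : ℕ) (j k : S) (σ : Perm S) : Prop where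
  stk : StkT 𝒟 m (win j k σ)
  ne : j ≠ k
  hj : j ∈ V
  hk : k ∈ V
  fix : ∀ s, s ∉ V → σ s = s

omit [DecidableEq S] [Finite S] in
theorem Perm.mem_of_fix {V : Finset S} {σ : Perm S} (h : ∀ s, s ∉ V → σ s = s) {s : S} (hs : s ∈ V) : σ s ∈ V := by
  by_contra h1
  have h2 := h _ h1
  have h3 := σ.injective h2
  exact h1 (by rw [h3]; exact hs)

/-- The roles of the lower pair can be exchanged. -/
theorem Ch.comm {V : Finset S} {m : ℕ} {j k : S} {σ : Perm S} (h : Ch 𝒟 V m j k σ) : Ch 𝒟 V m k j σ :=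
  ⟨by rw [win_comm h.ne]; exact h.stk, h.ne.symm, h.hk, h.hj, h.fix⟩

/-- The roles of the upper pair can be exchanged. -/
theorem Ch.swp {V : Finset S} {m : ℕ} {j k : S} {σ : Perm S} (h : Ch 𝒟 V m j k σ) : Ch 𝒟 V m j k (σ * swap j k) := by
  refine ⟨by rw [win_swap h.ne]; exact h.stk, h.ne, h.hj, h.hk, fun s hs => ?_⟩
  have e1 : s ≠ j := fun e => hs (by rw [e]; exact h.hj)
  have e2 : s ≠ k := fun e => hs (by rw [e]; exact h.hk)
  rw [Perm.mul_apply, swap_apply_of_ne_of_ne e1 e2]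
  exact h.fix s hs

/-- Stacking: the upper pair of the first shares exactly the strand `σ k` with the lower pair `{σ k, c}` of the second. -/
theorem Ch.step {V : Finset S} {m n : ℕ} {j k c : S} {σ τ : Perm S} (h : Ch 𝒟 V m j k σ) (h' : Ch 𝒟 V n (σ k) c τ)
    (hc : c ≠ σ j) : Ch 𝒟 V (m + n) j k (τ * swap (σ j) c * σ) := by
  refine ⟨?_, h.ne, h.hj, h.hk, fun s hs => ?_⟩
  · have h1 := StkT.join h.stk h'.stk (noLoop_win h.ne hc h'.ne.symm)
    rw [stk_win h.ne hc h'.ne.symm] at h1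
    exact h1
  · have h1 : σ j ∈ V := Perm.mem_of_fix h.fix h.hj
    rw [Perm.mul_apply, Perm.mul_apply, h.fix s hs,
      swap_apply_of_ne_of_ne (fun e => hs (by rw [e]; exact h1)) (fun e => hs (by rw [e]; exact h'.hk))]
    exact h'.fix s hs

/-- Powers: `σ x = x`, `σ y = z`. -/
theorem Ch.pow {V : Finset S} {m : ℕ} {x y z : S} {σ : Perm S} (h : Ch 𝒟 V m y x σ) (hx : σ x = x) (hy : σ y = z)
    (hyz : y ≠ z) : ∀ n : ℕ, Ch 𝒟 V ((n + 1) * m) y x ((σ * swap z y) ^ (n + 1) * swap z y) := by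
  have e0 : σ = σ * swap z y * swap z y := by rw [mul_assoc, swap_mul_self, mul_one]
  have hxz : x ≠ z := by
    rintro rfl
    exact h.ne (σ.injective (hy.trans hx.symm))
  set π := σ * swap z y with hπ
  have hπx : π x = x := by
    rw [hπ, Perm.mul_apply, swap_apply_of_ne_of_ne hxz h.ne.symm]; exact hx
  have hπz : π z = z := by
    rw [hπ, Perm.mul_apply, swap_apply_left]; exact hy
  have hpow : ∀ n : ℕ, (π ^ n) x = x ∧ (π ^ n) z = z := by
    intro n
    induction n with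
    | zero => exact ⟨rfl, rfl⟩
    | succ n ih =>
      have g1 : (π ^ (n + 1)) x = (π ^ n) (π x) := by rw [pow_succ]; rfl
      have g2 : (π ^ (n + 1)) z = (π ^ n) (π z) := by rw [pow_succ]; rfl
      rw [g1, g2, hπx, hπz]
      exact ih
  intro n
  induction n with
  | zero =>
    rw [zero_add, pow_one, one_mul, ← e0]
    exact h
  | succ n ih =>
    have e1 : (π ^ (n + 1) * swap z y) x = x := by
      rw [Perm.mul_apply, swap_apply_of_ne_of_ne hxz h.ne.symm]
      exact (hpow _).1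
    have e2 : (π ^ (n + 1) * swap z y) y = z := by
      rw [Perm.mul_apply, swap_apply_right]
      exact (hpow _).2
    have h1 : Ch 𝒟 V m ((π ^ (n + 1) * swap z y) x) y σ := by rw [e1]; exact h.comm
    have h2 := ih.step h1 (by rw [e2]; exact hyz)
    rw [e2] at h2
    have e3 : σ * swap z y * (π ^ (n + 1) * swap z y) = π ^ (n + 1 + 1) * swap z y := by
      rw [← hπ, ← mul_assoc, ← pow_succ']
    rw [e3] at h2
    have e4 : (n + 1) * m + m = (n + 1 + 1) * m := by ring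
    rw [e4] at h2
    exact h2

/-- POWER TRICK: a window (or chain) with the lower pair `{x, y}` and the upper pair `{x, z}` gives the flat P3. -/
theorem Ch.flat {V : Finset S} {m : ℕ} {x y z : S} {σ : Perm S} (h : Ch 𝒟 V m x y σ)
    (hup : (σ x = x ∧ σ y = z) ∨ (σ x = z ∧ σ y = x)) (hyz : y ≠ z) : StkT 𝒟 (V.card.factorial * m) (p3 x y z) := by
  classical
  have key : ∀ σ : Perm S, Ch 𝒟 V m x y σ → σ x = x → σ y = z → StkT 𝒟 (V.card.factorial * m) (p3 x y z) := by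
    intro σ h hx hy
    have hπ : ∀ s, s ∉ V → (σ * swap z y) s = s := by
      intro s hs
      have hz : z ∈ V := by rw [← hy]; exact Perm.mem_of_fix h.fix h.hk
      have e1 : s ≠ z := fun e => hs (by rw [e]; exact hz)
      have e2 : s ≠ y := fun e => hs (by rw [e]; exact h.hk)
      rw [Perm.mul_apply, swap_apply_of_ne_of_ne e1 e2]
      exact h.fix s hs
    have hone : (σ * swap z y) ^ V.card.factorial = 1 := by
      -- restrict to `V`
      have hmem : ∀ s, s ∈ V ↔ (σ * swap z y) s ∈ V := by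
        intro s
        constructor
        · exact fun hs => Perm.mem_of_fix hπ hs
        · intro hs
          by_contra hn
          rw [hπ s hn] at hs
          exact hn hs
      let ρ : Perm {s // s ∈ V} := (σ * swap z y).subtypePerm fun s => (hmem s).symm
      have hρ : ρ ^ V.card.factorial = 1 := by
        rw [← orderOf_dvd_iff_pow_eq_one]
        have h1 := orderOf_dvd_card (x := ρ)
        rw [Fintype.card_perm, Fintype.card_coe] at h1
        exact h1
      have hρk : ∀ (n : ℕ) (s : {s // s ∈ V}), ((ρ ^ n) s : S) = ((σ * swap z y) ^ n) s := by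
        intro n
        induction n with
        | zero => intro s; rfl
        | succ n ih => intro s; rw [pow_succ, pow_succ, Perm.mul_apply, Perm.mul_apply, ih]; rfl
      ext s
      by_cases hs : s ∈ V
      · rw [← hρk _ ⟨s, hs⟩, hρ]
        rfl
      · have : ∀ n : ℕ, ((σ * swap z y) ^ n) s = s := by
          intro n
          induction n with
          | zero => rfl
          | succ n ih => rw [pow_succ, Perm.mul_apply, hπ s hs, ih]
        rw [this]
        rfl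
    obtain ⟨n, hn⟩ : ∃ n, V.card.factorial = n + 1 := ⟨V.card.factorial - 1, by
      have := V.card.factorial_pos
      omega⟩
    have h1 := (h.comm.pow hx hy hyz n).stk
    rw [← hn, hone, one_mul, win_comm h.ne, swap_comm] at h1
    exact h1
  rcases hup with ⟨h1, h2⟩ | ⟨h1, h2⟩
  · exact key σ h h1 h2
  · refine key (σ * swap x y) h.swp ?_ ?_
    · rw [Perm.mul_apply, swap_apply_left]; exact h2
    · rw [Perm.mul_apply, swap_apply_right]; exact h1

/-- The pairs `{c, d}` and `{a, b}` share exactly one strand. -/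
def Sh (c d a b : S) : Prop := (d = a ∧ c ≠ b) ∨ (d = b ∧ c ≠ a) ∨ (c = a ∧ d ≠ b) ∨ (c = b ∧ d ≠ a)

/-- The unordered pairs are equal. -/
def Eq2 (c d a b : S) : Prop := (c = a ∧ d = b) ∨ (c = b ∧ d = a)

omit [Finite S] [DecidableEq S] in
theorem Eq2.sh {c d a b x y : S} (h : Eq2 c d a b) (h' : Sh a b x y) : Sh c d x y := by
  rcases h with ⟨rfl, rfl⟩ | ⟨rfl, rfl⟩
  · exact h'
  · rcases h' with h' | h' | h' | h'
    · exact Or.inr (Or.inr (Or.inl h'))
    · exact Or.inr (Or.inr (Or.inr h'))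
    · exact Or.inl h'
    · exact Or.inr (Or.inl h')

/-- Stacking two windows which share exactly one strand. -/
theorem Ch.step' {V : Finset S} {m n : ℕ} {j k a b : S} {σ τ : Perm S} (h : Ch 𝒟 V m j k σ) (h' : Ch 𝒟 V n a b τ)
    (hs : Sh (σ j) (σ k) a b) : ∃ ρ, Ch 𝒟 V (m + n) j k ρ ∧ Eq2 (ρ j) (ρ k) (τ a) (τ b) := by
  have key : ∀ {σ τ : Perm S} {a b : S}, Ch 𝒟 V m j k σ → Ch 𝒟 V n a b τ → σ k = a → σ j ≠ b →
      ∃ ρ, Ch 𝒟 V (m + n) j k ρ ∧ ρ j = τ b ∧ ρ k = τ a := by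
    intro σ τ a b h h' h1 h2
    subst h1
    refine ⟨_, h.step h' h2.symm, ?_, ?_⟩
    · rw [Perm.mul_apply, Perm.mul_apply, swap_apply_left]
    · rw [Perm.mul_apply, Perm.mul_apply, swap_apply_of_ne_of_ne (fun e => h.ne (σ.injective e).symm) h'.ne]
  have e1 : (σ * swap j k) k = σ j := by rw [Perm.mul_apply, swap_apply_right]
  have e2 : (σ * swap j k) j = σ k := by rw [Perm.mul_apply, swap_apply_left]
  rcases hs with ⟨h1, h2⟩ | ⟨h1, h2⟩ | ⟨h1, h2⟩ | ⟨h1, h2⟩
  · obtain ⟨ρ, g1, g2, g3⟩ := key h h' h1 h2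
    exact ⟨ρ, g1, Or.inr ⟨g2, g3⟩⟩
  · obtain ⟨ρ, g1, g2, g3⟩ := key h h'.comm h1 h2
    exact ⟨ρ, g1, Or.inl ⟨g2, g3⟩⟩
  · obtain ⟨ρ, g1, g2, g3⟩ := key h.swp h' (e1.trans h1) (by rw [e2]; exact h2)
    exact ⟨ρ, g1, Or.inr ⟨g2, g3⟩⟩
  · obtain ⟨ρ, g1, g2, g3⟩ := key h.swp h'.comm (e1.trans h1) (by rw [e2]; exact h2)
    exact ⟨ρ, g1, Or.inl ⟨g2, g3⟩⟩

/-- CHAIN: windows `0 .. l`, consecutive ones share exactly one strand. -/
theorem Ch.chain {V : Finset S} {m : ℕ} (a b : ℕ → S) (τ : ℕ → Perm S) (l : ℕ)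
    (h : ∀ i ≤ l, Ch 𝒟 V m (a i) (b i) (τ i))
    (hs : ∀ i < l, Sh (τ i (a i)) (τ i (b i)) (a (i + 1)) (b (i + 1))) :
    ∃ ρ, Ch 𝒟 V ((l + 1) * m) (a 0) (b 0) ρ ∧ Eq2 (ρ (a 0)) (ρ (b 0)) (τ l (a l)) (τ l (b l)) := by
  induction l with
  | zero => exact ⟨τ 0, by rw [zero_add, one_mul]; exact h 0 le_rfl, Or.inl ⟨rfl, rfl⟩⟩
  | succ l ih =>
    obtain ⟨ρ, h1, h2⟩ := ih (fun i hi => h i (by omega)) fun i hi => hs i (by omega)
    obtain ⟨ρ', h3, h4⟩ := h1.step' (h (l + 1) le_rfl) (h2.sh (hs l (by omega)))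
    refine ⟨ρ', ?_, h4⟩
    have : (l + 1 + 1) * m = (l + 1) * m + m := by ring
    rw [this]
    exact h3

/-- CHAIN + POWER: the last upper pair is `{x, z}`, the first lower pair is `{x, y}`. -/
theorem flat_of_chain {V : Finset S} {m : ℕ} (a b : ℕ → S) (τ : ℕ → Perm S) (l : ℕ)
    (h : ∀ i ≤ l, Ch 𝒟 V m (a i) (b i) (τ i))
    (hs : ∀ i < l, Sh (τ i (a i)) (τ i (b i)) (a (i + 1)) (b (i + 1))) {x y z : S} (h0 : Eq2 x y (a 0) (b 0))
    (hl : Eq2 (τ l (a l)) (τ l (b l)) x z) (hyz : y ≠ z) :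
    StkT 𝒟 (V.card.factorial * ((l + 1) * m)) (p3 x y z) := by
  obtain ⟨ρ, h1, h2⟩ := Ch.chain a b τ l h hs
  have h3 : Eq2 (ρ (a 0)) (ρ (b 0)) x z := by
    rcases h2 with ⟨e1, e2⟩ | ⟨e1, e2⟩ <;> rcases hl with ⟨e3, e4⟩ | ⟨e3, e4⟩
    · exact Or.inl ⟨e1.trans e3, e2.trans e4⟩
    · exact Or.inr ⟨e1.trans e3, e2.trans e4⟩
    · exact Or.inr ⟨e1.trans e4, e2.trans e3⟩
    · exact Or.inl ⟨e1.trans e4, e2.trans e3⟩
  rcases h0 with ⟨rfl, rfl⟩ | ⟨rfl, rfl⟩
  · exact h1.flat h3 hyz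
  · refine h1.comm.flat ?_ hyz
    rcases h3 with ⟨e1, e2⟩ | ⟨e1, e2⟩
    · exact Or.inr ⟨e2, e1⟩
    · exact Or.inl ⟨e2, e1⟩

end Pool.Agent.Lib.MP_688fd0_co.SQ5.H95
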