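import Pool.Agent.Lib.MP_688fd0_co.SQ5.H95.Bands
import Pool.Agent.Lib.MP_688fd0_co.SQ5.H95.Flat
import Pool.Agent.Lib.MP_688fd0_co.SQ5.H64.Power

/-!
ARCC: arcs from connectivity outside of the layers; the family of stacks is closed (helper64's format).
-/

set_option autoImplicit false

namespace Pool.Agent.Lib.MP_688fd0_co.SQ5.H95

open Function Pool.Agent.Lib.MP_688fd0_co.OSF H64

universe u v w t

/-- The stacks are closed in the sense of helper64. -/
theorem closed_stkT {S : Type u} [Finite S] (𝒟 : Set (S × Bool → S × Bool)) :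
    Closed fun n => {d | StkT 𝒟 n d} := fun _ _ _ _ h1 h2 h3 => StkT.join h1 h2 h3

variable {G : Type u} [Group G] {B : Lb.{u, v} G}

/-- Two ports which are connected outside of `W` are joined by an arc. -/
theorem HF.arc_of_cn [Finite G] (F : HF B) {W : G → Prop} {p p' : F.X} (hp : F.Port W p) (hp' : F.Port W p')
    (hne : p' ≠ p) (h : H22.Cn F.Ed {x | ¬ W x} (F.vt p) (F.vt p')) : F.Arc W p p' := by
  obtain ⟨n, hit⟩ := F.port_hit (W := W) (d := p) (Or.inr hp.2)
  have hin : ∀ j ≤ n, ¬ W (F.vt (F.stp^[j] (F.ot p))) := F.vt_out (e := F.ot p) hp.1 hit.2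
  have key : ∀ y, H22.Cn F.Ed {x | ¬ W x} (F.vt p) y → ∃ j, j ≤ n ∧ F.vt (F.stp^[j] (F.ot p)) = y := by
    intro y hy
    induction hy with
    | refl => exact ⟨0, Nat.zero_le _, rfl⟩
    | @tail b c _ hs ih =>
      obtain ⟨j, hj, hb⟩ := ih
      obtain ⟨⟨g, hg, rfl⟩, -, hc⟩ := hs
      rcases F.two_darts (d := F.stp^[j] (F.ot p)) (d' := ⟨(b, g), hg⟩) hb.symm with h1 | h1
      · -- forward
        have hlt : j < n := by
          rcases Nat.lt_or_ge j n with h2 | h2
          · exact h2
          · exfalso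
            have e : j = n := le_antisymm hj h2
            rcases hit.1 with h3 | h3
            · exact hin n le_rfl h3
            · rw [← e, ← h1] at h3
              exact hc h3
        refine ⟨j + 1, hlt, ?_⟩
        rw [Function.iterate_succ_apply', ← h1]
        rfl
      · -- backward
        rcases Nat.eq_zero_or_pos j with h0 | h0
        · exfalso
          subst h0
          have h2 : (⟨(b, g), hg⟩ : F.X) = p := by rw [h1]; exact F.ot_ot p
          have h3 : W (F.vt (F.pr p)) := hp.2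
          rw [← h2] at h3
          exact hc h3
        · obtain ⟨i, rfl⟩ : ∃ i, j = i + 1 := ⟨j - 1, by omega⟩
          refine ⟨i, by omega, ?_⟩
          rw [Function.iterate_succ_apply', F.ot_stp] at h1
          have h2 : F.vt (F.pr ⟨(b, g), hg⟩) = F.vt (F.stp^[i] (F.ot p)) := by rw [h1, F.pr_pr]
          exact h2.symm
  obtain ⟨j, hj, hv⟩ := key _ h
  have hin' : F.In W p' := Or.inr hp'.2
  rcases F.two_darts (d := F.stp^[j] (F.ot p)) (d' := p') hv.symm with h1 | h1
  · have hjn : j = n := by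
      rcases Nat.lt_or_ge j n with h2 | h2
      · exact absurd (by rw [← h1]; exact hin') (hit.2 j h2)
      · exact le_antisymm hj h2
    exact ⟨n, hit, by rw [← hjn, h1]⟩
  · exfalso
    rcases Nat.eq_zero_or_pos j with h0 | h0
    · subst h0
      exact hne (h1.trans (F.ot_ot p))
    · obtain ⟨i, rfl⟩ : ∃ i, j = i + 1 := ⟨j - 1, by omega⟩
      rw [Function.iterate_succ_apply', F.ot_stp] at h1
      rw [h1, F.in_pr] at hin'
      exact hit.2 i (by omega) hin'

/-- The vertex of a dart on an arc, from connectivity. -/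
theorem HF.arc_vt_of_cn [Finite G] (F : HF B) {W : G → Prop} {p : F.X} (hp : F.Port W p) {z : G}
    (h : H22.Cn F.Ed {x | ¬ W x} (F.vt p) z) :
    ∃ l, F.Hit W (F.ot p) l ∧ ∃ j, j ≤ l ∧ F.vt (F.stp^[j] (F.ot p)) = z := by
  obtain ⟨n, hit⟩ := F.port_hit (W := W) (d := p) (Or.inr hp.2)
  refine ⟨n, hit, ?_⟩
  have hin : ∀ j ≤ n, ¬ W (F.vt (F.stp^[j] (F.ot p))) := F.vt_out (e := F.ot p) hp.1 hit.2
  induction h with
  | refl => exact ⟨0, Nat.zero_le _, rfl⟩
  | @tail b c _ hs ih =>
    obtain ⟨j, hj, hb⟩ := ih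
    obtain ⟨⟨g, hg, rfl⟩, -, hc⟩ := hs
    rcases F.two_darts (d := F.stp^[j] (F.ot p)) (d' := ⟨(b, g), hg⟩) hb.symm with h1 | h1
    · have hlt : j < n := by
        rcases Nat.lt_or_ge j n with h2 | h2
        · exact h2
        · exfalso
          have e : j = n := le_antisymm hj h2
          rcases hit.1 with h3 | h3
          · exact hin n le_rfl h3
          · rw [← e, ← h1] at h3
            exact hc h3
      refine ⟨j + 1, hlt, ?_⟩
      rw [Function.iterate_succ_apply', ← h1]
      rfl
    · rcases Nat.eq_zero_or_pos j with h0 | h0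
      · exfalso
        subst h0
        have h2 : (⟨(b, g), hg⟩ : F.X) = p := by rw [h1]; exact F.ot_ot p
        have h3 : W (F.vt (F.pr p)) := hp.2
        rw [← h2] at h3
        exact hc h3
      · obtain ⟨i, rfl⟩ : ∃ i, j = i + 1 := ⟨j - 1, by omega⟩
        refine ⟨i, by omega, ?_⟩
        rw [Function.iterate_succ_apply', F.ot_stp] at h1
        have h2 : F.vt (F.pr ⟨(b, g), hg⟩) = F.vt (F.stp^[i] (F.ot p)) := by rw [h1, F.pr_pr]
        exact h2.symm

end Pool.Agent.Lib.MP_688fd0_co.SQ5.H95
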