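import Pool.Agent.Lib.MP_688fd0_co.SQ5.H95.OfHF
import Pool.Agent.Lib.MP_688fd0_co.SQ5.H69.StarG

/-!
BANDS: the whole single lift argument in one statement. A 2-factor `F`; regions `r` = bands of `n r` layers; every layer
realizes the elementary diagrams `𝒟 r`; the flat P3's of a connected strand graph with degrees >= 3 are stacks of elementary
diagrams; three direct arcs between neighbouring regions. Then the group has a listing sequence.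
-/

set_option autoImplicit false

namespace Pool.Agent.Lib.MP_688fd0_co.SQ5.H95

open Function Pool.Agent.Lib.MP_688fd0_co.OSF H64
open Pool.Agent.Lib.MP_688fd0_co.SQ4.H49 (Inv gl gl_inv)

universe u v w t

/-- STAR is Sep. -/
theorem sep_of_star {P : Type*} {D : Set (P → P)} (hD : ∀ d ∈ D, IsPair d) (h : H64.Star D) : SQ4.H49.Sep D := by
  intro O hO e₁ e₂ h1 h2
  obtain ⟨d, hd, h3⟩ := h O ⟨fun x => (hO x).1, fun x => (hO x).2⟩ e₁ e₂ h1 h2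
  refine ⟨d, hd, fun e => ?_⟩
  have key : ∀ x y, Con O d x y → SQ4.H49.Con O d x y := by
    intro x y hxy
    induction hxy with
    | refl => exact SQ4.H49.Con.rfl'
    | tail _ hs ih =>
      rcases hs with rfl | rfl
      · exact ih.trans (SQ4.H49.con_left _ _ _)
      · exact ih.trans (SQ4.H49.con_right _ _ _)
  rcases h3 e with h4 | h4
  · exact Or.inl (key _ _ h4).symm
  · exact Or.inr (key _ _ h4).symm

variable {G : Type u} [Group G] {B : Lb.{u, v} G}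

/-- The arc of the port `d` ends in the port `d'`. -/
def HF.Arc (F : HF B) (W : G → Prop) (d d' : F.X) : Prop := ∃ j, F.Hit W (F.ot d) j ∧ F.stp^[j] (F.ot d) = d'

theorem HF.O_of_arc [Finite G] (F : HF B) {W : G → Prop} {d d' : F.E W} (h : F.Arc W d.1 d'.1) : F.O d = d' := by
  obtain ⟨j, hj, e⟩ := h
  have h1 : F.len d = j := (F.len_spec d).unique F hj
  refine Subtype.ext ?_
  show F.stp^[F.len d] (F.ot d.1) = d'.1
  rw [h1, e]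

/-- An arc from a label word. -/
theorem HF.arc_of_run (F : HF B) {W : G → Prop} {x : G} {g h : B.L} (hg : g ∈ F.H x) {l : List B.L}
    (hr : F.Run x g l h) (hv : ∀ y ∈ B.verts x l, ¬ W y) (hW : W (B.fin x l * B.q h)) :
    F.Arc W ⟨(x, g), hg⟩ ⟨(B.fin x l, h), hr.last⟩ := by
  obtain ⟨a1, a2, -⟩ := F.run_hit l x g h hg hr hv hW
  exact ⟨l.length, a1, a2⟩

/-- Bands of layers in a 2-factor. -/
structure Bands [Fintype G] [DecidableEq G] (A : Set G) (F : HF B) (R : Type w) (S : R → Type t) (n : R → ℕ)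
    (𝒟 : ∀ r, Set (S r × Bool → S r × Bool)) where
  /-- the vertices of the layers -/
  Z : (Σ r, Fin (n r)) → Finset G
  disj : ∀ a b x, x ∈ Z a → x ∈ Z b → a = b
  comp : ∀ x, (∀ a, x ∉ Z a) → ∃ a, ∃ y ∈ Z a, F.C x y
  /-- the boundary darts, from outside into the layer; `false` = below, `true` = above -/
  pd : ∀ a : (Σ r, Fin (n r)), S a.1 × Bool → F.X
  pd_inj : ∀ a, Injective (pd a)
  pd_out : ∀ a p b, F.vt (pd a p) ∉ Z b
  pd_in : ∀ a p, F.vt (F.pr (pd a p)) ∈ Z a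
  pd_ex : ∀ a (d : F.X), F.vt d ∉ Z a → F.vt (F.pr d) ∈ Z a → ∃ p, pd a p = d
  pd_A : ∀ a p, B.q (pd a p).1.2 ∈ A
  hn : ∀ r, 0 < n r
  pair : ∀ r, ∀ d ∈ 𝒟 r, IsPair d
  /-- direct arcs between consecutive layers -/
  link : ∀ r (k : ℕ) (h : k + 1 < n r) (s : S r), F.Arc (fun x => ∃ a, x ∈ Z a)
    (pd ⟨r, ⟨k, Nat.lt_of_succ_lt h⟩⟩ (s, true)) (pd ⟨r, ⟨k + 1, h⟩⟩ (s, false))
  /-- every elementary diagram is realized in every layer -/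
  real : ∀ a : (Σ r, Fin (n r)), ∀ d ∈ 𝒟 a.1, ∃ F' : HF B, (∀ x, x ∉ Z a → F'.H x = F.H x) ∧ (∀ x ∈ Z a, ∀ g ∈ F'.H x, B.q g ∈ A) ∧
    H22.Real F'.Ed (Z a : Set G) (fun s => F.vt (F.pr (pd a (s, false)))) (fun s => F.vt (F.pr (pd a (s, true)))) d

namespace Bands

variable [Fintype G] [DecidableEq G] {A : Set G} {F : HF B} {R : Type w} {S : R → Type t} {n : R → ℕ}
  {𝒟 : ∀ r, Set (S r × Bool → S r × Bool)} (Y : Bands A F R S n 𝒟)

/-- The inside vertices. -/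
def W (x : G) : Prop := ∃ a, x ∈ Y.Z a

theorem port (a : Σ r, Fin (n r)) (p : S a.1 × Bool) : F.Port Y.W (Y.pd a p) :=
  ⟨fun ⟨b, hb⟩ => Y.pd_out a p b hb, ⟨a, Y.pd_in a p⟩⟩

/-- All ports. -/
noncomputable def φ : FP S n ≃ F.E Y.W :=
  Equiv.ofBijective (fun x : FP S n => (⟨Y.pd x.1 x.2, Y.port x.1 x.2⟩ : F.E Y.W)) (by
    constructor
    · rintro ⟨a, p⟩ ⟨b, q⟩ h
      have h1 : Y.pd a p = Y.pd b q := congrArg Subtype.val h
      have hab : a = b := Y.disj a b _ (Y.pd_in a p) (by rw [h1]; exact Y.pd_in b q)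
      subst hab
      rw [Y.pd_inj a h1]
    · rintro ⟨d, hd1, ⟨a, ha⟩⟩
      obtain ⟨p, hp⟩ := Y.pd_ex a d (fun h => hd1 ⟨a, h⟩) ha
      exact ⟨⟨a, p⟩, Subtype.ext hp⟩)

theorem φ_val (a : Σ r, Fin (n r)) (p : S a.1 × Bool) : (Y.φ ⟨a, p⟩).1 = Y.pd a p := rfl

variable [Fintype R] [∀ r, Fintype (S r)]

/-- The fine system. -/
noncomputable def sys : Sys A F Y.W (fun a : (Σ r, Fin (n r)) => S a.1 × Bool) Y.Z fun a => 𝒟 a.1 where
  mem _ := Iff.rfl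
  disj := Y.disj
  comp x hx := by
    obtain ⟨a, y, hy, hc⟩ := Y.comp x fun a ha => hx ⟨a, ha⟩
    exact ⟨y, ⟨a, hy⟩, hc⟩
  φ := Y.φ
  fam a d hd := by
    obtain ⟨F', h1, h2, h3⟩ := Y.real a d hd
    refine pfam_of_real F F' (Y.Z a) (Y.pd a) (Y.pd_inj a) (fun p => Y.pd_out a p a) _ _ ?_ (Y.pd_ex a) h1
      (Y.pair a.1 d hd) h3 A h2 (Y.pd_A a)
    rintro ⟨s, _ | _⟩
    · rw [H22.pt_lo]
    · rw [H22.pt_up]

theorem out_eq {x y : FP S n} (h : F.Arc Y.W (Y.pd x.1 x.2) (Y.pd y.1 y.2)) : Y.sys.out x = y := by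
  show Y.φ.symm (F.O (Y.φ x)) = y
  rw [Equiv.symm_apply_eq]
  exact F.O_of_arc h

theorem slink : Link Y.sys.out := fun r k h s => Y.out_eq (Y.link r k h s)

/-- The dart of a coarse port. -/
def dt (x : Σ r, S r × Bool) : F.X := Y.pd (ed Y.hn x).1 (ed Y.hn x).2

/-- The outside pairing of the bands. -/
noncomputable def out : (Σ r, S r × Bool) → Σ r, S r × Bool := outB Y.hn Y.sys.out_inv Y.slink

theorem out_of_arc {x y : Σ r, S r × Bool} (h : F.Arc Y.W (Y.dt x) (Y.dt y)) : Y.out x = y := by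
  apply ed_inj Y.hn
  show ed Y.hn (outB Y.hn Y.sys.out_inv Y.slink x) = _
  rw [ed_outB]
  exact Y.out_eq h

/-- The insides of the bands. -/
def K (r : R) : Set (S r × Bool → S r × Bool) := {d | StkT (𝒟 r) (n r) d}

include Y in
/-- The regions have property Sep. -/
theorem sep [∀ r, DecidableEq (S r)] (Λ : ∀ r, SimpleGraph (S r)) (m : R → ℕ) (hΛ : ∀ r, (Λ r).Connected)
    (hdeg : ∀ r s, ∃ a b c, a ≠ b ∧ a ≠ c ∧ b ≠ c ∧ (Λ r).Adj s a ∧ (Λ r).Adj s b ∧ (Λ r).Adj s c)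
    (hi : ∀ r, idd ∈ 𝒟 r)
    (hp : ∀ r x y z, (Λ r).Adj x y → (Λ r).Adj x z → y ≠ z → StkT (𝒟 r) (m r) (p3 x y z))
    (hm : ∀ r, (4 * Nat.card (S r) ^ 2 + 1) * m r ≤ n r) (r : R) : SQ4.H49.Sep (K (n := n) (𝒟 := 𝒟) r) := by
  have hstar := H69.starG (hΛ r) (hdeg r)
  -- the P3's
  have hsub : {d : S r × Bool → S r × Bool | ∃ k ≤ 4 * Nat.card (S r) ^ 2, H69.Stk (Λ r) k d} ⊆
      K (n := n) (𝒟 := 𝒟) r := by
    rintro d ⟨k, hk, hd⟩
    let PP : Set (S r × Bool → S r × Bool) := {d | d = idd ∨ ∃ x y z, (Λ r).Adj x y ∧ (Λ r).Adj x z ∧ y ≠ z ∧ d = p3 x y z}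
    have h1 : StkT PP (k + 1) d :=
      StkT.ofStk (Or.inl rfl) (fun x y z h1 h2 h3 => Or.inr ⟨x, y, z, h1, h2, h3, rfl⟩) hd
    have hmpos : 0 < m r := by
      obtain ⟨s⟩ := (hΛ r).nonempty
      obtain ⟨a, b, c, hab, -, -, ha, hb, -⟩ := hdeg r s
      exact (hp r s a b ha hb hab).pos
    have h2 : ∀ e ∈ PP, StkT (𝒟 r) (m r) e := by
      rintro e (rfl | ⟨x, y, z, h3, h4, h5, rfl⟩)
      · exact StkT.mono (Y.pair r) (hi r) (StkT.one (hi r)) hmpos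
      · exact hp r x y z h3 h4 h5
    refine StkT.mono (Y.pair r) (hi r) (StkT.trans h2 h1) (le_trans ?_ (hm r))
    exact Nat.mul_le_mul_right _ (by omega)
  exact (sep_of_star (fun d hd => by
    obtain ⟨k, -, hd⟩ := hd
    exact hd.pair) hstar).mono hsub

/-- Three direct arcs between two bands, none of them in `X`. -/
def Adj3 (X : Set (Σ r, S r × Bool)) (r r' : R) : Prop :=
  ∃ (p : Fin 3 → S r × Bool) (q : Fin 3 → S r' × Bool), Injective p ∧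
    ∀ l, F.Arc Y.W (Y.dt ⟨r, p l⟩) (Y.dt ⟨r', q l⟩) ∧ (⟨r, p l⟩ : Σ r, S r × Bool) ∉ X ∧
      (⟨r', q l⟩ : Σ r, S r × Bool) ∉ X

/-- All bands form one cluster. -/
theorem clu [∀ r, DecidableEq (S r)] (hsep : ∀ r, SQ4.H49.Sep (K (n := n) (𝒟 := 𝒟) r)) (hne : ∀ r, (𝒟 r).Nonempty)
    (hi : ∀ r, idd ∈ 𝒟 r) (h3 : ∀ r, ∃ p : Fin 3 → S r × Bool, Injective p) (X : Set (Σ r, S r × Bool)) (r₀ : R)
    (hconn : ∀ r, Relation.ReflTransGen (Y.Adj3 X) r₀ r) :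
    ∃ J, H12.Clu Y.out (K (n := n) (𝒟 := 𝒟)) Set.univ J ∧ Disjoint J X := by
  have hinv : Inv Y.out := outB_inv Y.hn Y.sys.out_inv Y.slink
  have hone : ∀ r, H12.Clu Y.out (K (n := n) (𝒟 := 𝒟)) {r} ∅ := by
    intro r
    obtain ⟨p, hp⟩ := h3 r
    refine H12.Clu.one (hsep r) (fun k hk => inv_of_pair (hk.pair (Y.pair r))) p hp ?_
    exact ⟨idd, StkT.mono (Y.pair r) (hi r) (StkT.one (hi r)) (Y.hn r)⟩
  obtain ⟨J, hJ, hJX⟩ := H12.Clu.iUnion (ι := R) (S := fun r => ({r} : Set R)) (I := fun _ => ∅) (X := X) hinv hone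
    (by
      intro r r' hrr
      show Disjoint ({r} : Set R) {r'}
      exact Set.disjoint_singleton.2 hrr) (fun _ => Set.empty_disjoint _) r₀ (fun r => by
      induction hconn r with
      | refl => exact Relation.ReflTransGen.refl
      | @tail a b _ hs ih =>
        refine ih.tail ?_
        obtain ⟨p, q, hp, hpq⟩ := hs
        refine ⟨fun l => ⟨a, p l⟩, fun l l' h => hp (eq_of_heq (Sigma.mk.inj h).2), fun l => ?_⟩
        have h4 := Y.out_of_arc (hpq l).1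
        refine ⟨rfl, ?_, (hpq l).2.1, ?_⟩
        · rw [h4]; rfl
        · rw [h4]; exact (hpq l).2.2)
  have : (⋃ r : R, ({r} : Set R)) = Set.univ := by
    ext r
    simp
  rw [this] at hJ
  exact ⟨J, hJ, hJX⟩

/-- MAIN, closed form. -/
theorem lst' [∀ r, DecidableEq (S r)] (hcl : Subgroup.closure A = ⊤) (hA : ∀ d : F.X, B.q d.1.2 ∈ A)
    (Λ : ∀ r, SimpleGraph (S r)) (m : R → ℕ) (hΛ : ∀ r, (Λ r).Connected)
    (hdeg : ∀ r s, ∃ a b c, a ≠ b ∧ a ≠ c ∧ b ≠ c ∧ (Λ r).Adj s a ∧ (Λ r).Adj s b ∧ (Λ r).Adj s c)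
    (hi : ∀ r, idd ∈ 𝒟 r)
    (hp : ∀ r x y z, (Λ r).Adj x y → (Λ r).Adj x z → y ≠ z → StkT (𝒟 r) (m r) (p3 x y z))
    (hm : ∀ r, (4 * Nat.card (S r) ^ 2 + 1) * m r ≤ n r) (r₀ : R)
    (hconn : ∀ r, Relation.ReflTransGen (Y.Adj3 ∅) r₀ r) : Lst A := by
  have h3 : ∀ r, ∃ p : Fin 3 → S r × Bool, Injective p := by
    intro r
    obtain ⟨s⟩ := (hΛ r).nonempty
    obtain ⟨a, b, c, hab, hac, hbc, -⟩ := hdeg r s
    refine ⟨fun i => (![a, b, c] i, true), fun i j h => ?_⟩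
    have h' : ![a, b, c] i = ![a, b, c] j := congrArg Prod.fst h
    revert h'
    fin_cases i <;> fin_cases j <;> simp [hab, hac, hbc, hab.symm, hac.symm, hbc.symm]
  obtain ⟨J, hJ, -⟩ := Y.clu (Y.sep Λ m hΛ hdeg hi hp hm) (fun r => ⟨idd, hi r⟩) hi h3 ∅ r₀ hconn
  exact Y.sys.lst_of_bands' Y.hn Y.slink Y.pair (fun r k hk => hk) hJ hcl hA

/-- MAIN, with one fictitious edge `d₀` on the arc of `a₀`, and a neighbour `z` of its vertex on the arc of `a₁`. -/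
theorem lst [∀ r, DecidableEq (S r)] (Λ : ∀ r, SimpleGraph (S r)) (m : R → ℕ) (hΛ : ∀ r, (Λ r).Connected)
    (hdeg : ∀ r s, ∃ a b c, a ≠ b ∧ a ≠ c ∧ b ≠ c ∧ (Λ r).Adj s a ∧ (Λ r).Adj s b ∧ (Λ r).Adj s c)
    (hi : ∀ r, idd ∈ 𝒟 r)
    (hp : ∀ r x y z, (Λ r).Adj x y → (Λ r).Adj x z → y ≠ z → StkT (𝒟 r) (m r) (p3 x y z))
    (hm : ∀ r, (4 * Nat.card (S r) ^ 2 + 1) * m r ≤ n r) (r₀ : R) (a₀ a₁ : Σ r, S r × Bool)
    (hconn : ∀ r, Relation.ReflTransGen (Y.Adj3 {a₀, a₁}) r₀ r) (h1 : a₁ ≠ a₀) (h2 : a₁ ≠ Y.out a₀)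
    (d₀ : F.X) (hd₀ : ¬ F.In Y.W d₀) (hA : ∀ d : F.X, d ≠ d₀ → d ≠ F.pr d₀ → B.q d.1.2 ∈ A) (z : G)
    (hyz : (F.vt d₀)⁻¹ * z ∈ A) (j₀ j₁ : ℕ) (l₀ : ℕ) (l₁ : ℕ) (he₀ : F.Hit Y.W (F.ot (Y.dt a₀)) l₀) (hj₀ : j₀ ≤ l₀)
    (he₀' : F.stp^[j₀] (F.ot (Y.dt a₀)) = d₀) (he₁ : F.Hit Y.W (F.ot (Y.dt a₁)) l₁) (hj₁ : j₁ ≤ l₁)
    (he₁' : F.vt (F.stp^[j₁] (F.ot (Y.dt a₁))) = z) : Lst A := by
  have h3 : ∀ r, ∃ p : Fin 3 → S r × Bool, Injective p := by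
    intro r
    obtain ⟨s⟩ := (hΛ r).nonempty
    obtain ⟨a, b, c, hab, hac, hbc, -⟩ := hdeg r s
    refine ⟨fun i => (![a, b, c] i, true), fun i j h => ?_⟩
    have h' : ![a, b, c] i = ![a, b, c] j := congrArg Prod.fst h
    revert h'
    fin_cases i <;> fin_cases j <;> simp [hab, hac, hbc, hab.symm, hac.symm, hbc.symm]
  obtain ⟨J, hJ, hJX⟩ := Y.clu (Y.sep Λ m hΛ hdeg hi hp hm) (fun r => ⟨idd, hi r⟩) hi h3 _ r₀ hconn
  have e0 : F.len (Y.sys.φ (ed Y.hn a₀)) = l₀ := (F.len_spec _).unique F he₀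
  have e1 : F.len (Y.sys.φ (ed Y.hn a₁)) = l₁ := (F.len_spec _).unique F he₁
  refine Y.sys.lst_of_bands Y.hn Y.slink Y.pair (fun r k hk => hk) hJ d₀ hd₀ hA a₀ a₁ ⟨j₀, by rw [e0]; exact hj₀, he₀'⟩ z
    hyz ⟨j₁, by rw [e1]; exact hj₁, he₁'⟩ ?_ ?_ h1 h2
  · intro h
    exact Set.disjoint_left.1 hJX h (by simp)
  · intro h
    exact Set.disjoint_left.1 hJX h (by simp)

end Bands

end Pool.Agent.Lib.MP_688fd0_co.SQ5.H95
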