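import Pool.Agent.Lib.MP_688fd0_co.SQ5.H95.BandsV
import Pool.Agent.Lib.MP_688fd0_co.SQ5.H22.GadP

/-!
BANDSR: bands from charts (helper22's `Chart`). The chart of the region `r` has the blocks `0 .. n r * (l r + 1)`; the layer `k`
consists of the blocks `k (l r + 1) + 1 .. k (l r + 1) + l r`; the blocks `k (l r + 1)` are buffers.
-/

set_option autoImplicit false

namespace Pool.Agent.Lib.MP_688fd0_co.SQ5.H95

open Function Pool.Agent.Lib.MP_688fd0_co.OSF H64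
open Pool.Agent.Lib.MP_688fd0_co.SQ4.H49 (Inv gl gl_inv)

universe u v w t

variable {G : Type u} [Group G] {B : Lb.{u, v} G}

namespace HF

variable (F : HF B)

/-- A dart from an edge. -/
noncomputable def dr {x y : G} (h : F.Ed x y) : F.X := ⟨(x, h.choose), h.choose_spec.1⟩

theorem vt_dr {x y : G} (h : F.Ed x y) : F.vt (F.dr h) = x := rfl

theorem vt_pr_dr {x y : G} (h : F.Ed x y) : F.vt (F.pr (F.dr h)) = y := h.choose_spec.2.symm

theorem ed_of_dart (d : F.X) : F.Ed (F.vt d) (F.vt (F.pr d)) := ⟨d.1.2, d.2, rfl⟩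

theorem dr_unique {x y z : G} (h : F.Ed x y) (h' : F.Ed x z) (hne : y ≠ z) {d : F.X} (h1 : F.vt d = x)
    (h2 : F.vt (F.pr d) = y) : F.dr h = d := by
  rcases F.two_darts (d := F.dr h) (d' := d) h1 with h3 | h3
  · exact h3.symm
  · exfalso
    have h4 : F.dr h' ≠ F.dr h := fun h5 => hne (by rw [← F.vt_pr_dr h, ← F.vt_pr_dr h', h5])
    have h5 : F.ot (F.dr h) = F.dr h' := F.ot_eq rfl h4
    rw [h5] at h3
    rw [h3, F.vt_pr_dr h'] at h2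
    exact hne h2.symm

theorem ed_two {x y z w : G} (h : F.Ed x y) (h' : F.Ed x z) (hne : y ≠ z) (hw : F.Ed x w) : w = y ∨ w = z := by
  have h4 : F.dr h' ≠ F.dr h := fun h5 => hne (by rw [← F.vt_pr_dr h, ← F.vt_pr_dr h', h5])
  have h5 : F.ot (F.dr h) = F.dr h' := F.ot_eq rfl h4
  rcases F.two_darts (d := F.dr h) (d' := F.dr hw) rfl with h3 | h3
  · left
    rw [← F.vt_pr_dr hw, h3, F.vt_pr_dr]
  · right
    rw [← F.vt_pr_dr hw, h3, h5, F.vt_pr_dr]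

end HF

/-- The strands of a 2-factor in the blocks `0 .. E`. -/
structure RnF (F : HF B) {S : Type t} (C : H22.Chart G S) (E : ℕ) : Prop where
  hpos : ∀ m s, m ≤ E → 1 ≤ C.h m s
  inj : ∀ m s r m' s' r', m ≤ E → m' ≤ E → r ≤ C.h m s → r' ≤ C.h m' s' → C.Z m s r = C.Z m' s' r' →
    m = m' ∧ s = s' ∧ r = r'
  line : ∀ m s r, m ≤ E → r < C.h m s → F.Ed (C.Z m s r) (C.Z m s (r + 1))
  gate : ∀ m s, m < E → F.Ed (C.Z m s (C.h m s)) (C.Z (m + 1) s 0)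

theorem RnF.of_rn {S : Type t} {T : H22.Tri B} {P : G → G} {C : H22.Chart G S} {E : ℕ} (H : H22.Rn T P C E)
    (hii : ∀ g, B.inv (B.inv g) = g) : RnF (H.mch.hf hii) C E where
  hpos := H.hpos
  inj := H.inj
  line m s r h1 h2 := (H.mch.ed hii).2 ⟨(H.line m s r h1 h2).1, (H.line m s r h1 h2).2.symm⟩
  gate m s h := (H.mch.ed hii).2 ⟨(H.gate m s h).1, (H.gate m s h).2.symm⟩

namespace RnF

variable {F : HF B} {S : Type t} {C : H22.Chart G S} {E : ℕ} (H : RnF F C E)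

include H

/-- The neighbours of a vertex of the chart. -/
theorem nb {m : ℕ} {s : S} {i : ℕ} (h1 : 1 ≤ m) (h2 : m < E) (hi : i ≤ C.h m s) {y : G} (hy : F.Ed (C.Z m s i) y) :
    (i < C.h m s ∧ y = C.Z m s (i + 1)) ∨ (i = C.h m s ∧ y = C.Z (m + 1) s 0) ∨
      (0 < i ∧ y = C.Z m s (i - 1)) ∨ (i = 0 ∧ y = C.Z (m - 1) s (C.h (m - 1) s)) := by
  have hnx : ∃ z, F.Ed (C.Z m s i) z ∧ ((i < C.h m s ∧ z = C.Z m s (i + 1)) ∨ (i = C.h m s ∧ z = C.Z (m + 1) s 0)) := by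
    rcases Nat.lt_or_ge i (C.h m s) with h | h
    · exact ⟨_, H.line m s i h2.le h, Or.inl ⟨h, rfl⟩⟩
    · have h' : i = C.h m s := le_antisymm hi h
      refine ⟨C.Z (m + 1) s 0, ?_, Or.inr ⟨h', rfl⟩⟩
      rw [h']
      exact H.gate m s h2
  have hpv : ∃ z, F.Ed (C.Z m s i) z ∧ ((0 < i ∧ z = C.Z m s (i - 1)) ∨
      (i = 0 ∧ z = C.Z (m - 1) s (C.h (m - 1) s))) := by
    rcases Nat.eq_zero_or_pos i with h | h
    · subst h
      have h3 := H.gate (m - 1) s (by omega)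
      rw [show m - 1 + 1 = m by omega] at h3
      exact ⟨_, F.ed_symm h3, Or.inr ⟨rfl, rfl⟩⟩
    · have h3 := H.line m s (i - 1) h2.le (by omega)
      rw [show i - 1 + 1 = i by omega] at h3
      exact ⟨_, F.ed_symm h3, Or.inl ⟨h, rfl⟩⟩
  obtain ⟨z₁, b1, b2⟩ := hnx
  obtain ⟨z₂, c1, c2⟩ := hpv
  have hne : z₁ ≠ z₂ := by
    intro h
    rcases b2 with ⟨b4, b5⟩ | ⟨b4, b5⟩ <;> rcases c2 with ⟨c4, c5⟩ | ⟨c4, c5⟩ <;> rw [b5, c5] at h
    · have := (H.inj _ _ _ _ _ _ (by omega) (by omega) (by omega) (by omega) h).2.2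
      omega
    · have := (H.inj _ _ _ _ _ _ (by omega) (by omega) (by omega) le_rfl h).1
      omega
    · have := (H.inj _ _ _ _ _ _ (by omega) (by omega) (Nat.zero_le _) (by omega) h).1
      omega
    · have := (H.inj _ _ _ _ _ _ (by omega) (by omega) (Nat.zero_le _) le_rfl h).1
      omega
  rcases F.ed_two b1 c1 hne hy with rfl | rfl
  · rcases b2 with h | h
    · exact Or.inl h
    · exact Or.inr (Or.inl h)
  · rcases c2 with h | h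
    · exact Or.inr (Or.inr (Or.inl h))
    · exact Or.inr (Or.inr (Or.inr h))

/-- Along a line. -/
theorem line_cn {m : ℕ} {s : S} (hm : m ≤ E) (Rg : Set G) (hR : ∀ i ≤ C.h m s, C.Z m s i ∈ Rg) (i : ℕ)
    (hi : i ≤ C.h m s) : H22.Cn F.Ed Rg (C.Z m s 0) (C.Z m s i) := by
  induction i with
  | zero => exact Relation.ReflTransGen.refl
  | succ i ih => exact (ih (by omega)).tail ⟨H.line m s i hm (by omega), hR i (by omega), hR (i + 1) hi⟩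

end RnF

/-- Regions given by charts. -/
structure Rgs (F : HF B) (R : Type w) (S : R → Type t) (n : R → ℕ) where
  C : ∀ r, H22.Chart G (S r)
  l : R → ℕ
  hl : ∀ r, 1 ≤ l r
  hn : ∀ r, 0 < n r
  run : ∀ r, RnF F (C r) (n r * (l r + 1))
  /-- the layers of different regions are disjoint, also from the buffers -/
  far : ∀ r r' m (s : S r) i m' (s' : S r') i', r ≠ r' → m ≤ n r * (l r + 1) → i ≤ (C r).h m s →
    m' ≤ n r' * (l r' + 1) → m' % (l r' + 1) ≠ 0 → i' ≤ (C r').h m' s' → (C r).Z m s i ≠ (C r').Z m' s' i'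

namespace Rgs

variable {F : HF B} {R : Type w} {S : R → Type t} {n : R → ℕ} (X : Rgs F R S n)

/-- The lower buffer of a layer. -/
def bs (a : Σ r, Fin (n r)) : ℕ := a.2.1 * (X.l a.1 + 1)

/-- The vertices of a layer. -/
def ZL (a : Σ r, Fin (n r)) : Set G := (X.C a.1).reg (X.bs a + 1) (X.bs a + X.l a.1)

theorem bs_lt (a : Σ r, Fin (n r)) : X.bs a + X.l a.1 + 1 ≤ n a.1 * (X.l a.1 + 1) := by
  have h1 : (a.2.1 + 1) * (X.l a.1 + 1) ≤ n a.1 * (X.l a.1 + 1) := Nat.mul_le_mul_right _ a.2.2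
  have h2 : (a.2.1 + 1) * (X.l a.1 + 1) = X.bs a + X.l a.1 + 1 := by unfold bs; ring
  omega

theorem bs_mod (a : Σ r, Fin (n r)) {m : ℕ} (h1 : X.bs a + 1 ≤ m) (h2 : m ≤ X.bs a + X.l a.1) :
    m % (X.l a.1 + 1) = m - X.bs a ∧ m / (X.l a.1 + 1) = a.2.1 := by
  obtain ⟨j, rfl⟩ : ∃ j, m = X.bs a + j := ⟨m - X.bs a, by omega⟩
  have h3 : j < X.l a.1 + 1 := by omega
  unfold bs
  rw [Nat.mul_comm, Nat.mul_add_mod, Nat.mod_eq_of_lt h3, Nat.mul_add_div (by omega), Nat.div_eq_of_lt h3]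
  omega

theorem mem_ZL {a : Σ r, Fin (n r)} {x : G} : x ∈ X.ZL a ↔ ∃ m s i, X.bs a + 1 ≤ m ∧ m ≤ X.bs a + X.l a.1 ∧
    i ≤ (X.C a.1).h m s ∧ x = (X.C a.1).Z m s i := by
  constructor
  · rintro ⟨m, h1, h2, s, i, h3, h4⟩
    exact ⟨m, s, i, h1, h2, h3, h4⟩
  · rintro ⟨m, s, i, h1, h2, h3, h4⟩
    exact ⟨m, h1, h2, s, i, h3, h4⟩

theorem le_E (a : Σ r, Fin (n r)) {m : ℕ} (h2 : m ≤ X.bs a + X.l a.1) : m ≤ n a.1 * (X.l a.1 + 1) := by
  have := X.bs_lt a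
  omega

theorem disjZ {a b : Σ r, Fin (n r)} {x : G} (ha : x ∈ X.ZL a) (hb : x ∈ X.ZL b) : a = b := by
  obtain ⟨m, s, i, h1, h2, h3, h4⟩ := X.mem_ZL.1 ha
  obtain ⟨m', s', i', h1', h2', h3', h4'⟩ := X.mem_ZL.1 hb
  have e1 := X.bs_lt a
  have e2 := X.bs_lt b
  have q1 := X.le_E a h2
  have q2 := X.le_E b h2'
  by_cases hr : a.1 = b.1
  · obtain ⟨r, k⟩ := a
    obtain ⟨r', k'⟩ := b
    have hr : r = r' := hr
    subst hr
    have e3 := (X.bs_mod ⟨r, k⟩ h1 h2).2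
    have e4 := (X.bs_mod ⟨r, k'⟩ h1' h2').2
    rw [h4] at h4'
    obtain ⟨h5, -, -⟩ := (X.run r).inj m s i m' s' i' q1 q2 h3 h3' h4'
    subst h5
    have : k = k' := Fin.ext (e3.symm.trans e4)
    rw [this]
  · exfalso
    refine X.far a.1 b.1 m s i m' s' i' hr (by omega) h3 (by omega) ?_ h3' (h4.symm.trans h4')
    rw [(X.bs_mod b h1' h2').1]
    omega

/-- The buffers are not in the layers. -/
theorem buf {r : R} {m : ℕ} {s : S r} {i : ℕ} (hm : m ≤ n r * (X.l r + 1)) (hi : i ≤ (X.C r).h m s)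
    (h0 : m % (X.l r + 1) = 0) (b : Σ r, Fin (n r)) : (X.C r).Z m s i ∉ X.ZL b := by
  intro hb
  obtain ⟨m', s', i', h1', h2', h3', h4'⟩ := X.mem_ZL.1 hb
  have e2 := X.bs_lt b
  have e3 := (X.bs_mod b h1' h2').1
  have q2 := X.le_E b h2'
  by_cases hr : r = b.1
  · obtain ⟨r', k'⟩ := b
    have hr : r = r' := hr
    subst hr
    obtain ⟨h5, -, -⟩ := (X.run r).inj m s i m' s' i' hm q2 hi h3' h4'
    subst h5
    have h6 : m % (X.l r + 1) = m - X.bs ⟨r, k'⟩ := e3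
    omega
  · exact X.far r b.1 m s i m' s' i' hr hm hi (by omega) (by rw [e3]; omega) h3' h4'

/-- The lower boundary edge. -/
theorem edL (a : Σ r, Fin (n r)) (s : S a.1) :
    F.Ed ((X.C a.1).Z (X.bs a) s ((X.C a.1).h (X.bs a) s)) ((X.C a.1).Z (X.bs a + 1) s 0) :=
  (X.run a.1).gate _ s (by have := X.bs_lt a; omega)

/-- The upper boundary edge. -/
theorem edU (a : Σ r, Fin (n r)) (s : S a.1) :
    F.Ed ((X.C a.1).Z (X.bs a + X.l a.1 + 1) s 0)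
      ((X.C a.1).Z (X.bs a + X.l a.1) s ((X.C a.1).h (X.bs a + X.l a.1) s)) :=
  F.ed_symm ((X.run a.1).gate _ s (by have := X.bs_lt a; omega))

/-- The boundary darts. -/
noncomputable def pd (a : Σ r, Fin (n r)) (p : S a.1 × Bool) : F.X :=
  if p.2 = true then F.dr (X.edU a p.1) else F.dr (X.edL a p.1)

theorem pd_true (a : Σ r, Fin (n r)) (s : S a.1) : X.pd a (s, true) = F.dr (X.edU a s) := by simp [pd]

theorem pd_false (a : Σ r, Fin (n r)) (s : S a.1) : X.pd a (s, false) = F.dr (X.edL a s) := by simp [pd]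

theorem vt_pd_true (a : Σ r, Fin (n r)) (s : S a.1) :
    F.vt (X.pd a (s, true)) = (X.C a.1).Z (X.bs a + X.l a.1 + 1) s 0 := by rw [pd_true, F.vt_dr]

theorem vt_pd_false (a : Σ r, Fin (n r)) (s : S a.1) :
    F.vt (X.pd a (s, false)) = (X.C a.1).Z (X.bs a) s ((X.C a.1).h (X.bs a) s) := by rw [pd_false, F.vt_dr]

theorem pr_pd_true (a : Σ r, Fin (n r)) (s : S a.1) :
    F.vt (F.pr (X.pd a (s, true))) = (X.C a.1).Z (X.bs a + X.l a.1) s ((X.C a.1).h (X.bs a + X.l a.1) s) := by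
  rw [pd_true, F.vt_pr_dr]

theorem pr_pd_false (a : Σ r, Fin (n r)) (s : S a.1) :
    F.vt (F.pr (X.pd a (s, false))) = (X.C a.1).Z (X.bs a + 1) s 0 := by rw [pd_false, F.vt_pr_dr]

theorem bs_mod0 (a : Σ r, Fin (n r)) : X.bs a % (X.l a.1 + 1) = 0 := by
  unfold bs
  exact Nat.mul_mod_left _ _

theorem bs_mod1 (a : Σ r, Fin (n r)) : (X.bs a + X.l a.1 + 1) % (X.l a.1 + 1) = 0 := by
  have : X.bs a + X.l a.1 + 1 = (a.2.1 + 1) * (X.l a.1 + 1) := by unfold bs; ring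
  rw [this]
  exact Nat.mul_mod_left _ _

theorem pd_out (a : Σ r, Fin (n r)) (p : S a.1 × Bool) (b : Σ r, Fin (n r)) : F.vt (X.pd a p) ∉ X.ZL b := by
  have h := X.bs_lt a
  obtain ⟨s, _ | _⟩ := p
  · rw [vt_pd_false]
    exact X.buf (by omega) le_rfl (X.bs_mod0 a) b
  · rw [vt_pd_true]
    exact X.buf (by omega) (Nat.zero_le _) (X.bs_mod1 a) b

theorem pd_in (a : Σ r, Fin (n r)) (p : S a.1 × Bool) : F.vt (F.pr (X.pd a p)) ∈ X.ZL a := by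
  have h := X.hl a.1
  obtain ⟨s, _ | _⟩ := p
  · rw [pr_pd_false]
    exact X.mem_ZL.2 ⟨_, s, 0, le_rfl, by omega, Nat.zero_le _, rfl⟩
  · rw [pr_pd_true]
    exact X.mem_ZL.2 ⟨_, s, _, by omega, le_rfl, le_rfl, rfl⟩

theorem pd_inj (a : Σ r, Fin (n r)) : Injective (X.pd a) := by
  have h := X.bs_lt a
  rintro ⟨s, b⟩ ⟨s', b'⟩ e
  have e1 := congrArg F.vt e
  cases b <;> cases b'
  · rw [vt_pd_false, vt_pd_false] at e1
    rw [((X.run a.1).inj _ _ _ _ _ _ (by omega) (by omega) le_rfl le_rfl e1).2.1]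
  · rw [vt_pd_false, vt_pd_true] at e1
    have := ((X.run a.1).inj _ _ _ _ _ _ (by omega) (by omega) le_rfl (Nat.zero_le _) e1).1
    omega
  · rw [vt_pd_true, vt_pd_false] at e1
    have := ((X.run a.1).inj _ _ _ _ _ _ (by omega) (by omega) (Nat.zero_le _) le_rfl e1).1
    omega
  · rw [vt_pd_true, vt_pd_true] at e1
    rw [((X.run a.1).inj _ _ _ _ _ _ (by omega) (by omega) (Nat.zero_le _) (Nat.zero_le _) e1).2.1]

/-- A neighbour of a vertex of a layer on the same strand or outside. -/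
theorem nbL {a : Σ r, Fin (n r)} {m : ℕ} {s : S a.1} {i : ℕ} (h1 : X.bs a + 1 ≤ m) (h2 : m ≤ X.bs a + X.l a.1)
    (hi : i ≤ (X.C a.1).h m s) {y : G} (hy : F.Ed ((X.C a.1).Z m s i) y) :
    (∃ m' i', X.bs a + 1 ≤ m' ∧ m' ≤ X.bs a + X.l a.1 ∧ i' ≤ (X.C a.1).h m' s ∧ y = (X.C a.1).Z m' s i') ∨
    (m = X.bs a + X.l a.1 ∧ i = (X.C a.1).h m s ∧ y = F.vt (X.pd a (s, true))) ∨
    (m = X.bs a + 1 ∧ i = 0 ∧ y = F.vt (X.pd a (s, false))) := by
  have h := X.bs_lt a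
  rcases (X.run a.1).nb (by omega) (by omega) hi hy with ⟨c1, rfl⟩ | ⟨c1, rfl⟩ | ⟨c1, rfl⟩ | ⟨c1, rfl⟩
  · exact Or.inl ⟨m, i + 1, h1, h2, c1, rfl⟩
  · rcases Nat.lt_or_ge m (X.bs a + X.l a.1) with h3 | h3
    · exact Or.inl ⟨m + 1, 0, by omega, by omega, Nat.zero_le _, rfl⟩
    · have h4 : m = X.bs a + X.l a.1 := le_antisymm h2 h3
      refine Or.inr (Or.inl ⟨h4, c1, ?_⟩)
      rw [vt_pd_true, h4]
  · exact Or.inl ⟨m, i - 1, h1, h2, by omega, rfl⟩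
  · rcases Nat.lt_or_ge (X.bs a + 1) m with h3 | h3
    · exact Or.inl ⟨m - 1, _, by omega, by omega, le_rfl, rfl⟩
    · have h4 : m = X.bs a + 1 := le_antisymm h3 h1
      refine Or.inr (Or.inr ⟨h4, c1, ?_⟩)
      rw [vt_pd_false, show m - 1 = X.bs a by omega]

theorem pd_ex (a : Σ r, Fin (n r)) (d : F.X) (h1 : F.vt d ∉ X.ZL a) (h2 : F.vt (F.pr d) ∈ X.ZL a) :
    ∃ p, X.pd a p = d := by
  have hb := X.bs_lt a
  obtain ⟨m, s, i, h3, h4, h5, h6⟩ := X.mem_ZL.1 h2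
  have hy : F.Ed ((X.C a.1).Z m s i) (F.vt d) := by rw [← h6]; exact F.ed_symm (F.ed_of_dart d)
  rcases X.nbL h3 h4 h5 hy with ⟨m', i', c1, c2, c3, c4⟩ | ⟨c1, c2, c3⟩ | ⟨c1, c2, c3⟩
  · exact absurd (X.mem_ZL.2 ⟨m', s, i', c1, c2, c3, c4⟩) h1
  · refine ⟨(s, true), ?_⟩
    rw [vt_pd_true] at c3
    rw [pd_true]
    have hp := (X.run a.1).hpos (X.bs a + X.l a.1 + 1) s (by omega)
    refine F.dr_unique (X.edU a s) ((X.run a.1).line _ s 0 (by omega) hp) ?_ c3 ?_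
    · intro e
      have := ((X.run a.1).inj _ _ _ _ _ _ (by omega) (by omega) le_rfl (by omega) e).1
      omega
    · rw [h6, c2, c1]
  · refine ⟨(s, false), ?_⟩
    rw [vt_pd_false] at c3
    rw [pd_false]
    have hp := (X.run a.1).hpos (X.bs a) s (by omega)
    have hq := (X.run a.1).line (X.bs a) s ((X.C a.1).h (X.bs a) s - 1) (by omega) (by omega)
    rw [show (X.C a.1).h (X.bs a) s - 1 + 1 = (X.C a.1).h (X.bs a) s by omega] at hq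
    refine F.dr_unique (X.edL a s) (F.ed_symm hq) ?_ c3 ?_
    · intro e
      have := ((X.run a.1).inj _ _ _ _ _ _ (by omega) (by omega) (Nat.zero_le _) (by omega) e).1
      omega
    · rw [h6, c2, c1]

section bands

variable [Fintype G] [DecidableEq G] {A : Set G} {𝒟 : ∀ r, Set (S r × Bool → S r × Bool)}

open Classical in
/-- The layers as finite sets. -/
noncomputable def Z (a : Σ r, Fin (n r)) : Finset G := Finset.univ.filter fun x => x ∈ X.ZL a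

theorem mem_Z {a : Σ r, Fin (n r)} {x : G} : x ∈ X.Z a ↔ x ∈ X.ZL a := by simp [Z]

/-- The realization of the diagrams in the layers. -/
def RealL (A : Set G) (𝒟 : ∀ r, Set (S r × Bool → S r × Bool)) : Prop :=
  ∀ a : (Σ r, Fin (n r)), ∀ d ∈ 𝒟 a.1, ∃ F' : HF B, (∀ x, x ∉ X.ZL a → F'.H x = F.H x) ∧
    (∀ x ∈ X.ZL a, ∀ g ∈ F'.H x, B.q g ∈ A) ∧
    H22.Real F'.Ed (X.ZL a) (fun s => (X.C a.1).Z (X.bs a + 1) s 0)
      (fun s => (X.C a.1).Z (X.bs a + X.l a.1) s ((X.C a.1).h (X.bs a + X.l a.1) s)) d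

/-- The bands of the charts. -/
noncomputable def bands (hA : ∀ a p, B.q (X.pd a p).1.2 ∈ A) (hcomp : ∀ x, ∃ a, ∃ y ∈ X.ZL a, F.C x y)
    (hD : ∀ r, ∀ d ∈ 𝒟 r, IsPair d) (hreal : X.RealL A 𝒟) : Bands A F R S n 𝒟 where
  Z := X.Z
  disj a b x ha hb := X.disjZ (X.mem_Z.1 ha) (X.mem_Z.1 hb)
  comp x _ := by
    obtain ⟨a, y, hy, hc⟩ := hcomp x
    exact ⟨a, y, X.mem_Z.2 hy, hc⟩
  pd := X.pd
  pd_inj := X.pd_inj
  pd_out a p b h := X.pd_out a p b (X.mem_Z.1 h)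
  pd_in a p := X.mem_Z.2 (X.pd_in a p)
  pd_ex a d h1 h2 := X.pd_ex a d (fun h => h1 (X.mem_Z.2 h)) (X.mem_Z.1 h2)
  pd_A a p := hA a p
  hn := X.hn
  pair := hD
  link r k h s := by
    have hb : X.bs ⟨r, ⟨k + 1, h⟩⟩ = X.bs ⟨r, ⟨k, Nat.lt_of_succ_lt h⟩⟩ + X.l r + 1 := by
      show (k + 1) * (X.l r + 1) = k * (X.l r + 1) + X.l r + 1
      ring
    have hlt : X.bs ⟨r, ⟨k, Nat.lt_of_succ_lt h⟩⟩ + X.l r + 1 ≤ n r * (X.l r + 1) :=
      X.bs_lt ⟨r, ⟨k, Nat.lt_of_succ_lt h⟩⟩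
    have hm1 : (X.bs ⟨r, ⟨k, Nat.lt_of_succ_lt h⟩⟩ + X.l r + 1) % (X.l r + 1) = 0 :=
      X.bs_mod1 ⟨r, ⟨k, Nat.lt_of_succ_lt h⟩⟩
    have hv0 : F.vt (X.pd ⟨r, ⟨k, Nat.lt_of_succ_lt h⟩⟩ (s, true)) =
        (X.C r).Z (X.bs ⟨r, ⟨k, Nat.lt_of_succ_lt h⟩⟩ + X.l r + 1) s 0 := X.vt_pd_true ⟨r, ⟨k, Nat.lt_of_succ_lt h⟩⟩ s
    set m := X.bs ⟨r, ⟨k, Nat.lt_of_succ_lt h⟩⟩ + X.l r + 1 with hm
    have hp : ∀ (a : Σ r, Fin (n r)) (p : S a.1 × Bool), F.Port (fun x => ∃ a, x ∈ X.Z a) (X.pd a p) := fun a p =>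
      ⟨fun ⟨b, hb⟩ => X.pd_out a p b (X.mem_Z.1 hb), ⟨a, X.mem_Z.2 (X.pd_in a p)⟩⟩
    have hv1 : F.vt (X.pd ⟨r, ⟨k, Nat.lt_of_succ_lt h⟩⟩ (s, true)) = (X.C r).Z m s 0 := hv0
    have hv2 : F.vt (X.pd ⟨r, ⟨k + 1, h⟩⟩ (s, false)) = (X.C r).Z m s ((X.C r).h m s) := by
      have := X.vt_pd_false ⟨r, ⟨k + 1, h⟩⟩ s
      rw [hb] at this
      exact this
    refine F.arc_of_cn (hp _ _) (hp _ _) ?_ ?_
    · intro e
      have e1 := congrArg F.vt e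
      rw [hv1, hv2] at e1
      have h2 := ((X.run r).inj m s _ m s _ hlt hlt le_rfl (Nat.zero_le _) e1).2.2
      have h3 := (X.run r).hpos m s hlt
      omega
    · rw [hv1, hv2]
      refine (X.run r).line_cn hlt _ (fun i hi => ?_) _ le_rfl
      rintro ⟨b, hb⟩
      exact X.buf hlt hi hm1 b (X.mem_Z.1 hb)
  real a d hd := by
    obtain ⟨F', h1, h2, h3⟩ := hreal a d hd
    refine ⟨F', fun x hx => h1 x fun h => hx (X.mem_Z.2 h), fun x hx => h2 x (X.mem_Z.1 hx), ?_⟩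
    have e1 : ((X.Z a : Finset G) : Set G) = X.ZL a := by
      ext x
      exact X.mem_Z
    rw [e1]
    have e2 : (fun s => F.vt (F.pr (X.pd a (s, false)))) = fun s => (X.C a.1).Z (X.bs a + 1) s 0 :=
      funext fun s => X.pr_pd_false a s
    have e3 : (fun s => F.vt (F.pr (X.pd a (s, true)))) =
        fun s => (X.C a.1).Z (X.bs a + X.l a.1) s ((X.C a.1).h (X.bs a + X.l a.1) s) :=
      funext fun s => X.pr_pd_true a s
    rw [e2, e3]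
    exact h3

variable (hA : ∀ a p, B.q (X.pd a p).1.2 ∈ A) (hcomp : ∀ x, ∃ a, ∃ y ∈ X.ZL a, F.C x y)
  (hD : ∀ r, ∀ d ∈ 𝒟 r, IsPair d) (hreal : X.RealL A 𝒟)

/-- The strands inside the layers. -/
def sg (a : Σ r, Fin (n r)) (s : S a.1) : Set G :=
  {x | ∃ m i, X.bs a + 1 ≤ m ∧ m ≤ X.bs a + X.l a.1 ∧ i ≤ (X.C a.1).h m s ∧ x = (X.C a.1).Z m s i}

/-- The strands. -/
noncomputable def seg : Seg (X.bands hA hcomp hD hreal) where
  sg := X.sg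
  sub a s x := by
    rintro ⟨m, i, h1, h2, h3, h4⟩
    exact X.mem_Z.2 (X.mem_ZL.2 ⟨m, s, i, h1, h2, h3, h4⟩)
  disj a s s' x := by
    have h := X.bs_lt a
    rintro ⟨m, i, h1, h2, h3, h4⟩ ⟨m', i', h1', h2', h3', h4'⟩
    exact ((X.run a.1).inj m s i m' s' i' (by omega) (by omega) h3 h3' (h4.symm.trans h4')).2.1
  ends a s b := by
    have h := X.hl a.1
    cases b
    · show F.vt (F.pr (X.pd a (s, false))) ∈ X.sg a s
      rw [pr_pd_false]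
      exact ⟨_, 0, le_rfl, by omega, Nat.zero_le _, rfl⟩
    · show F.vt (F.pr (X.pd a (s, true))) ∈ X.sg a s
      rw [pr_pd_true]
      exact ⟨_, _, by omega, le_rfl, le_rfl, rfl⟩
  closed a s x y := by
    rintro ⟨m, i, h1, h2, h3, rfl⟩ hy
    rcases X.nbL h1 h2 h3 hy with ⟨m', i', c1, c2, c3, c4⟩ | ⟨_, _, c3⟩ | ⟨_, _, c3⟩
    · exact Or.inl ⟨m', i', c1, c2, c3, c4⟩
    · exact Or.inr ⟨true, c3⟩
    · exact Or.inr ⟨false, c3⟩

/-- The vertices of the active strands. -/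
def Act (V : ∀ r, Set (S r)) (x : G) : Prop :=
  ∃ (a : Σ r, Fin (n r)) (s : S a.1), s ∈ V a.1 ∧ x ∈ X.sg a s

theorem sg_sub {a : Σ r, Fin (n r)} {s : S a.1} {x : G} (h : x ∈ X.sg a s) : x ∈ X.ZL a := by
  obtain ⟨m, i, h1, h2, h3, h4⟩ := h
  exact X.mem_ZL.2 ⟨m, s, i, h1, h2, h3, h4⟩

/-- The outer vertices of the ends of the bands. -/
def ev (r : R) (p : S r × Bool) : G :=
  if p.2 = true then (X.C r).Z (n r * (X.l r + 1)) p.1 0 else (X.C r).Z 0 p.1 ((X.C r).h 0 p.1)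

theorem vt_dt (r : R) (p : S r × Bool) : F.vt ((X.bands hA hcomp hD hreal).dt ⟨r, p⟩) = X.ev r p := by
  have hn := X.hn r
  obtain ⟨s, _ | _⟩ := p
  · show F.vt (X.pd ⟨r, ⟨0, _⟩⟩ (s, false)) = _
    rw [vt_pd_false]
    have : X.bs ⟨r, ⟨0, X.hn r⟩⟩ = 0 := by
      show 0 * (X.l r + 1) = 0
      exact Nat.zero_mul _
    show (X.C r).Z (X.bs ⟨r, ⟨0, X.hn r⟩⟩) s ((X.C r).h (X.bs ⟨r, ⟨0, X.hn r⟩⟩) s) = _
    rw [this]
    rfl
  · show F.vt (X.pd ⟨r, ⟨n r - 1, _⟩⟩ (s, true)) = _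
    rw [vt_pd_true]
    have : X.bs ⟨r, ⟨n r - 1, by omega⟩⟩ + X.l r + 1 = n r * (X.l r + 1) := by
      show (n r - 1) * (X.l r + 1) + X.l r + 1 = n r * (X.l r + 1)
      obtain ⟨j, hj⟩ : ∃ j, n r = j + 1 := ⟨n r - 1, by omega⟩
      rw [hj, Nat.add_sub_cancel]
      ring
    show (X.C r).Z (X.bs ⟨r, ⟨n r - 1, _⟩⟩ + X.l r + 1) s 0 = _
    rw [this]
    rfl

/-- Three paths between active ends which avoid the active strands. -/
def AdjR (V : ∀ r, Set (S r)) (r r' : R) : Prop :=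
  ∃ (p : Fin 3 → V r × Bool) (q : Fin 3 → V r' × Bool), Injective p ∧ ∀ l,
    (⟨r, p l⟩ : Σ r, V r × Bool) ≠ ⟨r', q l⟩ ∧
    H22.Cn F.Ed {x | ¬ X.Act V x} (X.ev r ((p l).1.1, (p l).2)) (X.ev r' ((q l).1.1, (q l).2))

/-- MAIN for charts: every active port family with property Sep, the graph of the regions connected. -/
theorem lst [Fintype R] [∀ r, Fintype (S r)] (V : ∀ r, Set (S r)) (hcl : Subgroup.closure A = ⊤)
    (hA : ∀ d : F.X, B.q d.1.2 ∈ A) (hD : ∀ r, ∀ d ∈ 𝒟 r, IsPair d) (hreal : X.RealL A 𝒟)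
    (hact : ∀ x, ∃ y, X.Act V y ∧ F.C x y) (KV : ∀ r, Set (V r × Bool → V r × Bool))
    (hK : ∀ r, ∀ d ∈ KV r, IsPair d ∧ StkT (𝒟 r) (n r) (extV (V r) d)) (hsep : ∀ r, SQ4.H49.Sep (KV r))
    (hne : ∀ r, (KV r).Nonempty) (h3 : ∀ r, ∃ p : Fin 3 → V r × Bool, Injective p) (r₀ : R)
    (hconn : ∀ r, Relation.ReflTransGen (X.AdjR V) r₀ r) : Lst A := by
  have hcomp : ∀ x, ∃ a, ∃ y ∈ X.ZL a, F.C x y := by
    intro x
    obtain ⟨y, ⟨a, s, -, hy⟩, hc⟩ := hact x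
    exact ⟨a, y, X.sg_sub hy, hc⟩
  have hA' : ∀ a p, B.q (X.pd a p).1.2 ∈ A := fun a p => hA _
  refine Bands.lstV (X.seg hA' hcomp hD hreal) V hcl hA hact KV hK hsep hne h3 r₀ fun r => ?_
  induction hconn r with
  | refl => exact Relation.ReflTransGen.refl
  | @tail a b _ hs ih =>
    refine ih.tail ?_
    obtain ⟨p, q, hp, hpq⟩ := hs
    refine ⟨p, q, hp, fun l => ⟨(hpq l).1, ?_⟩⟩
    have h1 := (hpq l).2
    rw [← X.vt_dt hA' hcomp hD hreal, ← X.vt_dt hA' hcomp hD hreal] at h1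
    exact h1

end bands

end Rgs

end Pool.Agent.Lib.MP_688fd0_co.SQ5.H95
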