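import Pool.Agent.Lib.MP_688fd0_co.SQ5.H95.ArcC
import Pool.Agent.Lib.MP_688fd0_co.SQ5.H95.Dead

/-!
BANDSV: bands with active and dead strands. In the band `r` only the strands of `V r` are active, the other strands are passed
straight. `Act` = the vertices of the active strands inside the layers. Two active ends are joined if there is a path of the
2-factor which avoids `Act`. RESULT: `Bands.lstV`.
-/

set_option autoImplicit false

namespace Pool.Agent.Lib.MP_688fd0_co.SQ5.H95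

open Function Pool.Agent.Lib.MP_688fd0_co.OSF H64
open Pool.Agent.Lib.MP_688fd0_co.SQ4.H49 (Inv gl gl_inv)

universe u v w t

variable {G : Type u} [Group G] {B : Lb.{u, v} G} [Fintype G] [DecidableEq G] {A : Set G} {F : HF B} {R : Type w}
  {S : R → Type t} {n : R → ℕ} {𝒟 : ∀ r, Set (S r × Bool → S r × Bool)}

/-- The strands inside the layers. -/
structure Seg (Y : Bands A F R S n 𝒟) where
  sg : ∀ a : (Σ r, Fin (n r)), S a.1 → Set G
  sub : ∀ a s x, x ∈ sg a s → x ∈ Y.Z a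
  disj : ∀ a s s' x, x ∈ sg a s → x ∈ sg a s' → s = s'
  ends : ∀ a s b, F.vt (F.pr (Y.pd a (s, b))) ∈ sg a s
  closed : ∀ a s x y, x ∈ sg a s → F.Ed x y → y ∈ sg a s ∨ ∃ b, y = F.vt (Y.pd a (s, b))

/-- The vertices of the active strands. -/
def Seg.Act {Y : Bands A F R S n 𝒟} (D : Seg Y) (V : ∀ r, Set (S r)) (x : G) : Prop :=
  ∃ (a : Σ r, Fin (n r)) (s : S a.1), s ∈ V a.1 ∧ x ∈ D.sg a s

section ports

variable (V : ∀ r, Set (S r))

open Classical in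
/-- The dead ports are flipped. -/
noncomputable def Jd (x : Σ r, S r × Bool) : Σ r, S r × Bool :=
  ⟨x.1, if x.2.1 ∈ V x.1 then x.2 else (x.2.1, !x.2.2)⟩

/-- The active ports. -/
def ιV (x : Σ r, V r × Bool) : Σ r, S r × Bool := ⟨x.1, (x.2.1.1, x.2.2)⟩

variable {V}

theorem Jd_act {r : R} {s : S r} (b : Bool) (h : s ∈ V r) : Jd V ⟨r, (s, b)⟩ = ⟨r, (s, b)⟩ := by
  unfold Jd
  simp only [h, if_true]

theorem Jd_dead {r : R} {s : S r} (b : Bool) (h : s ∉ V r) : Jd V ⟨r, (s, b)⟩ = ⟨r, (s, !b)⟩ := by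
  unfold Jd
  simp only [h, if_false]

theorem Jd_Jd (x : Σ r, S r × Bool) : Jd V (Jd V x) = x := by
  obtain ⟨r, s, b⟩ := x
  by_cases h : s ∈ V r
  · rw [Jd_act b h, Jd_act b h]
  · rw [Jd_dead b h, Jd_dead _ h, Bool.not_not]

theorem Jd_ιV (x : Σ r, V r × Bool) : Jd V (ιV V x) = ιV V x := Jd_act _ x.2.1.2

theorem Jd_fix {x : Σ r, S r × Bool} (h : Jd V x = x) : x.2.1 ∈ V x.1 := by
  obtain ⟨r, s, b⟩ := x
  by_contra h'
  have h' : s ∉ V r := h'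
  rw [Jd_dead b h'] at h
  have := (Sigma.mk.inj h).2
  have h2 := congrArg Prod.snd (eq_of_heq this)
  revert h2
  cases b <;> simp

theorem exists_ιV {x : Σ r, S r × Bool} (h : x.2.1 ∈ V x.1) : ∃ a, ιV V a = x := ⟨⟨x.1, (⟨x.2.1, h⟩, x.2.2)⟩, rfl⟩

theorem ιV_inj : Injective (ιV V) := by
  rintro ⟨r, ⟨s, hs⟩, b⟩ ⟨r', ⟨s', hs'⟩, b'⟩ h
  obtain rfl : r = r' := congrArg Sigma.fst h
  have h1 := eq_of_heq (Sigma.mk.inj h).2
  obtain rfl : s = s' := congrArg Prod.fst h1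
  obtain rfl : b = b' := congrArg Prod.snd h1
  rfl

end ports

namespace Bands

variable (Y : Bands A F R S n 𝒟)

section arcs

/-- The vertex `x` is on the arc of the port `f`. -/
def OnArc (f : FP S n) (x : G) : Prop := ∃ j ≤ F.len (Y.φ f), F.vt (F.stp^[j] (F.ot (Y.φ f).1)) = x

theorem onArc_start (f : FP S n) : Y.OnArc f (F.vt (Y.pd f.1 f.2)) := ⟨0, Nat.zero_le _, rfl⟩

theorem onArc_out {f : FP S n} {x : G} (h : Y.OnArc f x) : ¬ Y.W x := by
  obtain ⟨j, hj, rfl⟩ := h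
  exact F.vt_out (e := F.ot (Y.φ f).1) (Y.φ f).2.1 (F.len_spec (Y.φ f)).2 j hj

variable [Fintype R] [∀ r, Fintype (S r)]

theorem φ_out (f : FP S n) : Y.φ (Y.sys.out f) = F.O (Y.φ f) := by
  show Y.φ (Y.φ.symm (F.O (Y.φ f))) = _
  rw [Equiv.apply_symm_apply]

theorem onArc_nb {f : FP S n} {x y : G} (h : Y.OnArc f x) (he : F.Ed x y) :
    Y.OnArc f y ∨ y = F.vt (F.pr (Y.pd f.1 f.2)) ∨
      y = F.vt (F.pr (Y.pd (Y.sys.out f).1 (Y.sys.out f).2)) := by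
  obtain ⟨j, hj, rfl⟩ := h
  obtain ⟨g, hg, rfl⟩ := he
  rcases F.two_darts (d := F.stp^[j] (F.ot (Y.φ f).1)) (d' := ⟨(_, g), hg⟩) rfl with h1 | h1
  · rcases Nat.lt_or_ge j (F.len (Y.φ f)) with h2 | h2
    · left
      refine ⟨j + 1, h2, ?_⟩
      rw [Function.iterate_succ_apply', ← h1]
      rfl
    · right; right
      have h3 : j = F.len (Y.φ f) := le_antisymm hj h2
      have h4 : Y.pd (Y.sys.out f).1 (Y.sys.out f).2 = F.stp^[j] (F.ot (Y.φ f).1) := by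
        rw [h3]
        exact congrArg Subtype.val (Y.φ_out f)
      rw [h4, ← h1]
      rfl
  · cases j with
    | zero =>
      right; left
      have h2 : (⟨(F.vt (F.stp^[0] (F.ot (Y.φ f).1)), g), hg⟩ : F.X) = (Y.φ f).1 := h1.trans (F.ot_ot _)
      have h3 : Y.pd f.1 f.2 = ⟨(F.vt (F.stp^[0] (F.ot (Y.φ f).1)), g), hg⟩ := h2.symm
      rw [h3]
      rfl
    | succ i =>
      left
      refine ⟨i, by omega, ?_⟩
      have h2 : F.ot (F.stp^[i + 1] (F.ot (Y.φ f).1)) = F.pr (F.stp^[i] (F.ot (Y.φ f).1)) := by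
        rw [Function.iterate_succ_apply']
        unfold HF.stp
        rw [F.ot_ot]
      rw [h2] at h1
      have h3 := congrArg F.pr h1
      rw [F.pr_pr] at h3
      rw [← h3]
      rfl

theorem onArc_eq {f f' : FP S n} (h : Y.OnArc f (F.vt (Y.pd f'.1 f'.2))) : f' = f ∨ f' = Y.sys.out f := by
  obtain ⟨j, hj, e⟩ := h
  have h0 : F.stp^[0] (F.ot (Y.φ f').1) = F.ot (Y.pd f'.1 f'.2) := rfl
  rcases F.two_darts (d := F.stp^[j] (F.ot (Y.φ f).1)) (d' := F.ot (Y.pd f'.1 f'.2)) e.symm with h1 | h1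
  · left
    rw [← h0] at h1
    exact Y.φ.injective (F.arc_inj (Nat.zero_le _) hj h1).1
  · right
    rw [← h0, ← F.arc_rev hj] at h1
    have h2 := (F.arc_inj (Nat.zero_le _) (by rw [F.len_O]; omega) h1).1
    apply Y.φ.injective
    rw [h2, Y.φ_out]

theorem out_pair : IsPair Y.out := by
  have h := outB_inv Y.hn Y.sys.out_inv Y.slink
  exact ⟨fun x => (h x).1, fun x => (h x).2⟩

end arcs

variable [Fintype R] [∀ r, Fintype (S r)] {Y} (D : Seg Y) (V : ∀ r, Set (S r)) (e : Σ r, S r × Bool)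

/-- The class of `e`. -/
def Cl (Y : Bands A F R S n 𝒟) (V : ∀ r, Set (S r)) (e y : Σ r, S r × Bool) : Prop := Con Y.out (Jd V) e y

/-- The fine port `f` belongs to the class of `e`. -/
def Bel (Y : Bands A F R S n 𝒟) (V : ∀ r, Set (S r)) (e : Σ r, S r × Bool) (f : FP S n) : Prop :=
  (∃ y, Y.Cl V e y ∧ f = ed Y.hn y) ∨ (f.2.1 ∉ V f.1.1 ∧ Y.Cl V e ⟨f.1.1, f.2⟩)

/-- The vertices of the class of `e`. -/
def U (x : G) : Prop :=
  (∃ f, Y.Bel V e f ∧ Y.OnArc f x) ∨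
    ∃ (a : Σ r, Fin (n r)) (s : S a.1), s ∉ V a.1 ∧ Y.Cl V e ⟨a.1, (s, true)⟩ ∧ x ∈ D.sg a s

variable {V e} {D}

theorem Cl.flip {r : R} {s : S r} {b : Bool} (hs : s ∉ V r) (h : Y.Cl V e ⟨r, (s, b)⟩) (b' : Bool) :
    Y.Cl V e ⟨r, (s, b')⟩ := by
  by_cases hb : b' = b
  · rw [hb]; exact h
  · have h1 : b' = !b := by cases b <;> cases b' <;> simp_all
    rw [h1, ← Jd_dead b hs]
    exact Con.trans' h (con_right _)

theorem bel_dead {f : FP S n} (h : Y.Bel V e f) (hs : f.2.1 ∉ V f.1.1) : Y.Cl V e ⟨f.1.1, f.2⟩ := by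
  rcases h with ⟨y, h1, rfl⟩ | ⟨_, h1⟩
  · exact h1
  · exact h1

theorem bel_out {f : FP S n} (h : Y.Bel V e f) : Y.Bel V e (Y.sys.out f) := by
  have key : ∀ y, Y.Cl V e y → Y.Bel V e (Y.sys.out (ed Y.hn y)) := fun y hy =>
    Or.inl ⟨Y.out y, Con.trans' hy (con_left _), (ed_outB Y.hn Y.sys.out_inv Y.slink y).symm⟩
  rcases h with ⟨y, h1, rfl⟩ | ⟨h1, h2⟩
  · exact key y h1
  · obtain ⟨⟨r, k, hk⟩, s, b⟩ := f
    have h1 : s ∉ V r := h1
    have h2 : Y.Cl V e ⟨r, (s, b)⟩ := h2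
    cases b with
    | true =>
      rcases Nat.lt_or_ge (k + 1) (n r) with h3 | h3
      · have h4 := Y.slink r k h3 s
        rw [h4]
        exact Or.inr ⟨h1, Cl.flip h1 h2 false⟩
      · have h4 : (⟨⟨r, ⟨k, hk⟩⟩, (s, true)⟩ : FP S n) = ed Y.hn ⟨r, (s, true)⟩ := by
          have : (⟨k, hk⟩ : Fin (n r)) = ⟨n r - 1, by have := Y.hn r; omega⟩ := Fin.ext (by show k = n r - 1; omega)
          show (⟨⟨r, ⟨k, hk⟩⟩, (s, true)⟩ : FP S n) = ⟨⟨r, ⟨n r - 1, _⟩⟩, (s, true)⟩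
          rw [this]
        rw [h4]
        exact key _ h2
    | false =>
      cases k with
      | zero =>
        have h4 : (⟨⟨r, ⟨0, hk⟩⟩, (s, false)⟩ : FP S n) = ed Y.hn ⟨r, (s, false)⟩ := rfl
        rw [h4]
        exact key _ h2
      | succ k =>
        have h4 := Y.slink r k hk s
        have h5 : Y.sys.out ⟨⟨r, ⟨k + 1, hk⟩⟩, (s, false)⟩ = ⟨⟨r, ⟨k, Nat.lt_of_succ_lt hk⟩⟩, (s, true)⟩ := by
          rw [← h4]
          exact (Y.sys.out_inv _).1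
        rw [h5]
        exact Or.inr ⟨h1, Cl.flip h1 h2 true⟩

theorem U_start : U D V e (F.vt (Y.dt e)) :=
  Or.inl ⟨ed Y.hn e, Or.inl ⟨e, Con.refl' _, rfl⟩, Y.onArc_start (ed Y.hn e)⟩

theorem U_step {x y : G} (h : U D V e x) (he : F.Ed x y) :
    U D V e y ∨ ((∃ z, Y.Cl V e z ∧ z.2.1 ∈ V z.1) ∧ D.Act V y) := by
  have key : ∀ f, Y.Bel V e f → y = F.vt (F.pr (Y.pd f.1 f.2)) →
      U D V e y ∨ ((∃ z, Y.Cl V e z ∧ z.2.1 ∈ V z.1) ∧ D.Act V y) := by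
    rintro ⟨a, s, b⟩ hf hy
    have hm : y ∈ D.sg a s := by rw [hy]; exact D.ends a s b
    by_cases hs : s ∈ V a.1
    · right
      refine ⟨?_, a, s, hs, hm⟩
      rcases hf with ⟨z, h1, h2⟩ | ⟨h1, -⟩
      · refine ⟨z, h1, ?_⟩
        have h3 : a.1 = z.1 := congrArg (fun f : FP S n => f.1.1) h2
        obtain ⟨r, k⟩ := a
        obtain ⟨r', p⟩ := z
        have h3 : r = r' := h3
        subst h3
        have h4 : HEq (s, b) p := (Sigma.mk.inj h2).2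
        have h5 := eq_of_heq h4
        show p.1 ∈ V r
        rw [← h5]
        exact hs
      · exact absurd hs h1
    · left
      exact Or.inr ⟨a, s, hs, Cl.flip hs (bel_dead hf hs) true, hm⟩
  rcases h with ⟨f, hf, hx⟩ | ⟨a, s, hs, hc, hx⟩
  · rcases Y.onArc_nb hx he with h1 | h1 | h1
    · exact Or.inl (Or.inl ⟨f, hf, h1⟩)
    · exact key f hf h1
    · exact key _ (bel_out hf) h1
  · left
    rcases D.closed a s x y hx he with h1 | ⟨b, rfl⟩
    · exact Or.inr ⟨a, s, hs, hc, h1⟩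
    · exact Or.inl ⟨⟨a, (s, b)⟩, Or.inr ⟨hs, Cl.flip hs hc b⟩, Y.onArc_start ⟨a, (s, b)⟩⟩

theorem U_path {x y : G} (hx : U D V e x) (h : H22.Cn F.Ed {x | ¬ D.Act V x} x y) : U D V e y := by
  induction h with
  | refl => exact hx
  | tail _ hs ih =>
    rcases U_step ih hs.1 with h1 | ⟨-, h1⟩
    · exact h1
    · exact absurd h1 hs.2.2

theorem cl_of_U {e' : Σ r, S r × Bool} (h : U D V e (F.vt (Y.dt e'))) : Y.Cl V e e' := by
  have key : ∀ f, Y.Bel V e f → ed Y.hn e' = f → Y.Cl V e e' := by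
    rintro f hf rfl
    rcases hf with ⟨y, h1, h2⟩ | ⟨h1, h2⟩
    · rw [ed_inj Y.hn h2]; exact h1
    · exact h2
  rcases h with ⟨f, hf, hx⟩ | ⟨a, s, -, -, hx⟩
  · rcases Y.onArc_eq (f' := ed Y.hn e') hx with h1 | h1
    · exact key f hf h1
    · exact key _ (bel_out hf) h1
  · exact absurd (D.sub a s _ hx) (Y.pd_out _ _ _)

/-- A path which avoids the active strands. -/
theorem cl_of_path (D : Seg Y) {e' : Σ r, S r × Bool}
    (h : H22.Cn F.Ed {x | ¬ D.Act V x} (F.vt (Y.dt e)) (F.vt (Y.dt e'))) : Y.Cl V e e' :=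
  cl_of_U (U_path (U_start (D := D)) h)

/-- Every port is joined to an active one. -/
theorem exists_act (D : Seg Y) (e : Σ r, S r × Bool) (hact : ∀ x, ∃ y, D.Act V y ∧ F.C x y) :
    ∃ z, Y.Cl V e z ∧ z.2.1 ∈ V z.1 := by
  by_contra hcon
  obtain ⟨y, hy, hc⟩ := hact (F.vt (Y.dt e))
  have key : ∀ z, F.C (F.vt (Y.dt e)) z → U D V e z := by
    intro z hz
    induction hz with
    | refl => exact U_start
    | tail _ hs ih =>
      rcases U_step ih hs with h2 | ⟨h2, -⟩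
      · exact h2
      · exact absurd h2 hcon
  have h1 := key y hc
  obtain ⟨a, s, hs, hx⟩ := hy
  rcases h1 with ⟨f, -, h2⟩ | ⟨a', s', hs', -, h2⟩
  · exact Y.onArc_out h2 ⟨a, D.sub a s y hx⟩
  · have h3 := Y.disj a a' y (D.sub a s y hx) (D.sub a' s' y h2)
    subst h3
    have h4 := D.disj a s s' y hx h2
    subst h4
    exact hs' hs

/-- Three paths between active ends which avoid the active strands. -/
def AdjV (D : Seg Y) (V : ∀ r, Set (S r)) (r r' : R) : Prop :=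
  ∃ (p : Fin 3 → V r × Bool) (q : Fin 3 → V r' × Bool), Injective p ∧ ∀ l,
    (⟨r, p l⟩ : Σ r, V r × Bool) ≠ ⟨r', q l⟩ ∧
    H22.Cn F.Ed {x | ¬ D.Act V x} (F.vt (Y.dt (ιV V ⟨r, p l⟩))) (F.vt (Y.dt (ιV V ⟨r', q l⟩)))

/-- MAIN, closed form. -/
theorem lstV (D : Seg Y) (V : ∀ r, Set (S r)) (hcl : Subgroup.closure A = ⊤) (hA : ∀ d : F.X, B.q d.1.2 ∈ A)
    (hact : ∀ x, ∃ y, D.Act V y ∧ F.C x y) (KV : ∀ r, Set (V r × Bool → V r × Bool))
    (hK : ∀ r, ∀ d ∈ KV r, IsPair d ∧ StkT (𝒟 r) (n r) (extV (V r) d)) (hsep : ∀ r, SQ4.H49.Sep (KV r))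
    (hne : ∀ r, (KV r).Nonempty) (h3 : ∀ r, ∃ p : Fin 3 → V r × Bool, Injective p) (r₀ : R)
    (hconn : ∀ r, Relation.ReflTransGen (AdjV D V) r₀ r) : Lst A := by
  classical
  have hO := Y.out_pair
  have hJ := Jd_Jd (V := V)
  have hf1 := Jd_ιV (V := V)
  have hf2 : ∀ x, Jd V x = x → ∃ a, ιV V a = x := fun x hx => exists_ιV (Jd_fix hx)
  have hinj := ιV_inj (V := V)
  have hinv : Inv (oV Y.out (Jd V) (ιV V)) := oV_inv hO hJ hf1 hf2 hinj
  have hone : ∀ r, H12.Clu (oV Y.out (Jd V) (ιV V)) KV {r} ∅ := by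
    intro r
    obtain ⟨p, hp⟩ := h3 r
    exact H12.Clu.one (hsep r) (fun k hk => inv_of_pair (hK r k hk).1) p hp (hne r)
  obtain ⟨I, hI, -⟩ := H12.Clu.iUnion (ι := R) (S := fun r => ({r} : Set R)) (I := fun _ => ∅) (X := ∅) hinv hone
    (by
      intro r r' hrr
      show Disjoint ({r} : Set R) {r'}
      exact Set.disjoint_singleton.2 hrr) (fun _ => Set.empty_disjoint _) r₀ (fun r => by
      induction hconn r with
      | refl => exact Relation.ReflTransGen.refl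
      | @tail a b _ hs ih =>
        refine ih.tail ?_
        obtain ⟨p, q, hp, hpq⟩ := hs
        refine ⟨fun l => ⟨a, p l⟩, fun l l' h => hp (eq_of_heq (Sigma.mk.inj h).2), fun l => ?_⟩
        have h4 : oV Y.out (Jd V) (ιV V) ⟨a, p l⟩ = ⟨b, q l⟩ :=
          oV_eq hO hJ hf1 hf2 hinj (hpq l).1 (cl_of_path D (hpq l).2)
        refine ⟨rfl, ?_, fun h => h, fun h => h⟩
        rw [h4]
        rfl)
  have hU : (⋃ r : R, ({r} : Set R)) = Set.univ := by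
    ext r
    simp
  rw [hU] at hI
  obtain ⟨c₀, hc₀⟩ : ∃ c₀ : ∀ r, V r × Bool → V r × Bool, ∀ r, c₀ r ∈ KV r := by
    choose c₀ hc₀ using fun r => hI.ne r (Set.mem_univ _)
    exact ⟨c₀, hc₀⟩
  obtain ⟨c, hc, -, a₁, a₂, -, -, h5⟩ := hI.fin2 hinv c₀ fun r => hI.inv r (Set.mem_univ _) _ (hc₀ r)
  obtain ⟨c', hc', g1, g2⟩ := refine_bands Y.hn Y.pair Y.sys.out_inv Y.slink (fun r => extV (V r) (c r))
    fun r => (hK r _ (hc r (Set.mem_univ _))).2
  have hKJ : ∀ x, Jd V x ≠ x → gl (fun r => extV (V r) (c r)) x = Jd V x := by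
    rintro ⟨r, s, b⟩ hx
    by_cases hs : s ∈ V r
    · exact absurd (Jd_act b hs) hx
    · rw [Jd_dead b hs]
      show (⟨r, extV (V r) (c r) (s, b)⟩ : Σ r, S r × Bool) = _
      rw [extV_out (c r) (p := (s, b)) hs]
  have hKι : ∀ a, gl (fun r => extV (V r) (c r)) (ιV V a) = ιV V (gl c a) := by
    rintro ⟨r, p⟩
    show (⟨r, extV (V r) (c r) (p.1.1, p.2)⟩ : Σ r, S r × Bool) = ⟨r, ((c r p).1.1, (c r p).2)⟩
    rw [extV_in]
  refine Y.sys.lst_of_con' hcl hA (ed Y.hn (ιV V a₁)) (ed Y.hn (ιV V a₂)) c' hc'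
    (fun a => inv_of_pair (Y.pair _ _ (hc' a))) fun x => ?_
  obtain ⟨y, hy⟩ := g2 x
  obtain ⟨z, hz, hzV⟩ := exists_act D y hact
  obtain ⟨z', rfl⟩ := exists_ιV hzV
  have h6 : SQ4.H49.Con Y.out (gl fun r => extV (V r) (c r)) y (ιV V z') := con_J hKJ hz
  rcases h5 z' ⟨z', Set.mem_univ _, SQ4.H49.Con.rfl'⟩ with h7 | h7
  · exact Or.inl (hy.trans (g1 _ _ (h6.trans (con_lift hO hJ hf1 hf2 hKJ hKι h7))))
  · exact Or.inr (hy.trans (g1 _ _ (h6.trans (con_lift hO hJ hf1 hf2 hKJ hKι h7))))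

end Bands

end Pool.Agent.Lib.MP_688fd0_co.SQ5.H95
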