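import Pool.Agent.Lib.MP_688fd0_co.SQ5.H95.Period

/-!
BANDSW: exports of BANDSV / BANDSR for threads: the outside pairing `OV` of the active ports, one band is a cluster, the end from
any cluster of all bands (closed, and with one fictitious edge).
-/

set_option autoImplicit false

namespace Pool.Agent.Lib.MP_688fd0_co.SQ5.H95

open Function Pool.Agent.Lib.MP_688fd0_co.OSF H64
open Pool.Agent.Lib.MP_688fd0_co.SQ4.H49 (Inv gl gl_inv)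

universe u v w t

variable {G : Type u} [Group G] {B : Lb.{u, v} G} [Fintype G] [DecidableEq G] {A : Set G} {F : HF B} {R : Type w}
  {S : R → Type t} {n : R → ℕ} {𝒟 : ∀ r, Set (S r × Bool → S r × Bool)} [Fintype R] [∀ r, Fintype (S r)]

namespace Bands

variable (Y : Bands A F R S n 𝒟) (V : ∀ r, Set (S r))

/-- The outside pairing of the active ports. -/
noncomputable def OV : (Σ r, V r × Bool) → Σ r, V r × Bool := oV Y.out (Jd V) (ιV V)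

theorem OV_inv : Inv (Y.OV V) :=
  oV_inv Y.out_pair (Jd_Jd (V := V)) (Jd_ιV (V := V)) (fun _ hx => exists_ιV (Jd_fix hx)) (ιV_inj (V := V))

variable {Y V}

theorem OV_of_cl {a b : Σ r, V r × Bool} (hne : a ≠ b) (h : Y.Cl V (ιV V a) (ιV V b)) : Y.OV V a = b :=
  oV_eq Y.out_pair (Jd_Jd (V := V)) (Jd_ιV (V := V)) (fun _ hx => exists_ιV (Jd_fix hx)) (ιV_inj (V := V)) hne h

/-- A path which avoids the active strands is an arc. -/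
theorem OV_eq (D : Seg Y) {a b : Σ r, V r × Bool} (hne : a ≠ b)
    (h : H22.Cn F.Ed {x | ¬ D.Act V x} (F.vt (Y.dt (ιV V a))) (F.vt (Y.dt (ιV V b)))) : Y.OV V a = b :=
  OV_of_cl hne (cl_of_path D h)

/-- One band. -/
theorem clu_one (r : R) {KV : ∀ r, Set (V r × Bool → V r × Bool)} (hK : ∀ d ∈ KV r, IsPair d)
    (hsep : SQ4.H49.Sep (KV r)) (hne : (KV r).Nonempty) (h3 : ∃ p : Fin 3 → V r × Bool, Injective p) :
    H12.Clu (Y.OV V) KV {r} ∅ := by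
  obtain ⟨p, hp⟩ := h3
  exact H12.Clu.one hsep (fun k hk => inv_of_pair (hK k hk)) p hp hne

section lift

variable {KV : ∀ r, Set (V r × Bool → V r × Bool)}

/-- The lift of insides of the active ports. -/
theorem exists_lift (c : ∀ r, V r × Bool → V r × Bool) (hc : ∀ r, StkT (𝒟 r) (n r) (extV (V r) (c r))) :
    ∃ c' : ∀ a : (Σ r, Fin (n r)), S a.1 × Bool → S a.1 × Bool, (∀ a, c' a ∈ 𝒟 a.1) ∧
      (∀ a b, SQ4.H49.Con (Y.OV V) (gl c) a b →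
        SQ4.H49.Con Y.sys.out (gl c') (ed Y.hn (ιV V a)) (ed Y.hn (ιV V b))) ∧
      (∀ x y, Y.Cl V x y → SQ4.H49.Con Y.sys.out (gl c') (ed Y.hn x) (ed Y.hn y)) ∧
      ∀ z, ∃ x, SQ4.H49.Con Y.sys.out (gl c') z (ed Y.hn x) := by
  have hO := Y.out_pair
  have hJ := Jd_Jd (V := V)
  have hf1 := Jd_ιV (V := V)
  have hf2 : ∀ x, Jd V x = x → ∃ a, ιV V a = x := fun x hx => exists_ιV (Jd_fix hx)
  obtain ⟨c', hc', g1, g2⟩ := refine_bands Y.hn Y.pair Y.sys.out_inv Y.slink (fun r => extV (V r) (c r)) hc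
  have hKJ : ∀ x, Jd V x ≠ x → gl (fun r => extV (V r) (c r)) x = Jd V x := by
    rintro ⟨r, s, b⟩ hx
    by_cases hs : s ∈ V r
    · exact absurd (Jd_act b hs) hx
    · rw [Jd_dead b hs]
      show (⟨r, extV (V r) (c r) (s, b)⟩ : Σ r, S r × Bool) = _
      rw [extV_out (c r) (p := (s, b)) hs]
  have hKι : ∀ a, gl (fun r => extV (V r) (c r)) (ιV V a) = ιV V (gl c a) := by
    rintro ⟨r, p⟩
    show (⟨r, extV (V r) (c r) (p.1.1, p.2)⟩ : Σ r, S r × Bool) = ⟨r, ((c r p).1.1, (c r p).2)⟩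
    rw [extV_in]
  exact ⟨c', hc', fun a b h => g1 _ _ (con_lift hO hJ hf1 hf2 hKJ hKι h), fun x y h => g1 _ _ (con_J hKJ h), g2⟩

/-- The end, closed form. -/
theorem lst_of_cluV (D : Seg Y) (hcl : Subgroup.closure A = ⊤) (hA : ∀ d : F.X, B.q d.1.2 ∈ A)
    (hact : ∀ x, ∃ y, D.Act V y ∧ F.C x y) (hK : ∀ r, ∀ d ∈ KV r, StkT (𝒟 r) (n r) (extV (V r) d))
    {I : Set (Σ r, V r × Bool)} (hI : H12.Clu (Y.OV V) KV Set.univ I) : Lst A := by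
  classical
  obtain ⟨c₀, hc₀⟩ : ∃ c₀ : ∀ r, V r × Bool → V r × Bool, ∀ r, c₀ r ∈ KV r := by
    choose c₀ hc₀ using fun r => hI.ne r (Set.mem_univ _)
    exact ⟨c₀, hc₀⟩
  obtain ⟨c, hc, -, a₁, a₂, -, -, h5⟩ := hI.fin2 (Y.OV_inv V) c₀ fun r => hI.inv r (Set.mem_univ _) _ (hc₀ r)
  obtain ⟨c', hc', g1, g3, g2⟩ := exists_lift (Y := Y) c fun r => hK r _ (hc r (Set.mem_univ _))
  refine Y.sys.lst_of_con' hcl hA (ed Y.hn (ιV V a₁)) (ed Y.hn (ιV V a₂)) c' hc'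
    (fun a => inv_of_pair (Y.pair _ _ (hc' a))) fun x => ?_
  obtain ⟨y, hy⟩ := g2 x
  obtain ⟨z, hz, hzV⟩ := exists_act D y hact
  obtain ⟨z', rfl⟩ := exists_ιV hzV
  have h6 := g3 _ _ hz
  rcases h5 z' ⟨z', Set.mem_univ _, SQ4.H49.Con.rfl'⟩ with h7 | h7
  · exact Or.inl (hy.trans (h6.trans (g1 _ _ h7)))
  · exact Or.inr (hy.trans (h6.trans (g1 _ _ h7)))

/-- The end with one fictitious edge `d₀`; `z` is joined to the vertex of `d₀` by a letter. -/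
theorem lst_of_cluVo (D : Seg Y) (hact : ∀ x, ∃ y, D.Act V y ∧ F.C x y)
    (hK : ∀ r, ∀ d ∈ KV r, StkT (𝒟 r) (n r) (extV (V r) d)) {I : Set (Σ r, V r × Bool)}
    (hI : H12.Clu (Y.OV V) KV Set.univ I) (d₀ : F.X) (hd₀ : ¬ F.In Y.W d₀)
    (hA : ∀ d : F.X, d ≠ d₀ → d ≠ F.pr d₀ → B.q d.1.2 ∈ A) (z : G) (hz : ¬ Y.W z) (hyz : (F.vt d₀)⁻¹ * z ∈ A)
    (he₀ : ∀ f, Y.OnArc f (F.vt d₀) → ∃ y, f = ed Y.hn y) (he₁ : ∀ f, Y.OnArc f z → ∃ y, f = ed Y.hn y)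
    (a₀ a₁ : Σ r, V r × Bool) (n₀ : a₀ ∉ I) (n₁ : a₁ ∉ I) (h1 : a₁ ≠ a₀) (h2 : a₁ ≠ Y.OV V a₀)
    (p₀ : H22.Cn F.Ed {x | ¬ D.Act V x} (F.vt (Y.dt (ιV V a₀))) (F.vt d₀))
    (p₁ : H22.Cn F.Ed {x | ¬ D.Act V x} (F.vt (Y.dt (ιV V a₁))) z) : Lst A := by
  classical
  obtain ⟨c, hc, h5⟩ := hI.fin_univ (Y.OV_inv V) a₀ a₁ n₀ n₁ h1 h2
  obtain ⟨c', hc', g1, g3, g2⟩ := exists_lift (Y := Y) c fun r => hK r _ (hc r)
  -- the fine ports of a point outside of the layers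
  have key : ∀ (a : Σ r, V r × Bool) (x : G), ¬ Y.W x → (∀ f, Y.OnArc f x → ∃ y, f = ed Y.hn y) →
      H22.Cn F.Ed {x | ¬ D.Act V x} (F.vt (Y.dt (ιV V a))) x →
      ∃ y, Y.Cl V (ιV V a) y ∧ Y.OnArc (ed Y.hn y) x := by
    intro a x hx hf hp
    rcases U_path (U_start (D := D)) hp with ⟨f, hf1, hf2⟩ | ⟨b, s, -, -, h3⟩
    · obtain ⟨y, rfl⟩ := hf f hf2
      refine ⟨y, ?_, hf2⟩
      rcases hf1 with ⟨y', h3, h4⟩ | ⟨-, h3⟩
      · rw [ed_inj Y.hn h4]; exact h3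
      · exact h3
    · exact absurd ⟨b, D.sub b s _ h3⟩ hx
  obtain ⟨y₀, c₀, o₀⟩ := key a₀ (F.vt d₀) (fun h => hd₀ (Or.inl h)) he₀ p₀
  obtain ⟨y₁, c₁, o₁⟩ := key a₁ z hz he₁ p₁
  -- the port of `d₀`
  obtain ⟨f₀, hf₀, k₀⟩ : ∃ f₀, SQ4.H49.Con Y.sys.out (gl c') (ed Y.hn (ιV V a₀)) f₀ ∧
      ∃ j, j ≤ F.len (Y.φ f₀) ∧ F.stp^[j] (F.ot (Y.φ f₀).1) = d₀ := by
    obtain ⟨j, hj, e⟩ := o₀
    rcases F.two_darts (d := F.stp^[j] (F.ot (Y.φ (ed Y.hn y₀)).1)) (d' := d₀) e.symm with h3 | h3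
    · exact ⟨ed Y.hn y₀, g3 _ _ c₀, j, hj, h3.symm⟩
    · refine ⟨Y.sys.out (ed Y.hn y₀), (g3 _ _ c₀).trans (SQ4.H49.con_left _ _ _), F.len (Y.φ (ed Y.hn y₀)) - j, ?_, ?_⟩
      · rw [φ_out, F.len_O]; omega
      · rw [φ_out, F.arc_rev hj, h3]
  refine Y.sys.lst_of_con d₀ hd₀ hA f₀ (ed Y.hn y₁) k₀ z hyz o₁ c' hc'
    (fun a => inv_of_pair (Y.pair _ _ (hc' a))) fun x => ?_
  obtain ⟨y, hy⟩ := g2 x
  obtain ⟨z', hz', hzV⟩ := exists_act D y hact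
  obtain ⟨z'', rfl⟩ := exists_ιV hzV
  have h6 := g3 _ _ hz'
  rcases h5 z'' with h7 | h7
  · exact Or.inl (hy.trans (h6.trans ((g1 _ _ h7).trans hf₀)))
  · exact Or.inr (hy.trans (h6.trans ((g1 _ _ h7).trans (g3 _ _ c₁))))

end lift

end Bands

namespace Rgs

variable (X : Rgs F R S n) {V : ∀ r, Set (S r)}
variable (hA' : ∀ a p, B.q (X.pd a p).1.2 ∈ A) (hcomp : ∀ x, ∃ a, ∃ y ∈ X.ZL a, F.C x y)
  (hD : ∀ r, ∀ d ∈ 𝒟 r, IsPair d) (hreal : X.RealL A 𝒟)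

/-- Outside of the inner buffers only the ends of the bands. -/
theorem ed_of_onArc {x : G} (hx : ∀ r m (s : S r) i, 0 < m → m < n r * (X.l r + 1) → i ≤ (X.C r).h m s →
    x ≠ (X.C r).Z m s i) (f : FP S n) (hf : (X.bands hA' hcomp hD hreal).OnArc f x) :
    ∃ y, f = ed (X.bands hA' hcomp hD hreal).hn y := by
  set Y := X.bands hA' hcomp hD hreal with hY
  -- vertices of the arc of an inner port lie in the buffer
  have key : ∀ (r : R) (k : ℕ) (h : k + 1 < n r) (s : S r), ∀ y, Y.OnArc ⟨⟨r, ⟨k, Nat.lt_of_succ_lt h⟩⟩, (s, true)⟩ y →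
      ∃ i, i ≤ (X.C r).h ((k + 1) * (X.l r + 1)) s ∧ y = (X.C r).Z ((k + 1) * (X.l r + 1)) s i := by
    intro r k h s
    have hlt : (k + 1) * (X.l r + 1) < n r * (X.l r + 1) := Nat.mul_lt_mul_of_pos_right h (by omega)
    have hbs : X.bs ⟨r, ⟨k, Nat.lt_of_succ_lt h⟩⟩ + X.l r + 1 = (k + 1) * (X.l r + 1) := by
      show k * (X.l r + 1) + X.l r + 1 = _
      ring
    have hpos : 0 < (k + 1) * (X.l r + 1) := Nat.mul_pos (by omega) (by omega)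
    rintro y ⟨j, hj, rfl⟩
    induction j with
    | zero =>
      refine ⟨0, Nat.zero_le _, ?_⟩
      have := X.vt_pd_true ⟨r, ⟨k, Nat.lt_of_succ_lt h⟩⟩ s
      rw [show X.bs ⟨r, ⟨k, Nat.lt_of_succ_lt h⟩⟩ + X.l (⟨r, ⟨k, Nat.lt_of_succ_lt h⟩⟩ : Σ r, Fin (n r)).1 + 1 =
        (k + 1) * (X.l r + 1) from hbs] at this
      exact this
    | succ j ih =>
      obtain ⟨i, hi, e⟩ := ih (by omega)
      have hE : F.Ed ((X.C r).Z ((k + 1) * (X.l r + 1)) s i)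
          (F.vt (F.stp^[j + 1] (F.ot (Y.φ ⟨⟨r, ⟨k, Nat.lt_of_succ_lt h⟩⟩, (s, true)⟩).1))) := by
        rw [← e, Function.iterate_succ_apply']
        exact F.ed_of_dart _
      have hout : ¬ Y.W (F.vt (F.stp^[j + 1] (F.ot (Y.φ ⟨⟨r, ⟨k, Nat.lt_of_succ_lt h⟩⟩, (s, true)⟩).1))) :=
        Y.onArc_out ⟨j + 1, hj, rfl⟩
      have hin : ∀ m i', (m = (k + 1) * (X.l r + 1) + 1 ∨ m + 1 = (k + 1) * (X.l r + 1)) → i' ≤ (X.C r).h m s →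
          Y.W ((X.C r).Z m s i') := by
        intro m i' hm hi'
        rcases hm with hm | hm
        · refine ⟨⟨r, ⟨k + 1, h⟩⟩, X.mem_Z.2 (X.mem_ZL.2 ⟨m, s, i', ?_, ?_, hi', rfl⟩)⟩
          · show (k + 1) * (X.l r + 1) + 1 ≤ m
            omega
          · show m ≤ (k + 1) * (X.l r + 1) + X.l r
            have := X.hl r
            omega
        · refine ⟨⟨r, ⟨k, Nat.lt_of_succ_lt h⟩⟩, X.mem_Z.2 (X.mem_ZL.2 ⟨m, s, i', ?_, ?_, hi', rfl⟩)⟩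
          · show X.bs ⟨r, ⟨k, Nat.lt_of_succ_lt h⟩⟩ + 1 ≤ m
            have := X.hl r
            omega
          · show m ≤ X.bs ⟨r, ⟨k, Nat.lt_of_succ_lt h⟩⟩ + X.l r
            omega
      rcases (X.run r).nb hpos hlt hi hE with ⟨c1, c2⟩ | ⟨c1, c2⟩ | ⟨c1, c2⟩ | ⟨c1, c2⟩
      · exact ⟨i + 1, c1, c2⟩
      · exfalso
        rw [c2] at hout
        exact hout (hin _ 0 (Or.inl rfl) (Nat.zero_le _))
      · exact ⟨i - 1, by omega, c2⟩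
      · exfalso
        rw [c2] at hout
        exact hout (hin _ _ (Or.inr (by omega)) le_rfl)
  have hno : ∀ (r : R) (k : ℕ) (h : k + 1 < n r) (s : S r),
      ¬ Y.OnArc ⟨⟨r, ⟨k, Nat.lt_of_succ_lt h⟩⟩, (s, true)⟩ x := by
    intro r k h s hc
    obtain ⟨i, hi, e⟩ := key r k h s x hc
    exact hx r _ s i (Nat.mul_pos (by omega) (by omega)) (Nat.mul_lt_mul_of_pos_right h (by omega)) hi e
  obtain ⟨⟨r, k, hk⟩, s, b⟩ := f
  cases b with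
  | true =>
    rcases Nat.lt_or_ge (k + 1) (n r) with h3 | h3
    · exact absurd hf (hno r k h3 s)
    · refine ⟨⟨r, (s, true)⟩, ?_⟩
      have : (⟨k, hk⟩ : Fin (n r)) = ⟨n r - 1, by have := X.hn r; omega⟩ := Fin.ext (by show k = n r - 1; omega)
      show (⟨⟨r, ⟨k, hk⟩⟩, (s, true)⟩ : FP S n) = ⟨⟨r, ⟨n r - 1, _⟩⟩, (s, true)⟩
      rw [this]
  | false =>
    cases k with
    | zero => exact ⟨⟨r, (s, false)⟩, rfl⟩
    | succ k =>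
      exfalso
      apply hno r k hk s
      have h4 := Y.slink r k hk s
      obtain ⟨j, hj, e⟩ := hf
      refine ⟨F.len (Y.φ ⟨⟨r, ⟨k + 1, hk⟩⟩, (s, false)⟩) - j, ?_, ?_⟩
      · have : F.len (Y.φ ⟨⟨r, ⟨k + 1, hk⟩⟩, (s, false)⟩) = F.len (Y.φ ⟨⟨r, ⟨k, Nat.lt_of_succ_lt hk⟩⟩, (s, true)⟩) := by
          rw [← h4, Bands.φ_out, F.len_O]
        omega
      · have h5 : Y.φ ⟨⟨r, ⟨k, Nat.lt_of_succ_lt hk⟩⟩, (s, true)⟩ = F.O (Y.φ ⟨⟨r, ⟨k + 1, hk⟩⟩, (s, false)⟩) := by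
          rw [← h4, Bands.φ_out, F.O_O]
        rw [h5, F.arc_rev hj]
        exact e

end Rgs

end Pool.Agent.Lib.MP_688fd0_co.SQ5.H95
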