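import Pool.Agent.Lib.MP_688fd0_co.SQ5.H64.Walk

/-!
COL: two fixed point free involutions with at most two common orbits: the alternating two-colouring and the directed cycles.
-/

set_option autoImplicit false

namespace Pool.Agent.Lib.MP_688fd0_co.SQ5.H95

open H64

variable {X : Type*} {f g : X → X}

/-- Reachable by `g ∘ f`. -/
def DR (f g : X → X) (x y : X) : Prop := ∃ n : ℕ, (fun t => g (f t))^[n] x = y

theorem gf_inj (hf : ∀ x, f (f x) = x) (hg : ∀ x, g (g x) = x) : Function.Injective fun t => g (f t) := by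
  intro a b h
  have h1 : f a = f b := by rw [← hg (f a), ← hg (f b)]; exact congrArg g h
  rw [← hf a, ← hf b, h1]

theorem gf_g (hf : ∀ x, f (f x) = x) (hg : ∀ x, g (g x) = x) (n : ℕ) (d : X) :
    (fun t => g (f t))^[n] (g ((fun t => g (f t))^[n] d)) = g d := by
  induction n with
  | zero => rfl
  | succ n ih =>
    rw [Function.iterate_succ_apply, Function.iterate_succ_apply']
    have : g (f (g (g (f ((fun t => g (f t))^[n] d))))) = g ((fun t => g (f t))^[n] d) := by rw [hg, hf]
    rw [this]; exact ih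

theorem gf_ne (hf : IsPair f) (hg : IsPair g) (n : ℕ) (d : X) : (fun t => g (f t))^[n] d ≠ g d := by
  intro h
  obtain ⟨m, hm | hm⟩ := Nat.even_or_odd' n
  · subst hm
    have h1 := gf_g hf.1 hg.1 m d
    have h2 : (fun t => g (f t))^[m] ((fun t => g (f t))^[m] d) = g d := by
      rw [← Function.iterate_add_apply, ← two_mul]; exact h
    exact hg.2 _ ((gf_inj hf.1 hg.1).iterate m (h1.trans h2.symm))
  · subst hm
    have h1 := gf_g hf.1 hg.1 m d
    have h2 : (fun t => g (f t))^[m] ((fun t => g (f t))^[m + 1] d) = g d := by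
      rw [← Function.iterate_add_apply, show m + (m + 1) = 2 * m + 1 by ring]; exact h
    have h3 := (gf_inj hf.1 hg.1).iterate m (h1.trans h2.symm)
    rw [Function.iterate_succ_apply'] at h3
    have h4 := congrArg g h3
    rw [hg.1, hg.1] at h4
    exact hf.2 _ h4.symm

theorem DR.refl (x : X) : DR f g x x := ⟨0, rfl⟩

theorem DR.trans {x y z : X} (h : DR f g x y) (h' : DR f g y z) : DR f g x z := by
  obtain ⟨n, rfl⟩ := h
  obtain ⟨m, rfl⟩ := h'
  exact ⟨m + n, Function.iterate_add_apply _ _ _ _⟩

theorem DR.symm [Finite X] (hf : ∀ x, f (f x) = x) (hg : ∀ x, g (g x) = x) {x y : X} (h : DR f g x y) :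
    DR f g y x := by
  obtain ⟨n, rfl⟩ := h
  set F : X → X := fun t => g (f t) with hF
  have h1 : x ∈ Function.periodicPts F := (gf_inj hf hg).mem_periodicPts x
  have hm := Function.minimalPeriod_pos_of_mem_periodicPts h1
  have hp := Function.iterate_minimalPeriod (f := F) (x := x)
  set m := Function.minimalPeriod F x with hmd
  refine ⟨m * n - n, ?_⟩
  have hn : n ≤ m * n := Nat.le_mul_of_pos_left n hm
  show F^[m * n - n] (F^[n] x) = x
  rw [← Function.iterate_add_apply, Nat.sub_add_cancel hn, Function.iterate_mul]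
  have : ∀ k : ℕ, (F^[m])^[k] x = x := by
    intro k
    induction k with
    | zero => rfl
    | succ k ih => rw [Function.iterate_succ_apply', ih, hp]
  exact this n

theorem DR.gg [Finite X] (hf : ∀ x, f (f x) = x) (hg : ∀ x, g (g x) = x) {x y : X} (h : DR f g x y) :
    DR f g (g x) (g y) := by
  obtain ⟨n, rfl⟩ := h
  exact DR.symm hf hg ⟨n, gf_g hf hg n x⟩

theorem con_of_DR {x y : X} (h : DR f g x y) : Con f g x y := by
  obtain ⟨n, rfl⟩ := h
  induction n with
  | zero => exact Con.refl' x
  | succ n ih =>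
    rw [Function.iterate_succ_apply']
    exact Con.trans' ih (Con.trans' (con_left _) (con_right _))

theorem DR_of_con [Finite X] (hf : ∀ x, f (f x) = x) (hg : ∀ x, g (g x) = x) {x y : X} (h : Con f g x y) :
    DR f g x y ∨ DR f g x (g y) := by
  induction h with
  | refl => exact Or.inl (DR.refl x)
  | @tail b c _ hs ih =>
    rcases hs with h1 | h1
    · subst h1
      have h2 : DR f g b (g (f b)) := ⟨1, rfl⟩
      rcases ih with ih | ih
      · exact Or.inr (DR.trans ih h2)
      · refine Or.inl (DR.trans ih ?_)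
        have h3 := DR.gg hf hg h2
        rw [hg] at h3
        exact h3
    · subst h1
      rcases ih with ih | ih
      · right; rw [hg]; exact ih
      · left; exact ih

/-- COL: the alternating colouring, the classes and the directed cycles. -/
theorem col [Finite X] (hf : IsPair f) (hg : IsPair g) (x₀ y₀ : X) (h : ∀ z, Con f g x₀ z ∨ Con f g y₀ z) :
    ∃ o κ : X → Bool, (∀ z, o (f z) = !o z) ∧ (∀ z, o (g z) = !o z) ∧ (∀ z, κ (f z) = κ z) ∧
      (∀ z, κ (g z) = κ z) ∧ (∀ z, κ z = true ↔ Con f g x₀ z) ∧ o x₀ = true ∧ (Con f g x₀ y₀ ∨ o y₀ = true) ∧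
      ∀ z z', κ z = κ z' → o z = o z' → DR f g z z' := by
  classical
  have hs : ∀ {x y : X}, Con f g x y → Con f g y x := fun h => Con.symm' hf.1 hg.1 h
  let r : X → X := fun z => if Con f g x₀ z then x₀ else y₀
  have hr : ∀ z, Con f g (r z) z := by
    intro z
    show Con f g (if Con f g x₀ z then x₀ else y₀) z
    split_ifs with h1
    · exact h1
    · exact (h z).resolve_left h1
  have hrr : ∀ z z', Con f g z z' → r z = r z' := by
    intro z z' h1
    show (if Con f g x₀ z then x₀ else y₀) = if Con f g x₀ z' then x₀ else y₀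
    have : Con f g x₀ z ↔ Con f g x₀ z' := ⟨fun h2 => h2.trans' h1, fun h2 => h2.trans' (hs h1)⟩
    simp only [this]
  have hrg : ∀ z, r (g z) = r z := fun z => (hrr _ _ (con_right z)).symm
  have hrf : ∀ z, r (f z) = r z := fun z => (hrr _ _ (con_left z)).symm
  have hx : ∀ z, ¬ (DR f g (r z) z ∧ DR f g (r z) (g z)) := by
    rintro z ⟨h1, h2⟩
    obtain ⟨n, hn⟩ := DR.trans (DR.symm hf.1 hg.1 h1) h2
    exact gf_ne hf hg n z hn
  have hor : ∀ z, DR f g (r z) z ∨ DR f g (r z) (g z) := fun z => DR_of_con hf.1 hg.1 (hr z)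
  let o : X → Bool := fun z => decide (DR f g (r z) z)
  have ho : ∀ z, o z = true ↔ DR f g (r z) z := fun z => decide_eq_true_iff
  have hog : ∀ z, o (g z) = !o z := by
    intro z
    have h1 : o (g z) = true ↔ ¬ o z = true := by
      rw [ho, ho, hrg]
      constructor
      · intro h2 h3; exact hx z ⟨h3, h2⟩
      · intro h2; exact (hor z).resolve_left h2
    revert h1
    cases o (g z) <;> cases o z <;> simp
  have hst : ∀ z, o (g (f z)) = o z := by
    intro z
    have hD : DR f g z (g (f z)) := ⟨1, rfl⟩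
    have h1 : o (g (f z)) = true ↔ o z = true := by
      rw [ho, ho, hrg, hrf]
      exact ⟨fun h2 => h2.trans (DR.symm hf.1 hg.1 hD), fun h2 => h2.trans hD⟩
    exact Bool.eq_iff_iff.2 h1
  have hof : ∀ z, o (f z) = !o z := by
    intro z
    have h1 := hst z
    rw [hog] at h1
    rw [← h1, Bool.not_not]
  refine ⟨o, fun z => decide (Con f g x₀ z), hof, hog, ?_, ?_, fun z => decide_eq_true_iff, ?_, ?_, ?_⟩
  · intro z
    exact decide_eq_decide.2 ⟨fun h1 => h1.trans' (hs (con_left z)), fun h1 => h1.trans' (con_left z)⟩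
  · intro z
    exact decide_eq_decide.2 ⟨fun h1 => h1.trans' (hs (con_right z)), fun h1 => h1.trans' (con_right z)⟩
  · rw [ho]
    have h1 : r x₀ = x₀ := if_pos (Con.refl' x₀)
    rw [h1]; exact DR.refl x₀
  · by_cases h1 : Con f g x₀ y₀
    · exact Or.inl h1
    · right
      rw [ho]
      have h2 : r y₀ = y₀ := if_neg h1
      rw [h2]; exact DR.refl y₀
  · intro z z' hk hz
    have h1 : Con f g x₀ z ↔ Con f g x₀ z' := decide_eq_decide.1 hk
    have h2 : Con f g z z' := by
      by_cases h3 : Con f g x₀ z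
      · exact (hs h3).trans' (h1.1 h3)
      · exact (hs ((h z).resolve_left h3)).trans' ((h z').resolve_left fun h4 => h3 (h1.2 h4))
    have h3 : r z = r z' := hrr _ _ h2
    cases hoz : o z
    · -- both `g z`, `g z'` have colour true
      have e1 : DR f g (r z) (g z) := by
        have := (ho (g z)).1 (by rw [hog, hoz]; rfl)
        rwa [hrg] at this
      have e2 : DR f g (r z) (g z') := by
        have := (ho (g z')).1 (by rw [hog, ← hz, hoz]; rfl)
        rwa [hrg, ← h3] at this
      have e3 := DR.gg hf.1 hg.1 (DR.trans (DR.symm hf.1 hg.1 e1) e2)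
      rwa [hg.1, hg.1] at e3
    · have e1 := (ho z).1 hoz
      have e2 := (ho z').1 (by rw [← hz, hoz])
      rw [← h3] at e2
      exact DR.trans (DR.symm hf.1 hg.1 e1) e2

end Pool.Agent.Lib.MP_688fd0_co.SQ5.H95
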