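import Pool.Agent.Lib.MP_688fd0_co.SQ5.H95.HFac

/-!
FAM: path families of single regions and the filling of all regions.
-/

set_option autoImplicit false

namespace Pool.Agent.Lib.MP_688fd0_co.SQ5.H95

open Pool.Agent.Lib.MP_688fd0_co.OSF Pool.Agent.Lib.MP_688fd0_co.SQ2 Pool.Agent.Lib.MP_688fd0_co.SQ3 H64

universe u v w

variable {Q : Type u} [Group Q] {B : Lb.{u, v} Q}

theorem itr_rev (x : Q) (l : List B.L) (h : l ≠ []) : itr B (B.fin x l) (B.rev l) = (itr B x l).reverse := by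
  have h1 := verts_rev x l
  rw [verts_eq, verts_eq, fin_rev] at h1
  have hr : B.rev l ≠ [] := by
    intro h2
    apply h
    unfold Lb.rev at h2
    rw [List.reverse_eq_nil_iff, List.map_eq_nil_iff] at h2
    exact h2
  rw [src_ne_nil _ hr, src_ne_nil x h] at h1
  simp only [List.cons_append, List.reverse_append, List.reverse_cons, List.reverse_nil, List.nil_append] at h1
  have h2 := (List.cons.inj h1).2
  exact List.append_cancel_right h2

/-- The family of the paths of one region: ports `P` at the vertices `pt`, pairing `δ`, inner vertices `Z`. -/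
structure PFam (B : Lb.{u, v} Q) {P : Type w} [Fintype P] (pt : P → Q) (δ : P → P) (Z : Finset Q) where
  inn : P → List B.L
  ne : ∀ e, inn e ≠ []
  fin : ∀ e, B.fin (pt e) (inn e) = pt (δ e)
  rev : ∀ e, (itr B (pt (δ e)) (inn (δ e)) : Multiset Q) = (itr B (pt e) (inn e) : Multiset Q)
  cov : ∑ e, (itr B (pt e) (inn e) : Multiset Q) = 2 • Z.val

/-- From directed paths. -/
theorem PFam.ofDir {P : Type w} [Fintype P] {pt : P → Q} {δ : P → P} {Z : Finset Q} {ι : Type*} [Fintype ι]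
    (a b : ι → P) (hab : Function.Bijective (Sum.elim a b)) (l : ι → List B.L) (hne : ∀ i, l i ≠ [])
    (hfin : ∀ i, B.fin (pt (a i)) (l i) = pt (b i)) (hδ : ∀ i, δ (a i) = b i) (hδ' : ∀ i, δ (b i) = a i)
    (hcov : ∑ i, (itr B (pt (a i)) (l i) : Multiset Q) = Z.val) :
    ∃ X : PFam B pt δ Z, (∀ i, X.inn (a i) = l i) ∧ ∀ i, X.inn (b i) = B.rev (l i) := by
  classical
  let φ : ι ⊕ ι ≃ P := Equiv.ofBijective _ hab
  have ha : ∀ i, φ.symm (a i) = Sum.inl i := fun i => (Equiv.symm_apply_eq φ).2 rfl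
  have hb : ∀ i, φ.symm (b i) = Sum.inr i := fun i => (Equiv.symm_apply_eq φ).2 rfl
  let inn : P → List B.L := fun e => Sum.elim l (fun i => B.rev (l i)) (φ.symm e)
  have ia : ∀ i, inn (a i) = l i := fun i => by
    show Sum.elim l (fun i => B.rev (l i)) (φ.symm (a i)) = _
    rw [ha]; rfl
  have ib : ∀ i, inn (b i) = B.rev (l i) := fun i => by
    show Sum.elim l (fun i => B.rev (l i)) (φ.symm (b i)) = _
    rw [hb]; rfl
  have hcase : ∀ p : P → Prop, (∀ i, p (a i)) → (∀ i, p (b i)) → ∀ e, p e := by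
    intro p h1 h2 e
    obtain ⟨s, rfl⟩ := hab.2 e
    cases s with
    | inl i => exact h1 i
    | inr i => exact h2 i
  have hrev : ∀ i, B.fin (pt (b i)) (B.rev (l i)) = pt (a i) := fun i => by rw [← hfin, fin_rev]
  have hir : ∀ i, (itr B (pt (b i)) (B.rev (l i)) : Multiset Q) = (itr B (pt (a i)) (l i) : Multiset Q) := fun i => by
    rw [← hfin, itr_rev _ _ (hne i), Multiset.coe_reverse]
  refine ⟨⟨inn, ?_, ?_, ?_, ?_⟩, ia, ib⟩
  · refine hcase _ (fun i => by rw [ia]; exact hne i) fun i => ?_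
    rw [ib]
    intro h2
    apply hne i
    unfold Lb.rev at h2
    rw [List.reverse_eq_nil_iff, List.map_eq_nil_iff] at h2
    exact h2
  · exact hcase _ (fun i => by rw [ia, hδ, hfin]) fun i => by rw [ib, hδ', hrev]
  · exact hcase _ (fun i => by rw [ia, hδ, ib, hir]) fun i => by rw [ib, hδ', ia, hir]
  · rw [← Equiv.sum_comp φ, Fintype.sum_sum_type, two_nsmul]
    congr 1
    · rw [← hcov]
      exact Finset.sum_congr rfl fun i _ => by
        show (itr B (pt (a i)) (inn (a i)) : Multiset Q) = _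
        rw [ia]
    · rw [← hcov]
      exact Finset.sum_congr rfl fun i _ => by
        show (itr B (pt (b i)) (inn (b i)) : Multiset Q) = _
        rw [ib, hir]

/-- The filling of all regions. -/
theorem fill_of {E : Type w} [Fintype E] [Fintype Q] [DecidableEq Q] (N : Net B E) {R : Type*} [Fintype R]
    [DecidableEq R] (reg : E → R) (Z : R → Finset Q) (hZ : ∑ r, (Z r).val = (N.Yᶜ).val)
    (c : ∀ r, Fib reg r → Fib reg r) (X : ∀ r, PFam B (fun e : Fib reg r => N.pt e.1) (c r) (Z r)) :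
    ∃ Fl : N.Fill (ins c), ∀ r (e : Fib reg r), Fl.inn e.1 = (X r).inn e := by
  classical
  have hinn : ∀ r (e : Fib reg r), (X (reg e.1)).inn ⟨e.1, rfl⟩ = (X r).inn e := by
    rintro r ⟨e, rfl⟩
    rfl
  refine ⟨⟨fun e => (X (reg e)).inn ⟨e, rfl⟩, fun e => (X (reg e)).ne ⟨e, rfl⟩, fun e => (X (reg e)).fin ⟨e, rfl⟩, fun e => ?_, ?_⟩, hinn⟩
  · have h1 := (X (reg e)).rev ⟨e, rfl⟩
    have h2 := hinn (reg e) (c (reg e) ⟨e, rfl⟩)
    show (itr B (N.pt (c (reg e) ⟨e, rfl⟩).1) ((X (reg (c (reg e) ⟨e, rfl⟩).1)).inn ⟨(c (reg e) ⟨e, rfl⟩).1, rfl⟩) : Multiset Q) = _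
    rw [h2]
    exact h1
  · rw [← hZ, Finset.smul_sum]
    have h1 : ∀ g : E → Multiset Q, ∑ e, g e = ∑ r, ∑ e : Fib reg r, g e.1 := by
      intro g
      rw [← Finset.sum_fiberwise (s := Finset.univ) (g := reg) (f := g)]
      refine Finset.sum_congr rfl fun r _ => ?_
      exact Finset.sum_subtype (Finset.univ.filter fun e => reg e = r) (p := fun e => reg e = r)
        (fun e => by simp) g
    rw [h1]
    refine Finset.sum_congr rfl fun r _ => ?_
    rw [← (X r).cov]
    refine Finset.sum_congr rfl fun e _ => ?_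
    rw [hinn]

end Pool.Agent.Lib.MP_688fd0_co.SQ5.H95
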