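import Pool.Agent.Lib.MP_688fd0_co.SQ5.H95.FarC
import Pool.Agent.Lib.MP_688fd0_co.SQ5.H95.WinP
import Pool.Agent.Lib.MP_688fd0_co.SQ5.H87.Star4

/-!
FARD: FAR-3 for one layout of design B', with the rows as hypotheses in the form of helper20 / helper53 (`lst_B`).
-/

set_option autoImplicit false

namespace Pool.Agent.Lib.MP_688fd0_co.SQ5.H95

open Function Pool.Agent.Lib.MP_688fd0_co.OSF H64 H76
open Pool.Agent.Lib.MP_688fd0_co.SQ3 Pool.Agent.Lib.MP_688fd0_co.SQ5.H58 Pool.Agent.Lib.MP_688fd0_co.SQ5.H24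

universe u v

section hwB

variable (r w : ℕ)

theorem hwB_two (K : ℤ) : 2 ≤ hwB r w K := by
  unfold hwB
  split_ifs <;> norm_num

theorem hwB_23 (K : ℤ) : hwB r w K = 2 ∨ hwB r w K = 3 := by
  unfold hwB
  split_ifs
  · exact Or.inr rfl
  · exact Or.inl rfl

theorem hwB_l : hwB r w r = 3 := if_pos (Or.inl rfl)

theorem hwB_r : hwB r w (r + w) = 3 := if_pos (Or.inr rfl)

theorem hwB_m {K : ℤ} (h0 : (r : ℤ) < K) (h1 : K < r + w) : hwB r w K = 2 := by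
  unfold hwB
  rw [if_neg]
  omega

variable {L : AddSubgroup (ℤ × ℤ)} {M R : ℕ} {dc : ℕ → ℤ} {spc : ℕ → Prop} {Gr : ℤ} {g : Geo L M R dc spc Gr} {m0 : ℕ}

/-- The runs of design B' in the form of helper20. -/
theorem runD_B {r w : ℕ} (hw3 : 3 ≤ w) (H : Geo.Mn g m0 (hwB r w)) (z : ℤ) :
    H20.RunD (H.bd z) (g.rs z) (g.rp z) r w where
  b := bd_b H z
  cs := bd_cs H z
  hL := hwB_two r w r
  hR := hwB_two r w (r + w)
  hM K h0 h1 := hwB_m r w h0 h1
  w3 := hw3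

end hwB

section fin

theorem xl_inj {Q : Type u} {x : Fin 3 → Q} (hxi : Injective x) {t a b : Fin 3} (hta : t ≠ a) (htb : t ≠ b) (hab : a ≠ b) :
    Injective (xl x t a b) := by
  intro i j h
  cases i <;> cases j <;> first
    | rfl
    | (have h1 := hxi (show x _ = x _ from h); simp_all)

variable {Q : Type} [Group Q] {N C : Subgroup Q} {eps : Q →* ℤˣ} {k P : ℕ} {x : Fin 3 → Q} (Hx : Inv3 eps x)
  {t a b : Fin 3} (hta : t ≠ a) (htb : t ≠ b) (hab : a ≠ b)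

/-- The covering. -/
noncomputable abbrev cvB : Cov (BX Hx (t := t) (a := a) (b := b)) (id : L3 → L3)
    (Ltc (ct eps (x a * x t)) (ct eps (x b * x t))) :=
  (Hx.co (B := BX Hx (t := t) (a := a) (b := b)) (l := id) hta htb hab rfl rfl rfl).cov

variable {M R r w : ℕ} {Gr : ℤ}
  {g : Geo (Ltc (ct eps (x a * x t)) (ct eps (x b * x t))) M R (dcL (2 * r + w + 1) (dB r w)) (spL (2 * r + w + 1)) Gr}
  (H : Geo.Mn g (2 * r + w + 1) (hwB r w))

/-- The strands of a run. -/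
abbrev SB (z : Zr g) : Type := SS (cvB Hx hta htb hab) H (r + 1) (r + w + 2) z

/-- The active strands. -/
abbrev VB' (z : Zr g) : Set (SB Hx hta htb hab H z) := VV (cvB Hx hta htb hab) H (r + 1) (r + w + 2) (r + 2) (r + w + 1) z

/-- The rung graph. -/
noncomputable abbrev LB (z : Zr g) : SimpleGraph (VB' Hx hta htb hab H z) :=
  LamV H (cvB Hx hta htb hab) (r + 1) (r + w + 2) (r + 2) (r + w + 1) z

/-- The instance. -/
noncomputable abbrev XB [Finite Q] (hxi : Injective x) (hr : 1 ≤ r) {p : ℕ} (hp : 2 ≤ p) (hN : ∀ z : Zr g, p ≤ g.rE z) :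
    Rgs (ff (cvB Hx hta htb hab) (fun _ => rfl) (xl_inj hxi hta htb hab) (fun _ => rfl) g) (Zr g)
      (SB Hx hta htb hab H) (fun z => g.rE z / p) :=
  inst H (cvB Hx hta htb hab) (fun _ => rfl) (xl_inj hxi hta htb hab) (fun _ => rfl) (r + 1) (r + w + 2)
    (by have : (1 : ℤ) ≤ r := by exact_mod_cast hr
        linarith) (by push_cast; have : (1 : ℤ) ≤ r := by exact_mod_cast hr
                      linarith) p hp hN

variable [Fintype Q]

/-- FAR-3 FOR ONE LAYOUT. -/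
theorem lst_B {cS : ℕ} (hS : Star4S cS) (hxi : Injective x) (gn : GN N C eps k P) {e₀ : ℕ} (he : k * Nat.card C ∣ e₀)
    (he0 : 1 ≤ e₀) (hr : 1 ≤ r) (hw1 : 1 ≤ w) (hp : 2 ≤ 8 * (3 * e₀)) (hN : ∀ z : Zr g, 8 * (3 * e₀) ≤ g.rE z)
    (hc : H66.Chg g) (hG : 64 ≤ Gr) (hdl : ∀ j, j + 1 < R → spL (2 * r + w + 1) j → g.dl j + 20 ≤ Gr)
    (hsea : ∀ K : ℤ, K % R = R - 1 → ∀ s, (g.P K s - g.P (K + 1) s) % 8 = 0 ∨ (g.P K s - g.P (K + 1) s) % 8 = 3)
    {mm K : ℕ} (hmm : 0 < mm) (hK : w * Nat.card (K0 eps) ≤ K)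
    (hnum : ∀ z : Zr g, K * ((cS * K ^ 2 + 1) * mm) * (8 * (3 * e₀)) ≤ g.rE z)
    (hiso : ∀ z x', ∃ y, (LB Hx hta htb hab H z).Adj x' y)
    (h4 : ∀ z x' y, (LB Hx hta htb hab H z).Adj x' y →
      Four (LB Hx hta htb hab H z) x' ∨ Four (LB Hx hta htb hab H z) y)
    [∀ z : Zr g, DecidableEq (SB Hx hta htb hab H z)]
    (hp3 : ∀ z (x' y y' : VB' Hx hta htb hab H z), (LB Hx hta htb hab H z).Adj x' y → (LB Hx hta htb hab H z).Adj x' y' →
      y ≠ y' → StkT ((XB Hx hta htb hab H hxi hr hp hN).D0 (Set.range x) z) mm (p3 x'.1 y.1 y'.1))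
    (r₀ : Σ z, Rgs.KC (VB' Hx hta htb hab H) (LB Hx hta htb hab H) z)
    (hconn : ∀ r', Relation.ReflTransGen ((XB Hx hta htb hab H hxi hr hp hN).RAdj (VB' Hx hta htb hab H)
        (Rgs.cpC (VB' Hx hta htb hab H) (LB Hx hta htb hab H))) r₀ r') : Lst (Set.range x) := by
  have hr' : (1 : ℤ) ≤ r := by exact_mod_cast hr
  have hw' : (1 : ℤ) ≤ w := by exact_mod_cast hw1
  refine lst_of_rows Hx (B := BX Hx (t := t) (a := a) (b := b)) (l := id) hta htb hab rfl rfl rfl hS Hx.gen ?_ gn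
    (fun _ => rfl) (xl_inj hxi hta htb hab) (fun _ => rfl) (e := 3 * e₀) (dvd_mul_of_dvd_right he 3) (by omega) H
    (κ0 := r + 1) (κ1 := r + w + 2) (v0 := r + 2) (v1 := r + w + 1) (by linarith) (by push_cast; linarith) hp hN hc hG hdl
    hsea (c1 := r + 1) (c2 := r + w) (by omega) (by omega) (by push_cast; linarith) (by push_cast; linarith)
    (by push_cast; linarith) (by push_cast; linarith) (mm := mm) (K := K) hmm ?_ hnum hiso h4 hp3 r₀ hconn
  · intro i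
    cases i
    · exact ⟨a, rfl⟩
    · exact ⟨b, rfl⟩
    · exact ⟨t, rfl⟩
  · have e : ((r : ℤ) + w + 1 + 1 - (r + 2)).toNat = w := by omega
    rw [e]
    exact hK

end fin

end Pool.Agent.Lib.MP_688fd0_co.SQ5.H95
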