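import Pool.Agent.Lib.MP_688fd0_co.SQ5.H95.FarD
import Pool.Agent.Lib.MP_688fd0_co.SQ5.H66.NumF
import Pool.Agent.Lib.MP_688fd0_co.SQ5.H76.DegF
import Pool.Agent.Lib.MP_688fd0_co.SQ5.H53.HConn
import Pool.Agent.Lib.MP_688fd0_co.SQ5.H48.LamE
import Pool.Agent.Lib.MP_688fd0_co.SQ5.H95.DIdd

/-!
FARE: the rows of helper20, helper48, helper53, helper66, helper76 for the layout of design B', and `far3_of`: FAR-3 from the
last row (`LoopS`).
-/

set_option autoImplicit false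

namespace Pool.Agent.Lib.MP_688fd0_co.SQ5.H95

open Function Pool.Agent.Lib.MP_688fd0_co.OSF H64 H76
open Pool.Agent.Lib.MP_688fd0_co.SQ3 Pool.Agent.Lib.MP_688fd0_co.SQ5.H58 Pool.Agent.Lib.MP_688fd0_co.SQ5.H24

/-- layers -/
def mmf (k : ℕ) : ℕ := Nat.factorial (k ^ 7 + k ^ 7) * (k ^ 7 + k ^ 7)

theorem mmf_le {k : ℕ} (hk : 4 ≤ k) : mmf k ≤ 2 ^ (k ^ 17) := by
  have h1 : 2 * k ^ 7 ≤ k ^ 8 := by
    rw [pow_succ k 7, mul_comm]
    exact Nat.mul_le_mul_left _ (by omega)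
  have h2 := H66.fac_le (c := k ^ 7) (n := k ^ 7) (d := 8) hk h1 h1
  unfold mmf
  rw [← two_mul]
  exact h2

theorem mmf_pos {k : ℕ} (hk : 4 ≤ k) : 0 < mmf k := by
  unfold mmf
  have h : 0 < k ^ 7 := Nat.pow_pos (by omega)
  exact Nat.mul_pos (Nat.factorial_pos _) (by omega)

section rows

variable {Q : Type} [Group Q] {N C : Subgroup Q} {eps : Q →* ℤˣ} {k P : ℕ} {x : Fin 3 → Q} (Hx : Inv3 eps x)
  {t a b : Fin 3} (hta : t ≠ a) (htb : t ≠ b) (hab : a ≠ b)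

variable {M R r w : ℕ} {Gr : ℤ}
  {g : Geo (Ltc (ct eps (x a * x t)) (ct eps (x b * x t))) M R (dcL (2 * r + w + 1) (dB r w)) (spL (2 * r + w + 1)) Gr}
  (H : Geo.Mn g (2 * r + w + 1) (hwB r w))

include Hx hta htb hab in
theorem inv_ne (h : H59.NCen eps ((x a * x b) * (x a * x b))) : x t * (x a * x b) ^ 2 * x t ≠ ((x a * x b) ^ 2)⁻¹ := by
  refine Deg.ne_of_ncen (Hx.inv a) (Hx.inv t) (Hx.inv b) (Hx.neg a) (Hx.neg t) (Hx.neg b) ?_ h
  rw [← Hx.gen]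
  congr 1
  ext y
  simp only [Set.mem_insert_iff, Set.mem_singleton_iff, Set.mem_range]
  constructor
  · rintro (rfl | rfl | rfl)
    · exact ⟨a, rfl⟩
    · exact ⟨t, rfl⟩
    · exact ⟨b, rfl⟩
  · rintro ⟨i, rfl⟩
    rcases three hta htb hab i with rfl | rfl | rfl
    · exact Or.inr (Or.inl rfl)
    · exact Or.inl rfl
    · exact Or.inr (Or.inr rfl)

theorem row_iso (hw : 3 ≤ w) (h : H59.NCen eps ((x a * x b) * (x a * x b))) (z : Zr g) (x' : VB' Hx hta htb hab H z) :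
    ∃ y, (LB Hx hta htb hab H z).Adj x' y :=
  Deg.lamV_hiso H _ (fun _ => rfl) (by linarith) (by linarith) (by have : (3 : ℤ) ≤ w := by exact_mod_cast hw
                                                                   linarith)
    Deg.hwB_two (inv_ne Hx hta htb hab h) z x'

theorem row_four (hw : 3 ≤ w) (h : H59.NCen eps ((x a * x b) * (x a * x b))) (z : Zr g) (x' y : VB' Hx hta htb hab H z)
    (h' : (LB Hx hta htb hab H z).Adj x' y) : Four (LB Hx hta htb hab H z) x' ∨ Four (LB Hx hta htb hab H z) y :=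
  Deg.lamV_h4 H _ (fun _ => rfl) (by linarith) (by linarith) (by have : (3 : ℤ) ≤ w := by exact_mod_cast hw
                                                                 linarith)
    Deg.hwB_two (inv_ne Hx hta htb hab h) z x' y h'

theorem row_gad [Finite Q] (gn : GN N C eps k P) (hk : 1 ≤ k) (hnc : H59.NCen eps ((x a * x b) * (x a * x b)))
    (hxi : Injective x) (hr : 1 ≤ r)
    (hp : 2 ≤ 8 * (3 * (k * Nat.card C))) (hN : ∀ z : Zr g, 8 * (3 * (k * Nat.card C)) ≤ g.rE z)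
    [∀ z : Zr g, DecidableEq (SB Hx hta htb hab H z)] (z : Zr g) {J : ℤ} {y : Q}
    (hW : H20.Wl (cvB Hx hta htb hab) (H.bd z) (g.rs z) (r + 1) (r + w + 2) J y) {m : ℤ} {i : ℕ}
    (hm : m ∈ H20.Mw (H.bd z) (g.rp z) J)
    (hclo : H20.CloW (x a) (x b) (x t) (g.rp z + m) i)
    (hmin : ∀ i', i' < i → ¬ H20.CloW (x a) (x b) (x t) (g.rp z + m) i') (hi : i ≤ 8 * k) :
    H20.WC (DI ((XB Hx hta htb hab H hxi hr hp hN).D0 (Set.range x) z)) (3 * (8 * k + 1)) 1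
      (H20.rgZ (H20.wp (fun _ => rfl) hW) m) (H20.rgZ (H20.wp (fun _ => rfl) hW) (m + i)) := by
  have hC : 0 < Nat.card C := Nat.card_pos
  have hk0 : 0 < k * Nat.card C := Nat.mul_pos hk hC
  have hkk : k ≤ k * Nat.card C := Nat.le_mul_of_pos_right _ hC
  obtain ⟨U, -, -, hU⟩ := pu_bd Hx (B := BX Hx (t := t) (a := a) (b := b)) (l := id) hta htb hab rfl rfl rfl gn
    (fun _ => rfl) (dvd_refl (k * Nat.card C))
  obtain ⟨hU1, hU2⟩ := hU H z
  have h2t := ncen_at Hx hta htb hab hnc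
  exact WC_DI (wc_clow H (cvB Hx hta htb hab) (fun _ => rfl) (xl_inj hxi hta htb hab) (fun _ => rfl) _ _ hp hN z
    (A := Set.range x) (fun i => by
      cases i
      · exact ⟨a, rfl⟩
      · exact ⟨b, rfl⟩
      · exact ⟨t, rfl⟩) (hwB_two r w) (fun K => ne_sea Hx h2t (hwB_23 r w K)) hU1 (fun s => hU2 s)
    (by push_cast; exact dvd_mul_right _ _) (by omega) (by omega) hW hm hclo hmin hi (by omega))

theorem row_p3 [Finite Q] (hxi : Injective x) (hr : 1 ≤ r)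
    (hp : 2 ≤ 8 * (3 * (k * Nat.card C))) (hN : ∀ z : Zr g, 8 * (3 * (k * Nat.card C)) ≤ g.rE z)
    [∀ z : Zr g, DecidableEq (SB Hx hta htb hab H z)]
    (hloop : ∀ (z : Zr g) (s s' : SB Hx hta htb hab H z),
      (H20.Lam (cvB Hx hta htb hab) (H.bd z) (g.rs z) (r + 1) (r + w + 2) (r + 2) (r + w + 1)).Adj s s' →
      ∃ c' n' : ℕ, c' ≤ k ^ 7 ∧ n' ≤ k ^ 7 ∧
        H20.WC (DI ((XB Hx hta htb hab H hxi hr hp hN).D0 (Set.range x) z)) c' n' s(s, s') s(s, s'))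
    (z : Zr g) (x' y y' : VB' Hx hta htb hab H z) (h1 : (LB Hx hta htb hab H z).Adj x' y)
    (h2 : (LB Hx hta htb hab H z).Adj x' y') (h3 : y ≠ y') :
    StkT ((XB Hx hta htb hab H hxi hr hp hN).D0 (Set.range x) z) (mmf k) (p3 x'.1 y.1 y'.1) := by
  have hA : ∀ d : (ff (cvB Hx hta htb hab) (fun _ => rfl) (xl_inj hxi hta htb hab) (fun _ => rfl) g).X,
      (BX Hx (t := t) (a := a) (b := b)).q d.1.2 ∈ Set.range x := ff_A _ _ _ _ fun i => by
    cases i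
    · exact ⟨a, rfl⟩
    · exact ⟨b, rfl⟩
    · exact ⟨t, rfl⟩
  have : Finite (SB Hx hta htb hab H z) := instFiniteSd (cvB Hx hta htb hab) (H.bd z) (g.rs z) (r + 1) (r + w + 2)
  exact hp3_of_loops (Rgs.D0_pair _ z) (Rgs.idd_D0 _ hA z)
    (Λ := H20.Lam (cvB Hx hta htb hab) (H.bd z) (g.rs z) (r + 1) (r + w + 2) (r + 2) (r + w + 1))
    (hloop z) h1 h2 fun h => h3 (Subtype.ext h)

theorem nonempty_VB (hw : 3 ≤ w) (z : Zr g) : Nonempty (VB' Hx hta htb hab H z) := by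
  obtain ⟨i, j, hs⟩ := (H.bd z).st_zero (r + 2) (g.rs z)
  obtain ⟨y, hy⟩ := exists_over Hx (B := BX Hx (t := t) (a := a) (b := b)) (l := id) hta htb hab rfl rfl rfl i j
  have hw' : (3 : ℤ) ≤ w := by exact_mod_cast hw
  exact ⟨⟨⟨(r + 2, y), by linarith, by linarith, by rw [hs]; exact hy⟩, le_refl _, by
    show (r : ℤ) + 2 ≤ r + w + 1
    linarith⟩⟩

theorem row_conn [Finite Q] (gn : GN N C eps k P) (hk : 0 < k) (hw : k + 2 ≤ w) (hw4 : 5 ≤ w) {kq h ρ : ℤ} {ty : Bool}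
    (rg : Reg g.w kq h ρ ty) (hc : 0 ≤ g.i0 - g.j0) (hkq : (k : ℤ) ∣ kq) (hkq1 : 1 ≤ kq) (hh : 4 ≤ h)
    (hxi : Injective x) (hr : 1 ≤ r) {p : ℕ} (hp : 2 ≤ p) (hN : ∀ z : Zr g, p ≤ g.rE z) :
    ∃ r₀, ∀ r', Relation.ReflTransGen ((XB Hx hta htb hab H hxi hr hp hN).RAdj (VB' Hx hta htb hab H)
        (Rgs.cpC (VB' Hx hta htb hab H) (LB Hx hta htb hab H))) r₀ r' := by
  obtain ⟨z1, a1, a2, a3, a4⟩ := H48.stretch_lam (g := g) rg hc hkq1 hh hkq
  have hC : 0 < Nat.card C := Nat.card_pos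
  obtain ⟨U, -, hU2, hU3, -⟩ := inst_per Hx (B := BX Hx (t := t) (a := a) (b := b)) (l := id) hta htb hab rfl rfl rfl gn
    (fun _ => rfl) (xl_inj hxi hta htb hab) (fun _ => rfl) (dvd_refl (k * Nat.card C)) (Nat.mul_pos hk hC)
  have hU := H53.RegC.perU_of Hx (B := BX Hx (t := t) (a := a) (b := b)) (l := id) hta htb hab rfl rfl rfl
    (e := k * Nat.card C) (U := U) hU2 (fun D hD s0 κ => by
      have := hU3 D hD s0 κ
      exact_mod_cast this)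
  obtain ⟨s⟩ := nonempty_VB Hx hta htb hab H (by omega) (⟨0, le_refl _, by have := g.w.Et8; omega⟩ : Zr g)
  have := gn.Nn
  refine ⟨⟨_, Rgs.cpC _ _ _ s⟩, fun r' => ?_⟩
  have hr' : (1 : ℤ) ≤ r := by exact_mod_cast hr
  have hw' : (k : ℤ) + 2 ≤ w := by exact_mod_cast hw
  have hw4' : (5 : ℤ) ≤ w := by exact_mod_cast hw4
  exact H53.HConn.hconn H (cvB Hx hta htb hab) (fun _ => rfl) (xl_inj hxi hta htb hab) (fun _ => rfl) _ _ hp hN (by linarith)
    (by linarith) hU (Nat.mul_pos hk hC) (by linarith) N gn.Nc (by rw [gn.idx]; exact gn.cop) (e1 := k) (by rw [gn.idx]) hk (r0 := r) (w := w)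
    (by linarith) (by push_cast; linarith) hw' (by linarith) (fun K h0 h1 => hwB_m r w h0 h1) (by rw [hwB_l]) (by rw [hwB_r])
    (Or.inl (hwB_l r w)) (H53.HConn.hF_cov Hx hta htb hab rfl rfl rfl) a1 a2 a3 a4 rfl rfl _ r'

end rows

/-- THE LAST ROW (P4): the loops. -/
def LoopS : Prop :=
  ∀ (Q : Type) [Group Q] [Finite Q] (N C : Subgroup Q) (eps : Q →* ℤˣ) (k P : ℕ) (x : Fin 3 → Q) (Hx : Inv3 eps x)
    (t a b : Fin 3) (hta : t ≠ a) (htb : t ≠ b) (hab : a ≠ b) (M R r w : ℕ) (Gr : ℤ)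
    (g : Geo (Ltc (ct eps (x a * x t)) (ct eps (x b * x t))) M R (dcL (2 * r + w + 1) (dB r w)) (spL (2 * r + w + 1)) Gr)
    (H : Geo.Mn g (2 * r + w + 1) (hwB r w)) (_ : GN N C eps k P) (_ : 4 ≤ k) (_ : k + 2 ≤ w) (_ : 5 ≤ w)
    (_ : H59.NCen eps ((x a * x b) * (x a * x b))) (hxi : Injective x) (hr : 1 ≤ r)
    (hp : 2 ≤ 8 * (3 * (k * Nat.card C))) (hN : ∀ z : Zr g, 8 * (3 * (k * Nat.card C)) ≤ g.rE z)
    [∀ z : Zr g, DecidableEq (SB Hx hta htb hab H z)] (z : Zr g) (s s' : SB Hx hta htb hab H z),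
    (H20.Lam (cvB Hx hta htb hab) (H.bd z) (g.rs z) (r + 1) (r + w + 2) (r + 2) (r + w + 1)).Adj s s' →
    ∃ c' n' : ℕ, c' ≤ k ^ 7 ∧ n' ≤ k ^ 7 ∧
      H20.WC (DI ((XB Hx hta htb hab H hxi hr hp hN).D0 (Set.range x) z)) c' n' s(s, s') s(s, s')

/-- FAR-3 from the loops. -/
theorem far3_of (hloop : LoopS) : SQD.Far3S := by
  obtain ⟨e, he⟩ := H66.numF mmf (fun k hk => mmf_le hk) 4
  refine ⟨e, fun c₁ => ?_⟩
  obtain ⟨c₀, hc₀⟩ := he c₁
  refine ⟨c₀ + 1, ?_⟩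
  intro G _ _ N C eps k P a t b h _ hR hP
  classical
  have : Fintype G := Fintype.ofFinite _
  have hk := h.card_pos
  have hP1 : 2 ^ ((k + (Nat.card G).primeFactorsList.length) ^ c₀) ≤ P :=
    (Nat.pow_le_pow_right (by norm_num) (Nat.pow_le_pow_right (by omega) (Nat.le_succ _))).trans hP
  have hP2 : 2 ≤ P := by
    refine le_trans ?_ hP
    calc 2 = 2 ^ 1 := rfl
      _ ≤ _ := Nat.pow_le_pow_right (by norm_num) (Nat.one_le_pow _ _ (by omega))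
  obtain ⟨Hx, hk4, -, -, -, -, hl⟩ := hc₀ G N C eps k P a t b h hR hP1
  have hxi := tri_inj h hP2
  rcases H59.lst_or_two_tri h with h59 | h59
  · exact h59
  obtain ⟨t₁, t₂, htt, hnc⟩ := two_letters (x := ![a, t, b]) Hx.inv h59
  obtain ⟨s, hs, a', b', h1, h2, h3, R, nh, m, TT, Gr, g, hR1, hn, hL, hm4, hc, hG, hdl, hsea, hN, hnum⟩ := hl htt
  have hncen := hnc s hs a' b' h1 h2 h3
  have H := mnB hR1 g
  have hC : 0 < Nat.card C := Nat.card_pos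
  have he1 : 1 ≤ k * Nat.card C := Nat.mul_pos hk hC
  obtain ⟨ρ, ty, hreg⟩ := hL.reg
  obtain ⟨r₀, hconn⟩ := row_conn Hx h1 h2 h3 H h.gn hk (by omega) (by omega) hreg g.c0_nonneg (dvd_refl _) hn.hk
    (by have := hn.hm; have := hn.hh; omega) hxi (by norm_num) (p := 8 * (3 * (k * Nat.card C))) (by omega) hN
  have key := lst_B Hx h1 h2 h3 H (P := P) H87.Star2.star4S hxi h.gn (dvd_refl (k * Nat.card C)) he1 (by norm_num) (by omega)
    (by omega) hN hc hG hdl hsea (mm := mmf k) (K := (k + 6) * Nat.card (K0 eps)) (mmf_pos hk4) le_rfl hnum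
    (row_iso Hx h1 h2 h3 H (by omega) hncen) (row_four Hx h1 h2 h3 H (by omega) hncen)
    (row_p3 Hx h1 h2 h3 H hxi (by norm_num) (by omega) hN fun z s s' hs =>
      hloop G N C eps k P _ Hx _ _ _ h1 h2 h3 _ R 2 (k + 6) Gr g H h.gn hk4 (by omega) (by omega) hncen hxi (by norm_num)
        (by omega) hN z s s' hs) r₀ hconn
  rw [range_tri] at key
  exact key

end Pool.Agent.Lib.MP_688fd0_co.SQ5.H95
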