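import Pool.Agent.Lib.MP_688fd0_co.SQ5.H95.Net
import Pool.Agent.Lib.MP_688fd0_co.SQ3.H43.Factor2

/-!
FICT: the end of the argument with one fictitious step, and without.
-/

set_option autoImplicit false

namespace Pool.Agent.Lib.MP_688fd0_co.SQ5.H95

open Function Pool.Agent.Lib.MP_688fd0_co.OSF Pool.Agent.Lib.MP_688fd0_co.SQ2 Pool.Agent.Lib.MP_688fd0_co.SQ3 H64

universe u v w

/-- A tour with one fictitious step, at `y`; a neighbour `z` of `y`; at most two cycles, through `y` and `z`. -/
theorem lst_of_fict {G : Type u} [Group G] [Finite G] {A : Set G} {B : Lb.{u, v} G} {K : Type w} (U : TourS B K) (y z : G)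
    (hA : ∀ x, x ≠ y → B.q (U.lab x) ∈ A) (hz : y⁻¹ * z ∈ A) (hcov : ∀ x, U.cls x = U.cls y ∨ U.cls x = U.cls z) :
    Lst A := by
  classical
  set f : G → G := fun x => x * B.q (U.lab x) with hf
  have hper : ∀ g, g ∈ periodicPts f := fun g => U.bij.1.mem_periodicPts g
  have hck : ∀ k g, U.cls (f^[k] g) = U.cls g := by
    intro k
    induction k with
    | zero => intro g; rfl
    | succ k ih => intro g; rw [iterate_succ_apply', ← ih g]; exact U.step _
  have hedge : ∀ x, x ≠ y → x⁻¹ * f x ∈ A := by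
    intro x hx
    rw [hf]
    simp only [inv_mul_cancel_left]
    exact hA x hx
  set P := minimalPeriod f y with hP
  have hPpos : 0 < P := minimalPeriod_pos_iff_mem_periodicPts.2 (hper y)
  have hny : ∀ k, 0 < k → k < P → f^[k] y ≠ y := by
    intro k hk hkP h
    exact not_isPeriodicPt_of_pos_of_lt_minimalPeriod hk.ne' hkP h
  by_cases h2 : U.cls z = U.cls y
  · refine H43.lst_of_walk A P (fun k => if k = 0 then f y * (y⁻¹ * z)⁻¹ else f^[k] y) ?_ ?_ ?_
    · intro k hk
      rcases Nat.eq_zero_or_pos k with rfl | h0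
      · simp only [if_true, if_neg (show ¬ 0 + 1 = 0 by omega)]
        show (f y * (y⁻¹ * z)⁻¹)⁻¹ * f y ∈ A
        rw [mul_inv_rev, inv_inv, mul_assoc, inv_mul_cancel, mul_one]
        exact hz
      · simp only [if_neg (show ¬ k = 0 by omega), if_neg (show ¬ k + 1 = 0 by omega), iterate_succ_apply']
        exact hedge _ (hny k h0 hk)
    · intro i hi j hj hij
      simp only [if_neg (show ¬ i + 1 = 0 by omega), if_neg (show ¬ j + 1 = 0 by omega)] at hij
      exact H43.iter_inj f y i j hi hj hij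
    · intro g
      have h3 : U.cls y = U.cls g := by
        rcases hcov g with h | h
        · exact h.symm
        · rw [h, h2]
      obtain ⟨k, hk, e⟩ := H43.iter_surj f y g (hper y) (U.trans y g h3)
      refine ⟨k, hk, ?_⟩
      simp only [if_neg (show ¬ k + 1 = 0 by omega)]
      exact e
  · set P' := minimalPeriod f z with hP'
    have hPpos' : 0 < P' := minimalPeriod_pos_iff_mem_periodicPts.2 (hper z)
    have hh : ∀ k, f^[k] z ≠ y := fun k h => h2 (by rw [← h, hck])
    refine H43.lst_of_walk A (P + P') (fun k => if k = 0 then f y * (y⁻¹ * z)⁻¹ else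
      if k ≤ P then f^[k] y else f^[k - (P + 1)] z) ?_ ?_ ?_
    · intro k _
      rcases Nat.eq_zero_or_pos k with rfl | h0
      · simp only [if_true, if_neg (show ¬ 0 + 1 = 0 by omega), if_pos (show 0 + 1 ≤ P by omega)]
        show (f y * (y⁻¹ * z)⁻¹)⁻¹ * f y ∈ A
        rw [mul_inv_rev, inv_inv, mul_assoc, inv_mul_cancel, mul_one]
        exact hz
      · simp only [if_neg (show ¬ k = 0 by omega), if_neg (show ¬ k + 1 = 0 by omega)]
        rcases Nat.lt_trichotomy k P with hk | hk | hk
        · simp only [if_pos hk.le, if_pos (show k + 1 ≤ P by omega), iterate_succ_apply']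
          exact hedge _ (hny k h0 hk)
        · subst hk
          simp only [if_pos le_rfl, if_neg (show ¬ P + 1 ≤ P by omega), Nat.sub_self]
          rw [hP, iterate_minimalPeriod]
          exact hz
        · simp only [if_neg (show ¬ k ≤ P by omega), if_neg (show ¬ k + 1 ≤ P by omega)]
          rw [show k + 1 - (P + 1) = (k - (P + 1)) + 1 by omega, iterate_succ_apply']
          exact hedge _ (hh _)
    · intro i hi j hj hij
      have hc1 : ∀ k, U.cls (f^[k] z) ≠ U.cls y := fun k => by rw [hck]; exact h2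
      simp only [if_neg (show ¬ i + 1 = 0 by omega), if_neg (show ¬ j + 1 = 0 by omega)] at hij
      rcases Nat.lt_or_ge i P with hi1 | hi1 <;> rcases Nat.lt_or_ge j P with hj1 | hj1
      · simp only [if_pos (show i + 1 ≤ P by omega), if_pos (show j + 1 ≤ P by omega)] at hij
        exact H43.iter_inj f y i j hi1 hj1 hij
      · simp only [if_pos (show i + 1 ≤ P by omega), if_neg (show ¬ j + 1 ≤ P by omega)] at hij
        exact absurd (hij ▸ hck (i + 1) y) (hc1 _)
      · simp only [if_neg (show ¬ i + 1 ≤ P by omega), if_pos (show j + 1 ≤ P by omega)] at hij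
        exact absurd (hij ▸ hck (j + 1) y) (hc1 _)
      · simp only [if_neg (show ¬ i + 1 ≤ P by omega), if_neg (show ¬ j + 1 ≤ P by omega)] at hij
        have := iterate_injOn_Iio_minimalPeriod (f := f) (x := z)
          (Set.mem_Iio.2 (show i + 1 - (P + 1) < minimalPeriod f z by omega))
          (Set.mem_Iio.2 (show j + 1 - (P + 1) < minimalPeriod f z by omega)) hij
        omega
    · intro g
      rcases hcov g with hg | hg
      · obtain ⟨k, hk, e⟩ := H43.iter_surj f y g (hper y) (U.trans y g hg.symm)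
        refine ⟨k, by omega, ?_⟩
        simp only [if_neg (show ¬ k + 1 = 0 by omega), if_pos (show k + 1 ≤ P by omega)]
        exact e
      · obtain ⟨k, hk⟩ := U.trans z g hg.symm
        have hk' : f^[k] z = g := hk
        refine ⟨P + k % P', by have := Nat.mod_lt k hPpos'; omega, ?_⟩
        simp only [if_neg (show ¬ P + k % P' + 1 = 0 by omega), if_neg (show ¬ P + k % P' + 1 ≤ P by omega)]
        rw [show P + k % P' + 1 - (P + 1) = k % P' by omega, hP', iterate_mod_minimalPeriod_eq]
        exact hk'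

/-- Without fictitious steps. -/
theorem lst_of_tourS {G : Type u} [Group G] [Finite G] {A : Set G} (hA : Subgroup.closure A = ⊤) {B : Lb.{u, v} G}
    (U : TourS B Bool) (hl : ∀ x, B.q (U.lab x) ∈ A) : Lst A :=
  H43.lst_of_orbits A hA (fun x => B.q (U.lab x)) hl U.cls U.step fun g g' h => U.trans g g' h.symm

variable {Q : Type u} [Group Q] {B : Lb.{u, v} Q}

theorem mem_src {x y : Q} {l : List B.L} (h : y ∈ src B x l) : ∃ j, j < l.length ∧ B.fin x (l.take j) = y := by
  obtain ⟨j, hj, e⟩ := List.getElem_of_mem h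
  refine ⟨j, by rw [src_length] at hj; exact hj, ?_⟩
  rw [← e, src_get]

theorem mem_itr {x y : Q} {l : List B.L} (h : y ∈ itr B x l) : ∃ j, j < l.length ∧ B.fin x (l.take j) = y :=
  mem_src (List.mem_of_mem_tail h)

theorem mem_verts {x y : Q} {l : List B.L} (h : y ∈ B.verts x l) : ∃ j, j ≤ l.length ∧ B.fin x (l.take j) = y := by
  rw [verts_eq, List.mem_append, List.mem_singleton] at h
  rcases h with h | h
  · obtain ⟨j, hj, e⟩ := mem_src h
    exact ⟨j, hj.le, e⟩
  · exact ⟨l.length, le_rfl, by rw [List.take_length, h]⟩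

/-- NET with positions: classes along the outside arcs; every vertex is at a position. -/
theorem Net.tour2 {E : Type w} [Fintype E] [Fintype Q] [DecidableEq Q] (N : Net B E) {c : E → E} (hc : IsPair c)
    (x₀ y₀ : E) (h : ∀ z, Con c N.O x₀ z ∨ Con c N.O y₀ z) :
    ∃ o κ : E → Bool, (∀ z, o (c z) = !o z) ∧ (∀ z, o (N.O z) = !o z) ∧ (∀ z, κ (c z) = κ z) ∧
      (∀ z, κ (N.O z) = κ z) ∧ (∀ z, κ z = true ↔ Con c N.O x₀ z) ∧ o x₀ = true ∧ (Con c N.O x₀ y₀ ∨ o y₀ = true) ∧
      ∀ F : N.Fill c, ∃ U : TourS B Bool, (∀ e, U.cls (N.pt e) = κ e) ∧ (∀ x, ∃ e, U.cls x = κ e) ∧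
        (∀ e, o e = false → ∀ (j : ℕ) (hj : j < (F.inn e ++ N.out (c e)).length),
          U.lab (B.fin (N.pt e) ((F.inn e ++ N.out (c e)).take j)) = (F.inn e ++ N.out (c e))[j]) ∧
        (∀ {R : Type} [CommRing R] (V : Vd B R) (γ : Bool), U.vol V γ =
          (∑ e, if o e = true ∧ κ e = γ then V.vol (N.pt e) (N.out e) else 0) +
            ∑ e, if o e = false ∧ κ e = γ then V.vol (N.pt e) (F.inn e) else 0) ∧
        (∀ e, o e = false → ∀ j, j ≤ (F.inn e ++ N.out (c e)).length →
          U.cls (B.fin (N.pt e) ((F.inn e ++ N.out (c e)).take j)) = κ e) ∧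
        (∀ e, ∀ x ∈ B.verts (N.pt e) (N.out e), U.cls x = κ e) ∧
        (∀ e, o e = true → ∀ (j : ℕ) (hj : j < (N.out e).length),
          U.lab (B.fin (N.pt e) ((N.out e).take j)) = (N.out e)[j]) ∧
        ∀ x, (∃ e, o e = false ∧ ∃ j, ∃ hj : j < (F.inn e).length, B.fin (N.pt e) ((F.inn e).take j) = x ∧
          U.lab x = (F.inn e)[j]) ∨
          ∃ e, o e = true ∧ ∃ j, ∃ hj : j < (N.out e).length, B.fin (N.pt e) ((N.out e).take j) = x ∧
            U.lab x = (N.out e)[j] := by
  classical
  obtain ⟨o, κ, h1, h2, h3, h4, h5, h6, h7, h8⟩ := N.tour hc x₀ y₀ h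
  refine ⟨o, κ, h1, h2, h3, h4, h5, h6, h7, fun F => ?_⟩
  obtain ⟨U, u1, u2, u3, u4⟩ := h8 F
  -- the classes along the pieces
  have key : ∀ e, o e = false → ∀ j, j ≤ (F.inn e ++ N.out (c e)).length →
      U.cls (B.fin (N.pt e) ((F.inn e ++ N.out (c e)).take j)) = κ e := by
    intro e he j
    induction j with
    | zero => intro _; exact u1 e
    | succ j ih =>
      intro hj
      have hj' : j < (F.inn e ++ N.out (c e)).length := by omega
      rw [List.take_succ_eq_append_getElem hj', fin_append, ← ih (by omega)]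
      have h13 := U.step (B.fin (N.pt e) ((F.inn e ++ N.out (c e)).take j))
      rw [u3 e he j hj'] at h13
      exact h13
  -- positions on the outside arcs
  have hpos : ∀ e, o e = true → ∀ j, j ≤ (N.out e).length →
      B.fin (N.pt e) ((N.out e).take j) =
        B.fin (N.pt (c e)) ((F.inn (c e) ++ N.out (c (c e))).take ((F.inn (c e)).length + j)) := by
    intro e _ j _
    rw [List.take_length_add_append, fin_append, F.fin, hc.1]
  have hlen : ∀ e, ∀ j, j ≤ (N.out e).length →
      (F.inn (c e)).length + j ≤ (F.inn (c e) ++ N.out (c (c e))).length := by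
    intro e j hj
    rw [List.length_append, hc.1]
    omega
  have hoc : ∀ {e}, o e = true → o (c e) = false := fun {e} he => by rw [h1, he]; rfl
  have hlab : ∀ e, o e = true → ∀ (j : ℕ) (hj : j < (N.out e).length),
      U.lab (B.fin (N.pt e) ((N.out e).take j)) = (N.out e)[j] := by
    intro e he j hj
    rw [hpos e he j hj.le]
    have hj' : (F.inn (c e)).length + j < (F.inn (c e) ++ N.out (c (c e))).length := by
      rw [List.length_append, hc.1]
      omega
    rw [u3 (c e) (hoc he) _ hj', List.getElem_append_right (by omega)]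
    have : ∀ (l l' : List B.L) (hl : l = l') (i i' : ℕ) (hi : i = i') (h : i < l.length) (h' : i' < l'.length),
        l[i] = l'[i'] := by
      rintro l _ rfl i _ rfl _ _
      rfl
    exact this _ _ (by rw [hc.1]) _ _ (by omega) _ _
  have hcls : ∀ e, o e = true → ∀ x ∈ B.verts (N.pt e) (N.out e), U.cls x = κ e := by
    intro e he x hx
    obtain ⟨j, hj, rfl⟩ := mem_verts hx
    rw [hpos e he j hj, key (c e) (hoc he) _ (hlen e j hj), h3]
  have hO : ∀ e x, x ∈ B.verts (N.pt e) (N.out e) → x ∈ B.verts (N.pt (N.O e)) (N.out (N.O e)) := by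
    intro e x hx
    have := N.rev_out e
    rw [← Multiset.mem_coe, this, Multiset.mem_coe]
    exact hx
  have hoO : ∀ {e}, ¬ o e = true → o (N.O e) = true := fun {e} he => by
    rw [h2]
    simpa using he
  refine ⟨U, u1, u2, u3, @u4, key, ?_, hlab, ?_⟩
  · intro e x hx
    by_cases he : o e = true
    · exact hcls e he x hx
    · rw [hcls (N.O e) (hoO he) x (hO e x hx), h4]
  · intro x
    -- a start of an inside
    have hstart : ∀ e, o e = false → ∃ j, ∃ hj : j < (F.inn e).length, B.fin (N.pt e) ((F.inn e).take j) = N.pt e ∧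
        U.lab (N.pt e) = (F.inn e)[j] := by
      intro e he
      have h0 : 0 < (F.inn e).length := List.length_pos_of_ne_nil (F.ne e)
      refine ⟨0, h0, rfl, ?_⟩
      have h9 := u3 e he 0 (by rw [List.length_append]; omega)
      rw [List.getElem_append_left h0] at h9
      exact h9
    by_cases hx : x ∈ N.Y
    · -- on an outside arc
      have hx' : x ∈ 2 • N.Y.val := by
        rw [two_nsmul, Multiset.mem_add]
        exact Or.inl hx
      rw [← N.cov, Multiset.mem_sum] at hx'
      obtain ⟨e, _, he⟩ := hx'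
      rw [Multiset.mem_coe] at he
      have h9 : ∃ e, o e = true ∧ x ∈ B.verts (N.pt e) (N.out e) := by
        by_cases h10 : o e = true
        · exact ⟨e, h10, he⟩
        · exact ⟨N.O e, hoO h10, hO e x he⟩
      obtain ⟨e, h10, he⟩ := h9
      rw [verts_eq, List.mem_append, List.mem_singleton] at he
      rcases he with he | he
      · obtain ⟨j, hj, rfl⟩ := mem_src he
        exact Or.inr ⟨e, h10, j, hj, rfl, hlab e h10 j hj⟩
      · rw [N.fin_out] at he
        subst he
        exact Or.inl ⟨N.O e, by rw [h2, h10]; rfl, hstart _ (by rw [h2, h10]; rfl)⟩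
    · -- on an inside
      have hx' : x ∈ 2 • (N.Yᶜ).val := by
        rw [two_nsmul, Multiset.mem_add]
        exact Or.inl (Finset.mem_compl.2 hx)
      rw [← F.cov, Multiset.mem_sum] at hx'
      obtain ⟨e, _, he⟩ := hx'
      have h9 : ∃ e, o e = false ∧ x ∈ itr B (N.pt e) (F.inn e) := by
        by_cases h10 : o e = true
        · refine ⟨c e, hoc h10, ?_⟩
          rw [← Multiset.mem_coe, F.rev e]
          exact he
        · exact ⟨e, by simpa using h10, he⟩
      obtain ⟨e, h10, he⟩ := h9
      obtain ⟨j, hj, rfl⟩ := mem_itr he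
      refine Or.inl ⟨e, h10, j, hj, rfl, ?_⟩
      have h11 := u3 e h10 j (by rw [List.length_append]; omega)
      rw [List.getElem_append_left hj, List.take_append_of_le_length hj.le] at h11
      exact h11

/-- NET, the end with one fictitious step: it is a step of the arc `x₀` run forward, at `y`. -/
theorem Net.lst {G : Type u} [Group G] [Fintype G] [DecidableEq G] {A : Set G} {B : Lb.{u, v} G} {E : Type w} [Fintype E]
    (N : Net B E) {c : E → E} (hc : IsPair c) (x₀ y₀ : E) (h : ∀ z, Con c N.O x₀ z ∨ Con c N.O y₀ z) (y z : G)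
    (hy : y ∈ B.verts (N.pt x₀) (N.out x₀)) (hz : z ∈ B.verts (N.pt y₀) (N.out y₀)) (hyz : y⁻¹ * z ∈ A)
    (hA : ∀ e, e ≠ N.O x₀ → ∀ (j : ℕ) (hj : j < (N.out e).length),
      B.q (N.out e)[j] ∈ A ∨ B.fin (N.pt e) ((N.out e).take j) = y)
    (F : N.Fill c) (hF : ∀ e, ∀ g ∈ F.inn e, B.q g ∈ A) : Lst A := by
  obtain ⟨o, κ, h1, h2, h3, h4, h5, h6, -, h8⟩ := N.tour2 hc x₀ y₀ h
  obtain ⟨U, u1, u2, -, -, -, u5, -, u6⟩ := h8 F
  refine lst_of_fict U y z ?_ hyz ?_
  · intro x hx
    rcases u6 x with ⟨e, -, j, hj, -, hl⟩ | ⟨e, he, j, hj, hp, hl⟩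
    · rw [hl]
      exact hF e _ (List.getElem_mem hj)
    · rw [hl]
      refine (hA e ?_ j hj).resolve_right fun h' => hx (by rw [← hp, h'])
      rintro rfl
      rw [h2, h6] at he
      exact Bool.noConfusion he
  · intro x
    obtain ⟨e, he⟩ := u2 x
    have hy' := u5 x₀ y hy
    have hz' := u5 y₀ z hz
    have hx₀ : κ x₀ = true := (h5 x₀).2 (Con.refl' _)
    rw [he, hy', hz', hx₀]
    cases hke : κ e
    · -- not connected with `x₀`
      right
      have hn : ¬ Con c N.O x₀ e := fun h' => by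
        have := (h5 e).2 h'
        rw [hke] at this
        exact Bool.noConfusion this
      have h9 := (h e).resolve_left hn
      cases hky : κ y₀
      · rfl
      · exfalso
        exact hn (Con.trans' ((h5 y₀).1 hky) h9)
    · exact Or.inl rfl

/-- NET, the end without fictitious steps. -/
theorem Net.lst' {G : Type u} [Group G] [Fintype G] [DecidableEq G] {A : Set G} (hA : Subgroup.closure A = ⊤)
    {B : Lb.{u, v} G} {E : Type w} [Fintype E] (N : Net B E) {c : E → E} (hc : IsPair c) (x₀ y₀ : E)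
    (h : ∀ z, Con c N.O x₀ z ∨ Con c N.O y₀ z) (hO : ∀ e, ∀ g ∈ N.out e, B.q g ∈ A)
    (F : N.Fill c) (hF : ∀ e, ∀ g ∈ F.inn e, B.q g ∈ A) : Lst A := by
  obtain ⟨o, κ, h1, h2, h3, h4, h5, h6, -, h8⟩ := N.tour2 hc x₀ y₀ h
  obtain ⟨U, -, -, -, -, -, -, -, u6⟩ := h8 F
  refine lst_of_tourS hA U fun x => ?_
  rcases u6 x with ⟨e, -, j, hj, -, hl⟩ | ⟨e, he, j, hj, hp, hl⟩
  · rw [hl]; exact hF e _ (List.getElem_mem hj)
  · rw [hl]; exact hO e _ (List.getElem_mem hj)

end Pool.Agent.Lib.MP_688fd0_co.SQ5.H95
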