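import Pool.Agent.Lib.MP_688fd0_co.SQ5.H95.Net

/-!
HFAC: a 2-factor of the Cayley graph given by its two labels at every vertex, and a set `W` of inside vertices: ports, outside
arcs, and the net of the outside arcs.
-/

set_option autoImplicit false

namespace Pool.Agent.Lib.MP_688fd0_co.SQ5.H95

open Pool.Agent.Lib.MP_688fd0_co.OSF Pool.Agent.Lib.MP_688fd0_co.SQ2 Pool.Agent.Lib.MP_688fd0_co.SQ3 H64

universe u v w

variable {Q : Type u} [Group Q]

/-- A 2-factor: two labels at every vertex. -/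
structure HF (B : Lb.{u, v} Q) where
  H : Q → Set B.L
  ex : ∀ x, ∃ g h, g ≠ h ∧ ∀ l, l ∈ H x ↔ l = g ∨ l = h
  sym : ∀ x g, g ∈ H x → B.inv g ∈ H (x * B.q g)
  ii : ∀ g, B.inv (B.inv g) = g

namespace HF

variable {B : Lb.{u, v} Q} (F : HF B)

/-- The darts. -/
abbrev X : Type (max u v) := {d : Q × B.L // d.2 ∈ F.H d.1}

/-- The vertex of a dart. -/
def vt (d : F.X) : Q := d.1.1

open Classical in
/-- The other label. -/
noncomputable def ol (x : Q) (g : B.L) : B.L :=
  if g = (F.ex x).choose then (F.ex x).choose_spec.choose else (F.ex x).choose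

theorem ol_mem (x : Q) (g : B.L) : F.ol x g ∈ F.H x := by
  have h := (F.ex x).choose_spec.choose_spec.2
  unfold ol
  split_ifs
  · exact (h _).2 (Or.inr rfl)
  · exact (h _).2 (Or.inl rfl)

theorem ol_ne (x : Q) (g : B.L) : F.ol x g ≠ g := by
  have h := (F.ex x).choose_spec.choose_spec.1
  unfold ol
  split_ifs with h1
  · rw [h1]; exact h.symm
  · exact fun h2 => h1 h2.symm

theorem ol_eq {x : Q} {g h : B.L} (hg : g ∈ F.H x) (hh : h ∈ F.H x) (hne : h ≠ g) : F.ol x g = h := by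
  have h1 := (F.ex x).choose_spec.choose_spec.2
  rw [h1] at hg hh
  unfold ol
  split_ifs with h2
  · rcases hh with h3 | h3
    · exact absurd (h3.trans h2.symm) hne
    · exact h3.symm
  · have h4 := hg.resolve_left h2
    rcases hh with h3 | h3
    · exact h3.symm
    · exact absurd (h3.trans h4.symm) hne

/-- The other dart of the vertex. -/
noncomputable def ot (d : F.X) : F.X := ⟨(d.1.1, F.ol d.1.1 d.1.2), F.ol_mem _ _⟩

/-- The other dart of the edge. -/
def pr (d : F.X) : F.X := ⟨(d.1.1 * B.q d.1.2, B.inv d.1.2), F.sym _ _ d.2⟩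

theorem ot_eq {d d' : F.X} (hv : F.vt d' = F.vt d) (hne : d' ≠ d) : F.ot d = d' := by
  obtain ⟨⟨x, g⟩, hg⟩ := d
  obtain ⟨⟨x', h⟩, hh⟩ := d'
  obtain rfl : x' = x := hv
  refine Subtype.ext (Prod.ext rfl ?_)
  exact F.ol_eq hg hh fun h1 => hne (Subtype.ext (Prod.ext rfl h1))

theorem ot_ne (d : F.X) : F.ot d ≠ d := fun h => F.ol_ne d.1.1 d.1.2 (congrArg (fun e : F.X => e.1.2) h)

theorem ot_ot (d : F.X) : F.ot (F.ot d) = d := F.ot_eq rfl (F.ot_ne d).symm

theorem vt_ot (d : F.X) : F.vt (F.ot d) = F.vt d := rfl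

theorem pr_pr (d : F.X) : F.pr (F.pr d) = d := by
  refine Subtype.ext (Prod.ext ?_ (F.ii _))
  show d.1.1 * B.q d.1.2 * B.q (B.inv d.1.2) = d.1.1
  rw [B.q_inv, mul_inv_cancel_right]

theorem vt_pr (d : F.X) : F.vt (F.pr d) = F.vt d * B.q d.1.2 := rfl

theorem pr_ne (d : F.X) : F.pr d ≠ d := by
  intro h
  have h1 : d.1.1 * B.q d.1.2 = d.1.1 := congrArg (fun e : F.X => e.1.1) h
  exact B.ne_one _ (mul_eq_left.1 h1)

theorem two_darts {d d' : F.X} (h : F.vt d' = F.vt d) : d' = d ∨ d' = F.ot d := by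
  by_cases h1 : d' = d
  · exact Or.inl h1
  · exact Or.inr (F.ot_eq h h1).symm

/-- The directed step. -/
noncomputable def stp (d : F.X) : F.X := F.ot (F.pr d)

theorem stp_inj : Function.Injective F.stp := fun a b h => by
  have h1 : F.pr a = F.pr b := by rw [← F.ot_ot (F.pr a), ← F.ot_ot (F.pr b)]; exact congrArg F.ot h
  rw [← F.pr_pr a, h1, F.pr_pr]

theorem stp_ot_stp (d : F.X) : F.stp (F.ot (F.stp d)) = F.ot d := by
  unfold stp
  rw [F.ot_ot, F.pr_pr]

theorem vt_stp (d : F.X) : F.vt (F.stp d) = F.vt d * B.q d.1.2 := rfl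

instance [Finite Q] : Finite F.X := by
  classical
  have h : ∀ d : F.X, d.1.2 = (F.ex d.1.1).choose ∨ d.1.2 = (F.ex d.1.1).choose_spec.choose := fun d =>
    ((F.ex d.1.1).choose_spec.choose_spec.2 _).1 d.2
  refine Finite.of_injective (fun d : F.X => (d.1.1, decide (d.1.2 = (F.ex d.1.1).choose))) ?_
  rintro ⟨⟨x, g⟩, hg⟩ ⟨⟨x', h'⟩, hh⟩ he
  obtain rfl : x = x' := congrArg Prod.fst he
  have h2 : g = (F.ex x).choose ↔ h' = (F.ex x).choose := decide_eq_decide.1 (congrArg Prod.snd he)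
  refine Subtype.ext (Prod.ext rfl ?_)
  have a1 := h ⟨(x, g), hg⟩
  have a2 := h ⟨(x, h'), hh⟩
  by_cases h3 : g = (F.ex x).choose
  · exact h3.trans (h2.1 h3).symm
  · exact (a1.resolve_left h3).trans (a2.resolve_left fun h4 => h3 (h2.2 h4)).symm

/-- Connected vertices. -/
def C : Q → Q → Prop := Relation.ReflTransGen fun x y => ∃ g ∈ F.H x, y = x * B.q g

section arcs

variable (W : Q → Prop)

/-- The edge meets `W`. -/
def In (d : F.X) : Prop := W (F.vt d) ∨ W (F.vt (F.pr d))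

/-- A port: the edge leads from outside into `W`. -/
def Port (d : F.X) : Prop := ¬ W (F.vt d) ∧ W (F.vt (F.pr d))

variable {W}

theorem in_pr (d : F.X) : F.In W (F.pr d) ↔ F.In W d := by
  unfold In
  rw [F.pr_pr]
  exact Or.comm

/-- The first dart with an inside edge. -/
def Hit (W : Q → Prop) (e : F.X) (n : ℕ) : Prop := F.In W (F.stp^[n] e) ∧ ∀ i < n, ¬ F.In W (F.stp^[i] e)

theorem Hit.unique {e : F.X} {n m : ℕ} (h : F.Hit W e n) (h' : F.Hit W e m) : n = m := by
  rcases lt_trichotomy n m with h1 | h1 | h1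
  · exact absurd h.1 (h'.2 n h1)
  · exact h1
  · exact absurd h'.1 (h.2 m h1)

theorem exists_hit {e : F.X} (h : ∃ n, F.In W (F.stp^[n] e)) : ∃ n, F.Hit W e n := by
  classical
  exact ⟨Nat.find h, Nat.find_spec h, fun i hi => Nat.find_min h hi⟩

/-- Going back along an arc. -/
theorem back (e : F.X) (n : ℕ) : ∀ j ≤ n, F.stp^[j] (F.ot (F.stp^[n] e)) = F.ot (F.stp^[n - j] e) := by
  intro j
  induction j with
  | zero => intro _; rfl
  | succ j ih =>
    intro hj
    rw [Function.iterate_succ_apply', ih (by omega)]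
    have : n - j = (n - (j + 1)) + 1 := by omega
    rw [this, Function.iterate_succ_apply', F.stp_ot_stp]

theorem in_ot_stp (e : F.X) : F.In W (F.ot (F.stp e)) ↔ F.In W e := by
  unfold stp
  rw [F.ot_ot, F.in_pr]

theorem vt_out {e : F.X} (h0 : ¬ W (F.vt e)) {n : ℕ} (h : ∀ i < n, ¬ F.In W (F.stp^[i] e)) :
    ∀ j ≤ n, ¬ W (F.vt (F.stp^[j] e)) := by
  intro j
  induction j with
  | zero => intro _; exact h0
  | succ j ih =>
    intro hj
    rw [Function.iterate_succ_apply']
    intro hW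
    exact h j (by omega) (Or.inr hW)

theorem hit_port {e : F.X} (h0 : ¬ W (F.vt e)) {n : ℕ} (h : F.Hit W e n) : F.Port W (F.stp^[n] e) :=
  ⟨F.vt_out h0 h.2 n le_rfl, h.1.resolve_left (F.vt_out h0 h.2 n le_rfl)⟩

/-- The reversed arc. -/
theorem hit_back {e : F.X} {n : ℕ} (h : F.Hit W e n) (he : F.In W (F.ot e)) :
    F.Hit W (F.ot (F.stp^[n] e)) n := by
  refine ⟨?_, fun i hi => ?_⟩
  · rw [F.back e n n le_rfl, Nat.sub_self]; exact he
  · rw [F.back e n i hi.le]
    have : n - i = (n - (i + 1)) + 1 := by omega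
    rw [this, Function.iterate_succ_apply', F.in_ot_stp]
    exact h.2 _ (by omega)

theorem arc_ne {e : F.X} {n : ℕ} : F.stp^[n] e ≠ F.ot e := by
  intro h
  have h1 : ∀ j ≤ n, F.stp^[j] e = F.ot (F.stp^[n - j] e) := by
    intro j hj
    have := F.back e n j hj
    rw [h, F.ot_ot] at this
    exact this
  obtain ⟨m, hm | hm⟩ := Nat.even_or_odd' n
  · have h2 := h1 m (by omega)
    rw [show n - m = m by omega] at h2
    exact F.ot_ne _ h2.symm
  · have h2 := h1 (m + 1) (by omega)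
    rw [show n - (m + 1) = m by omega, Function.iterate_succ_apply'] at h2
    unfold stp at h2
    have h3 := congrArg F.ot h2
    rw [F.ot_ot, F.ot_ot] at h3
    exact F.pr_ne _ h3

variable [Finite Q]

theorem exists_pred (e : F.X) : ∃ n : ℕ, F.stp^[n + 1] e = e := by
  have h1 : e ∈ Function.periodicPts F.stp := F.stp_inj.mem_periodicPts e
  have hm := Function.minimalPeriod_pos_of_mem_periodicPts h1
  have hp := Function.iterate_minimalPeriod (f := F.stp) (x := e)
  exact ⟨Function.minimalPeriod F.stp e - 1, by rw [Nat.sub_add_cancel hm]; exact hp⟩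

theorem port_hit {d : F.X} (h : F.In W d) : ∃ n, F.Hit W (F.ot d) n := by
  obtain ⟨n, hn⟩ := F.exists_pred (F.ot d)
  refine F.exists_hit ⟨n, ?_⟩
  rw [Function.iterate_succ_apply'] at hn
  rw [← F.in_ot_stp, hn, F.ot_ot]
  exact h

/-- If the component meets `W` then every dart hits. -/
theorem comp_hit {e : F.X} {y : Q} (hy : W y) (hc : F.C (F.vt e) y) : ∃ n, F.Hit W e n := by
  have key : ∀ z, F.C (F.vt e) z → ∃ i : ℕ, F.vt (F.stp^[i] e) = z := by
    intro z hz
    induction hz with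
    | refl => exact ⟨0, rfl⟩
    | @tail b c _ hs ih =>
      obtain ⟨i, hi⟩ := ih
      obtain ⟨g, hg, rfl⟩ := hs
      rcases F.two_darts (d := F.stp^[i] e) (d' := ⟨(b, g), hg⟩) hi.symm with h1 | h1
      · refine ⟨i + 1, ?_⟩
        rw [Function.iterate_succ_apply', ← h1]
        rfl
      · obtain ⟨n, hn⟩ := F.exists_pred (F.stp^[i] e)
        refine ⟨n + i, ?_⟩
        rw [Function.iterate_add_apply]
        rw [Function.iterate_succ_apply'] at hn
        have h2 : F.ot (F.stp^[i] e) = F.pr (F.stp^[n] (F.stp^[i] e)) := by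
          conv_lhs => rw [← hn]
          unfold stp
          rw [F.ot_ot]
        rw [h2] at h1
        have h3 : F.stp^[n] (F.stp^[i] e) = F.pr ⟨(b, g), hg⟩ := by rw [h1, F.pr_pr]
        rw [h3]
        rfl
  obtain ⟨i, hi⟩ := key y hc
  exact F.exists_hit ⟨i, Or.inl (by rw [hi]; exact hy)⟩

end arcs

/-- The labels along the orbit of a dart. -/
noncomputable def wl : ℕ → F.X → List B.L
  | 0, _ => []
  | n + 1, e => e.1.2 :: wl n (F.stp e)

theorem fin_wl (n : ℕ) (e : F.X) : B.fin (F.vt e) (F.wl n e) = F.vt (F.stp^[n] e) := by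
  induction n generalizing e with
  | zero => rfl
  | succ n ih =>
    rw [Function.iterate_succ_apply]
    exact ih (F.stp e)

theorem verts_wl (n : ℕ) (e : F.X) :
    B.verts (F.vt e) (F.wl n e) = (List.range (n + 1)).map fun j => F.vt (F.stp^[j] e) := by
  induction n generalizing e with
  | zero => rfl
  | succ n ih =>
    rw [List.range_succ_eq_map, List.map_cons, List.map_map]
    show F.vt e :: B.verts (F.vt (F.stp e)) (F.wl n (F.stp e)) = _
    rw [ih]
    rfl

section net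

variable {W : Q → Prop}

/-- The ports. -/
abbrev E (W : Q → Prop) : Type (max u v) := {d : F.X // F.Port W d}

variable [Finite Q]

/-- The length of the arc of a port. -/
noncomputable def len (d : F.E W) : ℕ := (F.port_hit (d := d.1) (Or.inr d.2.2)).choose

theorem len_spec (d : F.E W) : F.Hit W (F.ot d.1) (F.len d) := (F.port_hit (d := d.1) (Or.inr d.2.2)).choose_spec

/-- The outside pairing. -/
noncomputable def O (d : F.E W) : F.E W := ⟨F.stp^[F.len d] (F.ot d.1), F.hit_port (e := F.ot d.1) d.2.1 (F.len_spec d)⟩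

theorem len_O (d : F.E W) : F.len (F.O d) = F.len d := by
  have h := F.hit_back (F.len_spec d) (by rw [F.ot_ot]; exact Or.inr d.2.2)
  exact (F.len_spec (F.O d)).unique F h

theorem O_O (d : F.E W) : F.O (F.O d) = d := by
  refine Subtype.ext ?_
  show F.stp^[F.len (F.O d)] (F.ot (F.stp^[F.len d] (F.ot d.1))) = d.1
  rw [F.len_O, F.back _ _ _ le_rfl, Nat.sub_self]
  exact F.ot_ot _

theorem O_ne (d : F.E W) : F.O d ≠ d := by
  intro h
  have h1 : F.stp^[F.len d] (F.ot d.1) = d.1 := congrArg Subtype.val h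
  apply F.arc_ne (e := F.ot d.1) (n := F.len d)
  rw [F.ot_ot]
  exact h1

/-- The outside arcs cover every outside vertex twice. -/
theorem cov [Fintype Q] [DecidableEq Q] [Fintype (F.E W)] (Y : Finset Q) (hY : ∀ x, x ∈ Y ↔ ¬ W x)
    (hcomp : ∀ x, ¬ W x → ∃ y, W y ∧ F.C x y) :
    ∑ d : F.E W, (B.verts (F.vt d.1) (F.wl (F.len d) (F.ot d.1)) : Multiset Q) = 2 • Y.val := by
  classical
  have : Fintype F.X := Fintype.ofFinite _
  -- the darts at outside vertices
  let f : (Σ d : F.E W, Fin (F.len d + 1)) → {δ : F.X // ¬ W (F.vt δ)} := fun a =>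
    ⟨F.stp^[a.2] (F.ot a.1.1), F.vt_out (e := F.ot a.1.1) a.1.2.1 (F.len_spec a.1).2 _ (by have := a.2.2; omega)⟩
  have finj : Function.Injective f := by
    have key : ∀ (d d' : F.E W) (j j' : ℕ), j' ≤ F.len d' → j ≤ j' →
        F.stp^[j] (F.ot d.1) = F.stp^[j'] (F.ot d'.1) → d = d' ∧ j = j' := by
      intro d d' j j' h1 h2 h3
      obtain ⟨i, rfl⟩ := Nat.exists_eq_add_of_le h2
      rw [Function.iterate_add_apply] at h3
      have h4 := F.stp_inj.iterate j h3
      cases i with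
      | zero =>
        have h5 : d.1 = d'.1 := by rw [← F.ot_ot d.1, ← F.ot_ot d'.1]; exact congrArg F.ot h4
        exact ⟨Subtype.ext h5, rfl⟩
      | succ i =>
        exfalso
        rw [Function.iterate_succ_apply'] at h4
        have h5 : d.1 = F.pr (F.stp^[i] (F.ot d'.1)) := by
          have := congrArg F.ot h4
          unfold stp at this
          rw [F.ot_ot, F.ot_ot] at this
          exact this
        have h6 : F.In W (F.stp^[i] (F.ot d'.1)) := by
          rw [← F.in_pr, ← h5]; exact Or.inr d.2.2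
        exact (F.len_spec d').2 i (by omega) h6
    rintro ⟨d, j⟩ ⟨d', j'⟩ he
    have he' : F.stp^[(j : ℕ)] (F.ot d.1) = F.stp^[(j' : ℕ)] (F.ot d'.1) := congrArg Subtype.val he
    rcases le_total (j : ℕ) (j' : ℕ) with h | h
    · obtain ⟨h1, h2⟩ := key d d' j j' (by have := j'.2; omega) h he'
      subst h1
      rw [Fin.ext h2]
    · obtain ⟨h1, h2⟩ := key d' d j' j (by have := j.2; omega) h he'.symm
      subst h1
      rw [Fin.ext h2]
  have fsur : Function.Surjective f := by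
    rintro ⟨δ, hδ⟩
    obtain ⟨y, hy, hc⟩ := hcomp _ hδ
    obtain ⟨n, hn⟩ := F.comp_hit (e := F.ot δ) hy hc
    have hp : F.Port W (F.stp^[n] (F.ot δ)) := F.hit_port (e := F.ot δ) hδ hn
    have hle : n ≤ F.len ⟨F.stp^[n] (F.ot δ), hp⟩ := by
      by_contra hlt
      push Not at hlt
      have h1 := (F.len_spec ⟨F.stp^[n] (F.ot δ), hp⟩).1
      set i := F.len ⟨F.stp^[n] (F.ot δ), hp⟩ with hi
      rw [F.back _ n i hlt.le] at h1
      have h2 : n - i = (n - (i + 1)) + 1 := by omega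
      rw [h2, Function.iterate_succ_apply', F.in_ot_stp] at h1
      exact hn.2 _ (by omega) h1
    refine ⟨⟨⟨F.stp^[n] (F.ot δ), hp⟩, ⟨n, by omega⟩⟩, Subtype.ext ?_⟩
    show F.stp^[n] (F.ot (F.stp^[n] (F.ot δ))) = δ
    rw [F.back _ n n le_rfl, Nat.sub_self]
    exact F.ot_ot δ
  let φ := Equiv.ofBijective f ⟨finj, fsur⟩
  have e1 : ∀ d : F.E W, (B.verts (F.vt d.1) (F.wl (F.len d) (F.ot d.1)) : Multiset Q) =
      ∑ j : Fin (F.len d + 1), ({F.vt (F.stp^[(j : ℕ)] (F.ot d.1))} : Multiset Q) := by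
    intro d
    have h1 := F.verts_wl (F.len d) (F.ot d.1)
    rw [F.vt_ot] at h1
    rw [h1]
    have h2 : ∀ (n : ℕ) (g : ℕ → Q), (((List.range n).map g : List Q) : Multiset Q) =
        ∑ j : Fin n, ({g j} : Multiset Q) := by
      intro n g
      induction n with
      | zero => rfl
      | succ n ih =>
        rw [List.range_succ, List.map_append, ← Multiset.coe_add, ih, Fin.sum_univ_castSucc]
        rfl
    exact h2 _ fun j => F.vt (F.stp^[j] (F.ot d.1))
  rw [Finset.sum_congr rfl fun d _ => e1 d, ← Fintype.sum_sigma']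
  have e2 : ∑ a : Σ d : F.E W, Fin (F.len d + 1), ({F.vt (F.stp^[(a.2 : ℕ)] (F.ot a.1.1))} : Multiset Q) =
      ∑ δ : {δ : F.X // ¬ W (F.vt δ)}, ({F.vt δ.1} : Multiset Q) :=
    Fintype.sum_equiv φ _ _ fun a => rfl
  rw [e2]
  -- two darts at every vertex
  refine Multiset.ext.2 fun x => ?_
  rw [Multiset.count_sum', Multiset.count_nsmul]
  have e3 : ∀ δ : {δ : F.X // ¬ W (F.vt δ)}, Multiset.count x ({F.vt δ.1} : Multiset Q) =
      if F.vt δ.1 = x then 1 else 0 := by
    intro δ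
    rw [Multiset.count_singleton]
    by_cases h : x = F.vt δ.1
    · rw [if_pos h, if_pos h.symm]
    · rw [if_neg h, if_neg fun h' => h h'.symm]
  rw [Finset.sum_congr rfl fun δ _ => e3 δ]
  by_cases hx : W x
  · have h1 : Multiset.count x Y.val = 0 := Multiset.count_eq_zero.2 fun h => (hY x).1 (Finset.mem_def.2 h) hx
    rw [h1, mul_zero]
    refine Finset.sum_eq_zero fun δ _ => if_neg fun h => δ.2 (by rw [h]; exact hx)
  · have h1 : Multiset.count x Y.val = 1 :=
      Multiset.count_eq_one_of_mem Y.nodup (Finset.mem_def.1 ((hY x).2 hx))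
    rw [h1, mul_one]
    obtain ⟨g, h, hne, hgh⟩ := F.ex x
    have hg : g ∈ F.H x := (hgh g).2 (Or.inl rfl)
    let a : {δ : F.X // ¬ W (F.vt δ)} := ⟨⟨(x, g), hg⟩, hx⟩
    let b : {δ : F.X // ¬ W (F.vt δ)} := ⟨F.ot ⟨(x, g), hg⟩, hx⟩
    have hab : a ≠ b := fun h' => F.ot_ne ⟨(x, g), hg⟩ (congrArg Subtype.val h').symm
    rw [← Finset.sum_filter, Finset.sum_const, smul_eq_mul, mul_one]
    have h2 : (Finset.univ.filter fun δ : {δ : F.X // ¬ W (F.vt δ)} => F.vt δ.1 = x) = {a, b} := by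
      ext δ
      rw [Finset.mem_filter, Finset.mem_insert, Finset.mem_singleton]
      constructor
      · rintro ⟨_, h3⟩
        rcases F.two_darts (d := ⟨(x, g), hg⟩) (d' := δ.1) h3 with h4 | h4
        · exact Or.inl (Subtype.ext h4)
        · exact Or.inr (Subtype.ext h4)
      · rintro (rfl | rfl)
        · exact ⟨Finset.mem_univ _, rfl⟩
        · exact ⟨Finset.mem_univ _, rfl⟩
    rw [h2, Finset.card_pair hab]

/-- The net of the outside arcs. -/
noncomputable def net [Fintype Q] [DecidableEq Q] [Fintype (F.E W)] (Y : Finset Q) (hY : ∀ x, x ∈ Y ↔ ¬ W x)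
    (hcomp : ∀ x, ¬ W x → ∃ y, W y ∧ F.C x y) : Net B (F.E W) where
  pt d := F.vt d.1
  O := F.O
  out d := F.wl (F.len d) (F.ot d.1)
  Y := Y
  hO := ⟨F.O_O, F.O_ne⟩
  fin_out d := F.fin_wl (F.len d) (F.ot d.1)
  rev_out d := by
    have h1 := F.verts_wl (F.len (F.O d)) (F.ot (F.O d).1)
    have h2 := F.verts_wl (F.len d) (F.ot d.1)
    rw [F.vt_ot] at h1 h2
    rw [h1, h2, F.len_O]
    have h3 : ((List.range (F.len d + 1)).map fun j => F.vt (F.stp^[j] (F.ot (F.O d).1))) =
        ((List.range (F.len d + 1)).map fun j => F.vt (F.stp^[j] (F.ot d.1))).reverse := by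
      refine List.ext_getElem ?_ ?_
      · rw [List.length_reverse, List.length_map, List.length_map]
      · intro i h4 h5
        rw [List.length_map, List.length_range] at h4
        rw [List.getElem_reverse]
        simp only [List.getElem_map, List.getElem_range, List.length_map, List.length_range]
        have h6 := F.back (F.ot d.1) (F.len d) i (by omega)
        show F.vt (F.stp^[i] (F.ot (F.stp^[F.len d] (F.ot d.1)))) = _
        rw [h6, F.vt_ot]
        congr 2
    rw [h3, Multiset.coe_reverse]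
  cov := F.cov Y hY hcomp

/-! ### Explicit arcs -/

/-- From the vertex `x` (not along `g`) the 2-factor follows the labels `l`, and the next label is `h`. -/
def Run (F : HF B) : Q → B.L → List B.L → B.L → Prop
  | x, g, [], h => h ∈ F.H x ∧ h ≠ g
  | x, g, g' :: l, h => g' ∈ F.H x ∧ g' ≠ g ∧ Run F (x * B.q g') (B.inv g') l h

omit [Finite Q] in
theorem Run.last {F : HF B} : ∀ {l : List B.L} {x : Q} {g h : B.L}, F.Run x g l h → h ∈ F.H (B.fin x l)
  | [], _, _, _, hr => hr.1
  | _ :: l, _, _, _, hr => Run.last (l := l) hr.2.2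

omit [Finite Q] in
theorem run_hit : ∀ (l : List B.L) (x : Q) (g h : B.L) (hg : g ∈ F.H x) (hr : F.Run x g l h),
    (∀ y ∈ B.verts x l, ¬ W y) → W (B.fin x l * B.q h) →
      F.Hit W (F.ot ⟨(x, g), hg⟩) l.length ∧ F.stp^[l.length] (F.ot ⟨(x, g), hg⟩) = ⟨(B.fin x l, h), hr.last⟩ ∧
        F.wl l.length (F.ot ⟨(x, g), hg⟩) = l := by
  intro l
  induction l with
  | nil =>
    intro x g h hg hr hv hW
    have h1 : F.ot ⟨(x, g), hg⟩ = ⟨(x, h), hr.1⟩ :=
      F.ot_eq rfl fun h2 => hr.2 (congrArg (fun d : F.X => d.1.2) h2)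
    rw [h1]
    exact ⟨⟨Or.inr hW, fun i hi => absurd hi (Nat.not_lt_zero i)⟩, rfl, rfl⟩
  | cons g' l ih =>
    intro x g h hg hr hv hW
    have h1 : F.ot ⟨(x, g), hg⟩ = ⟨(x, g'), hr.1⟩ :=
      F.ot_eq rfl fun h2 => hr.2.1 (congrArg (fun d : F.X => d.1.2) h2)
    have hv' : ∀ y ∈ B.verts (x * B.q g') l, ¬ W y := fun y hy => hv y (List.mem_cons_of_mem _ hy)
    obtain ⟨⟨a1, a2⟩, a3, a4⟩ := ih (x * B.q g') (B.inv g') h (F.sym _ _ hr.1) hr.2.2 hv' hW
    have h2 : F.stp ⟨(x, g'), hr.1⟩ = F.ot ⟨(x * B.q g', B.inv g'), F.sym _ _ hr.1⟩ := rfl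
    have hx : ¬ W x := hv x List.mem_cons_self
    have hx' : ¬ W (x * B.q g') := by
      apply hv'
      cases l with
      | nil => exact List.mem_cons_self
      | cons _ _ => exact List.mem_cons_self
    rw [h1]
    refine ⟨⟨?_, ?_⟩, ?_, ?_⟩
    · rw [List.length_cons, Function.iterate_succ_apply, h2]
      exact a1
    · intro i hi
      cases i with
      | zero => exact fun h3 => h3.elim hx hx'
      | succ i =>
        rw [Function.iterate_succ_apply, h2]
        rw [List.length_cons] at hi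
        exact a2 i (by omega)
    · rw [List.length_cons, Function.iterate_succ_apply, h2]
      exact a3
    · show g' :: F.wl l.length (F.stp ⟨(x, g'), hr.1⟩) = _
      rw [h2, a4]

/-- The outside pairing along an explicit arc. -/
theorem O_run {x : Q} {g h : B.L} (hg : g ∈ F.H x) (hp : F.Port W ⟨(x, g), hg⟩) {l : List B.L} (hr : F.Run x g l h)
    (hv : ∀ y ∈ B.verts x l, ¬ W y) (hW : W (B.fin x l * B.q h)) :
    (F.O ⟨⟨(x, g), hg⟩, hp⟩).1 = ⟨(B.fin x l, h), hr.last⟩ ∧
      F.wl (F.len ⟨⟨(x, g), hg⟩, hp⟩) (F.ot ⟨(x, g), hg⟩) = l := by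
  obtain ⟨a1, a2, a3⟩ := F.run_hit l x g h hg hr hv hW
  have h1 : F.len ⟨⟨(x, g), hg⟩, hp⟩ = l.length := (F.len_spec ⟨⟨(x, g), hg⟩, hp⟩).unique F a1
  refine ⟨?_, ?_⟩
  · show F.stp^[F.len ⟨⟨(x, g), hg⟩, hp⟩] (F.ot ⟨(x, g), hg⟩) = _
    rw [h1, a2]
  · rw [h1, a3]

end net

end HF

end Pool.Agent.Lib.MP_688fd0_co.SQ5.H95
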