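import Pool.Agent.Lib.MP_688fd0_co.SQ5.H95.Core
import Pool.Agent.Lib.MP_688fd0_co.SQ5.H76.RunB

/-!
INST: the run charts of helper76 (`RunB`) as regions `Rgs`: `inst`, its period `inst_per`, and the final form `lst_of_runs` of
`far_core` for them.
-/

set_option autoImplicit false

namespace Pool.Agent.Lib.MP_688fd0_co.SQ5.H95

open Function Pool.Agent.Lib.MP_688fd0_co.OSF H64 H76
open Pool.Agent.Lib.MP_688fd0_co.SQ3 Pool.Agent.Lib.MP_688fd0_co.SQ5.H58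

universe u v

theorem RnF.mono_E {G : Type u} [Group G] {B : Lb.{u, v} G} {F : HF B} {S : Type*} {C : H22.Chart G S} {E E' : ℕ}
    (H : RnF F C E) (h : E' ≤ E) : RnF F C E' where
  hpos m s hm := H.hpos m s (hm.trans h)
  inj m s r m' s' r' hm hm' := H.inj m s r m' s' r' (hm.trans h) (hm'.trans h)
  line m s r hm := H.line m s r (hm.trans h)
  gate m s hm := H.gate m s (by omega)

/-- Three letters. -/
def B3 {Q : Type u} [Group Q] (x : L3 → Q) (h2 : ∀ i, x i * x i = 1) (h1 : ∀ i, x i ≠ 1) : Lb.{u, 0} Q where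
  L := L3
  q := x
  inv := id
  q_inv i := (inv_eq_of_mul_eq_one_right (h2 i)).symm
  ne_one := h1

section inst

variable {L : AddSubgroup (ℤ × ℤ)} {M R : ℕ} {dc : ℕ → ℤ} {spc : ℕ → Prop} {Gr : ℤ} {g : Geo L M R dc spc Gr} {m0 : ℕ}
  {hw : ℤ → ℕ} (H : Geo.Mn g m0 hw)

/-- The run numbers. -/
abbrev Zr (g : Geo L M R dc spc Gr) : Type := Set.Ico (0 : ℤ) g.w.Et

theorem Zr.sub_lt (z z' : Zr g) : (z : ℤ) - z' < g.w.Et := by
  have h1 := z.2.2
  have h2 := z'.2.1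
  omega

variable {Q : Type u} [Group Q] {B : Lb.{u, v} Q} {l : L3 → B.L} (c : Cov B l L) (hi : ∀ i, B.inv (l i) = l i)
  (hq : Injective (qq B l)) (hii : ∀ x, B.inv (B.inv x) = x) (κ0 κ1 : ℤ)

/-- The 2-factor of the layout. -/
noncomputable abbrev ff (g : Geo L M R dc spc Gr) : HF B := (g.mch c hi hq).hf hii

/-- The strands of a run. -/
abbrev SS (H : Geo.Mn g m0 hw) (κ0 κ1 : ℤ) (z : Zr g) : Type u := Sd c (H.bd z) (g.rs z) κ0 κ1

/-- THE INSTANCE. `p` = number of blocks of a layer with its buffer. -/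
noncomputable def inst (h0 : 2 ≤ κ0) (h1 : κ1 ≤ m0) (p : ℕ) (hp : 2 ≤ p) (hN : ∀ z : Zr g, p ≤ g.rE z) :
    Rgs (ff c hi hq hii g) (Zr g) (SS c H κ0 κ1) (fun z => g.rE z / p) where
  C z := (H.bd z).chart c (g.rs z) κ0 κ1
  l _ := p - 1
  hl _ := by omega
  hn z := Nat.div_pos (hN z) (by omega)
  run z := by
    refine (RnF.of_rn ((H.rg z h0 h1).rn c hi hq) hii).mono_E ?_
    rw [show p - 1 + 1 = p by omega]
    exact Nat.div_mul_le_self _ _
  far z z' m s i m' s' i' hne hm hi1 hm' _ hi2 he := by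
    rw [show p - 1 + 1 = p by omega] at hm hm'
    obtain ⟨e, -⟩ := H.far c hi (z := z) (z' := z') (Zr.sub_lt z z') (Zr.sub_lt z' z) h0 h1 h0 h1
      (hm.trans (Nat.div_mul_le_self _ _)) (hm'.trans (Nat.div_mul_le_self _ _)) hi1 hi2 he
    exact hne (Subtype.ext e)

variable {κ0 κ1}

/-- The levels of the layers are levels of the run. -/
theorem inst_le {p : ℕ} {z : Zr g} {m : ℕ} (hp : 2 ≤ p) (hm : m ≤ g.rE z / p * (p - 1 + 1)) : m ≤ g.rE z := by
  rw [show p - 1 + 1 = p by omega] at hm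
  exact hm.trans (Nat.div_mul_le_self _ _)

end inst

section per

variable {Q : Type} [Group Q] [Finite Q] {N C : Subgroup Q} {eps : Q →* ℤˣ} {k P : ℕ} {x : Fin 3 → Q} (Hx : Inv3 eps x)
  {B : Lb.{0, v} Q} {l : L3 → B.L} {t a b : Fin 3} (hta : t ≠ a) (htb : t ≠ b) (hab : a ≠ b) (ht : B.q (l .t) = x t)
  (ha : B.q (l .a) = x a) (hb : B.q (l .b) = x b)

/-- THE PERIOD of the instance. -/
theorem inst_per (gn : GN N C eps k P) (hi : ∀ i, B.inv (l i) = l i) (hq : Injective (qq B l))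
    (hii : ∀ x, B.inv (B.inv x) = x) {e : ℕ} (he : k * Nat.card C ∣ e) (he0 : 1 ≤ e) :
    ∃ U : Q, eps U = 1 ∧ (∀ y, eps y = 1 → y * U = U * y) ∧
      (∀ (D : Bd), D.Per 8 → ∀ (s0 κ : ℤ), gz (D.stp (qq B l) κ) s0 (8 * e) = U) ∧
      ∀ {M R : ℕ} {dc : ℕ → ℤ} {spc : ℕ → Prop} {Gr : ℤ}
        {g : Geo (Ltc (ct eps (x a * x t)) (ct eps (x b * x t))) M R dc spc Gr} {m0 : ℕ} {hw : ℤ → ℕ}
        (H : Geo.Mn g m0 hw) {κ0 κ1 : ℤ} (h0 : 2 ≤ κ0) (h1 : κ1 ≤ m0) (hp : 2 ≤ 8 * e) (hN : ∀ z : Zr g, 8 * e ≤ g.rE z),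
        (inst H (Hx.co hta htb hab ht ha hb).cov hi hq hii κ0 κ1 h0 h1 (8 * e) hp hN).Per (fun _ => U) := by
  obtain ⟨U, hU1, hU2, hU3⟩ := per_exists Hx hta htb hab ht ha hb gn hi he
  refine ⟨U, hU1, hU2, fun D hD s0 κ => (hU3 D hD s0 0 0).1 κ, ?_⟩
  intro M R dc spc Gr g m0 hw H κ0 κ1 h0 h1 hp hN
  have hD : ∀ z : Zr g, (H.bd z).Per 8 := fun z => by
    have := H.bd_per z 1
    rwa [mul_one] at this
  have hDe : ∀ z : Zr g, (H.bd z).Per ((8 * e : ℕ) : ℤ) := fun z => by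
    have := H.bd_per z e
    push_cast
    exact this
  have e1 : 8 * e - 1 + 1 = 8 * e := by omega
  refine ⟨?_, ?_, ?_⟩
  · intro z m s hm
    have := ((hU3 (H.bd z) (hD z) (g.rs z) κ0 κ1).2 m s).1
    rw [← e1] at this
    exact this
  · intro z m s i hm _
    have := ((hU3 (H.bd z) (hD z) (g.rs z) κ0 κ1).2 m s).2 i
    rw [← e1] at this
    exact this
  · intro z m s i hm hi'
    have hm : m + (8 * e - 1 + 1) ≤ g.rE z / (8 * e) * (8 * e - 1 + 1) := hm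
    have hle : m + 8 * e ≤ g.rE z := by
      have h3 := inst_le (g := g) (z := z) hp hm
      omega
    have := (H.rg z h0 h1).mt_per (Hx.co hta htb hab ht ha hb).cov hi (hDe z) hle s hi'
    have h2 := Geo.mch_congr (Hx.co hta htb hab ht ha hb).cov hi hq hii this
    rw [← e1] at h2
    exact h2

end per

end Pool.Agent.Lib.MP_688fd0_co.SQ5.H95
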