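import Pool.Agent.Lib.MP_688fd0_co.SQ5.H95.Ring
import Pool.Agent.Lib.MP_688fd0_co.SQ5.H95.Col

/-!
NET: ports, outside arcs and insides as label paths; a choice of the insides with at most two cycles is a tour with classes.
-/

set_option autoImplicit false

namespace Pool.Agent.Lib.MP_688fd0_co.SQ5.H95

open Pool.Agent.Lib.MP_688fd0_co.OSF Pool.Agent.Lib.MP_688fd0_co.SQ2 Pool.Agent.Lib.MP_688fd0_co.SQ3 H64

universe u v w

variable {Q : Type u} [Group Q] (B : Lb.{u, v} Q)

/-- The inner vertices of a path. -/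
def itr (x : Q) (l : List B.L) : List Q := (src B x l).tail

/-- Ports `E`, the outside pairing `O`, the label path `out e` from the port `e` to the port `O e`; the outside arcs cover
the set `Y`. -/
structure Net (E : Type w) [Fintype E] where
  pt : E → Q
  O : E → E
  out : E → List B.L
  Y : Finset Q
  hO : IsPair O
  fin_out : ∀ e, B.fin (pt e) (out e) = pt (O e)
  rev_out : ∀ e, (B.verts (pt (O e)) (out (O e)) : Multiset Q) = (B.verts (pt e) (out e) : Multiset Q)
  cov : ∑ e, (B.verts (pt e) (out e) : Multiset Q) = 2 • Y.val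

variable {B}

/-- Insides with the pairing `c`: label paths with inner vertices outside of `Y`, all vertices covered. -/
structure Net.Fill {E : Type w} [Fintype E] [Fintype Q] [DecidableEq Q] (N : Net B E) (c : E → E) where
  inn : E → List B.L
  ne : ∀ e, inn e ≠ []
  fin : ∀ e, B.fin (N.pt e) (inn e) = N.pt (c e)
  rev : ∀ e, (itr B (N.pt (c e)) (inn (c e)) : Multiset Q) = (itr B (N.pt e) (inn e) : Multiset Q)
  cov : ∑ e, (itr B (N.pt e) (inn e) : Multiset Q) = 2 • (N.Yᶜ).val

omit [Group Q] in
theorem two_nsmul_inj {s t : Multiset Q} (h : 2 • s = 2 • t) : s = t := by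
  classical
  refine Multiset.ext.2 fun x => ?_
  have h1 := congrArg (Multiset.count x) h
  rw [Multiset.count_nsmul, Multiset.count_nsmul] at h1
  omega

omit [Group Q] in
/-- The sum over one colour class is half of the sum. -/
theorem half_sum {E : Type w} [Fintype E] {f : E → E} (hf : IsPair f) {o : E → Bool} (ho : ∀ e, o (f e) = !o e)
    (m : E → Multiset Q) (hm : ∀ e, m (f e) = m e) {Z : Multiset Q} (h : ∑ e, m e = 2 • Z) (b : Bool) :
    ∑ e : {e // o e = b}, m e = Z := by
  classical
  apply two_nsmul_inj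
  rw [← h]
  have e1 : ∑ e, m e = ∑ e : {e // o e = b}, m e + ∑ e : {e // ¬ o e = b}, m e :=
    (Fintype.sum_subtype_add_sum_subtype (fun e => o e = b) m).symm
  have e2 : ∑ e : {e // ¬ o e = b}, m e = ∑ e : {e // o e = b}, m e := by
    have g1 : ∀ e : {e // ¬ o e = b}, o (f e.1) = b := by
      intro e
      have := e.2
      rw [ho]
      revert this
      cases o e.1 <;> cases b <;> simp
    have g2 : ∀ e : {e // o e = b}, ¬ o (f e.1) = b := by
      intro e
      rw [ho, e.2]
      cases b <;> simp
    let τ : {e // ¬ o e = b} ≃ {e // o e = b} :=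
      ⟨fun e => ⟨f e.1, g1 e⟩, fun e => ⟨f e.1, g2 e⟩, fun e => Subtype.ext (hf.1 _), fun e => Subtype.ext (hf.1 _)⟩
    exact Fintype.sum_equiv τ _ _ fun e => (hm e.1).symm
  rw [e1, e2, two_nsmul]

/-- NET: a pairing of the insides with at most two cycles gives tours with classes, with fixed directions `o` and
classes `κ` of the ports. -/
theorem Net.tour {E : Type w} [Fintype E] [Fintype Q] [DecidableEq Q] (N : Net B E) {c : E → E} (hc : IsPair c)
    (x₀ y₀ : E) (h : ∀ z, Con c N.O x₀ z ∨ Con c N.O y₀ z) :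
    ∃ o κ : E → Bool, (∀ z, o (c z) = !o z) ∧ (∀ z, o (N.O z) = !o z) ∧ (∀ z, κ (c z) = κ z) ∧
      (∀ z, κ (N.O z) = κ z) ∧ (∀ z, κ z = true ↔ Con c N.O x₀ z) ∧ o x₀ = true ∧ (Con c N.O x₀ y₀ ∨ o y₀ = true) ∧
      ∀ F : N.Fill c, ∃ U : TourS B Bool, (∀ e, U.cls (N.pt e) = κ e) ∧ (∀ x, ∃ e, U.cls x = κ e) ∧
        (∀ e, o e = false → ∀ (j : ℕ) (hj : j < (F.inn e ++ N.out (c e)).length),
          U.lab (B.fin (N.pt e) ((F.inn e ++ N.out (c e)).take j)) = (F.inn e ++ N.out (c e))[j]) ∧
        ∀ {R : Type*} [CommRing R] (V : Vd B R) (γ : Bool), U.vol V γ =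
          (∑ e, if o e = true ∧ κ e = γ then V.vol (N.pt e) (N.out e) else 0) +
            ∑ e, if o e = false ∧ κ e = γ then V.vol (N.pt e) (F.inn e) else 0 := by
  classical
  obtain ⟨o, κ, h1, h2, h3, h4, h5, h6, h6', h7⟩ := col hc N.hO x₀ y₀ h
  refine ⟨o, κ, h1, h2, h3, h4, h5, h6, h6', fun F => ?_⟩
  have hmem : ∀ {e : E}, o e = false → o (N.O (c e)) = false := fun {e} he => by rw [h2, h1, he]; rfl
  let σ : Equiv.Perm {e // o e = false} :=
    { toFun := fun e => ⟨N.O (c e.1), hmem e.2⟩
      invFun := fun e => ⟨c (N.O e.1), by rw [h1, h2, e.2]; rfl⟩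
      left_inv := fun e => Subtype.ext (by
        show c (N.O (N.O (c e.1))) = e.1
        rw [N.hO.1, hc.1])
      right_inv := fun e => Subtype.ext (by
        show N.O (c (c (N.O e.1))) = e.1
        rw [hc.1, N.hO.1]) }
  have hσ : ∀ i, (σ i : E) = N.O (c i.1) := fun _ => rfl
  let a : {e // o e = false} → Q := fun e => N.pt e.1
  let l : {e // o e = false} → List B.L := fun e => F.inn e.1 ++ N.out (c e.1)
  have hne : ∀ i, l i ≠ [] := fun i => List.append_ne_nil_of_left_ne_nil (F.ne _) _
  have hfin : ∀ i, B.fin (a i) (l i) = a (σ i) := by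
    intro i
    show B.fin (N.pt i.1) (F.inn i.1 ++ N.out (c i.1)) = N.pt (N.O (c i.1))
    rw [fin_append, F.fin, N.fin_out]
  -- the covering
  have hcov : ∑ i, (src B (a i) (l i) : Multiset Q) = Finset.univ.val := by
    have e1 : ∀ i, (src B (a i) (l i) : Multiset Q) = {a i} + (itr B (N.pt i.1) (F.inn i.1) : Multiset Q) +
        (src B (N.pt (c i.1)) (N.out (c i.1)) : Multiset Q) := by
      intro i
      show (src B (N.pt i.1) (F.inn i.1 ++ N.out (c i.1)) : Multiset Q) = _
      rw [src_append, F.fin, ← Multiset.coe_add, src_ne_nil _ (F.ne i.1), ← Multiset.cons_coe,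
        ← Multiset.singleton_add]
      rfl
    have e2 : ∑ i, ({a i} : Multiset Q) = ∑ i, ({a (σ i)} : Multiset Q) :=
      (Equiv.sum_comp σ fun i => ({a i} : Multiset Q)).symm
    have e3 : ∀ i, ({a (σ i)} : Multiset Q) + (src B (N.pt (c i.1)) (N.out (c i.1)) : Multiset Q) =
        (B.verts (N.pt (c i.1)) (N.out (c i.1)) : Multiset Q) := by
      intro i
      rw [verts_eq, N.fin_out, ← Multiset.coe_add, add_comm]
      rfl
    have e4 : ∑ i : {e // o e = false}, (itr B (N.pt i.1) (F.inn i.1) : Multiset Q) = (N.Yᶜ).val :=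
      half_sum hc h1 _ F.rev F.cov false
    have e5 : ∑ i : {e // o e = false}, (B.verts (N.pt (c i.1)) (N.out (c i.1)) : Multiset Q) = N.Y.val := by
      rw [← half_sum N.hO h2 _ N.rev_out N.cov true]
      refine Fintype.sum_equiv ⟨fun e => ⟨c e.1, by rw [h1, e.2]; rfl⟩, fun e => ⟨c e.1, by rw [h1, e.2]; rfl⟩,
        fun e => Subtype.ext (hc.1 _), fun e => Subtype.ext (hc.1 _)⟩ _ _ fun e => rfl
    rw [Finset.sum_congr rfl fun i _ => e1 i, Finset.sum_add_distrib, Finset.sum_add_distrib, e2, e4,
      add_right_comm, ← Finset.sum_add_distrib, Finset.sum_congr rfl fun i _ => e3 i, e5]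
    have : Disjoint N.Y N.Yᶜ := disjoint_compl_right
    rw [← Finset.disjUnion_val _ _ this]
    congr 1
    rw [Finset.disjUnion_eq_union, Finset.union_compl]
  obtain ⟨U, u1, u2, u3, u4⟩ := ring σ a l hne hfin hcov (fun i => κ i.1)
    (fun i => by rw [hσ, h4, h3]) (fun i j hij => by
      obtain ⟨n, hn⟩ := h7 i.1 j.1 hij (by rw [i.2, j.2])
      refine ⟨n, Subtype.ext ?_⟩
      rw [← hn]
      clear hn
      induction n with
      | zero => rfl
      | succ n ih => rw [Function.iterate_succ_apply', Function.iterate_succ_apply', hσ, ih])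
  refine ⟨U, ?_, ?_, ?_, ?_⟩
  · -- the class of a port
    intro e
    cases he : o e
    · exact u1 ⟨e, he⟩
    · -- `e` is the end of the inside of `c e`, or the start of an outside arc
      have h8 : o (N.O e) = false := by rw [h2, he]; rfl
      have h9 : o (c e) = false := by rw [h1, he]; rfl
      by_cases hout : N.out (c (c e)) = []
      · -- the outside arc is trivial
        have h10 : N.pt (N.O e) = N.pt e := by
          rw [← N.fin_out e]
          rw [hc.1] at hout
          rw [hout]
          rfl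
        rw [← h10, u1 ⟨N.O e, h8⟩]
        exact h4 e
      · have h11 := u3 ⟨c e, h9⟩ ⟨(F.inn (c e)).length, by
          show (F.inn (c e)).length < (F.inn (c e) ++ N.out (c (c e))).length
          rw [List.length_append]
          have := List.length_pos_of_ne_nil hout
          omega⟩
        -- go along the inside
        have key : ∀ j : ℕ, j ≤ (F.inn (c e)).length →
            U.cls (B.fin (N.pt (c e)) ((F.inn (c e) ++ N.out (c (c e))).take j)) = κ (c e) := by
          intro j
          induction j with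
          | zero => intro _; exact u1 ⟨c e, h9⟩
          | succ j ih =>
            intro hj
            have hj' : j < (F.inn (c e) ++ N.out (c (c e))).length := by
              rw [List.length_append]; omega
            rw [List.take_succ_eq_append_getElem hj', fin_append, ← ih (by omega)]
            have h12 := u3 ⟨c e, h9⟩ ⟨j, hj'⟩
            have h13 := U.step (B.fin (N.pt (c e)) ((F.inn (c e) ++ N.out (c (c e))).take j))
            have h14 : U.lab (B.fin (N.pt (c e)) ((F.inn (c e) ++ N.out (c (c e))).take j)) =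
              (F.inn (c e) ++ N.out (c (c e)))[j] := h12
            rw [h14] at h13
            exact h13
        have h15 := key _ le_rfl
        rw [List.take_left', F.fin, hc.1, h3] at h15
        · exact h15
        · rfl
  · intro x
    obtain ⟨i, hi⟩ := u2 x
    exact ⟨i.1, hi⟩
  · intro e he j hj
    exact u3 ⟨e, he⟩ ⟨j, hj⟩
  · intro R _ V γ
    rw [u4]
    have hv : ∀ (x : Q) (l l' : List B.L), V.vol x (l ++ l') = V.vol x l + V.vol (B.fin x l) l' := by
      intro x l l'
      induction l generalizing x with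
      | nil => exact (zero_add _).symm
      | cons g l ih =>
        show V.chi x * V.n g + V.vol (x * B.q g) (l ++ l') = V.chi x * V.n g + V.vol (x * B.q g) l + _
        rw [ih, add_assoc]
        rfl
    have e1 : ∀ i : {e // o e = false}, (if κ i.1 = γ then V.vol (a i) (l i) else 0) =
        (if κ (c i.1) = γ then V.vol (N.pt (c i.1)) (N.out (c i.1)) else 0) +
          (if κ i.1 = γ then V.vol (N.pt i.1) (F.inn i.1) else 0) := by
      intro i
      rw [h3]
      by_cases hk : κ i.1 = γ
      · rw [if_pos hk, if_pos hk, if_pos hk]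
        show V.vol (N.pt i.1) (F.inn i.1 ++ N.out (c i.1)) = _
        rw [hv, F.fin, add_comm]
      · rw [if_neg hk, if_neg hk, if_neg hk, add_zero]
    rw [Finset.sum_congr rfl fun i _ => e1 i, Finset.sum_add_distrib]
    congr 1
    · -- reindex by `c`
      have e2 : ∑ e, (if o e = true ∧ κ e = γ then V.vol (N.pt e) (N.out e) else 0) =
          ∑ e : {e // o e = true}, if κ e.1 = γ then V.vol (N.pt e.1) (N.out e.1) else 0 := by
        rw [← Fintype.sum_subtype_add_sum_subtype (fun e => o e = true)]
        have : ∑ e : {e // ¬ o e = true}, (if o e.1 = true ∧ κ e.1 = γ then V.vol (N.pt e.1) (N.out e.1) else 0) = 0 :=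
          Finset.sum_eq_zero fun e _ => if_neg fun h' => e.2 h'.1
        rw [this, add_zero]
        refine Finset.sum_congr rfl fun e _ => ?_
        by_cases hk : κ e.1 = γ
        · rw [if_pos ⟨e.2, hk⟩, if_pos hk]
        · rw [if_neg fun h' => hk h'.2, if_neg hk]
      rw [e2]
      exact Fintype.sum_equiv ⟨fun e => ⟨c e.1, by rw [h1, e.2]; rfl⟩, fun e => ⟨c e.1, by rw [h1, e.2]; rfl⟩,
        fun e => Subtype.ext (hc.1 _), fun e => Subtype.ext (hc.1 _)⟩ _ _ fun e => rfl
    · rw [← Fintype.sum_subtype_add_sum_subtype (fun e => o e = false)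
        (fun e => if o e = false ∧ κ e = γ then V.vol (N.pt e) (F.inn e) else 0)]
      have : ∑ e : {e // ¬ o e = false}, (if o e.1 = false ∧ κ e.1 = γ then V.vol (N.pt e.1) (F.inn e.1) else 0) = 0 :=
        Finset.sum_eq_zero fun e _ => if_neg fun h' => e.2 h'.1
      rw [this, add_zero]
      refine Finset.sum_congr rfl fun e _ => ?_
      by_cases hk : κ e.1 = γ
      · rw [if_pos hk, if_pos ⟨e.2, hk⟩]
      · rw [if_neg hk, if_neg fun h' => hk h'.2]

end Pool.Agent.Lib.MP_688fd0_co.SQ5.H95
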