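import Pool.Agent.Lib.MP_688fd0_co.SQ5.H95.Fict
import Pool.Agent.Lib.MP_688fd0_co.SQ5.H95.Fam
import Pool.Agent.Lib.MP_688fd0_co.SQ5.H12.Clu

/-!
OPEN: a 2-factor with regions, in the format of WALK / UNION; the end with one fictitious edge, and without.
-/

set_option autoImplicit false

namespace Pool.Agent.Lib.MP_688fd0_co.SQ5.H95

open Function Pool.Agent.Lib.MP_688fd0_co.OSF Pool.Agent.Lib.MP_688fd0_co.SQ2 Pool.Agent.Lib.MP_688fd0_co.SQ3 H64
open Pool.Agent.Lib.MP_688fd0_co.SQ4.H49 (Inv gl gl_inv)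

universe u v w t

variable {Q : Type u} [Group Q] {B : Lb.{u, v} Q}

namespace HF

variable (F : HF B)

theorem length_wl (n : ℕ) (e : F.X) : (F.wl n e).length = n := by
  induction n generalizing e with
  | zero => rfl
  | succ n ih => exact congrArg (· + 1) (ih _)

theorem get_wl (n : ℕ) (e : F.X) (j : ℕ) (hj : j < (F.wl n e).length) : (F.wl n e)[j] = (F.stp^[j] e).1.2 := by
  induction n generalizing e j with
  | zero => exact absurd hj (Nat.not_lt_zero _)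
  | succ n ih =>
    cases j with
    | zero => rfl
    | succ j => exact ih _ j (Nat.lt_of_succ_lt_succ hj)

theorem fin_take_wl (n : ℕ) (e : F.X) (j : ℕ) (hj : j ≤ n) :
    B.fin (F.vt e) ((F.wl n e).take j) = F.vt (F.stp^[j] e) := by
  induction n generalizing e j with
  | zero =>
    obtain rfl : j = 0 := by omega
    rfl
  | succ n ih =>
    cases j with
    | zero => rfl
    | succ j => exact ih (F.stp e) j (by omega)

theorem mem_wl {n : ℕ} {e : F.X} {g : B.L} (h : g ∈ F.wl n e) : ∃ j, j < n ∧ (F.stp^[j] e).1.2 = g := by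
  obtain ⟨j, hj, e'⟩ := List.getElem_of_mem h
  refine ⟨j, by rw [F.length_wl] at hj; exact hj, ?_⟩
  rw [← e', F.get_wl]

section

variable {W : Q → Prop} [Finite Q]

/-- Positions on the arcs are unique. -/
theorem arc_inj {d d' : F.E W} {j j' : ℕ} (hj : j ≤ F.len d) (hj' : j' ≤ F.len d')
    (h : F.stp^[j] (F.ot d.1) = F.stp^[j'] (F.ot d'.1)) : d = d' ∧ j = j' := by
  have key : ∀ (d d' : F.E W) (j j' : ℕ), j' ≤ F.len d' → j ≤ j' →
      F.stp^[j] (F.ot d.1) = F.stp^[j'] (F.ot d'.1) → d = d' ∧ j = j' := by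
    intro d d' j j' h1 h2 h3
    obtain ⟨i, rfl⟩ := Nat.exists_eq_add_of_le h2
    rw [Function.iterate_add_apply] at h3
    have h4 := F.stp_inj.iterate j h3
    cases i with
    | zero =>
      have h5 : d.1 = d'.1 := by rw [← F.ot_ot d.1, ← F.ot_ot d'.1]; exact congrArg F.ot h4
      exact ⟨Subtype.ext h5, rfl⟩
    | succ i =>
      exfalso
      rw [Function.iterate_succ_apply'] at h4
      have h5 : d.1 = F.pr (F.stp^[i] (F.ot d'.1)) := by
        have := congrArg F.ot h4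
        unfold stp at this
        rw [F.ot_ot, F.ot_ot] at this
        exact this
      have h6 : F.In W (F.stp^[i] (F.ot d'.1)) := by
        rw [← F.in_pr, ← h5]; exact Or.inr d.2.2
      exact (F.len_spec d').2 i (by omega) h6
  rcases le_total j j' with h1 | h1
  · exact key d d' j j' hj' h1 h
  · obtain ⟨h2, h3⟩ := key d' d j' j hj h1 h.symm
    exact ⟨h2.symm, h3.symm⟩

/-- Every dart at an outside vertex is on an arc. -/
theorem arc_ex {δ : F.X} (hδ : ¬ W (F.vt δ)) (hc : ∃ y, W y ∧ F.C (F.vt δ) y) :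
    ∃ d : F.E W, ∃ j, j ≤ F.len d ∧ F.stp^[j] (F.ot d.1) = δ := by
  obtain ⟨y, hy, hc⟩ := hc
  obtain ⟨n, hn⟩ := F.comp_hit (e := F.ot δ) hy hc
  have hp : F.Port W (F.stp^[n] (F.ot δ)) := F.hit_port (e := F.ot δ) hδ hn
  have hle : n ≤ F.len ⟨F.stp^[n] (F.ot δ), hp⟩ := by
    by_contra hlt
    push Not at hlt
    have h1 := (F.len_spec ⟨F.stp^[n] (F.ot δ), hp⟩).1
    set i := F.len ⟨F.stp^[n] (F.ot δ), hp⟩ with hi
    rw [F.back _ n i hlt.le] at h1
    have h2 : n - i = (n - (i + 1)) + 1 := by omega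
    rw [h2, Function.iterate_succ_apply', F.in_ot_stp] at h1
    exact hn.2 _ (by omega) h1
  refine ⟨⟨F.stp^[n] (F.ot δ), hp⟩, n, hle, ?_⟩
  show F.stp^[n] (F.ot (F.stp^[n] (F.ot δ))) = δ
  rw [F.back _ n n le_rfl, Nat.sub_self]
  exact F.ot_ot δ

/-- The reversed arc. -/
theorem arc_rev {d : F.E W} {j : ℕ} (hj : j ≤ F.len d) :
    F.stp^[F.len d - j] (F.ot (F.O d).1) = F.ot (F.stp^[j] (F.ot d.1)) := by
  show F.stp^[F.len d - j] (F.ot (F.stp^[F.len d] (F.ot d.1))) = _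
  rw [F.back _ (F.len d) (F.len d - j) (by omega)]
  congr 2
  omega

theorem arc_vt_mem {d : F.E W} {j : ℕ} (hj : j ≤ F.len d) :
    F.vt (F.stp^[j] (F.ot d.1)) ∈ B.verts (F.vt d.1) (F.wl (F.len d) (F.ot d.1)) := by
  have h1 := F.verts_wl (F.len d) (F.ot d.1)
  rw [F.vt_ot] at h1
  rw [h1, List.mem_map]
  exact ⟨j, List.mem_range.2 (by omega), rfl⟩

end

end HF

section ends

variable {G : Type u} [Group G] [Fintype G] [DecidableEq G] {A : Set G} {B : Lb.{u, v} G} (F : HF B) {W : G → Prop}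

/-- The end with a fictitious edge `d₀` on the arc `e₀`. -/
theorem HF.lst [Fintype (F.E W)] (hcomp : ∀ x, ¬ W x → ∃ y, W y ∧ F.C x y) (d₀ : F.X) (hd₀ : ¬ F.In W d₀)
    (hA : ∀ d : F.X, d ≠ d₀ → d ≠ F.pr d₀ → B.q d.1.2 ∈ A) (e₀ e₁ : F.E W)
    (he₀ : ∃ j, j ≤ F.len e₀ ∧ F.stp^[j] (F.ot e₀.1) = d₀) (z : G) (hyz : (F.vt d₀)⁻¹ * z ∈ A)
    (he₁ : ∃ j, j ≤ F.len e₁ ∧ F.vt (F.stp^[j] (F.ot e₁.1)) = z) {Y : Finset G} (hY : ∀ x, x ∈ Y ↔ ¬ W x)
    {c : F.E W → F.E W} (hc : IsPair c) (h : ∀ z, Con c F.O e₀ z ∨ Con c F.O e₁ z)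
    (Fl : (F.net Y hY hcomp).Fill c) (hFl : ∀ e, ∀ g ∈ Fl.inn e, B.q g ∈ A) : Lst A := by
  obtain ⟨j₀, hj₀, h0⟩ := he₀
  obtain ⟨j₁, hj₁, h1⟩ := he₁
  refine (F.net Y hY hcomp).lst hc e₀ e₁ h (F.vt d₀) z ?_ ?_ hyz ?_ Fl hFl
  · show F.vt d₀ ∈ B.verts (F.vt e₀.1) (F.wl (F.len e₀) (F.ot e₀.1))
    rw [← h0]
    exact F.arc_vt_mem hj₀
  · show z ∈ B.verts (F.vt e₁.1) (F.wl (F.len e₁) (F.ot e₁.1))
    rw [← h1]
    exact F.arc_vt_mem hj₁
  · intro e he j hj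
    have hj' : j < (F.wl (F.len e) (F.ot e.1)).length := hj
    have hjl : j < F.len e := by rw [F.length_wl] at hj'; exact hj'
    have e1 : ((F.net Y hY hcomp).out e)[j] = (F.stp^[j] (F.ot e.1)).1.2 := F.get_wl _ _ j hj'
    have e2 : B.fin ((F.net Y hY hcomp).pt e) (((F.net Y hY hcomp).out e).take j) = F.vt (F.stp^[j] (F.ot e.1)) := by
      have := F.fin_take_wl (F.len e) (F.ot e.1) j hjl.le
      rw [F.vt_ot] at this
      exact this
    suffices hs : B.q (F.stp^[j] (F.ot e.1)).1.2 ∈ A ∨ F.vt (F.stp^[j] (F.ot e.1)) = F.vt d₀ by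
      rcases hs with hs | hs
      · rw [← e1] at hs
        exact Or.inl hs
      · rw [← e2] at hs
        exact Or.inr hs
    by_cases h2 : F.stp^[j] (F.ot e.1) = d₀
    · right; rw [h2]
    by_cases h3 : F.stp^[j] (F.ot e.1) = F.pr d₀
    · exfalso
      -- the reversed fictitious edge is on the arc `O e₀`
      have h4 : j₀ ≠ F.len e₀ := by
        rintro rfl
        apply hd₀
        rw [← h0]
        exact (F.len_spec e₀).1
      have h5 : F.stp^[F.len e₀ - (j₀ + 1)] (F.ot (F.O e₀).1) = F.pr d₀ := by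
        rw [F.arc_rev (show j₀ + 1 ≤ F.len e₀ by omega), Function.iterate_succ_apply', h0]
        unfold HF.stp
        rw [F.ot_ot]
      have h6 := F.arc_inj (d := F.O e₀) (d' := e) (by rw [F.len_O]; omega) hjl.le (h5.trans h3.symm)
      exact he h6.1.symm
    · exact Or.inl (hA _ h2 h3)

/-- The end without fictitious edges. -/
theorem HF.lst' [Fintype (F.E W)] (hcl : Subgroup.closure A = ⊤) (hcomp : ∀ x, ¬ W x → ∃ y, W y ∧ F.C x y)
    (hA : ∀ d : F.X, B.q d.1.2 ∈ A) (e₀ e₁ : F.E W) {Y : Finset G} (hY : ∀ x, x ∈ Y ↔ ¬ W x)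
    {c : F.E W → F.E W} (hc : IsPair c) (h : ∀ z, Con c F.O e₀ z ∨ Con c F.O e₁ z)
    (Fl : (F.net Y hY hcomp).Fill c) (hFl : ∀ e, ∀ g ∈ Fl.inn e, B.q g ∈ A) : Lst A := by
  refine (F.net Y hY hcomp).lst' hcl hc e₀ e₁ h ?_ Fl hFl
  intro e g hg
  obtain ⟨j, -, rfl⟩ := F.mem_wl hg
  exact hA _

end ends

/-! ### Regions -/

section reg

variable {R : Type w} {P : R → Type t} {E : Type*} (φ : (Σ r, P r) ≃ E)

/-- The pairing of all ports. -/
def cE (c : ∀ r, P r → P r) (e : E) : E := φ (gl c (φ.symm e))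

theorem cE_pair {c : ∀ r, P r → P r} (hc : ∀ r, Inv (c r)) : IsPair (cE φ c) := by
  refine ⟨fun e => ?_, fun e h => ?_⟩
  · show φ (gl c (φ.symm (φ (gl c (φ.symm e))))) = e
    rw [φ.symm_apply_apply, (gl_inv hc _).1, φ.apply_symm_apply]
  · have h1 : gl c (φ.symm e) = φ.symm e := by
      have := congrArg φ.symm h
      unfold cE at this
      rwa [φ.symm_apply_apply] at this
    exact (gl_inv hc _).2 h1

/-- The outside pairing, transported. -/
def outE (O : E → E) (p : Σ r, P r) : Σ r, P r := φ.symm (O (φ p))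

theorem outE_inv {O : E → E} (hO : IsPair O) : Inv (outE φ O) := by
  intro p
  refine ⟨?_, fun h => ?_⟩
  · show φ.symm (O (φ (φ.symm (O (φ p))))) = p
    rw [φ.apply_symm_apply, hO.1, φ.symm_apply_apply]
  · have h1 : O (φ p) = φ p := by rw [← φ.apply_symm_apply (O (φ p))]; exact congrArg φ h
    exact hO.2 _ h1

theorem con_of {O : E → E} (hO : IsPair O) {c : ∀ r, P r → P r} (hc : ∀ r, Inv (c r)) {x y : Σ r, P r}
    (h : SQ4.H49.Con (outE φ O) (gl c) x y) : Con (cE φ c) O (φ y) (φ x) := by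
  have hp := cE_pair φ hc
  have hs : ∀ {a b : E}, Con (cE φ c) O a b → Con (cE φ c) O b a := fun h => Con.symm' hp.1 hO.1 h
  refine hs (SQ4.H49.Con.le (ρ := fun x y => Con (cE φ c) O (φ x) (φ y)) ⟨fun _ => Con.refl' _, fun h => hs h,
    fun h h' => Con.trans' h h'⟩ ?_ ?_ h)
  · intro x
    show Con (cE φ c) O (φ x) (φ (φ.symm (O (φ x))))
    rw [φ.apply_symm_apply]
    exact con_right _
  · intro x
    have := con_left (f := cE φ c) (g := O) (φ x)
    unfold cE at this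
    rw [φ.symm_apply_apply] at this
    exact this

end reg

/-- The filling of all regions, ports as a sum. -/
theorem fill_sig {E : Type*} [Fintype E] [Fintype Q] [DecidableEq Q] (N : Net B E) {R : Type w} {P : R → Type t} [Fintype R]
    [∀ r, Fintype (P r)] (φ : (Σ r, P r) ≃ E) (Z : R → Finset Q) (hZ : ∑ r, (Z r).val = (N.Yᶜ).val)
    (c : ∀ r, P r → P r) (X : ∀ r, PFam B (fun e : P r => N.pt (φ ⟨r, e⟩)) (c r) (Z r)) :
    ∃ Fl : N.Fill (cE φ c), ∀ r (e : P r), Fl.inn (φ ⟨r, e⟩) = (X r).inn e := by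
  classical
  let inn : E → List B.L := fun e => (X (φ.symm e).1).inn (φ.symm e).2
  have hinn : ∀ p : Σ r, P r, inn (φ p) = (X p.1).inn p.2 := by
    intro p
    show (X (φ.symm (φ p)).1).inn (φ.symm (φ p)).2 = _
    rw [φ.symm_apply_apply]
  have hce : ∀ p : Σ r, P r, cE φ c (φ p) = φ (gl c p) := fun p => by
    unfold cE
    rw [φ.symm_apply_apply]
  have hall : ∀ m : E → Prop, (∀ p, m (φ p)) → ∀ e, m e := fun m h e => by
    rw [← φ.apply_symm_apply e]; exact h _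
  refine ⟨⟨inn, ?_, ?_, ?_, ?_⟩, fun r e => hinn ⟨r, e⟩⟩
  · refine hall _ fun p => ?_
    rw [hinn]
    exact (X p.1).ne p.2
  · refine hall _ fun p => ?_
    rw [hinn, hce]
    exact (X p.1).fin p.2
  · refine hall _ fun p => ?_
    rw [hce, hinn, hinn]
    exact (X p.1).rev p.2
  · rw [← Equiv.sum_comp φ, ← hZ, Finset.smul_sum]
    rw [Finset.sum_congr rfl fun p _ => by rw [hinn p], Fintype.sum_sigma]
    refine Finset.sum_congr rfl fun r _ => ?_
    exact (X r).cov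

/-- A system of regions in a 2-factor: the ports `P r` of the region with the vertices `Z r`, possible insides `K r`. -/
structure Sys {G : Type u} [Group G] [Fintype G] [DecidableEq G] (A : Set G) {B : Lb.{u, v} G} (F : HF B) (W : G → Prop)
    {R : Type w} (P : R → Type t) [Fintype R] [∀ r, Fintype (P r)] (Z : R → Finset G) (K : ∀ r, Set (P r → P r)) where
  mem : ∀ x, W x ↔ ∃ r, x ∈ Z r
  disj : ∀ r s x, x ∈ Z r → x ∈ Z s → r = s
  comp : ∀ x, ¬ W x → ∃ y, W y ∧ F.C x y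
  φ : (Σ r, P r) ≃ F.E W
  fam : ∀ r, ∀ k ∈ K r, ∃ X : PFam B (fun e : P r => F.vt (φ ⟨r, e⟩).1) k (Z r), ∀ e, ∀ g ∈ X.inn e, B.q g ∈ A

namespace Sys

variable {G : Type u} [Group G] [Fintype G] [DecidableEq G] {A : Set G} {B : Lb.{u, v} G} {F : HF B} {W : G → Prop}
  {R : Type w} {P : R → Type t} [Fintype R] [∀ r, Fintype (P r)] {Z : R → Finset G} {K : ∀ r, Set (P r → P r)}
  (S : Sys A F W P Z K)

/-- The outside pairing. -/
noncomputable def out : (Σ r, P r) → Σ r, P r := outE S.φ F.O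

theorem out_inv : Inv S.out := outE_inv S.φ ⟨F.O_O, F.O_ne⟩

include S in
open Classical in
theorem sumZ (Y : Finset G) (hY : ∀ x, x ∈ Y ↔ ¬ W x) : ∑ r, (Z r).val = (Yᶜ).val := by
  classical
  refine Multiset.ext.2 fun x => ?_
  rw [Multiset.count_sum']
  by_cases hx : W x
  · obtain ⟨r, hr⟩ := (S.mem x).1 hx
    rw [Finset.sum_eq_single r]
    · rw [Multiset.count_eq_one_of_mem (Z r).nodup (Finset.mem_def.1 hr),
        Multiset.count_eq_one_of_mem (Yᶜ).nodup (Finset.mem_def.1 (Finset.mem_compl.2 fun h => (hY x).1 h hx))]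
    · intro s _ hs
      exact Multiset.count_eq_zero.2 fun h => hs (S.disj s r x (Finset.mem_def.2 h) hr)
    · intro h; exact absurd (Finset.mem_univ _) h
  · rw [Multiset.count_eq_zero.2 fun h : x ∈ (Yᶜ).val =>
      (Finset.mem_compl.1 (Finset.mem_def.2 h)) ((hY x).2 hx)]
    refine Finset.sum_eq_zero fun r _ => Multiset.count_eq_zero.2 fun h => hx ((S.mem x).2 ⟨r, Finset.mem_def.2 h⟩)

open Classical in
theorem fill [Fintype (F.E W)] {Y : Finset G} (hY : ∀ x, x ∈ Y ↔ ¬ W x) (c : ∀ r, P r → P r) (hc : ∀ r, c r ∈ K r) :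
    ∃ Fl : (F.net Y hY S.comp).Fill (cE S.φ c), ∀ e, ∀ g ∈ Fl.inn e, B.q g ∈ A := by
  classical
  choose X hX using fun r => S.fam r (c r) (hc r)
  obtain ⟨Fl, hFl⟩ := fill_sig (F.net Y hY S.comp) S.φ Z (S.sumZ Y hY) c X
  refine ⟨Fl, fun e g hg => ?_⟩
  rw [← S.φ.apply_symm_apply e] at hg
  have h1 := hFl (S.φ.symm e).1 (S.φ.symm e).2
  have h2 : Fl.inn (S.φ (S.φ.symm e)) = (X (S.φ.symm e).1).inn (S.φ.symm e).2 := h1
  rw [h2] at hg
  exact hX _ _ g hg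

/-- OPEN: two different arcs `a₀` (with the fictitious edge `d₀`) and `a₁` (with the neighbour `z` of `vt d₀`); a choice
of the insides with all ports connected to `a₀` or `a₁`. -/
theorem lst_of_con (d₀ : F.X) (hd₀ : ¬ F.In W d₀)
    (hA : ∀ d : F.X, d ≠ d₀ → d ≠ F.pr d₀ → B.q d.1.2 ∈ A) (a₀ a₁ : Σ r, P r)
    (he₀ : ∃ j, j ≤ F.len (S.φ a₀) ∧ F.stp^[j] (F.ot (S.φ a₀).1) = d₀) (z : G) (hyz : (F.vt d₀)⁻¹ * z ∈ A)
    (he₁ : ∃ j, j ≤ F.len (S.φ a₁) ∧ F.vt (F.stp^[j] (F.ot (S.φ a₁).1)) = z) (c : ∀ r, P r → P r)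
    (hc : ∀ r, c r ∈ K r) (hi : ∀ r, Inv (c r))
    (h : ∀ x, SQ4.H49.Con S.out (gl c) x a₀ ∨ SQ4.H49.Con S.out (gl c) x a₁) : Lst A := by
  classical
  have : Fintype (F.E W) := Fintype.ofEquiv _ S.φ
  have hY : ∀ x, x ∈ (Finset.univ.filter fun x => ¬ W x) ↔ ¬ W x := fun x => by simp
  obtain ⟨Fl, hFl⟩ := S.fill hY c hc
  refine F.lst S.comp d₀ hd₀ hA (S.φ a₀) (S.φ a₁) he₀ z hyz he₁ hY (cE_pair S.φ hi) ?_ Fl hFl
  intro e
  have hO : IsPair (F.O (W := W)) := ⟨F.O_O, F.O_ne⟩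
  rcases h (S.φ.symm e) with h1 | h1
  · have := con_of S.φ hO hi h1
    rw [S.φ.apply_symm_apply] at this
    exact Or.inl this
  · have := con_of S.φ hO hi h1
    rw [S.φ.apply_symm_apply] at this
    exact Or.inr this

/-- Without fictitious edges: all ports connected to `a₀` or `a₁`. -/
theorem lst_of_con' (hcl : Subgroup.closure A = ⊤) (hA : ∀ d : F.X, B.q d.1.2 ∈ A) (a₀ a₁ : Σ r, P r)
    (c : ∀ r, P r → P r) (hc : ∀ r, c r ∈ K r) (hi : ∀ r, Inv (c r))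
    (h : ∀ x, SQ4.H49.Con S.out (gl c) x a₀ ∨ SQ4.H49.Con S.out (gl c) x a₁) : Lst A := by
  classical
  have : Fintype (F.E W) := Fintype.ofEquiv _ S.φ
  have hY : ∀ x, x ∈ (Finset.univ.filter fun x => ¬ W x) ↔ ¬ W x := fun x => by simp
  obtain ⟨Fl, hFl⟩ := S.fill hY c hc
  refine F.lst' hcl S.comp hA (S.φ a₀) (S.φ a₁) hY (cE_pair S.φ hi) ?_ Fl hFl
  intro e
  have hO : IsPair (F.O (W := W)) := ⟨F.O_O, F.O_ne⟩
  rcases h (S.φ.symm e) with h1 | h1
  · have := con_of S.φ hO hi h1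
    rw [S.φ.apply_symm_apply] at this
    exact Or.inl this
  · have := con_of S.φ hO hi h1
    rw [S.φ.apply_symm_apply] at this
    exact Or.inr this

/-- OPEN with a cluster of all regions. -/
theorem lst_of_clu {I : Set (Σ r, P r)} (h : H12.Clu S.out K Set.univ I) (d₀ : F.X) (hd₀ : ¬ F.In W d₀)
    (hA : ∀ d : F.X, d ≠ d₀ → d ≠ F.pr d₀ → B.q d.1.2 ∈ A) (a₀ a₁ : Σ r, P r)
    (he₀ : ∃ j, j ≤ F.len (S.φ a₀) ∧ F.stp^[j] (F.ot (S.φ a₀).1) = d₀) (z : G) (hyz : (F.vt d₀)⁻¹ * z ∈ A)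
    (he₁ : ∃ j, j ≤ F.len (S.φ a₁) ∧ F.vt (F.stp^[j] (F.ot (S.φ a₁).1)) = z) (n₀ : a₀ ∉ I) (n₁ : a₁ ∉ I)
    (h1 : a₁ ≠ a₀) (h2 : a₁ ≠ S.out a₀) : Lst A := by
  obtain ⟨c, hc, h3⟩ := h.fin_univ S.out_inv a₀ a₁ n₀ n₁ h1 h2
  exact S.lst_of_con d₀ hd₀ hA a₀ a₁ he₀ z hyz he₁ c hc (fun r => h.inv r (Set.mem_univ _) _ (hc r)) h3

/-- CLOSED with a cluster of all regions. -/
theorem lst_of_clu' {I : Set (Σ r, P r)} (h : H12.Clu S.out K Set.univ I) (hcl : Subgroup.closure A = ⊤)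
    (hA : ∀ d : F.X, B.q d.1.2 ∈ A) : Lst A := by
  obtain ⟨c₀, hc₀⟩ : ∃ c₀ : ∀ r, P r → P r, ∀ r, c₀ r ∈ K r := by
    choose c₀ hc₀ using fun r => h.ne r (Set.mem_univ _)
    exact ⟨c₀, hc₀⟩
  obtain ⟨c, hc, -, a₁, a₂, -, -, h3⟩ := h.fin2 S.out_inv c₀ fun r => h.inv r (Set.mem_univ _) _ (hc₀ r)
  refine S.lst_of_con' hcl hA a₁ a₂ c (fun r => hc r (Set.mem_univ _))
    (fun r => h.inv r (Set.mem_univ _) _ (hc r (Set.mem_univ _))) fun x => h3 x ⟨x, Set.mem_univ _, SQ4.H49.Con.rfl'⟩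

end Sys

end Pool.Agent.Lib.MP_688fd0_co.SQ5.H95
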