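import Pool.Agent.Lib.MP_688fd0_co.SQ5.H95.BandsR

/-!
PAD: a diagram realised in the blocks `n0 .. n` is realised in all larger block ranges; the whole layer; layers with the
unchanged 2-factor.
-/

set_option autoImplicit false

namespace Pool.Agent.Lib.MP_688fd0_co.SQ5.H95

open Function Pool.Agent.Lib.MP_688fd0_co.OSF H64

universe u v w t

variable {G : Type u} [Group G] {B : Lb.{u, v} G}

namespace RnF

variable {F F' : HF B} {S : Type t} {C : H22.Chart G S} {E : ℕ} (H : RnF F C E)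

include H

/-- Upwards along a strand, where `F'` agrees with `F`. -/
theorem up_cn {m0 m : ℕ} (hm : m0 ≤ m) (hE : m ≤ E) (s : S) (Rg : Set G)
    (hR : ∀ m' i, m0 ≤ m' → m' ≤ m → i ≤ C.h m' s → C.Z m' s i ∈ Rg)
    (hag : ∀ m' i, m0 ≤ m' → m' ≤ m → i ≤ C.h m' s → F'.H (C.Z m' s i) = F.H (C.Z m' s i)) (i : ℕ) (hi : i ≤ C.h m s) :
    H22.Cn F'.Ed Rg (C.Z m0 s 0) (C.Z m s i) := by
  have hline : ∀ m', m0 ≤ m' → m' ≤ m → ∀ i, i ≤ C.h m' s → H22.Cn F'.Ed Rg (C.Z m' s 0) (C.Z m' s i) := by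
    intro m' h1 h2 i
    induction i with
    | zero => intro _; exact Relation.ReflTransGen.refl
    | succ i ih =>
      intro hi
      refine (ih (by omega)).tail ⟨?_, hR m' i h1 h2 (by omega), hR m' (i + 1) h1 h2 hi⟩
      obtain ⟨g, hg, e⟩ := H.line m' s i (by omega) (by omega)
      exact ⟨g, by rw [hag m' i h1 h2 (by omega)]; exact hg, e⟩
  obtain ⟨j, rfl⟩ := Nat.exists_eq_add_of_le hm
  have key : ∀ j', j' ≤ j → H22.Cn F'.Ed Rg (C.Z m0 s 0) (C.Z (m0 + j') s 0) := by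
    intro j'
    induction j' with
    | zero => intro _; exact Relation.ReflTransGen.refl
    | succ j' ih =>
      intro hj
      refine ((ih (by omega)).trans (hline (m0 + j') (by omega) (by omega) _ le_rfl)).tail
        ⟨?_, hR _ _ (by omega) (by omega) le_rfl, hR _ _ (by omega) (by omega) (Nat.zero_le _)⟩
      obtain ⟨g, hg, e⟩ := H.gate (m0 + j') s (by omega)
      exact ⟨g, by rw [hag _ _ (by omega) (by omega) le_rfl]; exact hg, e⟩
  exact (key j le_rfl).trans (hline _ hm le_rfl i hi)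

/-- PAD. -/
theorem pad {m0 n0 n m1 : ℕ} (h0 : m0 ≤ n0) (h01 : n0 ≤ n) (h1 : n ≤ m1) (hE : m1 ≤ E)
    (hag : ∀ x, x ∉ C.reg n0 n → F'.H x = F.H x) {d : S × Bool → S × Bool}
    (hr : H22.Real F'.Ed (C.reg n0 n) (fun s => C.Z n0 s 0) (fun s => C.Z n s (C.h n s)) d) :
    H22.Real F'.Ed (C.reg m0 m1) (fun s => C.Z m0 s 0) (fun s => C.Z m1 s (C.h m1 s)) d := by
  have hsub : C.reg n0 n ⊆ C.reg m0 m1 := by
    rintro x ⟨m, h2, h3, h4⟩
    exact ⟨m, by omega, by omega, h4⟩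
  have hmem : ∀ m s i, m0 ≤ m → m ≤ m1 → i ≤ C.h m s → C.Z m s i ∈ C.reg m0 m1 := fun m s i h2 h3 h4 =>
    ⟨m, h2, h3, C.mem h4⟩
  have hout : ∀ m s i, m ≤ E → i ≤ C.h m s → (m < n0 ∨ n < m) → F'.H (C.Z m s i) = F.H (C.Z m s i) := by
    intro m s i h2 h3 h4
    apply hag
    rintro ⟨m', h5, h6, s', i', h7, h8⟩
    have := (H.inj _ _ _ _ _ _ h2 (by omega) h3 h7 h8).1
    omega
  -- the lower part
  have hlow : ∀ s, H22.Cn F'.Ed (C.reg m0 m1) (C.Z m0 s 0) (C.Z n0 s 0) := by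
    intro s
    rcases Nat.lt_or_ge m0 n0 with h2 | h2
    · have h3 := H.up_cn (F' := F') (m0 := m0) (m := n0 - 1) (by omega) (by omega) s (C.reg m0 m1)
        (fun m' i a1 a2 a3 => hmem m' s i a1 (by omega) a3) (fun m' i a1 a2 a3 => hout m' s i (by omega) a3 (by omega)) _ le_rfl
      refine h3.tail ⟨?_, hmem _ _ _ (by omega) (by omega) le_rfl, hmem _ _ _ (by omega) (by omega) (Nat.zero_le _)⟩
      obtain ⟨g, hg, e⟩ := H.gate (n0 - 1) s (by omega)
      rw [show n0 - 1 + 1 = n0 by omega] at e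
      exact ⟨g, by rw [hout (n0 - 1) s _ (by omega) le_rfl (by omega)]; exact hg, e⟩
    · have : m0 = n0 := le_antisymm h0 h2
      rw [this]
      exact Relation.ReflTransGen.refl
  -- the upper part
  have hup : ∀ m s i, n < m → m ≤ m1 → i ≤ C.h m s →
      H22.Cn F'.Ed (C.reg m0 m1) (C.Z n s (C.h n s)) (C.Z m s i) := by
    intro m s i a1 a2 a3
    refine H22.Cn.trans' (H22.Cn.of ?_ (hmem _ _ _ (by omega) (by omega) le_rfl)
      (hmem (n + 1) _ _ (by omega) (by omega) (Nat.zero_le _))) (H.up_cn (F' := F') (m0 := n + 1) (m := m) (by omega) (by omega) s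
      (C.reg m0 m1) (fun m' i b1 b2 b3 => hmem m' s i (by omega) (by omega) b3)
      (fun m' i b1 b2 b3 => hout m' s i (by omega) b3 (by omega)) i a3)
    apply F'.ed_symm
    obtain ⟨g, hg, e⟩ := F.ed_symm (H.gate n s (by omega))
    exact ⟨g, by rw [hout (n + 1) s 0 (by omega) (Nat.zero_le _) (by omega)]; exact hg, e⟩
  have hsy : ∀ x y, F'.Ed x y → F'.Ed y x := fun x y h => F'.ed_symm h
  -- the ends
  have hend : ∀ p : S × Bool, H22.Cn F'.Ed (C.reg m0 m1)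
      (H22.pt (fun s => C.Z n0 s 0) (fun s => C.Z n s (C.h n s)) p)
      (H22.pt (fun s => C.Z m0 s 0) (fun s => C.Z m1 s (C.h m1 s)) p) := by
    rintro ⟨s, _ | _⟩
    · rw [H22.pt_lo, H22.pt_lo]
      exact (hlow s).symm' hsy
    · rw [H22.pt_up, H22.pt_up]
      rcases Nat.lt_or_ge n m1 with h2 | h2
      · exact hup m1 s _ h2 le_rfl le_rfl
      · have : n = m1 := le_antisymm h1 h2
        rw [this]
        exact Relation.ReflTransGen.refl
  refine ⟨fun s => hmem _ _ _ le_rfl (by omega) (Nat.zero_le _), fun s => hmem _ _ _ (by omega) le_rfl le_rfl, ?_, ?_⟩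
  · intro p
    refine ((hend p).symm' hsy).trans' (((hr.con p).mono hsub fun _ _ _ _ h => h).trans' (hend (d p)))
  · rintro x ⟨m, h2, h3, s, i, h4, rfl⟩
    rcases Nat.lt_or_ge m n0 with h5 | h5
    · refine ⟨(s, false), ?_⟩
      rw [H22.pt_lo]
      exact (H.up_cn (F' := F') h2 (by omega) s (C.reg m0 m1) (fun m' i a1 a2 a3 => hmem m' s i a1 (by omega) a3)
        (fun m' i a1 a2 a3 => hout m' s i (by omega) a3 (by omega)) i h4).symm' hsy
    · rcases Nat.lt_or_ge n m with h6 | h6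
      · refine ⟨(s, true), ?_⟩
        refine ((hup m s i h6 h3 h4).symm' hsy).trans' ?_
        have := hend (s, true)
        rw [H22.pt_up] at this
        exact this
      · obtain ⟨p, hp⟩ := hr.all _ ⟨m, h5, h6, s, i, h4, rfl⟩
        exact ⟨p, (hp.mono hsub fun _ _ _ _ h => h).trans' (hend p)⟩

/-- The unchanged 2-factor realises `idd`. -/
theorem real_idd {m0 m1 : ℕ} (h0 : m0 ≤ m1) (hE : m1 ≤ E) :
    H22.Real F.Ed (C.reg m0 m1) (fun s => C.Z m0 s 0) (fun s => C.Z m1 s (C.h m1 s)) idd := by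
  have hsy : ∀ x y, F.Ed x y → F.Ed y x := fun x y h => F.ed_symm h
  have hmem : ∀ m s i, m0 ≤ m → m ≤ m1 → i ≤ C.h m s → C.Z m s i ∈ C.reg m0 m1 := fun m s i h2 h3 h4 =>
    ⟨m, h2, h3, C.mem h4⟩
  have hup : ∀ m s i, m0 ≤ m → m ≤ m1 → i ≤ C.h m s → H22.Cn F.Ed (C.reg m0 m1) (C.Z m0 s 0) (C.Z m s i) := by
    intro m s i a1 a2 a3
    exact H.up_cn (F' := F) a1 (by omega) s (C.reg m0 m1) (fun m' i b1 b2 b3 => hmem m' s i b1 (by omega) b3)
      (fun _ _ _ _ _ => rfl) i a3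
  refine ⟨fun s => hmem _ _ _ le_rfl (by omega) (Nat.zero_le _), fun s => hmem _ _ _ (by omega) le_rfl le_rfl, ?_, ?_⟩
  · rintro ⟨s, _ | _⟩
    · show H22.Cn F.Ed _ (H22.pt _ _ (s, false)) (H22.pt _ _ (s, true))
      rw [H22.pt_lo, H22.pt_up]
      exact hup m1 s _ h0 le_rfl le_rfl
    · show H22.Cn F.Ed _ (H22.pt _ _ (s, true)) (H22.pt _ _ (s, false))
      rw [H22.pt_lo, H22.pt_up]
      exact (hup m1 s _ h0 le_rfl le_rfl).symm' hsy
  · rintro x ⟨m, h2, h3, s, i, h4, rfl⟩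
    refine ⟨(s, false), ?_⟩
    rw [H22.pt_lo]
    exact (hup m s i h2 h3 h4).symm' hsy

end RnF

namespace Rgs

variable {F : HF B} {R : Type w} {S : R → Type t} {n : R → ℕ} (X : Rgs F R S n)

/-- Diagrams which are realised in a part of every layer. -/
theorem realL_of {A : Set G} {𝒟 : ∀ r, Set (S r × Bool → S r × Bool)} (hA : ∀ d : F.X, B.q d.1.2 ∈ A)
    (h : ∀ a : (Σ r, Fin (n r)), ∀ d ∈ 𝒟 a.1, d = idd ∨ ∃ (F' : HF B) (n0 n1 : ℕ), X.bs a + 1 ≤ n0 ∧ n0 ≤ n1 ∧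
      n1 ≤ X.bs a + X.l a.1 ∧ (∀ x, x ∉ (X.C a.1).reg n0 n1 → F'.H x = F.H x) ∧
      (∀ x ∈ (X.C a.1).reg n0 n1, ∀ g ∈ F'.H x, B.q g ∈ A) ∧
      H22.Real F'.Ed ((X.C a.1).reg n0 n1) (fun s => (X.C a.1).Z n0 s 0)
        (fun s => (X.C a.1).Z n1 s ((X.C a.1).h n1 s)) d) : X.RealL A 𝒟 := by
  intro a d hd
  have hb := X.bs_lt a
  have hl := X.hl a.1
  rcases h a d hd with rfl | ⟨F', n0, n1, h1, h2, h3, h4, h5, h6⟩
  · exact ⟨F, fun _ _ => rfl, fun x _ g hg => hA ⟨(x, g), hg⟩, (X.run a.1).real_idd (by omega) (by omega)⟩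
  · refine ⟨F', fun x hx => h4 x fun h => hx ?_, fun x _ g hg => ?_, (X.run a.1).pad h1 h2 h3 (by omega) h4 h6⟩
    · obtain ⟨m, a1, a2, a3⟩ := h
      exact ⟨m, by omega, by omega, a3⟩
    · by_cases h7 : x ∈ (X.C a.1).reg n0 n1
      · exact h5 x h7 g hg
      · exact hA ⟨(x, g), by rw [← h4 x h7]; exact hg⟩

end Rgs

end Pool.Agent.Lib.MP_688fd0_co.SQ5.H95
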