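import Pool.Agent.Lib.MP_688fd0_co.SQ5.H95.Pad

/-!
PERIOD: periodic charts: all layers are left translates of the layer 0; the diagrams realised in the layer 0 are realised in
every layer.
-/

set_option autoImplicit false

namespace Pool.Agent.Lib.MP_688fd0_co.SQ5.H95

open Function Pool.Agent.Lib.MP_688fd0_co.OSF H64

universe u v w t

variable {G : Type u} [Group G] {B : Lb.{u, v} G}

/-- The translation of a changed 2-factor. -/
theorem HF.translate (F F' : HF B) (Z0 : Set G) (u : G) (hag : ∀ x, x ∉ Z0 → F'.H x = F.H x)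
    (hF : ∀ x ∈ Z0, F.H (u * x) = F.H x) : ∃ F'' : HF B, (∀ x, u⁻¹ * x ∉ Z0 → F''.H x = F.H x) ∧
      ∀ x ∈ Z0, F''.H (u * x) = F'.H x := by
  classical
  have hF' : ∀ x, u⁻¹ * x ∈ Z0 → F.H x = F.H (u⁻¹ * x) := by
    intro x hx
    have := hF _ hx
    rw [mul_inv_cancel_left] at this
    exact this
  refine ⟨{ H := fun x => if u⁻¹ * x ∈ Z0 then F'.H (u⁻¹ * x) else F.H x, ex := ?_, sym := ?_, ii := F.ii }, ?_, ?_⟩
  · intro x
    by_cases h : u⁻¹ * x ∈ Z0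
    · simp only [h, if_true]
      exact F'.ex _
    · simp only [h, if_false]
      exact F.ex _
  · intro x g hg
    have e : u⁻¹ * (x * B.q g) = u⁻¹ * x * B.q g := by rw [mul_assoc]
    have e1 : ∀ z : G, z * B.q g * B.q (B.inv g) = z := fun z => by rw [B.q_inv, mul_inv_cancel_right]
    by_cases h : u⁻¹ * x ∈ Z0
    · simp only [h, if_true] at hg
      by_cases h' : u⁻¹ * (x * B.q g) ∈ Z0
      · simp only [h', if_true]
        rw [e]
        exact F'.sym _ _ hg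
      · simp only [h', if_false]
        rw [e] at h'
        have h1 := F'.sym _ _ hg
        rw [hag _ h'] at h1
        have h2 := F.sym _ _ h1
        rw [F.ii, e1] at h2
        apply F.sym
        rw [hF' x h]
        exact h2
    · simp only [h, if_false] at hg
      by_cases h' : u⁻¹ * (x * B.q g) ∈ Z0
      · simp only [h', if_true]
        have h1 := F.sym _ _ hg
        rw [hF' _ h', e] at h1
        have h2 := F.sym _ _ h1
        rw [F.ii, e1] at h2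
        rw [e]
        apply F'.sym
        rw [hag _ h]
        exact h2
      · simp only [h', if_false]
        exact F.sym _ _ hg
  · intro x hx
    show (if u⁻¹ * x ∈ Z0 then F'.H (u⁻¹ * x) else F.H x) = _
    rw [if_neg hx]
  · intro x hx
    show (if u⁻¹ * (u * x) ∈ Z0 then F'.H (u⁻¹ * (u * x)) else F.H (u * x)) = _
    rw [inv_mul_cancel_left, if_pos hx]

namespace Rgs

variable {F : HF B} {R : Type w} {S : R → Type t} {n : R → ℕ} (X : Rgs F R S n)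

/-- The diagrams which are realised in the layer 0. -/
def D0 (A : Set G) (r : R) : Set (S r × Bool → S r × Bool) :=
  {d | IsPair d ∧ ∃ (F' : HF B) (n0 n1 : ℕ), 1 ≤ n0 ∧ n0 ≤ n1 ∧ n1 ≤ X.l r ∧
    (∀ x, x ∉ (X.C r).reg n0 n1 → F'.H x = F.H x) ∧ (∀ x ∈ (X.C r).reg n0 n1, ∀ g ∈ F'.H x, B.q g ∈ A) ∧
    H22.Real F'.Ed ((X.C r).reg n0 n1) (fun s => (X.C r).Z n0 s 0) (fun s => (X.C r).Z n1 s ((X.C r).h n1 s)) d}

theorem D0_pair {A : Set G} (r : R) (d : S r × Bool → S r × Bool) (hd : d ∈ X.D0 A r) : IsPair d := hd.1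

theorem idd_D0 {A : Set G} (hA : ∀ d : F.X, B.q d.1.2 ∈ A) (r : R) : idd ∈ X.D0 A r := by
  have h1 := X.hl r
  have h2 := X.hn r
  have h3 : X.l r + 1 ≤ n r * (X.l r + 1) := Nat.le_mul_of_pos_left _ h2
  exact ⟨idd_pair, F, 1, 1, le_rfl, le_rfl, h1, fun _ _ => rfl, fun x _ g hg => hA ⟨(x, g), hg⟩,
    (X.run r).real_idd le_rfl (by omega)⟩

/-- Periodic charts. -/
structure Per (U : R → G) : Prop where
  h : ∀ r m s, m + (X.l r + 1) ≤ n r * (X.l r + 1) → (X.C r).h (m + (X.l r + 1)) s = (X.C r).h m s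
  Z : ∀ r m s i, m + (X.l r + 1) ≤ n r * (X.l r + 1) → i ≤ (X.C r).h m s →
    (X.C r).Z (m + (X.l r + 1)) s i = U r * (X.C r).Z m s i
  H : ∀ r m s i, m + (X.l r + 1) ≤ n r * (X.l r + 1) → i ≤ (X.C r).h m s →
    F.H ((X.C r).Z (m + (X.l r + 1)) s i) = F.H ((X.C r).Z m s i)

variable {X} {U : R → G}

theorem Per.iter (hp : X.Per U) (r : R) (m : ℕ) (s : S r) (k : ℕ) (hk : k * (X.l r + 1) + m ≤ n r * (X.l r + 1)) :
    (X.C r).h (k * (X.l r + 1) + m) s = (X.C r).h m s ∧ ∀ i ≤ (X.C r).h m s,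
      (X.C r).Z (k * (X.l r + 1) + m) s i = U r ^ k * (X.C r).Z m s i ∧
      F.H ((X.C r).Z (k * (X.l r + 1) + m) s i) = F.H ((X.C r).Z m s i) := by
  induction k with
  | zero =>
    have e : 0 * (X.l r + 1) + m = m := by rw [Nat.zero_mul, Nat.zero_add]
    rw [e]
    exact ⟨rfl, fun i _ => ⟨by rw [pow_zero, one_mul], rfl⟩⟩
  | succ k ih =>
    have e : (k + 1) * (X.l r + 1) + m = k * (X.l r + 1) + m + (X.l r + 1) := by ring
    rw [e] at hk ⊢
    obtain ⟨h1, h2⟩ := ih (by omega)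
    refine ⟨(hp.h r _ s hk).trans h1, fun i hi => ?_⟩
    obtain ⟨h3, h4⟩ := h2 i hi
    rw [← h1] at hi
    refine ⟨?_, ?_⟩
    · rw [hp.Z r _ s i hk hi, h3, ← mul_assoc, ← pow_succ']
    · rw [hp.H r _ s i hk hi, h4]

/-- All layers realise the diagrams of the layer 0. -/
theorem Per.realL (hp : X.Per U) {A : Set G} (hA : ∀ d : F.X, B.q d.1.2 ∈ A) : X.RealL A (X.D0 A) := by
  rintro ⟨r, k⟩ d hd
  have hd : d ∈ X.D0 A r := hd
  obtain ⟨hd0, F', n0, n1, h1, h2, h3, h4, h5, h6⟩ := hd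
  have hlt := X.bs_lt ⟨r, k⟩
  have hlt : k.1 * (X.l r + 1) + X.l r + 1 ≤ n r * (X.l r + 1) := hlt
  have hE : X.l r ≤ n r * (X.l r + 1) := by omega
  have hreal := (X.run r).pad (m0 := 1) (m1 := X.l r) h1 h2 h3 hE h4 h6
  have hl := X.hl r
  -- positions of the layer 0
  have it := fun (m : ℕ) (s : S r) (hm : m ≤ X.l r) => hp.iter r m s k.1 (by omega)
  set u := U r ^ k.1 with hu
  have hF : ∀ x ∈ (X.C r).reg 1 (X.l r), F.H (u * x) = F.H x := by
    rintro x ⟨m, a1, a2, s, i, a3, rfl⟩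
    obtain ⟨b1, b2⟩ := it m s a2
    obtain ⟨b3, b4⟩ := b2 i a3
    rw [← b3]
    exact b4
  have hsub : (X.C r).reg n0 n1 ⊆ (X.C r).reg 1 (X.l r) := by
    rintro x ⟨m, a1, a2, a3⟩
    exact ⟨m, by omega, by omega, a3⟩
  obtain ⟨F'', g1, g2⟩ := HF.translate F F' ((X.C r).reg 1 (X.l r)) u (fun x hx => h4 x fun h => hx (hsub h)) hF
  have hmem : ∀ x, x ∈ X.ZL ⟨r, k⟩ ↔ u⁻¹ * x ∈ (X.C r).reg 1 (X.l r) := by
    intro x
    constructor
    · rintro ⟨m, a1, a2, s, i, a3, rfl⟩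
      have a1 : k.1 * (X.l r + 1) + 1 ≤ m := a1
      have a2 : m ≤ k.1 * (X.l r + 1) + X.l r := a2
      have a3 : i ≤ (X.C r).h m s := a3
      obtain ⟨m', rfl⟩ : ∃ m', m = k.1 * (X.l r + 1) + m' := ⟨m - k.1 * (X.l r + 1), by omega⟩
      obtain ⟨b1, b2⟩ := it m' s (by omega)
      rw [b1] at a3
      have a4 : u⁻¹ * (X.C r).Z (k.1 * (X.l r + 1) + m') s i = (X.C r).Z m' s i := by
        rw [(b2 i a3).1, inv_mul_cancel_left]
      exact ⟨m', by omega, by omega, s, i, a3, a4⟩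
    · rintro ⟨m', a1, a2, s, i, a3, a4⟩
      obtain ⟨b1, b2⟩ := it m' s a2
      refine ⟨k.1 * (X.l r + 1) + m', ?_, ?_, s, i, ?_, ?_⟩
      · show k.1 * (X.l r + 1) + 1 ≤ _
        omega
      · show _ ≤ k.1 * (X.l r + 1) + X.l r
        omega
      · show i ≤ (X.C r).h (k.1 * (X.l r + 1) + m') s
        rw [b1]; exact a3
      · show x = (X.C r).Z (k.1 * (X.l r + 1) + m') s i
        rw [(b2 i a3).1, ← a4, mul_inv_cancel_left]
  have hEd : ∀ x y, x ∈ (X.C r).reg 1 (X.l r) → F'.Ed x y → F''.Ed (u * x) (u * y) := by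
    rintro x y hx ⟨g, hg, rfl⟩
    exact ⟨g, by rw [g2 x hx]; exact hg, by rw [mul_assoc]⟩
  have hCn : ∀ x y, H22.Cn F'.Ed ((X.C r).reg 1 (X.l r)) x y → H22.Cn F''.Ed (X.ZL ⟨r, k⟩) (u * x) (u * y) := by
    intro x y h
    induction h with
    | refl => exact Relation.ReflTransGen.refl
    | tail _ hs ih =>
      exact ih.tail ⟨hEd _ _ hs.2.1 hs.1, (hmem _).2 (by rw [inv_mul_cancel_left]; exact hs.2.1),
        (hmem _).2 (by rw [inv_mul_cancel_left]; exact hs.2.2)⟩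
  have hlo : ∀ s : S r, (X.C r).Z (X.bs ⟨r, k⟩ + 1) s 0 = u * (X.C r).Z 1 s 0 := fun s =>
    ((it 1 s hl).2 0 (Nat.zero_le _)).1
  have hup : ∀ s : S r, (X.C r).Z (X.bs ⟨r, k⟩ + X.l r) s ((X.C r).h (X.bs ⟨r, k⟩ + X.l r) s) =
      u * (X.C r).Z (X.l r) s ((X.C r).h (X.l r) s) := by
    intro s
    obtain ⟨b1, b2⟩ := it (X.l r) s le_rfl
    have b1' : (X.C r).h (X.bs ⟨r, k⟩ + X.l r) s = (X.C r).h (X.l r) s := b1
    rw [b1']
    exact (b2 _ le_rfl).1
  have hpt : ∀ p : S r × Bool, H22.pt (fun s => (X.C r).Z (X.bs ⟨r, k⟩ + 1) s 0)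
      (fun s => (X.C r).Z (X.bs ⟨r, k⟩ + X.l r) s ((X.C r).h (X.bs ⟨r, k⟩ + X.l r) s)) p =
      u * H22.pt (fun s => (X.C r).Z 1 s 0) (fun s => (X.C r).Z (X.l r) s ((X.C r).h (X.l r) s)) p := by
    rintro ⟨s, _ | _⟩
    · rw [H22.pt_lo, H22.pt_lo]; exact hlo s
    · rw [H22.pt_up, H22.pt_up]; exact hup s
  refine ⟨F'', fun x hx => g1 x fun h => hx ((hmem x).2 h), fun x hx g hg => ?_, ?_⟩
  · have hx' := (hmem x).1 hx
    have e : x = u * (u⁻¹ * x) := by rw [mul_inv_cancel_left]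
    rw [e, g2 _ hx'] at hg
    by_cases h7 : u⁻¹ * x ∈ (X.C r).reg n0 n1
    · exact h5 _ h7 g hg
    · rw [h4 _ h7] at hg
      exact hA ⟨(_, g), hg⟩
  · refine ⟨fun s => ?_, fun s => ?_, fun p => ?_, fun x hx => ?_⟩
    · show (X.C r).Z (X.bs ⟨r, k⟩ + 1) s 0 ∈ _
      rw [hlo]
      exact (hmem _).2 (by rw [inv_mul_cancel_left]; exact hreal.mlo s)
    · show (X.C r).Z (X.bs ⟨r, k⟩ + X.l r) s ((X.C r).h (X.bs ⟨r, k⟩ + X.l r) s) ∈ _
      rw [hup]
      exact (hmem _).2 (by rw [inv_mul_cancel_left]; exact hreal.mup s)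
    · have := hCn _ _ (hreal.con p)
      rw [← hpt, ← hpt] at this
      exact this
    · obtain ⟨p, hpp⟩ := hreal.all _ ((hmem x).1 hx)
      refine ⟨p, ?_⟩
      have := hCn _ _ hpp
      rw [← hpt, mul_inv_cancel_left] at this
      exact this

end Rgs

end Pool.Agent.Lib.MP_688fd0_co.SQ5.H95
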