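import Pool.Agent.Lib.MP_688fd0_co.SQ3.Cls

/-!
RING: a cyclic system of directed label paths whose source lists cover the group once is a tour with classes.
-/

set_option autoImplicit false

namespace Pool.Agent.Lib.MP_688fd0_co.SQ5.H95

open Pool.Agent.Lib.MP_688fd0_co.OSF Pool.Agent.Lib.MP_688fd0_co.SQ2 Pool.Agent.Lib.MP_688fd0_co.SQ3

universe u v w

variable {Q : Type u} [Group Q] {B : Lb.{u, v} Q}

theorem src_length (x : Q) (l : List B.L) : (src B x l).length = l.length := by
  induction l generalizing x with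
  | nil => rfl
  | cons g l ih => exact congrArg (· + 1) (ih _)

theorem src_get (x : Q) (l : List B.L) (j : ℕ) (h : j < (src B x l).length) :
    (src B x l)[j] = B.fin x (l.take j) := by
  induction l generalizing x j with
  | nil => exact absurd h (Nat.not_lt_zero _)
  | cons g l ih =>
    cases j with
    | zero => rfl
    | succ j => exact ih _ j (Nat.lt_of_succ_lt_succ h)

theorem src_ofFn (x : Q) (l : List B.L) :
    src B x l = List.ofFn fun j : Fin l.length => B.fin x (l.take j) := by
  refine List.ext_getElem ?_ ?_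
  · rw [src_length, List.length_ofFn]
  · intro j h1 h2
    rw [src_get, List.getElem_ofFn]

/-- The volume as a sum over positions. -/
theorem vol_sum {R : Type w} [CommRing R] (V : Vd B R) (x : Q) (l : List B.L) :
    V.vol x l = ∑ j : Fin l.length, V.chi (B.fin x (l.take j)) * V.n (l.get j) := by
  induction l generalizing x with
  | nil => rfl
  | cons g l ih =>
    show V.chi x * V.n g + V.vol (x * B.q g) l =
      ∑ j : Fin (l.length + 1), V.chi (B.fin x ((g :: l).take j)) * V.n ((g :: l).get j)
    rw [Fin.sum_univ_succ, ih]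
    rfl

/-- The directed path system. -/
theorem ring [Fintype Q] {ι : Type w} [Fintype ι] (σ : Equiv.Perm ι) (a : ι → Q) (l : ι → List B.L)
    (hne : ∀ i, l i ≠ []) (hfin : ∀ i, B.fin (a i) (l i) = a (σ i))
    (hcov : ∑ i, (src B (a i) (l i) : Multiset Q) = Finset.univ.val) {K : Type*} [DecidableEq K] (κ : ι → K)
    (hκ : ∀ i, κ (σ i) = κ i) (htr : ∀ i j, κ i = κ j → ∃ n : ℕ, (⇑σ)^[n] i = j) :
    ∃ U : TourS B K, (∀ i, U.cls (a i) = κ i) ∧ (∀ x, ∃ i, U.cls x = κ i) ∧
      (∀ i (j : Fin (l i).length), U.lab (B.fin (a i) ((l i).take j)) = (l i).get j) ∧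
      ∀ {R : Type*} [CommRing R] (V : Vd B R) (γ : K), U.vol V γ = ∑ i, if κ i = γ then V.vol (a i) (l i) else 0 := by
  classical
  let P : Type w := Σ i, Fin (l i).length
  let pos : P → Q := fun p => B.fin (a p.1) ((l p.1).take p.2)
  have hval : Multiset.map pos (Finset.univ : Finset P).val = Finset.univ.val := by
    rw [← hcov]
    have h1 : Multiset.map pos (Finset.univ : Finset P).val = ∑ p : P, ({pos p} : Multiset Q) := by
      have : ∀ s : Finset P, Multiset.map pos s.val = ∑ p ∈ s, ({pos p} : Multiset Q) := by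
        intro s
        induction s using Finset.induction_on with
        | empty => rfl
        | insert x s hx ih =>
          rw [Finset.sum_insert hx, ← ih, Finset.insert_val_of_notMem hx, Multiset.map_cons,
            Multiset.singleton_add]
      exact this _
    rw [h1, Fintype.sum_sigma]
    refine Finset.sum_congr rfl fun i _ => ?_
    rw [src_ofFn]
    have h2 : ∀ (n : ℕ) (f : Fin n → Q), ((List.ofFn f : List Q) : Multiset Q) = ∑ j, ({f j} : Multiset Q) := by
      intro n
      induction n with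
      | zero => intro f; rw [List.ofFn_zero]; rfl
      | succ n ih =>
        intro f
        rw [List.ofFn_succ, Fin.sum_univ_succ, ← ih, ← Multiset.cons_coe, Multiset.singleton_add]
    exact (h2 _ _).symm
  have hinj : Function.Injective pos := by
    intro p p' h
    have hn : (Multiset.map pos (Finset.univ : Finset P).val).Nodup := by
      rw [hval]; exact Finset.univ.nodup
    exact Multiset.inj_on_of_nodup_map hn p (Finset.mem_univ p) p' (Finset.mem_univ p') h
  have hsur : Function.Surjective pos := by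
    intro x
    have : x ∈ Multiset.map pos (Finset.univ : Finset P).val := by
      rw [hval]; exact Finset.mem_univ x
    obtain ⟨p, _, hp⟩ := Multiset.mem_map.1 this
    exact ⟨p, hp⟩
  let ps : P ≃ Q := Equiv.ofBijective pos ⟨hinj, hsur⟩
  have hps : ∀ p, ps p = pos p := fun _ => rfl
  let lab : Q → B.L := fun x => (l (ps.symm x).1).get (ps.symm x).2
  let cls : Q → K := fun x => κ (ps.symm x).1
  have hsym : ∀ p, ps.symm (pos p) = p := fun p => ps.symm_apply_apply p
  have hlab : ∀ p : P, lab (pos p) = (l p.1).get p.2 := by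
    intro p
    show (l (ps.symm (pos p)).1).get (ps.symm (pos p)).2 = _
    rw [hsym]
  have hcls : ∀ p : P, cls (pos p) = κ p.1 := by
    intro p
    show κ (ps.symm (pos p)).1 = _
    rw [hsym]
  have hlen : ∀ i, 0 < (l i).length := fun i => List.length_pos_of_ne_nil (hne i)
  have ha : ∀ i, a i = pos ⟨i, ⟨0, hlen i⟩⟩ := fun i => rfl
  have hstep : ∀ p : P, pos p * B.q (lab (pos p)) = B.fin (a p.1) ((l p.1).take (p.2 + 1)) := by
    intro p
    rw [hlab, List.take_succ_eq_append_getElem p.2.2, fin_append]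
    rfl
  have hnext : ∀ p : P, (∃ p' : P, p'.1 = p.1 ∧ pos p * B.q (lab (pos p)) = pos p') ∨
      pos p * B.q (lab (pos p)) = a (σ p.1) := by
    intro p
    by_cases h : (p.2 : ℕ) + 1 < (l p.1).length
    · left
      exact ⟨⟨p.1, ⟨p.2 + 1, h⟩⟩, rfl, hstep p⟩
    · right
      rw [hstep, List.take_of_length_le (by omega), hfin]
  -- surjectivity of the step
  have hbs : Function.Surjective fun x => x * B.q (lab x) := by
    intro y
    obtain ⟨p, rfl⟩ := hsur y
    obtain ⟨i, ⟨j, hj⟩⟩ := p
    cases j with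
    | zero =>
      have h1 := hfin (σ.symm i)
      rw [Equiv.apply_symm_apply] at h1
      have hl := hlen (σ.symm i)
      refine ⟨pos ⟨σ.symm i, ⟨(l (σ.symm i)).length - 1, by omega⟩⟩, ?_⟩
      show pos _ * B.q (lab (pos _)) = a i
      rw [hstep]
      show B.fin (a (σ.symm i)) ((l (σ.symm i)).take ((l (σ.symm i)).length - 1 + 1)) = _
      rw [Nat.sub_add_cancel hl, List.take_length, h1]
    | succ j =>
      exact ⟨pos ⟨i, ⟨j, by omega⟩⟩, hstep _⟩
  have hbij : Function.Bijective fun x => x * B.q (lab x) := Finite.surjective_iff_bijective.1 hbs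
  set F : Q → Q := fun x => x * B.q (lab x) with hF
  have hstep' : ∀ x, cls (x * B.q (lab x)) = cls x := by
    intro x
    obtain ⟨p, rfl⟩ := hsur x
    rcases hnext p with ⟨p', h1, h2⟩ | h2
    · rw [h2, hcls, hcls, h1]
    · rw [h2, ha, hcls, hcls, hκ]
  -- reachability
  have rrefl : ∀ x : Q, ∃ n : ℕ, F^[n] x = x := fun x => ⟨0, rfl⟩
  have rtrans : ∀ {x y z : Q}, (∃ n : ℕ, F^[n] x = y) → (∃ n : ℕ, F^[n] y = z) → ∃ n : ℕ, F^[n] x = z := by
    rintro x y z ⟨n, rfl⟩ ⟨m, rfl⟩
    exact ⟨m + n, Function.iterate_add_apply _ _ _ _⟩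
  have rsymm : ∀ {x y : Q}, (∃ n : ℕ, F^[n] x = y) → ∃ n : ℕ, F^[n] y = x := by
    rintro x y ⟨n, rfl⟩
    have h1 : x ∈ Function.periodicPts F := hbij.1.mem_periodicPts x
    have hm := Function.minimalPeriod_pos_of_mem_periodicPts h1
    have hp := Function.iterate_minimalPeriod (f := F) (x := x)
    set m := Function.minimalPeriod F x with hmd
    refine ⟨m * n - n, ?_⟩
    have hn : n ≤ m * n := Nat.le_mul_of_pos_left n hm
    rw [← Function.iterate_add_apply, Nat.sub_add_cancel hn, Function.iterate_mul]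
    have : ∀ k : ℕ, (F^[m])^[k] x = x := by
      intro k
      induction k with
      | zero => rfl
      | succ k ih => rw [Function.iterate_succ_apply', ih, hp]
    exact this n
  have hit : ∀ i (j : ℕ), j ≤ (l i).length → F^[j] (a i) = B.fin (a i) ((l i).take j) := by
    intro i j hj
    induction j with
    | zero => rfl
    | succ j ih =>
      rw [Function.iterate_succ_apply', ih (by omega)]
      exact hstep ⟨i, ⟨j, by omega⟩⟩
  have r0 : ∀ p : P, ∃ n : ℕ, F^[n] (a p.1) = pos p := fun p => ⟨p.2, hit p.1 p.2 p.2.2.le⟩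
  have rσ : ∀ i, ∃ n : ℕ, F^[n] (a i) = a (σ i) := fun i => by
    refine ⟨(l i).length, ?_⟩
    rw [hit i _ le_rfl, List.take_length, hfin]
  have rn : ∀ (n : ℕ) i, ∃ m : ℕ, F^[m] (a i) = a ((⇑σ)^[n] i) := by
    intro n
    induction n with
    | zero => intro i; exact ⟨0, rfl⟩
    | succ n ih =>
      intro i
      rw [Function.iterate_succ_apply]
      exact rtrans (rσ i) (ih (σ i))
  refine ⟨⟨lab, cls, hbij, hstep', ?_⟩, ?_, ?_, ?_, ?_⟩
  · intro x y hxy
    obtain ⟨p, rfl⟩ := hsur x
    obtain ⟨p', rfl⟩ := hsur y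
    rw [hcls, hcls] at hxy
    obtain ⟨n, hn⟩ := htr p.1 p'.1 hxy
    refine rtrans (rsymm (r0 p)) (rtrans (rn n p.1) ?_)
    rw [hn]
    exact r0 p'
  · intro i
    exact hcls ⟨i, ⟨0, hlen i⟩⟩
  · intro x
    exact ⟨(ps.symm x).1, rfl⟩
  · intro i j
    exact hlab ⟨i, j⟩
  · intro R _ V γ
    have h1 : ∀ g : Q → R, ∑ x, g x = ∑ i, ∑ j : Fin (l i).length, g (pos ⟨i, j⟩) := by
      intro g
      rw [← Equiv.sum_comp ps g, ← Fintype.sum_sigma']
      rfl
    show ∑ x, (if cls x = γ then V.chi x * V.n (lab x) else 0) = _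
    rw [h1]
    refine Finset.sum_congr rfl fun i _ => ?_
    by_cases h2 : κ i = γ
    · rw [if_pos h2, vol_sum]
      refine Finset.sum_congr rfl fun j _ => ?_
      rw [hcls, if_pos h2, hlab]
    · rw [if_neg h2]
      refine Finset.sum_eq_zero fun j _ => ?_
      rw [hcls, if_neg h2]

end Pool.Agent.Lib.MP_688fd0_co.SQ5.H95
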