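import Pool.Agent.Lib.MP_688fd0_co.SQ5.H95.Inst
import Pool.Agent.Lib.MP_688fd0_co.SQ5.H66.Act

/-!
RUNSF: `far_core` for the run charts of helper76: `lst_of_runs`. The active strands are those with labels in `[v0, v1]`.
-/

set_option autoImplicit false

namespace Pool.Agent.Lib.MP_688fd0_co.SQ5.H95

open Function Pool.Agent.Lib.MP_688fd0_co.OSF H64 H76
open Pool.Agent.Lib.MP_688fd0_co.SQ3 Pool.Agent.Lib.MP_688fd0_co.SQ5.H58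

universe u v

section inst

variable {L : AddSubgroup (ℤ × ℤ)} {M R : ℕ} {dc : ℕ → ℤ} {spc : ℕ → Prop} {Gr : ℤ} {g : Geo L M R dc spc Gr} {m0 : ℕ}
  {hw : ℤ → ℕ} (H : Geo.Mn g m0 hw)

variable {Q : Type u} [Group Q] {B : Lb.{u, v} Q} {l : L3 → B.L} (c : Cov B l L) (hi : ∀ i, B.inv (l i) = l i)
  (hq : Injective (qq B l)) (hii : ∀ x, B.inv (B.inv x) = x) {κ0 κ1 : ℤ}

theorem inj_l (hq : Injective (qq B l)) : Injective l := fun i j h => hq (congrArg B.q h)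

theorem ff_eq : ff c hi hq hii g = g.F c (inj_l hq) hi hii := by
  have h : (ff c hi hq hii g).H = (g.F c (inj_l hq) hi hii).H := funext fun x => g.mch_hf c (inj_l hq) hi hq hii x
  revert h
  generalize ff c hi hq hii g = F1
  generalize g.F c (inj_l hq) hi hii = F2
  intro h
  cases F1
  cases F2
  cases h
  rfl

theorem ff_A {A : Set Q} (hA : ∀ i, B.q (l i) ∈ A) (d : (ff c hi hq hii g).X) : B.q d.1.2 ∈ A := by
  have h1 := d.2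
  rw [g.mch_hf c (inj_l hq) hi hq hii] at h1
  obtain ⟨i, -, h2⟩ : ∃ i', i' ≠ g.mt c d.1.1 ∧ d.1.2 = l i' := h1
  rw [h2]
  exact hA i

/-- The active strands. -/
def VV (H : Geo.Mn g m0 hw) (κ0 κ1 v0 v1 : ℤ) (z : Zr g) : Set (SS c H κ0 κ1 z) := {s | v0 ≤ s.1.1 ∧ s.1.1 ≤ v1}

end inst

section fin

variable {Q : Type} [Group Q] [Fintype Q] {N C : Subgroup Q} {eps : Q →* ℤˣ} {k P : ℕ} {x : Fin 3 → Q} (Hx : Inv3 eps x)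
  {B : Lb.{0, v} Q} {l : L3 → B.L} {t a b : Fin 3} (hta : t ≠ a) (htb : t ≠ b) (hab : a ≠ b) (ht : B.q (l .t) = x t)
  (ha : B.q (l .a) = x a) (hb : B.q (l .b) = x b)

/-- FAR CORE for run charts. -/
theorem lst_of_runs {cS : ℕ} (hS : Star4S cS) {A : Set Q} (hcl : Subgroup.closure A = ⊤) (hA : ∀ i, B.q (l i) ∈ A)
    (gn : GN N C eps k P) (hi : ∀ i, B.inv (l i) = l i) (hq : Injective (qq B l))
    (hii : ∀ x, B.inv (B.inv x) = x) {e : ℕ} (he : k * Nat.card C ∣ e) (he0 : 1 ≤ e)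
    {M R : ℕ} {dc : ℕ → ℤ} {spc : ℕ → Prop} {Gr : ℤ}
    {g : Geo (Ltc (ct eps (x a * x t)) (ct eps (x b * x t))) M R dc spc Gr} {m0 : ℕ} {hw : ℤ → ℕ}
    (H : Geo.Mn g m0 hw) {κ0 κ1 v0 v1 : ℤ} (h0 : 2 ≤ κ0) (h1 : κ1 ≤ m0) (hp : 2 ≤ 8 * e)
    (hN : ∀ z : Zr g, 8 * e ≤ g.rE z)
    (hc : H66.Chg g) (hG : 64 ≤ Gr) (hdl : ∀ k, k + 1 < R → spc k → g.dl k + 20 ≤ Gr)
    (hsea : ∀ K : ℤ, K % R = R - 1 → ∀ s, (g.P K s - g.P (K + 1) s) % 8 = 0 ∨ (g.P K s - g.P (K + 1) s) % 8 = 3)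
    {c1 c2 : ℕ} (hc1 : c1 ≤ c2) (hc2 : c2 < m0) (hk0 : κ0 ≤ c1 + 1) (hk1 : (c2 : ℤ) + 1 ≤ κ1)
    (hv0 : v0 ≤ c1 + 1) (hv1 : (c2 : ℤ) + 1 ≤ v1)
    (Λ : ∀ z : Zr g, SimpleGraph (VV (Hx.co hta htb hab ht ha hb).cov H κ0 κ1 v0 v1 z))
    (nb mm : Zr g → ℕ)
    (hnb : ∀ z, Nat.card ((Λ z).ConnectedComponent) * nb z ≤ g.rE z / (8 * e)) (hmm : ∀ z, 0 < mm z)
    (hm : ∀ z, (cS * Nat.card (VV (Hx.co hta htb hab ht ha hb).cov H κ0 κ1 v0 v1 z) ^ 2 + 1) * mm z ≤ nb z)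
    (hiso : ∀ z x, ∃ y, (Λ z).Adj x y)
    (h4 : ∀ z x y, (Λ z).Adj x y → Four (Λ z) x ∨ Four (Λ z) y)
    [∀ z : Zr g, DecidableEq (SS (Hx.co hta htb hab ht ha hb).cov H κ0 κ1 z)]
    (hp3 : ∀ z (x y y' : VV (Hx.co hta htb hab ht ha hb).cov H κ0 κ1 v0 v1 z), (Λ z).Adj x y → (Λ z).Adj x y' → y ≠ y' →
      StkT ((inst H (Hx.co hta htb hab ht ha hb).cov hi hq hii κ0 κ1 h0 h1 (8 * e) hp hN).D0 A z) (mm z)
        (p3 x.1 y.1 y'.1))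
    (r₀ : Σ z, Rgs.KC (VV (Hx.co hta htb hab ht ha hb).cov H κ0 κ1 v0 v1) Λ z)
    (hconn : ∀ r, Relation.ReflTransGen
      ((inst H (Hx.co hta htb hab ht ha hb).cov hi hq hii κ0 κ1 h0 h1 (8 * e) hp hN).RAdj
        (VV (Hx.co hta htb hab ht ha hb).cov H κ0 κ1 v0 v1)
        (Rgs.cpC (VV (Hx.co hta htb hab ht ha hb).cov H κ0 κ1 v0 v1) Λ)) r₀ r) : Lst A := by
  classical
  obtain ⟨U, -, -, -, hper⟩ := inst_per Hx hta htb hab ht ha hb gn hi hq hii he he0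
  have : ∀ z : Zr g, Fintype (SS (Hx.co hta htb hab ht ha hb).cov H κ0 κ1 z) := fun z => Fintype.ofFinite _
  refine Rgs.far_core (inst H (Hx.co hta htb hab ht ha hb).cov hi hq hii κ0 κ1 h0 h1 (8 * e) hp hN)
    (VV (Hx.co hta htb hab ht ha hb).cov H κ0 κ1 v0 v1) Λ hS hcl (ff_A _ hi hq hii hA) (hper H h0 h1 hp hN) nb mm hnb hmm
    hm hiso h4 hp3 ?_ r₀ hconn
  intro y
  obtain ⟨z, m, b1, b2, b3, b4, b5⟩ := H66.act H (Hx.co hta htb hab ht ha hb).cov (inj_l hq) hi hii hc hG hdl hsea hc1 hc2 y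
  obtain ⟨S, b6, b7, b8⟩ := b5 κ0 κ1 hk0 hk1
  have hz := hN ⟨z, b1, b2⟩
  refine ⟨⟨z, b1, b2⟩, m, S, 0, ⟨hv0.trans b6, b7.trans hv1⟩, ?_, Nat.zero_le _, ?_⟩
  · show m ≤ g.rE z / (8 * e) * (8 * e - 1 + 1)
    have h2 : 1 ≤ g.rE z / (8 * e) := Nat.div_pos hz (by omega)
    have h3 : 1 * (8 * e - 1 + 1) ≤ g.rE z / (8 * e) * (8 * e - 1 + 1) := Nat.mul_le_mul_right _ h2
    omega
  · show (ff (Hx.co hta htb hab ht ha hb).cov hi hq hii g).C y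
      (((H.bd z).chart (Hx.co hta htb hab ht ha hb).cov (g.rs z) κ0 κ1).Z m S 0)
    rw [ff_eq]
    exact b8

end fin

end Pool.Agent.Lib.MP_688fd0_co.SQ5.H95
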