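import Pool.Agent.Lib.MP_688fd0_co.SQ5.H95.BandsW

/-!
SPLIT: the runs are cut into bands on top of each other; in every band another set of strands is active. `Rgs.core`.
-/

set_option autoImplicit false

namespace Pool.Agent.Lib.MP_688fd0_co.SQ5.H95

open Function Pool.Agent.Lib.MP_688fd0_co.OSF H64
open Pool.Agent.Lib.MP_688fd0_co.SQ4.H49 (Inv gl gl_inv)

universe u v w t

variable {G : Type u} [Group G] {B : Lb.{u, v} G} {F : HF B}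

/-- The shifted chart. -/
def shC {S : Type t} (C : H22.Chart G S) (k : ℕ) : H22.Chart G S where
  Z m s i := C.Z (k + m) s i
  h m s := C.h (k + m) s

theorem RnF.shift {S : Type t} {C : H22.Chart G S} {E : ℕ} (H : RnF F C E) {k E' : ℕ} (h : k + E' ≤ E) :
    RnF F (shC C k) E' where
  hpos m s hm := H.hpos (k + m) s (by omega)
  inj m s r m' s' r' hm hm' hr hr' e := by
    obtain ⟨h1, h2, h3⟩ := H.inj (k + m) s r (k + m') s' r' (by omega) (by omega) hr hr' e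
    exact ⟨by omega, h2, h3⟩
  line m s r hm hr := H.line (k + m) s r (by omega) hr
  gate m s hm := H.gate (k + m) s (by omega)

theorem shC_reg {S : Type t} (C : H22.Chart G S) (k a b : ℕ) : (shC C k).reg a b = C.reg (k + a) (k + b) := by
  ext x
  constructor
  · rintro ⟨m, h1, h2, s, i, h3, h4⟩
    exact ⟨k + m, by omega, by omega, s, i, h3, h4⟩
  · rintro ⟨m, h1, h2, s, i, h3, h4⟩
    obtain ⟨m', rfl⟩ : ∃ m', m = k + m' := ⟨m - k, by omega⟩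
    exact ⟨m', by omega, by omega, s, i, h3, h4⟩

namespace Rgs

variable {Zr : Type w} {S : Zr → Type t} {N : Zr → ℕ} (X : Rgs F Zr S N)

/-- The cutting of the runs. -/
structure Cut (N : Zr → ℕ) (K : Zr → Type w) (nb : Zr → ℕ) where
  ix : ∀ z, K z → ℕ
  inj : ∀ z, Injective (ix z)
  pos : ∀ z, 0 < nb z
  le : ∀ z q, (ix z q + 1) * nb z ≤ N z

variable {K : Zr → Type w} {nb : Zr → ℕ} (Q : Cut N K nb)

/-- The first block of the band. -/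
def of (r : Σ z, K z) : ℕ := Q.ix r.1 r.2 * nb r.1 * (X.l r.1 + 1)

theorem of_le (r : Σ z, K z) : X.of Q r + nb r.1 * (X.l r.1 + 1) ≤ N r.1 * (X.l r.1 + 1) := by
  have h := Nat.mul_le_mul_right (X.l r.1 + 1) (Q.le r.1 r.2)
  have e : (Q.ix r.1 r.2 + 1) * nb r.1 * (X.l r.1 + 1) = X.of Q r + nb r.1 * (X.l r.1 + 1) := by unfold of; ring
  omega

theorem of_mod (r : Σ z, K z) (m : ℕ) : (X.of Q r + m) % (X.l r.1 + 1) = m % (X.l r.1 + 1) := by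
  unfold of
  rw [Nat.mul_comm, Nat.mul_add_mod]

/-- Different bands of one run are on top of each other. -/
theorem of_far {z : Zr} {q q' : K z} (hne : q ≠ q') {m m' : ℕ} (hm : m ≤ nb z * (X.l z + 1)) (h0 : 0 < m')
    (h1 : m' < nb z * (X.l z + 1)) : X.of Q ⟨z, q⟩ + m ≠ X.of Q ⟨z, q'⟩ + m' := by
  have hne' : Q.ix z q ≠ Q.ix z q' := fun h => hne (Q.inj z h)
  have e : ∀ q : K z, X.of Q ⟨z, q⟩ = Q.ix z q * (nb z * (X.l z + 1)) := fun q => by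
    show Q.ix z q * nb z * (X.l z + 1) = _
    ring
  rw [e, e]
  set w := nb z * (X.l z + 1) with hw
  rcases Nat.lt_or_ge (Q.ix z q) (Q.ix z q') with h | h
  · have h2 : (Q.ix z q + 1) * w ≤ Q.ix z q' * w := Nat.mul_le_mul_right _ h
    have h3 : (Q.ix z q + 1) * w = Q.ix z q * w + w := by ring
    omega
  · have h' : Q.ix z q' < Q.ix z q := lt_of_le_of_ne h (Ne.symm hne')
    have h2 : (Q.ix z q' + 1) * w ≤ Q.ix z q * w := Nat.mul_le_mul_right _ h'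
    have h3 : (Q.ix z q' + 1) * w = Q.ix z q' * w + w := by ring
    omega

theorem mod_ne {l m n : ℕ} (h : m % (l + 1) ≠ 0) (hm : m ≤ n * (l + 1)) : 0 < m ∧ m < n * (l + 1) := by
  constructor
  · rcases Nat.eq_zero_or_pos m with h1 | h1
    · rw [h1, Nat.zero_mod] at h
      exact absurd rfl h
    · exact h1
  · refine lt_of_le_of_ne hm fun h1 => h ?_
    rw [h1]
    exact Nat.mul_mod_left _ _

/-- The bands. -/
def split : Rgs F (Σ z, K z) (fun r => S r.1) (fun r => nb r.1) where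
  C r := shC (X.C r.1) (X.of Q r)
  l r := X.l r.1
  hl r := X.hl r.1
  hn r := Q.pos r.1
  run r := (X.run r.1).shift (X.of_le Q r)
  far r r' m s i m' s' i' hne hm hi hm' h0 hi' := by
    obtain ⟨b1, b2⟩ := mod_ne h0 hm'
    have g1 := X.of_le Q r
    have g2 := X.of_le Q r'
    intro e
    by_cases hz : r.1 = r'.1
    · obtain ⟨z, q⟩ := r
      obtain ⟨z', q'⟩ := r'
      have hz : z = z' := hz
      subst hz
      have hq : q ≠ q' := fun h => hne (by rw [h])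
      have hm : m ≤ nb z * (X.l z + 1) := hm
      have hm' : m' ≤ nb z * (X.l z + 1) := hm'
      have b2 : m' < nb z * (X.l z + 1) := b2
      have g1 : X.of Q ⟨z, q⟩ + nb z * (X.l z + 1) ≤ N z * (X.l z + 1) := g1
      have g2 : X.of Q ⟨z, q'⟩ + nb z * (X.l z + 1) ≤ N z * (X.l z + 1) := g2
      have h3 := ((X.run z).inj _ _ _ _ _ _ (by omega) (by omega) hi hi' e).1
      exact X.of_far Q hq hm b1 b2 h3
    · refine X.far r.1 r'.1 (X.of Q r + m) s i (X.of Q r' + m') s' i' hz (by omega) hi (by omega) ?_ hi' e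
      rw [X.of_mod]
      exact h0

theorem bs_split (r : Σ z, K z) (k : Fin (nb r.1)) (h : Q.ix r.1 r.2 * nb r.1 + k.1 < N r.1) :
    X.of Q r + (X.split Q).bs ⟨r, k⟩ = X.bs ⟨r.1, ⟨Q.ix r.1 r.2 * nb r.1 + k.1, h⟩⟩ := by
  show Q.ix r.1 r.2 * nb r.1 * (X.l r.1 + 1) + k.1 * (X.l r.1 + 1) = (Q.ix r.1 r.2 * nb r.1 + k.1) * (X.l r.1 + 1)
  ring

theorem realL_split {A : Set G} {𝒟 : ∀ z, Set (S z × Bool → S z × Bool)} (h : X.RealL A 𝒟) :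
    (X.split Q).RealL A (fun r => 𝒟 r.1) := by
  rintro ⟨r, k⟩ d hd
  have hlt : Q.ix r.1 r.2 * nb r.1 + k.1 < N r.1 := by
    have h1 := Q.le r.1 r.2
    have h2 : k.1 < nb r.1 := k.2
    have h3 : (Q.ix r.1 r.2 + 1) * nb r.1 = Q.ix r.1 r.2 * nb r.1 + nb r.1 := by ring
    omega
  have e := X.bs_split Q r k hlt
  obtain ⟨F', h1, h2, h3⟩ := h ⟨r.1, ⟨Q.ix r.1 r.2 * nb r.1 + k.1, hlt⟩⟩ d hd
  have eZ : (X.split Q).ZL ⟨r, k⟩ = X.ZL ⟨r.1, ⟨Q.ix r.1 r.2 * nb r.1 + k.1, hlt⟩⟩ := by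
    show (shC (X.C r.1) (X.of Q r)).reg ((X.split Q).bs ⟨r, k⟩ + 1) ((X.split Q).bs ⟨r, k⟩ + X.l r.1) =
      (X.C r.1).reg (X.bs ⟨r.1, ⟨Q.ix r.1 r.2 * nb r.1 + k.1, hlt⟩⟩ + 1)
        (X.bs ⟨r.1, ⟨Q.ix r.1 r.2 * nb r.1 + k.1, hlt⟩⟩ + X.l r.1)
    rw [shC_reg, ← e, Nat.add_assoc, Nat.add_assoc]
  refine ⟨F', fun x hx => h1 x (by rw [← eZ]; exact hx), fun x hx => h2 x (by rw [← eZ]; exact hx), ?_⟩
  rw [eZ]
  have e1 : (fun s => ((X.split Q).C r).Z ((X.split Q).bs ⟨r, k⟩ + 1) s 0) =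
      fun s => (X.C r.1).Z (X.bs ⟨r.1, ⟨Q.ix r.1 r.2 * nb r.1 + k.1, hlt⟩⟩ + 1) s 0 := by
    funext s
    show (X.C r.1).Z (X.of Q r + ((X.split Q).bs ⟨r, k⟩ + 1)) s 0 = _
    rw [← e, Nat.add_assoc]
  have e2 : (fun s => ((X.split Q).C r).Z ((X.split Q).bs ⟨r, k⟩ + (X.split Q).l r) s
      (((X.split Q).C r).h ((X.split Q).bs ⟨r, k⟩ + (X.split Q).l r) s)) =
      fun s => (X.C r.1).Z (X.bs ⟨r.1, ⟨Q.ix r.1 r.2 * nb r.1 + k.1, hlt⟩⟩ + X.l r.1) s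
        ((X.C r.1).h (X.bs ⟨r.1, ⟨Q.ix r.1 r.2 * nb r.1 + k.1, hlt⟩⟩ + X.l r.1) s) := by
    funext s
    show (X.C r.1).Z (X.of Q r + ((X.split Q).bs ⟨r, k⟩ + X.l r.1)) s
      ((X.C r.1).h (X.of Q r + ((X.split Q).bs ⟨r, k⟩ + X.l r.1)) s) = _
    rw [← e, Nat.add_assoc]
  show H22.Real F'.Ed _ (fun s => ((X.split Q).C r).Z ((X.split Q).bs ⟨r, k⟩ + 1) s 0)
    (fun s => ((X.split Q).C r).Z ((X.split Q).bs ⟨r, k⟩ + (X.split Q).l r) s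
      (((X.split Q).C r).h ((X.split Q).bs ⟨r, k⟩ + (X.split Q).l r) s)) d
  rw [e1, e2]
  exact h3

section act

variable (V : ∀ z, Set (S z)) (cp : ∀ z, V z → K z)

/-- The active strands of the band. -/
def VB (r : Σ z, K z) : Set (S r.1) := {s | ∃ h : s ∈ V r.1, cp r.1 ⟨s, h⟩ = r.2}

/-- The vertices of the strands of `V` in the runs. -/
def ActR (x : G) : Prop :=
  ∃ (z : Zr) (m : ℕ) (s : S z) (i : ℕ), s ∈ V z ∧ 0 < m ∧ m < N z * (X.l z + 1) ∧ i ≤ (X.C z).h m s ∧ x = (X.C z).Z m s i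

theorem act_split {x : G} (h : (X.split Q).Act (VB V cp) x) : ∃ (z : Zr) (s : S z) (hs : s ∈ V z) (m i : ℕ),
    X.of Q ⟨z, cp z ⟨s, hs⟩⟩ < m ∧ m < X.of Q ⟨z, cp z ⟨s, hs⟩⟩ + nb z * (X.l z + 1) ∧ m % (X.l z + 1) ≠ 0 ∧
    i ≤ (X.C z).h m s ∧ x = (X.C z).Z m s i := by
  obtain ⟨⟨⟨z, q⟩, k⟩, s, ⟨hs, hq⟩, m, i, h1, h2, h3, h4⟩ := h
  have hq : cp z ⟨s, hs⟩ = q := hq
  have h5 := (X.split Q).bs_mod ⟨⟨z, q⟩, k⟩ h1 h2
  have h6 := (X.split Q).bs_lt ⟨⟨z, q⟩, k⟩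
  have h1 : (X.split Q).bs ⟨⟨z, q⟩, k⟩ + 1 ≤ m := h1
  have h2 : m ≤ (X.split Q).bs ⟨⟨z, q⟩, k⟩ + X.l z := h2
  have h5 : m % (X.l z + 1) = m - (X.split Q).bs ⟨⟨z, q⟩, k⟩ := h5.1
  have h6 : (X.split Q).bs ⟨⟨z, q⟩, k⟩ + X.l z + 1 ≤ nb z * (X.l z + 1) := h6
  have h7 : (X.of Q ⟨z, q⟩ + m) % (X.l z + 1) = m % (X.l z + 1) := X.of_mod Q ⟨z, q⟩ m
  refine ⟨z, s, hs, X.of Q ⟨z, q⟩ + m, i, ?_, ?_, by omega, h3, h4⟩
  · rw [hq]; omega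
  · rw [hq]; omega

theorem act_split_R {x : G} (h : (X.split Q).Act (VB V cp) x) : X.ActR V x := by
  obtain ⟨z, s, hs, m, i, h1, h2, h3, h4, h5⟩ := X.act_split Q V cp h
  have h6 := X.of_le Q ⟨z, cp z ⟨s, hs⟩⟩
  have h6 : X.of Q ⟨z, cp z ⟨s, hs⟩⟩ + nb z * (X.l z + 1) ≤ N z * (X.l z + 1) := h6
  exact ⟨z, m, s, i, hs, by omega, by omega, h4, h5⟩

/-- A strand outside of its band is not active. -/
theorem not_act {z : Zr} {s : S z} (hs : s ∈ V z) {m i : ℕ} (hm : m ≤ N z * (X.l z + 1)) (hi : i ≤ (X.C z).h m s)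
    (h : m ≤ X.of Q ⟨z, cp z ⟨s, hs⟩⟩ ∨ X.of Q ⟨z, cp z ⟨s, hs⟩⟩ + nb z * (X.l z + 1) ≤ m) :
    ¬ (X.split Q).Act (VB V cp) ((X.C z).Z m s i) := by
  intro hc
  obtain ⟨z', s', hs', m', i', h1, h2, h3, h4, h5⟩ := X.act_split Q V cp hc
  have h6 : X.of Q ⟨z', cp z' ⟨s', hs'⟩⟩ + nb z' * (X.l z' + 1) ≤ N z' * (X.l z' + 1) :=
    X.of_le Q ⟨z', cp z' ⟨s', hs'⟩⟩
  by_cases hz : z = z'
  · subst hz
    obtain ⟨e1, e2, -⟩ := (X.run z).inj _ _ _ _ _ _ hm (by omega) hi h4 h5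
    subst e1 e2
    omega
  · exact X.far z z' m s i m' s' i' hz hm hi (by omega) h3 h4 h5

/-- From the end of the band to the end of the run. -/
theorem pass {z : Zr} {s : S z} (hs : s ∈ V z) (b : Bool) :
    H22.Cn F.Ed {x | ¬ (X.split Q).Act (VB V cp) x} ((X.split Q).ev ⟨z, cp z ⟨s, hs⟩⟩ (s, b)) (X.ev z (s, b)) := by
  have hof : X.of Q ⟨z, cp z ⟨s, hs⟩⟩ + nb z * (X.l z + 1) ≤ N z * (X.l z + 1) := X.of_le Q ⟨z, cp z ⟨s, hs⟩⟩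
  have hsy : ∀ x y, F.Ed x y → F.Ed y x := fun x y h => F.ed_symm h
  cases b
  · show H22.Cn F.Ed _ ((X.C z).Z (X.of Q ⟨z, cp z ⟨s, hs⟩⟩ + 0) s ((X.C z).h (X.of Q ⟨z, cp z ⟨s, hs⟩⟩ + 0) s))
      ((X.C z).Z 0 s ((X.C z).h 0 s))
    rw [Nat.add_zero]
    have key := fun (m : ℕ) (hm : m ≤ X.of Q ⟨z, cp z ⟨s, hs⟩⟩) => (X.run z).up_cn (F' := F) (m0 := 0) (m := m)
      (Nat.zero_le _) (by omega) s {x | ¬ (X.split Q).Act (VB V cp) x} (fun m' i _ h2 h3 =>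
        X.not_act Q V cp hs (by omega) h3 (Or.inl (by omega))) (fun _ _ _ _ _ => rfl) _ le_rfl
    exact ((key _ le_rfl).symm' hsy).trans' (key 0 (Nat.zero_le _))
  · show H22.Cn F.Ed _ ((X.C z).Z (X.of Q ⟨z, cp z ⟨s, hs⟩⟩ + nb z * (X.l z + 1)) s 0) ((X.C z).Z (N z * (X.l z + 1)) s 0)
    exact (X.run z).up_cn (F' := F) hof le_rfl s {x | ¬ (X.split Q).Act (VB V cp) x} (fun m' i h1 h2 h3 =>
      X.not_act Q V cp hs h2 h3 (Or.inr h1)) (fun _ _ _ _ _ => rfl) 0 (Nat.zero_le _)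

/-- Three arcs between runs. -/
def RAdj (r r' : Σ z, K z) : Prop :=
  ∃ (p : Fin 3 → V r.1 × Bool) (q : Fin 3 → V r'.1 × Bool), Injective p ∧ ∀ l,
    cp r.1 (p l).1 = r.2 ∧ cp r'.1 (q l).1 = r'.2 ∧
    (⟨r.1, p l⟩ : Σ z, V z × Bool) ≠ ⟨r'.1, q l⟩ ∧
    H22.Cn F.Ed {x | ¬ X.ActR V x} (X.ev r.1 ((p l).1.1, (p l).2)) (X.ev r'.1 ((q l).1.1, (q l).2))

theorem adjR_of {r r' : Σ z, K z} (h : X.RAdj V cp r r') : (X.split Q).AdjR (VB V cp) r r' := by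
  obtain ⟨p, q, hp, hpq⟩ := h
  refine ⟨fun l => (⟨(p l).1.1, (p l).1.2, (hpq l).1⟩, (p l).2), fun l => (⟨(q l).1.1, (q l).1.2, (hpq l).2.1⟩, (q l).2),
    fun l l' e => ?_, fun l => ⟨fun e => (hpq l).2.2.1 ?_, ?_⟩⟩
  · apply hp
    have e0 := Subtype.ext_iff.1 (Prod.ext_iff.1 e).1
    have e1 : (p l).1.1 = (p l').1.1 := e0
    have e2 : (p l).2 = (p l').2 := (Prod.ext_iff.1 e).2
    exact Prod.ext (Subtype.ext e1) e2
  · obtain ⟨z, κ⟩ := r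
    obtain ⟨z', κ'⟩ := r'
    obtain rfl : z = z' := congrArg (fun x => x.1.1) e
    have e0 : κ = κ' := eq_of_heq (Sigma.mk.inj (congrArg (fun x => x.1) e)).2
    subst e0
    have e1 := eq_of_heq (Sigma.mk.inj e).2
    have e0 := Subtype.ext_iff.1 (Prod.ext_iff.1 e1).1
    have e2 : (p l).1.1 = (q l).1.1 := e0
    have e3 : (p l).2 = (q l).2 := (Prod.ext_iff.1 e1).2
    have e4 : p l = q l := Prod.ext (Subtype.ext e2) e3
    rw [e4]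
  · have hsy : ∀ x y, F.Ed x y → F.Ed y x := fun x y h => F.ed_symm h
    have h1 := X.pass Q V cp (p l).1.2 (p l).2
    have h2 := X.pass Q V cp (q l).1.2 (q l).2
    have e1 : cp r.1 ⟨(p l).1.1, (p l).1.2⟩ = r.2 := (hpq l).1
    have e2 : cp r'.1 ⟨(q l).1.1, (q l).1.2⟩ = r'.2 := (hpq l).2.1
    rw [e1] at h1
    rw [e2] at h2
    refine h1.trans' (((hpq l).2.2.2.mono ?_ fun _ _ _ _ h => h).trans' (h2.symm' hsy))
    intro x hx hc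
    exact hx (X.act_split_R Q V cp hc)

variable [Fintype G] [DecidableEq G] {A : Set G} [Fintype Zr] [∀ z, Fintype (K z)] [∀ z, Fintype (S z)]

include Q in
/-- CORE: runs with bands. -/
theorem core {𝒟 : ∀ z, Set (S z × Bool → S z × Bool)} (hcl : Subgroup.closure A = ⊤) (hA : ∀ d : F.X, B.q d.1.2 ∈ A)
    (hD : ∀ z, ∀ d ∈ 𝒟 z, IsPair d) (hreal : X.RealL A 𝒟)
    (hflush : ∀ x : G, ∃ (z : Zr) (m : ℕ) (s : S z) (i : ℕ), s ∈ V z ∧ m ≤ N z * (X.l z + 1) ∧ i ≤ (X.C z).h m s ∧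
      F.C x ((X.C z).Z m s i))
    (KV : ∀ r : (Σ z, K z), Set (VB V cp r × Bool → VB V cp r × Bool))
    (hK : ∀ r, ∀ d ∈ KV r, IsPair d ∧ StkT (𝒟 r.1) (nb r.1) (extV (VB V cp r) d)) (hsep : ∀ r, SQ4.H49.Sep (KV r))
    (hne : ∀ r, (KV r).Nonempty) (h3 : ∀ r, ∃ p : Fin 3 → VB V cp r × Bool, Injective p) (r₀ : Σ z, K z)
    (hconn : ∀ r, Relation.ReflTransGen (X.RAdj V cp) r₀ r) : Lst A := by
  refine (X.split Q).lst (𝒟 := fun r => 𝒟 r.1) (VB V cp) hcl hA (fun r => hD r.1) (X.realL_split Q hreal) ?_ KV hK hsep hne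
    h3 r₀ fun r => ?_
  · intro x
    obtain ⟨z, m, s, i, hs, hm, hi, hc⟩ := hflush x
    have hof : X.of Q ⟨z, cp z ⟨s, hs⟩⟩ + nb z * (X.l z + 1) ≤ N z * (X.l z + 1) := X.of_le Q ⟨z, cp z ⟨s, hs⟩⟩
    have hnb := Q.pos z
    have hnb' : X.l z + 1 ≤ nb z * (X.l z + 1) := Nat.le_mul_of_pos_left _ hnb
    have hl := X.hl z
    refine ⟨(X.C z).Z (X.of Q ⟨z, cp z ⟨s, hs⟩⟩ + 1) s 0, ?_, ?_⟩
    · refine ⟨⟨⟨z, cp z ⟨s, hs⟩⟩, ⟨0, hnb⟩⟩, s, ⟨hs, rfl⟩, 1, 0, ?_, ?_, Nat.zero_le _, rfl⟩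
      · show 0 * (X.l z + 1) + 1 ≤ 1
        omega
      · show 1 ≤ 0 * (X.l z + 1) + X.l z
        omega
    · have hsy : ∀ x y, F.Ed x y → F.Ed y x := fun x y h => F.ed_symm h
      have k1 := (X.run z).up_cn (F' := F) (m0 := 0) (m := m) (Nat.zero_le _) hm s Set.univ (fun _ _ _ _ _ => Set.mem_univ _)
        (fun _ _ _ _ _ => rfl) i hi
      have k2 := (X.run z).up_cn (F' := F) (m0 := 0) (m := X.of Q ⟨z, cp z ⟨s, hs⟩⟩ + 1) (Nat.zero_le _) (by omega) s Set.univ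
        (fun _ _ _ _ _ => Set.mem_univ _) (fun _ _ _ _ _ => rfl) 0 (Nat.zero_le _)
      exact hc.trans (F.c_of_cn ((k1.symm' hsy).trans' k2))
  · induction hconn r with
    | refl => exact Relation.ReflTransGen.refl
    | tail _ hs ih => exact ih.tail (X.adjR_of Q V cp hs)

end act

end Rgs

end Pool.Agent.Lib.MP_688fd0_co.SQ5.H95
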